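import Mathlib

/-!
# Real nilpotent 2-blocks: common definitions

`O` is a valuation subring of `ℂ` with residue field `k` of characteristic `2`; `O[G]`, `k[G]`,
`ℂ[G]` are the group algebras of a finite group `G`.
-/

open scoped BigOperators MonoidAlgebra
open Classical

namespace Pool.Agent.Helper36.NB

/-- The residue field of `O`. -/
abbrev resK (O : ValuationSubring ℂ) : Type := IsLocalRing.ResidueField O

/-- `O[G] → ℂ[G]`. -/
noncomputable def toC (O : ValuationSubring ℂ) (G : Type) [Group G] :
    MonoidAlgebra O G →+* MonoidAlgebra ℂ G :=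
  MonoidAlgebra.mapRingHom G (algebraMap O ℂ)

/-- `O[G] → k[G]`. -/
noncomputable def toK (O : ValuationSubring ℂ) (G : Type) [Group G] :
    MonoidAlgebra O G →+* MonoidAlgebra (resK O) G :=
  MonoidAlgebra.mapRingHom G (IsLocalRing.residue O)

/-- The group element `g` as an element of `R[G]`. -/
noncomputable def el (R : Type) [CommRing R] {G : Type} [Group G] (g : G) : MonoidAlgebra R G :=
  MonoidAlgebra.single g 1

/-- The inversion `∑ a_g g ↦ ∑ a_g g⁻¹` of `R[G]`. -/
noncomputable def inv' {R : Type} [CommRing R] {G : Type} [Group G] (a : MonoidAlgebra R G) :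
    MonoidAlgebra R G :=
  MonoidAlgebra.mapDomain (fun g => g⁻¹) a

/-- `a` commutes with the elements of the subgroup `D`. -/
def Cen {R : Type} [CommRing R] {G : Type} [Group G] (D : Subgroup G)
    (a : MonoidAlgebra R G) : Prop :=
  ∀ u ∈ D, el R u * a = a * el R u

/-- The inclusion `R[H] → R[G]` for a subgroup `H`. -/
noncomputable def incl (R : Type) [CommRing R] {G : Type} [Group G] (H : Subgroup G) :
    MonoidAlgebra R H →+* MonoidAlgebra R G :=
  MonoidAlgebra.mapDomainRingHom R H.subtype

/-- The restriction of coefficients `R[G] → R[H]` to a subgroup `H`. -/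
noncomputable def res {R : Type} [CommRing R] {G : Type} [Group G] (H : Subgroup G)
    (a : MonoidAlgebra R G) : MonoidAlgebra R H :=
  MonoidAlgebra.comapDomain (Subtype.val : H → G) Subtype.val_injective a

/-- The centraliser of an element. -/
abbrev cent {G : Type} [Group G] (u : G) : Subgroup G := Subgroup.centralizer {u}

/-- `b` is a block idempotent of `R[G]`: a primitive idempotent of the centre. -/
def IsBlock {R : Type} [CommRing R] {G : Type} [Group G] (b : MonoidAlgebra R G) : Prop :=
  b ≠ 0 ∧ b * b = b ∧ (∀ a, a * b = b * a) ∧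
    ∀ f : MonoidAlgebra R G, f * f = f → (∀ a, a * f = f * a) → f * b = 0 ∨ f * b = b

/-- The algebra `k[H]b` has at most one irreducible representation, up to equivalence
(an irreducible representation belongs to `b` when `b` acts as the identity). -/
def OneSimple {k : Type} [Field k] {H : Type} [Group H] (b : MonoidAlgebra k H) : Prop :=
  ∀ (m n : ℕ) (ρ : Representation k H (Fin m → k)) (σ : Representation k H (Fin n → k)),
    ρ.IsIrreducible → σ.IsIrreducible → ρ.asAlgebraHom b = 1 → σ.asAlgebraHom b = 1 →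
      Nonempty (ρ.Equiv σ)

/-- A surjection of `k[H]` onto a matrix algebra which is the semisimple quotient of the
block `b`. -/
structure SimpleQuot {k : Type} [Field k] {H : Type} [Group H] (b : MonoidAlgebra k H) where
  n : ℕ
  ρ : MonoidAlgebra k H →ₐ[k] Matrix (Fin n) (Fin n) k
  pos : 0 < n
  surj : Function.Surjective ρ
  one : ρ b = 1
  nil : ∀ a, ρ a = 0 → IsNilpotent (a * b)

/-- A central `O`-linear function on `O[G]` with values in `ℂ`. -/
structure TraceFun (O : ValuationSubring ℂ) (G : Type) [Group G] where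
  f : MonoidAlgebra O G →ₗ[O] ℂ
  comm : ∀ a b, f (a * b) = f (b * a)

/-- The complex irreducible representations of `G`, in the form of a Wedderburn
decomposition of `ℂ[G]`. -/
structure IrrData (G : Type) [Group G] where
  r : ℕ
  d : Fin r → ℕ
  pos : ∀ a, 0 < d a
  equiv : MonoidAlgebra ℂ G ≃ₐ[ℂ] (∀ a, Matrix (Fin (d a)) (Fin (d a)) ℂ)

/-- The `a`-th irreducible character, extended to `ℂ[G]`. -/
noncomputable def IrrData.chi {G : Type} [Group G] (I : IrrData G) (a : Fin I.r)
    (x : MonoidAlgebra ℂ G) : ℂ :=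
  Matrix.trace (I.equiv x a)

/-- The `a`-th irreducible character as a function on `G`. -/
noncomputable def IrrData.ch {G : Type} [Group G] (I : IrrData G) (a : Fin I.r) (g : G) : ℂ :=
  I.chi a (el ℂ g)

theorem toC_apply (O : ValuationSubring ℂ) {G : Type} [Group G] (x : MonoidAlgebra O G) (g : G) :
    (toC O G x).coeff g = (x.coeff g : ℂ) := by
  simp [toC]

theorem toK_apply (O : ValuationSubring ℂ) {G : Type} [Group G] (x : MonoidAlgebra O G) (g : G) :
    (toK O G x).coeff g = IsLocalRing.residue O (x.coeff g) := by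
  simp [toK]

theorem toC_el (O : ValuationSubring ℂ) {G : Type} [Group G] (g : G) :
    toC O G (el O g) = el ℂ g := by
  simp [toC, el]

theorem toK_el (O : ValuationSubring ℂ) {G : Type} [Group G] (g : G) :
    toK O G (el O g) = el (resK O) g := by
  simp [toK, el]

theorem toC_smul (O : ValuationSubring ℂ) {G : Type} [Group G] (c : O)
    (x : MonoidAlgebra O G) : toC O G (c • x) = (c : ℂ) • toC O G x := by
  ext g
  simp [toC]

theorem toC_injective (O : ValuationSubring ℂ) {G : Type} [Group G] :
    Function.Injective (toC O G) := by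
  intro x y h
  ext g
  have := congrArg (fun z => z.coeff g) h
  simp only [toC_apply] at this
  exact this

theorem el_mul (R : Type) [CommRing R] {G : Type} [Group G] (g h : G) :
    el R (g * h) = el R g * el R h := by
  simp [el, MonoidAlgebra.single_mul_single]

theorem el_one (R : Type) [CommRing R] {G : Type} [Group G] : el R (1 : G) = 1 := rfl

theorem incl_el (R : Type) [CommRing R] {G : Type} [Group G] (H : Subgroup G) (h : H) :
    incl R H (el R h) = el R (h : G) := by
  simp [incl, el]

/-- The `a`-th irreducible character as a central function on `O[G]`. -/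
noncomputable def TraceFun.ofChi (O : ValuationSubring ℂ) {G : Type} [Group G] (I : IrrData G)
    (a : Fin I.r) : TraceFun O G where
  f :=
    { toFun := fun x => I.chi a (toC O G x)
      map_add' := fun x y => by simp [IrrData.chi]
      map_smul' := fun c x => by
        rw [toC_smul, IrrData.chi, map_smul, Pi.smul_apply, Matrix.trace_smul]
        rfl }
  comm := fun x y => by
    change I.chi a (toC O G (x * y)) = I.chi a (toC O G (y * x))
    simp only [IrrData.chi, map_mul, Pi.mul_apply]
    exact Matrix.trace_mul_comm _ _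

theorem TraceFun.ofChi_apply (O : ValuationSubring ℂ) {G : Type} [Group G] (I : IrrData G)
    (a : Fin I.r) (x : MonoidAlgebra O G) :
    (TraceFun.ofChi O I a).f x = I.chi a (toC O G x) := rfl

/-- `η` is the character of a representation of `N` with a nondegenerate form `β` such that
`β(u v, w) = β(v, τ(u⁻¹) w)` and `β(w, v) = s β(v, z⁻¹ w)`. -/
def Twi {N : Type} [Group N] (τ : N →* N) (z : N) (s : ℂ) (η : N → ℂ) : Prop :=
  ∃ (n : ℕ) (ρ : Representation ℂ N (Fin n → ℂ)) (β : (Fin n → ℂ) →ₗ[ℂ] (Fin n → ℂ) →ₗ[ℂ] ℂ),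
    (∀ u, ρ.character u = η u) ∧
    (∀ v, (∀ w, β v w = 0) → v = 0) ∧
    (∀ u v w, β (ρ u v) w = β v (ρ (τ u⁻¹) w)) ∧
    (∀ v w, β w v = s * β v (ρ z⁻¹ w))

/-- `η` is the character of a complex representation of `N`. -/
def IsChar {N : Type} [Group N] (η : N → ℂ) : Prop :=
  ∃ (n : ℕ) (ρ : Representation ℂ N (Fin n → ℂ)), ∀ u, ρ.character u = η u

/-- The complex number `z` is integral at the prime number `l`. -/
def IntAt (l : ℕ) (z : ℂ) : Prop := ∃ n : ℕ, ¬ l ∣ n ∧ IsIntegral ℤ ((n : ℂ) * z)

/-- The numerical data on the defect group `N` attached to a real block: `κ a` is the character of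
`N` on `i V_a`, `d a` the decomposition number, `bar` complex conjugation, `fs` the
Frobenius-Schur indicator, `m u` the multiplicity and `c u` the Cartan number at `u`. -/
structure CountData (N : Type) [Group N] [Fintype N] (ι : Type) [Fintype ι] (τ : N →* N)
    (z : N) where
  κ : ι → N → ℂ
  d : ι → ℕ
  bar : ι → ι
  fs : ι → ℤ
  m : N → ℕ
  c : N → ℕ
  isChar : ∀ a, IsChar (κ a)
  orth : ∀ u v, ¬ IsConj u v → ∑ a, κ a u * κ a v⁻¹ = 0
  norm : ∀ u, ∑ a, κ a u * κ a u⁻¹ = (m u : ℂ) ^ 2 * c u
  cpow : ∀ u, ∃ n : ℕ, c u = 2 ^ n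
  integral : ∀ a u, ∃ w : ℂ, IsIntegral ℤ w ∧ κ a u = m u * w
  kone : ∀ a, κ a 1 = m 1 * d a
  modd : Odd (m 1)
  sumsq : ∑ a, (d a) ^ 2 = Nat.card N
  bar_bar : ∀ a, bar (bar a) = a
  bar_d : ∀ a, d (bar a) = d a
  bar_κ : ∀ a u, κ (bar a) u = κ a (τ u⁻¹)
  fs_real : ∀ a, bar a = a → (fs a = 1 ∨ fs a = -1) ∧ Twi τ z (fs a) (κ a)
  fs_nonreal : ∀ a, bar a ≠ a → fs a = 0

/-- The class sum of `x`. -/
noncomputable def classSum (R : Type) [CommRing R] {G : Type} [Group G] [Fintype G] (x : G) :
    MonoidAlgebra R G :=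
  ∑ g ∈ Finset.univ.filter (fun g : G => IsConj x g), el R g

/-- The extended centraliser `{g | g x g⁻¹ = x or g x g⁻¹ = x⁻¹}`. -/
def extCent {G : Type} [Group G] (x : G) : Subgroup G where
  carrier := {g | g * x * g⁻¹ = x ∨ g * x * g⁻¹ = x⁻¹}
  one_mem' := by simp
  mul_mem' := by
    rintro a b (ha | ha) (hb | hb)
    · left
      calc a * b * x * (a * b)⁻¹ = a * (b * x * b⁻¹) * a⁻¹ := by group
        _ = x := by rw [hb, ha]
    · right
      calc a * b * x * (a * b)⁻¹ = a * (b * x * b⁻¹) * a⁻¹ := by group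
        _ = (a * x * a⁻¹)⁻¹ := by rw [hb]; group
        _ = x⁻¹ := by rw [ha]
    · right
      calc a * b * x * (a * b)⁻¹ = a * (b * x * b⁻¹) * a⁻¹ := by group
        _ = x⁻¹ := by rw [hb, ha]
    · left
      calc a * b * x * (a * b)⁻¹ = a * (b * x * b⁻¹) * a⁻¹ := by group
        _ = (a * x * a⁻¹)⁻¹ := by rw [hb]; group
        _ = x := by rw [ha, inv_inv]
  inv_mem' := by
    rintro a (ha | ha)
    · left
      calc a⁻¹ * x * a⁻¹⁻¹ = a⁻¹ * (a * x * a⁻¹) * a := by rw [ha, inv_inv]
        _ = x := by group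
    · right
      calc a⁻¹ * x * a⁻¹⁻¹ = a⁻¹ * (x⁻¹)⁻¹ * a := by group
        _ = a⁻¹ * (a * x * a⁻¹)⁻¹ * a := by rw [ha]
        _ = x⁻¹ := by group

end Pool.Agent.Helper36.NB
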