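import Mathlib
import Pool.Agent.Helper36.NB.Defs

open scoped BigOperators MonoidAlgebra
open Classical

namespace Pool.Agent.Helper36.NB

section
variable {R : Type} [CommRing R] {G : Type} [Group G]

theorem inv'_coeff (a : MonoidAlgebra R G) (g : G) : (inv' a).coeff g = a.coeff g⁻¹ := by
  have h := MonoidAlgebra.coeff_mapDomain (f := fun g : G => g⁻¹) (x := a)
  have h2 : Function.Injective (fun g : G => g⁻¹) := inv_injective
  unfold inv'
  have := Finsupp.mapDomain_apply h2 a.coeff g⁻¹
  simp only [inv_inv] at this
  rw [← this]
  rfl

theorem inv'_el (g : G) : inv' (el R g) = el R g⁻¹ := by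
  simp [inv', el]

theorem inv'_add (a b : MonoidAlgebra R G) : inv' (a + b) = inv' a + inv' b := by
  ext g; simp [inv'_coeff]

theorem inv'_smul (c : R) (a : MonoidAlgebra R G) : inv' (c • a) = c • inv' a := by
  ext g; simp [inv'_coeff]

theorem inv'_inv' (a : MonoidAlgebra R G) : inv' (inv' a) = a := by
  ext g; simp [inv'_coeff]

theorem inv'_mul (a b : MonoidAlgebra R G) : inv' (a * b) = inv' b * inv' a := by
  induction a using MonoidAlgebra.induction_linear with
  | zero => simp [inv']
  | add x y hx hy => rw [add_mul, inv'_add, hx, hy, inv'_add, mul_add]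
  | single g r =>
    induction b using MonoidAlgebra.induction_linear with
    | zero => simp [inv']
    | add x y hx hy => rw [mul_add, inv'_add, hx, hy, inv'_add, add_mul]
    | single h s =>
      simp [inv', MonoidAlgebra.single_mul_single, mul_comm]

theorem inv'_sub (a b : MonoidAlgebra R G) : inv' (a - b) = inv' a - inv' b := by
  ext g; simp [inv'_coeff]

theorem inv'_zero : inv' (0 : MonoidAlgebra R G) = 0 := by
  ext g; simp [inv'_coeff]

theorem inv'_one : inv' (1 : MonoidAlgebra R G) = 1 := by
  have := inv'_el (R := R) (1 : G)
  rwa [inv_one, el_one] at this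

theorem el_coeff (g h : G) : (el R g).coeff h = if g = h then 1 else 0 := by
  simp [el, MonoidAlgebra.coeff_single, Finsupp.single_apply]

theorem el_mul_coeff (g : G) (a : MonoidAlgebra R G) (h : G) :
    (el R g * a).coeff h = a.coeff (g⁻¹ * h) := by
  simp [el]

theorem mul_el_coeff (g : G) (a : MonoidAlgebra R G) (h : G) :
    (a * el R g).coeff h = a.coeff (h * g⁻¹) := by
  simp [el]

theorem el_mul_el_inv (g : G) : el R g * el R g⁻¹ = 1 := by
  rw [← el_mul, mul_inv_cancel, el_one]

theorem el_inv_mul_el (g : G) : el R g⁻¹ * el R g = 1 := by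
  rw [← el_mul, inv_mul_cancel, el_one]

theorem conj_eq_mapDomain (g : G) (a : MonoidAlgebra R G) :
    el R g * a * el R g⁻¹ = MonoidAlgebra.mapDomain (fun h => g * h * g⁻¹) a := by
  induction a using MonoidAlgebra.induction_linear with
  | zero => simp
  | add x y hx hy => rw [mul_add, add_mul, hx, hy, MonoidAlgebra.mapDomain_add]
  | single h r => simp [el, MonoidAlgebra.single_mul_single]

theorem cen_iff_conj (D : Subgroup G) (a : MonoidAlgebra R G) :
    Cen D a ↔ ∀ u ∈ D, el R u * a * el R u⁻¹ = a := by
  constructor
  · intro h u hu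
    rw [h u hu, mul_assoc, el_mul_el_inv, mul_one]
  · intro h u hu
    calc el R u * a = el R u * a * (el R u⁻¹ * el R u) := by rw [el_inv_mul_el, mul_one]
      _ = (el R u * a * el R u⁻¹) * el R u := by noncomm_ring
      _ = a * el R u := by rw [h u hu]

theorem psi_eq_mapDomain (t : G) (a : MonoidAlgebra R G) :
    el R t * inv' a * el R t⁻¹ = MonoidAlgebra.mapDomain (fun h => t * h⁻¹ * t⁻¹) a := by
  rw [conj_eq_mapDomain, inv']
  induction a using MonoidAlgebra.induction_linear with
  | zero => simp
  | add x y hx hy => simp only [MonoidAlgebra.mapDomain_add, hx, hy]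
  | single h r => simp

theorem comm_iff_conj (u : G) (a : MonoidAlgebra R G) :
    el R u * a = a * el R u ↔ el R u * a * el R u⁻¹ = a := by
  constructor
  · intro h
    rw [h, mul_assoc, el_mul_el_inv, mul_one]
  · intro h
    calc el R u * a = el R u * a * (el R u⁻¹ * el R u) := by rw [el_inv_mul_el, mul_one]
      _ = (el R u * a * el R u⁻¹) * el R u := by noncomm_ring
      _ = a * el R u := by rw [h]

theorem res_coeff (H : Subgroup G) (a : MonoidAlgebra R G) (h : H) :
    (res H a).coeff h = a.coeff (h : G) := by
  simp [res]

theorem res_add (H : Subgroup G) (a b : MonoidAlgebra R G) :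
    res H (a + b) = res H a + res H b := by
  ext h; simp [res_coeff]

theorem res_sub (H : Subgroup G) (a b : MonoidAlgebra R G) :
    res H (a - b) = res H a - res H b := by
  ext h; simp [res_coeff]

theorem res_incl (H : Subgroup G) (a : MonoidAlgebra R H) : res H (incl R H a) = a := by
  induction a using MonoidAlgebra.induction_linear with
  | zero => ext; simp [res_coeff, incl]
  | add x y hx hy => rw [map_add, res_add, hx, hy]
  | single h r =>
    ext g
    simp only [res_coeff, incl, MonoidAlgebra.mapDomainRingHom_apply,
      MonoidAlgebra.mapDomain_single, MonoidAlgebra.coeff_single, Finsupp.single_apply]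
    congr 1
    simp

theorem incl_injective (H : Subgroup G) : Function.Injective (incl R H) := by
  intro a b h
  rw [← res_incl H a, h, res_incl]

end

theorem toK_inv' (O : ValuationSubring ℂ) {G : Type} [Group G] (a : MonoidAlgebra O G) :
    toK O G (inv' a) = inv' (toK O G a) := by
  ext g; simp [toK_apply, inv'_coeff]

theorem toC_inv' (O : ValuationSubring ℂ) {G : Type} [Group G] (a : MonoidAlgebra O G) :
    toC O G (inv' a) = inv' (toC O G a) := by
  ext g; simp [toC_apply, inv'_coeff]

theorem toK_incl (O : ValuationSubring ℂ) {G : Type} [Group G] (H : Subgroup G)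
    (a : MonoidAlgebra O H) : toK O G (incl O H a) = incl (resK O) H (toK O H a) := by
  induction a using MonoidAlgebra.induction_linear with
  | zero => simp
  | add x y hx hy => simp only [map_add, hx, hy]
  | single h r => simp [toK, incl]

theorem toC_incl (O : ValuationSubring ℂ) {G : Type} [Group G] (H : Subgroup G)
    (a : MonoidAlgebra O H) : toC O G (incl O H a) = incl ℂ H (toC O H a) := by
  induction a using MonoidAlgebra.induction_linear with
  | zero => simp
  | add x y hx hy => simp only [map_add, hx, hy]
  | single h r => simp [toC, incl]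

theorem toK_mapDomain (O : ValuationSubring ℂ) {G H : Type} [Group G] [Group H] (σ : G → H)
    (a : MonoidAlgebra O G) :
    toK O H (MonoidAlgebra.mapDomain σ a) = MonoidAlgebra.mapDomain σ (toK O G a) := by
  induction a using MonoidAlgebra.induction_linear with
  | zero => simp
  | add x y hx hy => simp only [map_add, MonoidAlgebra.mapDomain_add, hx, hy]
  | single h r => simp [toK]

end Pool.Agent.Helper36.NB
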