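import Mathlib
import Pool.Agent.Helper36.NB.Defs

open scoped BigOperators MonoidAlgebra
open Classical

namespace Pool.Agent.Helper36.NB

theorem exists_irrData (G : Type) [Group G] [Finite G] : Nonempty (IrrData G) := by
  haveI : NeZero (Nat.card G : ℂ) := ⟨by
    exact_mod_cast Nat.card_pos.ne'⟩
  haveI : IsSemisimpleRing (MonoidAlgebra ℂ G) := inferInstance
  haveI : FiniteDimensional ℂ (MonoidAlgebra ℂ G) :=
    Module.Finite.of_basis (MonoidAlgebra.basis G ℂ)
  obtain ⟨n, d, hd, ⟨e⟩⟩ :=
    IsSemisimpleRing.exists_algEquiv_pi_matrix_of_isAlgClosed ℂ (MonoidAlgebra ℂ G)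
  exact ⟨⟨n, d, fun a => Nat.pos_of_ne_zero (hd a).out, e⟩⟩

variable {G : Type} [Group G] [Fintype G] (I : IrrData G)

theorem chi_add (a : Fin I.r) (x y : MonoidAlgebra ℂ G) :
    I.chi a (x + y) = I.chi a x + I.chi a y := by
  simp [IrrData.chi]

theorem chi_smul (a : Fin I.r) (c : ℂ) (x : MonoidAlgebra ℂ G) :
    I.chi a (c • x) = c * I.chi a x := by
  simp [IrrData.chi]

theorem chi_sum {κ : Type} (s : Finset κ) (a : Fin I.r) (x : κ → MonoidAlgebra ℂ G) :
    I.chi a (∑ i ∈ s, x i) = ∑ i ∈ s, I.chi a (x i) := by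
  simp [IrrData.chi, map_sum, Finset.sum_apply, Matrix.trace_sum]

theorem chi_mul_comm (a : Fin I.r) (x y : MonoidAlgebra ℂ G) :
    I.chi a (x * y) = I.chi a (y * x) := by
  simp only [IrrData.chi, map_mul, Pi.mul_apply]
  exact Matrix.trace_mul_comm _ _

theorem chi_one (a : Fin I.r) : I.chi a 1 = I.d a := by
  simp [IrrData.chi]

namespace E0aux

theorem expand (x : MonoidAlgebra ℂ G) : x = ∑ g : G, x.coeff g • el ℂ g := by
  ext g
  simp [el, MonoidAlgebra.coeff_sum, Finsupp.single_apply]

end E0aux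

theorem chi_eq_sum (a : Fin I.r) (x : MonoidAlgebra ℂ G) :
    I.chi a x = ∑ g : G, x.coeff g * I.ch a g := by
  conv_lhs => rw [E0aux.expand x]
  rw [chi_sum]
  refine Finset.sum_congr rfl fun g _ => ?_
  rw [chi_smul]
  rfl

/-- The value of an irreducible character at an idempotent is a natural number. -/
theorem chi_idem (a : Fin I.r) (x : MonoidAlgebra ℂ G) (hx : x * x = x) :
    ∃ m : ℕ, I.chi a x = m := by
  set A := I.equiv x a with hA
  have hAA : A * A = A := by
    rw [hA, ← Pi.mul_apply, ← map_mul, hx]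
  have hid : IsIdempotentElem (Matrix.toLin' A) := by
    unfold IsIdempotentElem
    rw [Module.End.mul_eq_comp, ← Matrix.toLin'_mul, hAA]
  have hp := LinearMap.IsIdempotentElem.isProj_range _ hid
  have ht := hp.trace
  refine ⟨Module.finrank ℂ (LinearMap.range (Matrix.toLin' A)), ?_⟩
  rw [← ht, Matrix.trace_toLin'_eq]
  rfl

/-- A central idempotent is `0` or `1` in every component. -/
theorem chi_central (a : Fin I.r) (x : MonoidAlgebra ℂ G) (hx : x * x = x)
    (hc : ∀ y, y * x = x * y) : I.equiv x a = 0 ∨ I.equiv x a = 1 := by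
  have hcom : ∀ i j, Commute (Matrix.single i j (1 : ℂ)) (I.equiv x a) := by
    intro i j
    have h := hc (I.equiv.symm (Pi.single a (Matrix.single i j (1 : ℂ))))
    have h2 := congrArg (fun z => I.equiv z a) h
    simp only [map_mul, Pi.mul_apply, AlgEquiv.apply_symm_apply, Pi.single_eq_same] at h2
    exact h2
  obtain ⟨c, hc'⟩ := Matrix.mem_range_scalar_iff_commute_single'.mpr hcom
  have hxx : I.equiv x a * I.equiv x a = I.equiv x a := by
    rw [← Pi.mul_apply, ← map_mul, hx]
  rw [← hc'] at hxx ⊢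
  haveI : NeZero (I.d a) := ⟨(I.pos a).ne'⟩
  have h00 := congrFun (congrFun hxx 0) 0
  rw [Matrix.scalar_apply, Matrix.diagonal_mul_diagonal, Matrix.diagonal_apply_eq,
    Matrix.diagonal_apply_eq] at h00
  have : c * (c - 1) = 0 := by linear_combination h00
  rcases mul_eq_zero.mp this with h | h
  · left; rw [h]; simp
  · right
    rw [sub_eq_zero.mp h]; simp

namespace E0aux

theorem trace_pi {r : ℕ} (d : Fin r → ℕ) (X Y : ∀ a, Matrix (Fin (d a)) (Fin (d a)) ℂ) :
    LinearMap.trace ℂ (∀ a, Matrix (Fin (d a)) (Fin (d a)) ℂ)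
      (LinearMap.mulLeft ℂ X ∘ₗ LinearMap.mulRight ℂ Y) =
    ∑ a, Matrix.trace (X a) * Matrix.trace (Y a) := by
  rw [LinearMap.trace_eq_matrix_trace ℂ
    (Pi.basis (fun a => Matrix.stdBasis ℂ (Fin (d a)) (Fin (d a)))), Matrix.trace,
    Fintype.sum_sigma]
  refine Finset.sum_congr rfl fun a _ => ?_
  rw [Fintype.sum_prod_type, Matrix.trace, Matrix.trace, Finset.sum_mul_sum]
  refine Finset.sum_congr rfl fun i _ => Finset.sum_congr rfl fun j _ => ?_
  rw [Matrix.diag_apply, LinearMap.toMatrix_apply]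
  simp only [LinearMap.comp_apply, LinearMap.mulLeft_apply, LinearMap.mulRight_apply,
    Pi.basis_apply, Pi.basis_repr, Matrix.stdBasis_eq_single]
  rw [Pi.mul_apply, Pi.mul_apply, Pi.single_eq_same]
  have h2 : ∀ M : Matrix (Fin (d a)) (Fin (d a)) ℂ,
      ((Matrix.stdBasis ℂ (Fin (d a)) (Fin (d a))).repr M) (i, j) = M i j := by
    intro M
    simp [Matrix.stdBasis]
  rw [h2]
  simp [Matrix.mul_apply, Matrix.single_apply, ite_and]

theorem trace_grp (x y : MonoidAlgebra ℂ G) :
    LinearMap.trace ℂ (MonoidAlgebra ℂ G)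
      (LinearMap.mulLeft ℂ x ∘ₗ LinearMap.mulRight ℂ y) =
    ∑ g : G, (x * el ℂ g * y).coeff g := by
  rw [LinearMap.trace_eq_matrix_trace ℂ (MonoidAlgebra.basis G ℂ), Matrix.trace]
  refine Finset.sum_congr rfl fun g _ => ?_
  rw [Matrix.diag_apply, LinearMap.toMatrix_apply]
  simp only [LinearMap.comp_apply, LinearMap.mulLeft_apply, LinearMap.mulRight_apply,
    MonoidAlgebra.basis_apply]
  rw [mul_assoc]
  rfl

end E0aux

theorem sum_chi_mul (x y : MonoidAlgebra ℂ G) :
    ∑ a, I.chi a x * I.chi a y = ∑ g : G, (x * el ℂ g * y).coeff g := by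
  rw [← E0aux.trace_grp, ← LinearMap.trace_conj' _ I.equiv.toLinearEquiv]
  have h := E0aux.trace_pi I.d (I.equiv x) (I.equiv y)
  simp only [IrrData.chi]
  rw [← h]
  congr 1
  refine LinearMap.ext fun z => ?_
  simp [LinearEquiv.conj_apply]

theorem ch_isChar (a : Fin I.r) : IsChar (I.ch a) := by
  refine ⟨I.d a, ?_, ?_⟩
  · exact
      { toFun := fun g => Matrix.toLin' (I.equiv (el ℂ g) a)
        map_one' := by
          rw [el_one, map_one, Pi.one_apply, Matrix.toLin'_one]
          rfl
        map_mul' := fun g h => by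
          rw [el_mul, map_mul, Pi.mul_apply, Matrix.toLin'_mul]
          rfl }
  · intro g
    show LinearMap.trace ℂ _ (Matrix.toLin' (I.equiv (el ℂ g) a)) = _
    rw [Matrix.trace_toLin'_eq]
    rfl

namespace E0aux

theorem coeff_mul_el (x : MonoidAlgebra ℂ G) (g h : G) :
    (x * el ℂ h).coeff g = x.coeff (g * h⁻¹) := by
  have := MonoidAlgebra.coeff_mul_single_eq_coeff_mul (x := x) (r := (1 : ℂ)) (m := h)
    (m₁ := g) (g * h⁻¹) (fun m' _ => by
      constructor
      · rintro rfl; group
      · rintro rfl; group)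
  rw [el, this, mul_one]

theorem card_ne : (Nat.card G : ℂ) ≠ 0 := by
  exact_mod_cast Nat.card_pos.ne'

theorem regular (x : MonoidAlgebra ℂ G) :
    ∑ a, (I.d a : ℂ) * I.chi a x = Nat.card G * x.coeff 1 := by
  have h := sum_chi_mul I x 1
  simp only [mul_one, chi_one, coeff_mul_el, mul_inv_cancel] at h
  rw [Finset.sum_const, Finset.card_univ, nsmul_eq_mul, ← Nat.card_eq_fintype_card] at h
  rw [← h]
  exact Finset.sum_congr rfl fun a _ => mul_comm _ _

theorem coeff_formula (x : MonoidAlgebra ℂ G) (g : G) :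
    ∑ a, (I.d a : ℂ) * I.chi a (x * el ℂ g⁻¹) = Nat.card G * x.coeff g := by
  rw [regular, coeff_mul_el, one_mul, inv_inv]

/-- The central idempotent of a component. -/
noncomputable def e (a : Fin I.r) : MonoidAlgebra ℂ G := I.equiv.symm (Pi.single a 1)

theorem equiv_e (a : Fin I.r) : I.equiv (e I a) = Pi.single a 1 := by
  simp [e]

theorem chi_e_mul (a b : Fin I.r) (x : MonoidAlgebra ℂ G) :
    I.chi a (e I b * x) = if a = b then I.chi a x else 0 := by
  unfold IrrData.chi
  rw [map_mul, equiv_e, Pi.mul_apply]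
  by_cases h : a = b
  · subst h
    simp
  · simp [h]

theorem chi_e (a b : Fin I.r) : I.chi a (e I b) = if a = b then (I.d a : ℂ) else 0 := by
  have := chi_e_mul I a b 1
  rw [mul_one, chi_one] at this
  exact this

theorem e_coeff (b : Fin I.r) (g : G) :
    (Nat.card G : ℂ) * (e I b).coeff g = I.d b * I.ch b g⁻¹ := by
  rw [← coeff_formula I]
  simp only [chi_e_mul]
  simp [IrrData.ch]

theorem chi_mul_central (a : Fin I.r) (x y : MonoidAlgebra ℂ G)
    (hc : ∀ y, y * x = x * y) : (I.d a : ℂ) * I.chi a (x * y) = I.chi a x * I.chi a y := by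
  have hcom : ∀ i j, Commute (Matrix.single i j (1 : ℂ)) (I.equiv x a) := by
    intro i j
    have h := hc (I.equiv.symm (Pi.single a (Matrix.single i j (1 : ℂ))))
    have h2 := congrArg (fun z => I.equiv z a) h
    simp only [map_mul, Pi.mul_apply, AlgEquiv.apply_symm_apply, Pi.single_eq_same] at h2
    exact h2
  obtain ⟨c, hc'⟩ := Matrix.mem_range_scalar_iff_commute_single'.mpr hcom
  unfold IrrData.chi
  rw [map_mul, Pi.mul_apply, ← hc', Matrix.scalar_apply, Matrix.trace_diagonal,
    ← Matrix.smul_eq_diagonal_mul, Matrix.trace_smul]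
  simp only [Finset.sum_const, Finset.card_univ, Fintype.card_fin, nsmul_eq_mul, smul_eq_mul]
  ring

theorem central_of_el (x : MonoidAlgebra ℂ G) (h : ∀ g, el ℂ g * x = x * el ℂ g)
    (y : MonoidAlgebra ℂ G) : y * x = x * y := by
  rw [expand y, Finset.sum_mul, Finset.mul_sum]
  refine Finset.sum_congr rfl fun g _ => ?_
  rw [smul_mul_assoc, mul_smul_comm, h]

end E0aux

open E0aux in
/-- The first orthogonality relation. -/
theorem ch_orth (a b : Fin I.r) :
    (∑ g : G, I.ch a g * I.ch b g⁻¹) / (Nat.card G : ℂ) = if a = b then 1 else 0 := by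
  have h1 := chi_e I a b
  rw [chi_eq_sum] at h1
  have hd : (I.d b : ℂ) ≠ 0 := by exact_mod_cast (I.pos b).ne'
  have hG := card_ne (G := G)
  have h2 : (I.d b : ℂ) * ((∑ g : G, I.ch a g * I.ch b g⁻¹) / (Nat.card G : ℂ)) =
      ∑ g : G, (e I b).coeff g * I.ch a g := by
    rw [Finset.sum_div, Finset.mul_sum]
    refine Finset.sum_congr rfl fun g _ => ?_
    have h3 := e_coeff I b g
    rw [mul_div_assoc', div_eq_iff hG]
    linear_combination (-I.ch a g) * h3
  rw [h1] at h2
  by_cases h : a = b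
  · subst h
    simp only [if_true] at h2 ⊢
    exact mul_left_cancel₀ hd (by rw [h2, mul_one])
  · simp only [h, if_false] at h2 ⊢
    exact (mul_eq_zero.mp h2).resolve_left hd

open E0aux in
/-- Every class function is a linear combination of the irreducible characters. -/
theorem class_expand (F : G → ℂ) (hF : ∀ g h, F (g * h * g⁻¹) = F h) (g : G) :
    F g = ∑ a, ((∑ h : G, F h * I.ch a h⁻¹) / (Nat.card G : ℂ)) * I.ch a g := by
  set x : MonoidAlgebra ℂ G := ∑ h : G, F h • el ℂ h⁻¹ with hx
  have hcoeff : ∀ k, x.coeff k = F k⁻¹ := by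
    intro k
    rw [hx, MonoidAlgebra.coeff_sum, Finsupp.finset_sum_apply,
      Finset.sum_eq_single k⁻¹]
    · simp [el]
    · intro b _ hb
      have : b⁻¹ ≠ k := fun h => hb (by rw [← h, inv_inv])
      simp [el, this]
    · simp
  have hcen : ∀ y, y * x = x * y := by
    apply central_of_el
    intro k
    rw [hx, Finset.mul_sum, Finset.sum_mul]
    have : ∀ h : G, el ℂ k * F h • el ℂ h⁻¹ = F (k * h * k⁻¹) • el ℂ (k * h * k⁻¹)⁻¹ * el ℂ k := by
      intro h
      rw [hF, mul_smul_comm, smul_mul_assoc, ← el_mul, ← el_mul]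
      congr 2
      group
    rw [Finset.sum_congr rfl fun h _ => this h]
    exact Fintype.sum_bijective (fun h => k * h * k⁻¹) (MulAut.conj k).bijective _ _
      (fun h => rfl)
  have hchi : ∀ a, I.chi a x = ∑ h : G, F h * I.ch a h⁻¹ := by
    intro a
    rw [hx, chi_sum]
    refine Finset.sum_congr rfl fun h _ => ?_
    rw [chi_smul]
    rfl
  have h1 := coeff_formula I x g⁻¹
  rw [inv_inv, hcoeff, inv_inv] at h1
  have h2 : ∀ a, (I.d a : ℂ) * I.chi a (x * el ℂ g) = I.chi a x * I.ch a g :=
    fun a => chi_mul_central I a x _ hcen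
  simp only [h2] at h1
  have hG := card_ne (G := G)
  have h3 : F g = (∑ a, I.chi a x * I.ch a g) / Nat.card G := by
    rw [h1]; field_simp
  rw [h3, Finset.sum_div]
  refine Finset.sum_congr rfl fun a _ => ?_
  rw [hchi]
  ring

open scoped ComplexOrder Matrix in
theorem ch_conj (a : Fin I.r) (g : G) : I.ch a g⁻¹ = (starRingEnd ℂ) (I.ch a g) := by
  set A : G → Matrix (Fin (I.d a)) (Fin (I.d a)) ℂ := fun h => I.equiv (el ℂ h) a with hA
  have hmul : ∀ x y, A (x * y) = A x * A y := by
    intro x y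
    simp only [hA]
    rw [el_mul, map_mul, Pi.mul_apply]
  have hone : A 1 = 1 := by
    simp only [hA]
    rw [el_one, map_one, Pi.one_apply]
  set H : Matrix (Fin (I.d a)) (Fin (I.d a)) ℂ := ∑ h : G, (A h)ᴴ * A h with hH
  have hpos : H.PosDef := by
    rw [hH, ← Finset.add_sum_erase _ _ (Finset.mem_univ (1 : G)), hone, Matrix.mul_one,
      Matrix.conjTranspose_one]
    exact Matrix.PosDef.one.add_posSemidef
      (Matrix.posSemidef_sum _ fun h _ => Matrix.posSemidef_conjTranspose_mul_self _)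
  have hinv : (A g)ᴴ * H * A g = H := by
    conv_lhs => rw [hH]
    rw [Finset.mul_sum, Finset.sum_mul]
    refine Fintype.sum_bijective (fun h => h * g) (Group.mulRight_bijective g) _ _ fun h => ?_
    rw [hmul, Matrix.conjTranspose_mul]
    simp only [Matrix.mul_assoc]
  have hAg : A g * A g⁻¹ = 1 := by rw [← hmul, mul_inv_cancel, hone]
  have h1 : (A g)ᴴ * H = H * A g⁻¹ := by
    calc (A g)ᴴ * H = (A g)ᴴ * H * (A g * A g⁻¹) := by rw [hAg, Matrix.mul_one]
      _ = (A g)ᴴ * H * A g * A g⁻¹ := by simp only [Matrix.mul_assoc]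
      _ = H * A g⁻¹ := by rw [hinv]
  obtain ⟨u, hu⟩ := hpos.isUnit
  have h2 : A g⁻¹ = (↑u⁻¹ : Matrix _ _ ℂ) * ((A g)ᴴ * H) := by
    rw [h1, ← hu, ← Matrix.mul_assoc, Units.inv_mul, Matrix.one_mul]
  show Matrix.trace (A g⁻¹) = (starRingEnd ℂ) (Matrix.trace (A g))
  rw [h2, Matrix.trace_mul_comm, ← hu, Matrix.mul_assoc, Units.mul_inv, Matrix.mul_one,
    Matrix.trace_conjTranspose]
  rfl

namespace E0aux

theorem inv'_coeff (x : MonoidAlgebra ℂ G) (g : G) : (inv' x).coeff g = x.coeff g⁻¹ := by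
  unfold inv' MonoidAlgebra.mapDomain
  have := Finsupp.mapDomain_apply (M := ℂ) (f := fun g : G => g⁻¹) inv_injective x.coeff g⁻¹
  simpa using this

theorem inv'_inv' (x : MonoidAlgebra ℂ G) : inv' (inv' x) = x := by
  ext g
  rw [inv'_coeff, inv'_coeff, inv_inv]

theorem inv'_el (g : G) : inv' (el ℂ g) = el ℂ g⁻¹ := by
  unfold inv' el
  rw [MonoidAlgebra.mapDomain_single]

theorem inv'_sum (f : G → ℂ) (k : G → G) :
    inv' (∑ g : G, f g • el ℂ (k g)) = ∑ g : G, f g • el ℂ (k g)⁻¹ := by
  ext h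
  rw [inv'_coeff]
  simp only [MonoidAlgebra.coeff_sum, Finsupp.finset_sum_apply, MonoidAlgebra.coeff_smul_apply, el,
    MonoidAlgebra.coeff_single, Finsupp.single_apply]
  refine Finset.sum_congr rfl fun g _ => ?_
  by_cases h1 : k g = h⁻¹
  · rw [if_pos h1, if_pos (by rw [h1, inv_inv])]
  · rw [if_neg h1, if_neg (fun h2 => h1 (by rw [← h2, inv_inv]))]

theorem coeff_mul_sum (x y : MonoidAlgebra ℂ G) (g : G) :
    (x * y).coeff g = ∑ h : G, x.coeff h * y.coeff (h⁻¹ * g) := by
  rw [MonoidAlgebra.coeff_mul_antidiag x y g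
    (Finset.univ.image fun h : G => (h, h⁻¹ * g)) (by
      rintro ⟨p, q⟩
      simp only [Finset.mem_image, Finset.mem_univ, true_and, Prod.mk.injEq]
      constructor
      · rintro ⟨h, rfl, rfl⟩; group
      · rintro rfl
        exact ⟨p, rfl, by group⟩)]
  rw [Finset.sum_image]
  intro a _ b _ hab
  exact (Prod.mk.inj hab).1

theorem inv'_mul (x y : MonoidAlgebra ℂ G) : inv' (x * y) = inv' y * inv' x := by
  ext g
  rw [inv'_coeff, coeff_mul_sum, coeff_mul_sum]
  refine Fintype.sum_bijective (fun h => g * h) (Group.mulLeft_bijective g) _ _ fun h => ?_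
  rw [inv'_coeff, inv'_coeff, mul_comm]
  congr 2 <;> group

theorem inv'_inj {x y : MonoidAlgebra ℂ G} (h : inv' x = inv' y) : x = y := by
  rw [← inv'_inv' x, h, inv'_inv']

theorem e_mul_e (a : Fin I.r) : e I a * e I a = e I a := by
  apply I.equiv.injective
  rw [map_mul, equiv_e, ← Pi.single_mul, one_mul]

theorem e_central (a : Fin I.r) (y : MonoidAlgebra ℂ G) : y * e I a = e I a * y := by
  apply I.equiv.injective
  rw [map_mul, map_mul, equiv_e]
  funext b
  rw [Pi.mul_apply, Pi.mul_apply]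
  by_cases h : b = a
  · subst h; simp
  · simp [h]

theorem exists_conj (a : Fin I.r) : ∃ b, inv' (e I a) = e I b := by
  set f := inv' (e I a) with hf
  have hff : f * f = f := by rw [hf, ← inv'_mul, e_mul_e]
  have hfc : ∀ y, y * f = f * y := by
    intro y
    rw [hf, ← inv'_inv' y, ← inv'_mul, ← inv'_mul, e_central]
  have hf0 : f ≠ 0 := by
    intro h0
    have h1 : e I a = 0 := by
      apply inv'_inj
      rw [← hf, h0]
      ext g
      rw [inv'_coeff]
      rfl
    have h2 := congrArg (fun z => I.equiv z a) h1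
    simp only [equiv_e, Pi.single_eq_same, map_zero, Pi.zero_apply] at h2
    haveI : NeZero (I.d a) := ⟨(I.pos a).ne'⟩
    exact one_ne_zero h2
  have : ∃ b, I.equiv f b ≠ 0 := by
    by_contra hcon
    push Not at hcon
    apply hf0
    apply I.equiv.injective
    rw [map_zero]
    funext b
    exact hcon b
  obtain ⟨b, hb⟩ := this
  have hb1 : I.equiv f b = 1 := (chi_central I b f hff hfc).resolve_left hb
  refine ⟨b, ?_⟩
  -- e_b * f = e_b
  have h1 : e I b * f = e I b := by
    apply I.equiv.injective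
    rw [map_mul, equiv_e]
    funext c
    rw [Pi.mul_apply]
    by_cases h : c = b
    · subst h; rw [hb1, mul_one]
    · simp [h]
  have h2 : e I a * inv' (e I b) = inv' (e I b) := by
    apply inv'_inj
    rw [inv'_mul, inv'_inv', ← hf, h1]
  have h3 : inv' (e I b) * inv' (e I b) = inv' (e I b) := by rw [← inv'_mul, e_mul_e]
  have h4 : ∀ y, y * inv' (e I b) = inv' (e I b) * y := by
    intro y
    rw [← inv'_inv' y, ← inv'_mul, ← inv'_mul, e_central]
  have h5 : inv' (e I b) = e I a := by
    have h6 : ∀ c, c ≠ a → I.equiv (inv' (e I b)) c = 0 := by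
      intro c hc
      rw [← h2, map_mul, equiv_e, Pi.mul_apply, Pi.single_eq_of_ne hc, zero_mul]
    have h7 : I.equiv (inv' (e I b)) a = 1 := by
      rcases chi_central I a _ h3 h4 with h | h
      · exfalso
        have h8 : inv' (e I b) = 0 := by
          apply I.equiv.injective
          rw [map_zero]
          funext c
          by_cases hc : c = a
          · subst hc; exact h
          · exact h6 c hc
        have h9 : e I b = 0 := by
          apply inv'_inj
          rw [h8]
          ext g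
          rw [inv'_coeff]
          rfl
        have h10 := congrArg (fun z => I.equiv z b) h9
        simp only [equiv_e, Pi.single_eq_same, map_zero, Pi.zero_apply] at h10
        haveI : NeZero (I.d b) := ⟨(I.pos b).ne'⟩
        exact one_ne_zero h10
      · exact h
    apply I.equiv.injective
    rw [equiv_e]
    funext c
    by_cases hc : c = a
    · subst hc; rw [h7, Pi.single_eq_same]
    · rw [h6 c hc, Pi.single_eq_of_ne hc]
  rw [hf, ← h5, inv'_inv']

theorem e_inj {a b : Fin I.r} (h : e I a = e I b) : a = b := by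
  by_contra hab
  have h2 := congrArg (fun z => I.equiv z a) h
  simp only [equiv_e, Pi.single_eq_same, Pi.single_eq_of_ne hab] at h2
  haveI : NeZero (I.d a) := ⟨(I.pos a).ne'⟩
  exact one_ne_zero h2

end E0aux

open E0aux in
/-- Complex conjugation of the irreducible characters. -/
theorem exists_bar : ∃ bar : Fin I.r → Fin I.r, (∀ a, bar (bar a) = a) ∧
    ∀ a x, I.chi (bar a) x = I.chi a (inv' x) := by
  choose bar hbar using exists_conj I
  refine ⟨bar, fun a => ?_, fun a x => ?_⟩
  · apply e_inj I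
    rw [← hbar, ← hbar, inv'_inv']
  · have hG := card_ne (G := G)
    have h1 : ∀ g, (I.d (bar a) : ℂ) * I.ch (bar a) g⁻¹ = I.d a * I.ch a g := by
      intro g
      rw [← e_coeff, ← hbar, inv'_coeff, e_coeff, inv_inv]
    have h2 := h1 1
    have hd : ∀ b, I.ch b 1 = I.d b := by
      intro b
      show I.chi b (el ℂ 1) = _
      rw [el_one, chi_one]
    rw [inv_one, hd, hd] at h2
    have h3 : I.d (bar a) = I.d a := by
      have : I.d (bar a) * I.d (bar a) = I.d a * I.d a := by exact_mod_cast h2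
      exact Nat.mul_self_inj.mp this
    have hda : (I.d a : ℂ) ≠ 0 := by exact_mod_cast (I.pos a).ne'
    have h4 : ∀ g, I.ch (bar a) g = I.ch a g⁻¹ := by
      intro g
      have := h1 g⁻¹
      rw [inv_inv, h3] at this
      exact mul_left_cancel₀ hda this
    rw [chi_eq_sum, chi_eq_sum]
    refine Fintype.sum_bijective (fun g => g⁻¹) (Equiv.inv G).bijective _ _ fun g => ?_
    rw [inv'_coeff, inv_inv, h4]

end Pool.Agent.Helper36.NB
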