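import Mathlib
import Pool.Agent.Helper36.NB.Defs

open scoped BigOperators MonoidAlgebra
open Classical

namespace Pool.Agent.Helper36.NB

variable (O : ValuationSubring ℂ) {G : Type} [Group G] [Finite G]

theorem toK_surjective : Function.Surjective (toK O G) := by
  intro y
  obtain ⟨x, hx⟩ := Finsupp.mapRange_surjective (α := G) (IsLocalRing.residue O) (map_zero _)
    IsLocalRing.residue_surjective y.coeff
  refine ⟨MonoidAlgebra.ofCoeff x, ?_⟩
  ext g
  rw [toK_apply, ← hx]
  rfl

namespace A2aux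

/-- An element with zero reduction is in `m O[G]`. -/
theorem mem_smul_top {x : MonoidAlgebra O G} (hx : toK O G x = 0) :
    x ∈ (IsLocalRing.maximalIdeal O) • (⊤ : Submodule O (MonoidAlgebra O G)) := by
  have := Fintype.ofFinite G
  have h1 : x = ∑ g, x.coeff g • MonoidAlgebra.single g (1 : O) := by
    ext; simp
  rw [h1]
  refine Submodule.sum_mem _ fun g _ => Submodule.smul_mem_smul ?_ Submodule.mem_top
  have h2 := congrArg (fun z => z.coeff g) hx
  simp only [toK_apply] at h2
  exact (IsLocalRing.residue_eq_zero_iff _).mp h2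

/-- Nakayama for `O[G]`. -/
theorem eq_top {N : Submodule O (MonoidAlgebra O G)}
    (h : ∀ y, ∃ x ∈ N, toK O G x = toK O G y) : N = ⊤ := by
  rw [eq_top_iff]
  refine Submodule.le_of_le_smul_of_le_jacobson_bot (I := IsLocalRing.maximalIdeal O)
    Module.Finite.fg_top ?_ ?_
  · exact IsLocalRing.maximalIdeal_le_jacobson _
  · intro y _
    obtain ⟨x, hxN, hx⟩ := h y
    rw [← add_sub_cancel x y]
    refine Submodule.add_mem_sup hxN (mem_smul_top O ?_)
    rw [map_sub, hx, sub_self]

/-- One-sided inverses are two-sided in a finite-dimensional algebra. -/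
theorem mul_eq_one_comm' {k A : Type} [Field k] [Ring A] [Algebra k A] [FiniteDimensional k A]
    {x y : A} (h : x * y = 1) : y * x = 1 := by
  have hs : Function.Surjective (LinearMap.mulLeft k x) := fun z =>
    ⟨y * z, by rw [LinearMap.mulLeft_apply, ← mul_assoc, h, one_mul]⟩
  have hi := LinearMap.injective_iff_surjective.mpr hs
  apply hi
  rw [LinearMap.mulLeft_apply, LinearMap.mulLeft_apply, ← mul_assoc, h, one_mul, mul_one]

end A2aux

theorem isUnit_of_toK {a : MonoidAlgebra O G} (h : IsUnit (toK O G a)) : IsUnit a := by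
  obtain ⟨u, hu⟩ := h
  have hl : (LinearMap.range (LinearMap.mulRight O a)) = ⊤ := by
    apply A2aux.eq_top
    intro y
    obtain ⟨x, hx⟩ := toK_surjective O (toK O G y * (↑u⁻¹ : MonoidAlgebra (resK O) G))
    refine ⟨x * a, ⟨x, rfl⟩, ?_⟩
    rw [map_mul, hx, ← hu, Units.inv_mul_cancel_right]
  have hr : (LinearMap.range (LinearMap.mulLeft O a)) = ⊤ := by
    apply A2aux.eq_top
    intro y
    obtain ⟨x, hx⟩ := toK_surjective O ((↑u⁻¹ : MonoidAlgebra (resK O) G) * toK O G y)
    refine ⟨a * x, ⟨x, rfl⟩, ?_⟩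
    rw [map_mul, hx, ← hu, Units.mul_inv_cancel_left]
  obtain ⟨x, hx⟩ : (1 : MonoidAlgebra O G) ∈ LinearMap.range (LinearMap.mulRight O a) := by
    rw [hl]; trivial
  obtain ⟨y, hy⟩ : (1 : MonoidAlgebra O G) ∈ LinearMap.range (LinearMap.mulLeft O a) := by
    rw [hr]; trivial
  rw [LinearMap.mulRight_apply] at hx
  rw [LinearMap.mulLeft_apply] at hy
  have hxy : x = y := left_inv_eq_right_inv hx hy
  subst hxy
  exact ⟨⟨a, x, hy, hx⟩, rfl⟩

/-- An idempotent of `O[G]` with zero image in `k[G]` is zero. -/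
theorem idem_eq_zero {f : MonoidAlgebra O G} (hf : f * f = f) (h : toK O G f = 0) : f = 0 := by
  have hu : IsUnit (1 - f) := isUnit_of_toK O (by rw [map_sub, h, map_one, sub_zero]; exact isUnit_one)
  have h0 : f * (1 - f) = 0 := by rw [mul_sub, mul_one, hf, sub_self]
  exact (hu.mul_left_eq_zero).mp h0

/-- Inverses in the corner `f O[G] f`. -/
theorem corner_inv {f a : MonoidAlgebra O G} (hf : f * f = f) (hfa : f * a = a)
    (haf : a * f = a) {b : MonoidAlgebra (resK O) G} (hb : toK O G a * b = toK O G f) :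
    ∃ c, f * c = c ∧ c * f = c ∧ a * c = f ∧ c * a = f ∧
      ∀ w, w * f = f * w → w * a = a * w → w * c = c * w := by
  set F := toK O G f with hF
  set A := toK O G a with hA
  have hFF : F * F = F := by rw [hF, ← map_mul, hf]
  have hAF : A * F = A := by rw [hF, hA, ← map_mul, haf]
  have hFA : F * A = A := by rw [hF, hA, ← map_mul, hfa]
  have h1 : (A + (1 - F)) * (F * b * F + (1 - F)) = 1 := by
    have e1 : A * (F * b * F) = F := by
      rw [← mul_assoc, ← mul_assoc, hAF, hb, hFF]
    have e2 : A * (1 - F) = 0 := by rw [mul_sub, mul_one, hAF, sub_self]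
    have e3 : (1 - F) * (F * b * F) = 0 := by
      rw [← mul_assoc, ← mul_assoc, sub_mul, one_mul, hFF, sub_self, zero_mul, zero_mul]
    have e4 : (1 - F) * (1 - F) = 1 - F := by
      rw [mul_sub, mul_one, sub_mul, one_mul, hFF, sub_self, sub_zero]
    rw [add_mul, mul_add, mul_add, e1, e2, e3, e4]
    abel
  have h2 : (F * b * F + (1 - F)) * (A + (1 - F)) = 1 :=
    A2aux.mul_eq_one_comm' (k := resK O) h1
  have hu : IsUnit (a + (1 - f)) := by
    apply isUnit_of_toK
    rw [map_add, map_sub, map_one]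
    exact ⟨⟨_, _, h1, h2⟩, rfl⟩
  obtain ⟨v, hv⟩ := hu
  have hfv : f * (v : MonoidAlgebra O G) = a := by
    rw [hv, mul_add, mul_sub, mul_one, hf, hfa, sub_self, add_zero]
  have hvf : (v : MonoidAlgebra O G) * f = a := by
    rw [hv, add_mul, sub_mul, one_mul, hf, haf, sub_self, add_zero]
  have hcomm : f * (↑v⁻¹ : MonoidAlgebra O G) = ↑v⁻¹ * f := by
    rw [Units.mul_inv_eq_iff_eq_mul, mul_assoc, hfv, ← hvf, Units.inv_mul_cancel_left]
  refine ⟨f * ↑v⁻¹, ?_, ?_, ?_, ?_, ?_⟩
  · rw [← mul_assoc, hf]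
  · rw [mul_assoc, ← hcomm, ← mul_assoc, hf]
  · rw [← mul_assoc, haf, ← hfv, mul_assoc, Units.mul_inv, mul_one]
  · rw [hcomm, mul_assoc, hfa, ← hvf, Units.inv_mul_cancel_left]
  · intro w hwf hwa
    have hwv : w * (v : MonoidAlgebra O G) = v * w := by
      rw [hv, mul_add, add_mul, mul_sub, sub_mul, mul_one, one_mul, hwf, hwa]
    have hwv' : w * (↑v⁻¹ : MonoidAlgebra O G) = ↑v⁻¹ * w := by
      rw [Units.mul_inv_eq_iff_eq_mul, mul_assoc, hwv, Units.inv_mul_cancel_left]
    rw [← mul_assoc, hwf, mul_assoc, hwv', mul_assoc]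

theorem resK_charP (h2 : (2 : O) ∈ IsLocalRing.maximalIdeal O) : CharP (resK O) 2 := by
  apply CharTwo.of_one_ne_zero_of_two_eq_zero one_ne_zero
  have := (IsLocalRing.residue_eq_zero_iff (2 : O)).mpr h2
  rw [← this, map_ofNat]

theorem resK_isAlgClosed : IsAlgClosed (resK O) := by
  apply IsAlgClosed.of_exists_root
  intro p hp hirr
  obtain ⟨q, hq, hdeg, hmon⟩ := Polynomial.lifts_and_natDegree_eq_and_monic
    (f := IsLocalRing.residue O) (p := p)
    ((Polynomial.lifts_iff_coeff_lifts _).mpr fun n => IsLocalRing.residue_surjective _) hp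
  have hqd : (q.map (algebraMap O ℂ)).degree ≠ 0 := by
    rw [hmon.degree_map]
    intro h0
    have : q.natDegree = 0 := Polynomial.natDegree_eq_of_degree_eq_some h0
    rw [hdeg] at this
    exact hirr.natDegree_pos.ne' this
  obtain ⟨z, hz⟩ := IsAlgClosed.exists_root _ hqd
  have hint : IsIntegral O z := ⟨q, hmon, by
    rw [Polynomial.IsRoot, Polynomial.eval_map] at hz
    exact hz⟩
  obtain ⟨y, rfl⟩ := IsIntegrallyClosed.isIntegral_iff.mp hint
  refine ⟨IsLocalRing.residue O y, ?_⟩
  rw [← hq, Polynomial.eval_map, Polynomial.eval₂_hom]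
  rw [Polynomial.IsRoot, Polynomial.eval_map, Polynomial.eval₂_hom] at hz
  have hy : q.eval y = 0 := (FaithfulSMul.algebraMap_injective O ℂ) (by rw [hz, map_zero])
  rw [hy, map_zero]

end Pool.Agent.Helper36.NB
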