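import Mathlib
import Pool.Agent.Helper36.NB.Defs

open scoped BigOperators MonoidAlgebra
open Classical

namespace Pool.Agent.Helper36.NB

namespace A3aux

open Polynomial

/-- Monic polynomials over `O` split over `O`. -/
theorem split (O : ValuationSubring ℂ) : ∀ (n : ℕ) (F : O[X]), F.Monic → F.natDegree = n →
    ∃ M : Multiset O, F = (M.map (fun r => X - C r)).prod := by
  intro n
  induction n with
  | zero =>
    intro F hF hn
    refine ⟨0, ?_⟩
    have := hF.natDegree_eq_zero.mp hn
    simpa using this
  | succ n ih =>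
    intro F hF hn
    have hdeg : (F.map (algebraMap O ℂ)).degree ≠ 0 := by
      rw [hF.degree_map, degree_eq_natDegree hF.ne_zero, hn]
      exact_mod_cast Nat.succ_ne_zero n
    obtain ⟨z, hz⟩ := IsAlgClosed.exists_root _ hdeg
    have hint : IsIntegral O z := ⟨F, hF, by rwa [IsRoot.def, eval_map] at hz⟩
    obtain ⟨r, hr⟩ := IsIntegrallyClosed.isIntegral_iff.mp hint
    have hroot : F.IsRoot r := by
      rw [IsRoot.def, eval_map, ← hr, eval₂_at_apply] at hz
      rw [IsRoot.def]
      exact (map_eq_zero_iff _ (IsFractionRing.injective O ℂ)).mp hz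
    obtain ⟨F', hF'⟩ := dvd_iff_isRoot.mpr hroot
    have hmon : F'.Monic := by
      rw [hF'] at hF
      exact (monic_X_sub_C r).of_mul_monic_left hF
    have hd : F'.natDegree = n := by
      have h1 := (monic_X_sub_C r).natDegree_mul hmon
      rw [← hF', hn, natDegree_X_sub_C] at h1
      omega
    obtain ⟨M, hM⟩ := ih F' hmon hd
    refine ⟨r ::ₘ M, ?_⟩
    rw [hF', hM]
    simp

/-- Evaluation of a polynomial at an idempotent, cut by the idempotent. -/
theorem aeval_mul_idem {R A : Type*} [CommRing R] [Ring A] [Algebra R A] (a : A) (ha : a * a = a)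
    (p : R[X]) : aeval a p * a = algebraMap R A (p.eval 1) * a := by
  induction p using Polynomial.induction_on' with
  | add p q hp hq => simp only [map_add, add_mul, hp, hq, eval_add]
  | monomial n c =>
    rw [aeval_monomial, eval_monomial, one_pow, mul_one]
    have : a ^ n * a = a := by
      induction n with
      | zero => simp
      | succ n ih => rw [pow_succ, mul_assoc, ha, ih]
    rw [mul_assoc, this]

theorem aeval_mul_compl {R A : Type*} [CommRing R] [Ring A] [Algebra R A] (a : A) (ha : a * a = a)
    (p : R[X]) : aeval a p * (1 - a) = algebraMap R A (p.eval 0) * (1 - a) := by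
  have h0 : a * (1 - a) = 0 := by rw [mul_sub, ha, mul_one, sub_self]
  induction p using Polynomial.induction_on' with
  | add p q hp hq => simp only [map_add, add_mul, hp, hq, eval_add]
  | monomial n c =>
    rw [aeval_monomial, eval_monomial]
    rcases Nat.eq_zero_or_pos n with h | h
    · subst h; simp
    · obtain ⟨m, rfl⟩ := Nat.exists_eq_succ_of_ne_zero h.ne'
      rw [pow_succ, mul_assoc, mul_assoc, h0]
      simp

/-- Coprimality of products of linear factors. -/
theorem coprime_prod {R : Type*} [CommRing R] (M N : Multiset R)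
    (h : ∀ r ∈ M, ∀ t ∈ N, IsUnit (r - t)) :
    IsCoprime (M.map (fun r => X - C r)).prod (N.map (fun r => X - C r)).prod := by
  have h1 : ∀ r : R, (∀ t ∈ N, IsUnit (r - t)) →
      IsCoprime (X - C r) (N.map (fun r => X - C r)).prod := by
    intro r hr
    induction N using Multiset.induction_on with
    | empty => simpa using isCoprime_one_right
    | cons t N ih =>
      rw [Multiset.map_cons, Multiset.prod_cons]
      refine IsCoprime.mul_right ?_ (ih (fun r hr' t ht => h r hr' t (Multiset.mem_cons_of_mem ht))
        (fun t ht => hr t (Multiset.mem_cons_of_mem ht)))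
      obtain ⟨u, hu⟩ := hr t (Multiset.mem_cons_self _ _)
      refine ⟨-C (↑u⁻¹ : R), C (↑u⁻¹ : R), ?_⟩
      have : -C (↑u⁻¹ : R) * (X - C r) + C (↑u⁻¹ : R) * (X - C t) = C (↑u⁻¹ * (r - t)) := by
        simp only [C_mul, C_sub]; ring
      rw [this, ← hu]
      simp
  induction M using Multiset.induction_on with
  | empty => simpa using isCoprime_one_left
  | cons r M ih =>
    rw [Multiset.map_cons, Multiset.prod_cons]
    exact IsCoprime.mul_left (h1 r (h r (Multiset.mem_cons_self _ _)))
      (ih (fun r hr t ht => h r (Multiset.mem_cons_of_mem hr) t ht))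

/-- The coefficientwise lift. -/
noncomputable def lift (O : ValuationSubring ℂ) {G : Type} [Group G]
    (a : MonoidAlgebra (resK O) G) : MonoidAlgebra O G :=
  .ofCoeff (a.coeff.mapRange
    (fun x => if x = 0 then 0 else Function.surjInv (IsLocalRing.residue_surjective (R := O)) x)
    (by simp))

theorem lift_coeff (O : ValuationSubring ℂ) {G : Type} [Group G]
    (a : MonoidAlgebra (resK O) G) (g : G) :
    (lift O a).coeff g = if a.coeff g = 0 then 0 else
      Function.surjInv (IsLocalRing.residue_surjective (R := O)) (a.coeff g) := by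
  simp [lift]

theorem toK_lift (O : ValuationSubring ℂ) {G : Type} [Group G]
    (a : MonoidAlgebra (resK O) G) : toK O G (lift O a) = a := by
  ext g
  rw [toK_apply, lift_coeff]
  split_ifs with h
  · rw [h, map_zero]
  · exact Function.surjInv_eq _ _

theorem mapDomain_coeff {R : Type*} [CommRing R] {G : Type*} (σ : G → G)
    (hσ : Function.Bijective σ) (x : MonoidAlgebra R G) (g : G) :
    (MonoidAlgebra.mapDomain σ x).coeff (σ g) = x.coeff g := by
  rw [MonoidAlgebra.coeff_mapDomain]
  exact Finsupp.mapDomain_apply hσ.1 _ _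

theorem mapDomain_eq_iff {R : Type*} [CommRing R] {G : Type*} (σ : G → G)
    (hσ : Function.Bijective σ) (x : MonoidAlgebra R G) :
    MonoidAlgebra.mapDomain σ x = x ↔ ∀ g, x.coeff (σ g) = x.coeff g := by
  constructor
  · intro h g
    conv_lhs => rw [← h]
    exact mapDomain_coeff σ hσ x g
  · intro h
    ext g
    obtain ⟨g', rfl⟩ := hσ.2 g
    rw [mapDomain_coeff σ hσ, h]

theorem mapDomain_smul' {R : Type*} [CommRing R] {G : Type*} (σ : G → G) (c : R)
    (x : MonoidAlgebra R G) :
    MonoidAlgebra.mapDomain σ (c • x) = c • MonoidAlgebra.mapDomain σ x := by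
  ext g
  simp

theorem mapDomain_mul_of {R : Type*} [CommRing R] {G : Type*} [Group G] (σ : G → G)
    (h : ∀ g h, σ (g * h) = σ g * σ h) (x y : MonoidAlgebra R G) :
    MonoidAlgebra.mapDomain σ (x * y) =
      MonoidAlgebra.mapDomain σ x * MonoidAlgebra.mapDomain σ y :=
  MonoidAlgebra.mapDomain_mul (MonoidHom.mk' σ h) x y

theorem mapDomain_mul_anti {R : Type*} [CommRing R] {G : Type*} [Group G] (σ : G → G)
    (h : ∀ g h, σ (g * h) = σ h * σ g) (x y : MonoidAlgebra R G) :
    MonoidAlgebra.mapDomain σ (x * y) =
      MonoidAlgebra.mapDomain σ y * MonoidAlgebra.mapDomain σ x := by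
  induction x using MonoidAlgebra.induction_linear with
  | zero => simp
  | add x x' hx hx' =>
    simp only [add_mul, mul_add, MonoidAlgebra.mapDomain_add, hx, hx']
  | single g c =>
    induction y using MonoidAlgebra.induction_linear with
    | zero => simp
    | add y y' hy hy' =>
      simp only [add_mul, mul_add, MonoidAlgebra.mapDomain_add, hy, hy']
    | single g' c' =>
      simp only [MonoidAlgebra.single_mul_single, MonoidAlgebra.mapDomain_single, h, mul_comm c c']

/-- Polynomials in a fixed element are fixed. -/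
theorem fix_aeval {R : Type*} [CommRing R] {G : Type*} [Group G] (σ : G → G)
    (h : (∀ g h, σ (g * h) = σ g * σ h) ∨ (∀ g h, σ (g * h) = σ h * σ g))
    (s : MonoidAlgebra R G) (hs : MonoidAlgebra.mapDomain σ s = s) (p : R[X]) :
    MonoidAlgebra.mapDomain σ (aeval s p) = aeval s p := by
  have h1 : σ 1 = 1 := by
    have : σ (1 * 1) = σ 1 * σ 1 := by
      rcases h with h | h <;> exact h 1 1
    rw [mul_one] at this
    simpa using this
  have hpow : ∀ n : ℕ, MonoidAlgebra.mapDomain σ (s ^ n) = s ^ n := by
    intro n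
    induction n with
    | zero =>
      rw [pow_zero, MonoidAlgebra.one_def, MonoidAlgebra.mapDomain_single, h1]
    | succ n ih =>
      rcases h with h | h
      · rw [pow_succ, mapDomain_mul_of σ h, ih, hs]
      · rw [pow_succ, mapDomain_mul_anti σ h, ih, hs, ← pow_succ, pow_succ']
  induction p using Polynomial.induction_on' with
  | add p q hp hq => simp only [map_add, MonoidAlgebra.mapDomain_add, hp, hq]
  | monomial n c =>
    rw [aeval_monomial, ← Algebra.smul_def, mapDomain_smul', hpow]

end A3aux

open A3aux Polynomial in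
/-- Lifting of idempotents of `k[G]` to `O[G]`, preserving all symmetries. -/
theorem lift_sym (O : ValuationSubring ℂ) {G : Type} [Group G] [Finite G]
    (e : MonoidAlgebra O G) (he : e * e = e) (hec : ∀ a, a * e = e * a)
    (a : MonoidAlgebra (resK O) G) (ha : a * a = a) (hae : a * toK O G e = a) :
    ∃ i : MonoidAlgebra O G, toK O G i = a ∧ i * i = i ∧ i * e = i ∧
      ∀ σ : G → G, Function.Bijective σ →
        ((∀ g h, σ (g * h) = σ g * σ h) ∨ (∀ g h, σ (g * h) = σ h * σ g)) →
        MonoidAlgebra.mapDomain σ e = e → MonoidAlgebra.mapDomain σ a = a →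
        MonoidAlgebra.mapDomain σ i = i := by
  set s := lift O a with hs
  have hsa : toK O G s = a := toK_lift O a
  obtain ⟨F, hF, hFs⟩ := IsIntegral.of_finite O s
  obtain ⟨M, hM⟩ := split O _ F hF rfl
  set M0 := M.filter (fun r => IsLocalRing.residue O r = 0) with hM0
  set M1 := M.filter (fun r => ¬ IsLocalRing.residue O r = 0) with hM1
  set P : O[X] := (M0.map (fun r => X - C r)).prod with hP
  set Q : O[X] := (M1.map (fun r => X - C r)).prod with hQ
  have hPQ : F = P * Q := by
    rw [hM, hP, hQ, ← Multiset.prod_add, ← Multiset.map_add, Multiset.filter_add_not]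
  have hcop : IsCoprime P Q := by
    refine coprime_prod _ _ (fun r hr t ht => ?_)
    have h0 := (Multiset.mem_filter.mp hr).2
    have h1 := (Multiset.mem_filter.mp ht).2
    rw [← IsLocalRing.residue_ne_zero_iff_isUnit, map_sub, h0, zero_sub]
    exact neg_ne_zero.mpr h1
  obtain ⟨u, v, huv⟩ := hcop
  have hPQs : aeval s P * aeval s Q = 0 := by
    rw [← map_mul, ← hPQ]; exact hFs
  -- reduction of a polynomial in `s`
  have hred : ∀ p : O[X], toK O G (aeval s p) = aeval a (p.map (IsLocalRing.residue O)) := by
    intro p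
    induction p using Polynomial.induction_on' with
    | add p q hp hq => simp only [map_add, Polynomial.map_add, hp, hq]
    | monomial n c =>
      rw [aeval_monomial, Polynomial.map_monomial, aeval_monomial, map_mul, map_pow, hsa]
      congr 1
      simp only [MonoidAlgebra.coe_algebraMap, Function.comp, toK,
        MonoidAlgebra.mapRingHom_single, Algebra.algebraMap_self, RingHom.id_apply]
  have hres0 : ∀ p : O[X], aeval a (p.map (IsLocalRing.residue O)) * a =
      algebraMap (resK O) _ (IsLocalRing.residue O (p.eval 1)) * a := by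
    intro p
    rw [aeval_mul_idem a ha, eval_one_map]
  have hres1 : ∀ p : O[X], aeval a (p.map (IsLocalRing.residue O)) * (1 - a) =
      algebraMap (resK O) _ (IsLocalRing.residue O (p.eval 0)) * (1 - a) := by
    intro p
    rw [aeval_mul_compl a ha, eval_zero_map]
  have hPQk : aeval a ((P * Q).map (IsLocalRing.residue O)) = 0 := by
    rw [← hred, map_mul, hPQs, map_zero]
  have hP1 : IsLocalRing.residue O (P.eval 1) = 1 := by
    rw [hP, eval_multiset_prod, map_multiset_prod, Multiset.map_map, Multiset.map_map]
    apply Multiset.prod_eq_one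
    intro x hx
    obtain ⟨r, hr, rfl⟩ := Multiset.mem_map.mp hx
    have h0 := (Multiset.mem_filter.mp hr).2
    simp [h0]
  have hQ0 : IsLocalRing.residue O (Q.eval 0) ≠ 0 := by
    rw [hQ, eval_multiset_prod, map_multiset_prod, Multiset.map_map, Multiset.map_map]
    intro h
    rw [Multiset.prod_eq_zero_iff] at h
    obtain ⟨r, hr, hr'⟩ := Multiset.mem_map.mp h
    have h1 := (Multiset.mem_filter.mp hr).2
    apply h1
    simpa using hr'
  -- `Q(a) a = 0`
  have hQa : aeval a (Q.map (IsLocalRing.residue O)) * a = 0 := by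
    have h1 := hres0 (P * Q)
    rw [hPQk, zero_mul, eval_mul, map_mul, hP1, one_mul] at h1
    rw [hres0, ← h1]
  -- `P(a) (1 - a) = 0`
  have hPa : aeval a (P.map (IsLocalRing.residue O)) * (1 - a) = 0 := by
    have h1 := hres1 (P * Q)
    rw [hPQk, zero_mul, eval_mul, map_mul, mul_comm (IsLocalRing.residue O (P.eval 0)), map_mul,
      mul_assoc] at h1
    rw [hres1]
    have h2 : algebraMap (resK O) (MonoidAlgebra (resK O) G)
        (IsLocalRing.residue O (Q.eval 0))⁻¹ *
        (algebraMap (resK O) (MonoidAlgebra (resK O) G) (IsLocalRing.residue O (Q.eval 0))) = 1 := by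
      rw [← map_mul, inv_mul_cancel₀ hQ0, map_one]
    calc _ = (algebraMap (resK O) (MonoidAlgebra (resK O) G)
        (IsLocalRing.residue O (Q.eval 0))⁻¹ *
        (algebraMap (resK O) (MonoidAlgebra (resK O) G) (IsLocalRing.residue O (Q.eval 0)))) *
        (algebraMap (resK O) (MonoidAlgebra (resK O) G) (IsLocalRing.residue O (P.eval 0)) *
          (1 - a)) := by rw [h2, one_mul]
      _ = 0 := by rw [mul_assoc, ← h1, mul_zero]
  set E := aeval s (u * P) with hE
  have hE1 : 1 - E = aeval s (v * Q) := by
    rw [hE, sub_eq_iff_eq_add, ← map_add, add_comm, huv, map_one]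
  have hEE : E * E = E := by
    have h0 : E * (1 - E) = 0 := by
      rw [hE1, hE, ← map_mul, show u * P * (v * Q) = u * v * (P * Q) by ring, map_mul,
        map_mul (aeval s) P Q, hPQs, mul_zero]
    rw [mul_sub, mul_one, sub_eq_zero] at h0
    exact h0.symm
  have hEk : toK O G E = a := by
    have h1 : toK O G E * (1 - a) = 0 := by
      rw [hE, hred, Polynomial.map_mul, map_mul, mul_assoc, hPa, mul_zero]
    have h2 : (1 - toK O G E) * a = 0 := by
      rw [← map_one (toK O G), ← map_sub, hE1, hred, Polynomial.map_mul, map_mul, mul_assoc, hQa,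
        mul_zero]
    rw [mul_sub, mul_one, sub_eq_zero] at h1
    rw [sub_mul, one_mul, sub_eq_zero] at h2
    rw [h1, ← h2]
  refine ⟨E * e, ?_, ?_, ?_, ?_⟩
  · rw [map_mul, hEk, hae]
  · rw [mul_assoc, ← mul_assoc e, ← hec E, mul_assoc E e e, he, ← mul_assoc, hEE]
  · rw [mul_assoc, he]
  · intro σ hσ hm hσe hσa
    have hσs : MonoidAlgebra.mapDomain σ s = s := by
      rw [mapDomain_eq_iff σ hσ] at hσa ⊢
      intro g
      rw [hs, lift_coeff, lift_coeff, hσa]
    have hσE : MonoidAlgebra.mapDomain σ E = E := fix_aeval σ hm s hσs _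
    rcases hm with hm | hm
    · rw [mapDomain_mul_of σ hm, hσE, hσe]
    · rw [mapDomain_mul_anti σ hm, hσE, hσe, hec]

end Pool.Agent.Helper36.NB
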