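import Mathlib
import Pool.Agent.Helper36.NB.Defs

open scoped BigOperators MonoidAlgebra
open Classical

namespace Pool.Agent.Helper36.NB

/-- Fitting idempotent of an element of a finite-dimensional algebra. -/
theorem fitting {k A : Type} [Field k] [Ring A] [Algebra k A] [FiniteDimensional k A] (a : A) :
    ∃ f b : A, f ∈ Algebra.adjoin k {a} ∧ b ∈ Algebra.adjoin k {a} ∧ f * f = f ∧ a * b = f ∧
      IsNilpotent (a * (1 - f)) := by
  have hint : IsIntegral k a := IsIntegral.of_finite k a
  have hne : minpoly k a ≠ 0 := minpoly.ne_zero hint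
  obtain ⟨g, hg, hnd⟩ :=
    Polynomial.exists_eq_pow_rootMultiplicity_mul_and_not_dvd (minpoly k a) hne 0
  rw [Polynomial.C_0, sub_zero] at hg hnd
  set r := Polynomial.rootMultiplicity 0 (minpoly k a) with hr
  have hcop : IsCoprime (Polynomial.X ^ (r + 1) : Polynomial k) g :=
    ((Polynomial.irreducible_X.coprime_iff_not_dvd).mpr hnd).pow_left
  obtain ⟨u, v, huv⟩ := hcop
  have h1 : (1 : A) - Polynomial.aeval a (u * Polynomial.X ^ (r + 1)) =
      Polynomial.aeval a (v * g) := by
    rw [sub_eq_iff_eq_add, ← map_add, add_comm, huv, map_one]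
  have hzero : ∀ p : Polynomial k, Polynomial.X ^ r * g ∣ p → Polynomial.aeval a p = 0 := by
    intro p hp
    rw [← hg] at hp
    obtain ⟨q, rfl⟩ := hp
    rw [map_mul, minpoly.aeval, zero_mul]
  refine ⟨Polynomial.aeval a (u * Polynomial.X ^ (r + 1)),
    Polynomial.aeval a (u * Polynomial.X ^ r), Polynomial.aeval_mem_adjoin_singleton _ _,
    Polynomial.aeval_mem_adjoin_singleton _ _, ?_, ?_, r + 1, ?_⟩
  · have h2 : Polynomial.aeval a (u * Polynomial.X ^ (r + 1)) *
        (1 - Polynomial.aeval a (u * Polynomial.X ^ (r + 1))) = 0 := by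
      rw [h1, ← map_mul]
      apply hzero
      exact ⟨u * v * Polynomial.X, by ring⟩
    rw [mul_sub, mul_one, sub_eq_zero] at h2
    exact h2.symm
  · have h3 : a * Polynomial.aeval a (u * Polynomial.X ^ r) =
        Polynomial.aeval a ((Polynomial.X : Polynomial k) * (u * Polynomial.X ^ r)) := by
      rw [map_mul (Polynomial.aeval a) Polynomial.X, Polynomial.aeval_X]
    rw [h3]
    exact congrArg _ (by ring)
  · have h3 : a * Polynomial.aeval a (v * g) =
        Polynomial.aeval a ((Polynomial.X : Polynomial k) * (v * g)) := by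
      rw [map_mul (Polynomial.aeval a) Polynomial.X, Polynomial.aeval_X]
    rw [h1, h3, ← map_pow]
    apply hzero
    exact ⟨Polynomial.X * v ^ (r + 1) * g ^ r, by ring⟩

end Pool.Agent.Helper36.NB
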