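import Mathlib
import Pool.Agent.Helper36.NB.Defs
import Pool.Agent.Helper36.NB.A1
import Pool.Agent.Helper36.NB.A2
import Pool.Agent.Helper36.NB.A3

open scoped BigOperators MonoidAlgebra
open Classical

namespace Pool.Agent.Helper36.NB.C1aux

open Matrix

/-- a rank one idempotent matrix. -/
theorem rank_one_form {K : Type} [Field K] {n : ℕ} (P : Matrix (Fin n) (Fin n) K)
    (hP : P * P = P) (h1 : P.rank = 1) :
    ∃ u v : Fin n → K, P = vecMulVec u v ∧ v ⬝ᵥ u = 1 := by
  have h2 : Module.finrank K (LinearMap.range P.mulVecLin) = 1 := h1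
  obtain ⟨⟨u, hu⟩, hu0, hall⟩ := finrank_eq_one_iff'.mp h2
  have hcol : ∀ j, ∃ c : K, P.mulVec (Pi.single j 1) = c • u := by
    intro j
    obtain ⟨c, hc⟩ := hall ⟨P.mulVec (Pi.single j 1), ⟨Pi.single j 1, rfl⟩⟩
    exact ⟨c, (congrArg Subtype.val hc).symm⟩
  choose c hc using hcol
  have hPe : P = vecMulVec u c := by
    ext i j
    have := congrFun (hc j) i
    simp only [mulVec_single_one, col_apply, Pi.smul_apply, smul_eq_mul] at this
    rw [vecMulVec_apply, this, mul_comm]
  refine ⟨u, c, hPe, ?_⟩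
  have h3 : vecMulVec u c * vecMulVec u c = (c ⬝ᵥ u) • vecMulVec u c := by
    rw [vecMulVec_mul_vecMulVec, vecMulVec_smul]
  have h4 : (c ⬝ᵥ u - 1) • vecMulVec u c = 0 := by
    rw [sub_smul, one_smul, ← h3, ← hPe, hP, sub_self]
  rcases smul_eq_zero.mp h4 with h | h
  · exact sub_eq_zero.mp h
  · rw [← hPe] at h
    rw [h, rank_zero] at h1
    omega

theorem exists_sandwich {K : Type} [Field K] {n : ℕ} (P Y : Matrix (Fin n) (Fin n) K)
    (hP : P * P = P) (h1 : P.rank = 1) (hY : Y ≠ 0) :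
    ∃ X X' : Matrix (Fin n) (Fin n) K, P * X * Y * X' * P = P := by
  obtain ⟨u, v, hPe, huv⟩ := rank_one_form P hP h1
  obtain ⟨i, j, hij⟩ : ∃ i j, Y i j ≠ 0 := by
    by_contra hc
    push Not at hc
    exact hY (by ext i j; exact hc i j)
  refine ⟨vecMulVec u (Pi.single i 1), (Y i j)⁻¹ • vecMulVec (Pi.single j 1) v, ?_⟩
  have e1 : P * vecMulVec u (Pi.single i 1) = vecMulVec u (Pi.single i 1) := by
    rw [hPe, vecMulVec_mul_vecMulVec, huv, one_smul]
  have e2 : vecMulVec (Pi.single j 1) v * P = vecMulVec (Pi.single j 1) v := by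
    rw [hPe, vecMulVec_mul_vecMulVec, huv, one_smul]
  have e3 : vecMulVec u (Pi.single i 1) * Y * vecMulVec (Pi.single j 1) v =
      Y i j • vecMulVec u v := by
    ext a b
    simp only [Matrix.mul_apply, vecMulVec_apply, Matrix.smul_apply, smul_eq_mul]
    rw [Finset.sum_eq_single j]
    · rw [Finset.sum_eq_single i]
      · simp
        ring
      · intro x _ hx
        simp [Pi.single_eq_of_ne hx]
      · simp
    · intro x _ hx
      simp [Pi.single_eq_of_ne hx]
    · simp
  calc P * vecMulVec u (Pi.single i 1) * Y * ((Y i j)⁻¹ • vecMulVec (Pi.single j 1) v) * P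
      = (Y i j)⁻¹ • ((P * vecMulVec u (Pi.single i 1)) * Y *
          (vecMulVec (Pi.single j 1) v * P)) := by
        simp only [Matrix.mul_smul, Matrix.smul_mul, Matrix.mul_assoc]
    _ = (Y i j)⁻¹ • (Y i j • vecMulVec u v) := by rw [e1, e2, e3]
    _ = P := by rw [smul_smul, inv_mul_cancel₀ hij, one_smul, hPe]

/-- additivity of the rank for orthogonal idempotents. -/
theorem rank_add_orth {K : Type} [Field K] {n : ℕ} (F G : Matrix (Fin n) (Fin n) K)
    (hF : F * F = F) (hG : G * G = G) (hFG : F * G = 0) (hGF : G * F = 0) :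
    (F + G).rank = F.rank + G.rank := by
  have hsup : LinearMap.range (F + G).mulVecLin =
      LinearMap.range F.mulVecLin ⊔ LinearMap.range G.mulVecLin := by
    apply le_antisymm
    · rintro _ ⟨x, rfl⟩
      rw [mulVecLin_apply, add_mulVec]
      exact Submodule.add_mem_sup ⟨x, rfl⟩ ⟨x, rfl⟩
    · apply sup_le
      · rintro _ ⟨x, rfl⟩
        refine ⟨F *ᵥ x, ?_⟩
        rw [mulVecLin_apply, mulVecLin_apply, mulVec_mulVec, add_mul, hF, hGF, add_zero]
      · rintro _ ⟨x, rfl⟩
        refine ⟨G *ᵥ x, ?_⟩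
        rw [mulVecLin_apply, mulVecLin_apply, mulVec_mulVec, add_mul, hG, hFG, zero_add]
  have hinf : LinearMap.range F.mulVecLin ⊓ LinearMap.range G.mulVecLin = ⊥ := by
    rw [eq_bot_iff]
    rintro _ ⟨⟨x, rfl⟩, ⟨y, hy⟩⟩
    rw [mulVecLin_apply] at hy ⊢
    rw [mulVecLin_apply] at hy
    have h1 : F *ᵥ (F *ᵥ x) = F *ᵥ x := by rw [mulVec_mulVec, hF]
    have h2 : F *ᵥ (G *ᵥ y) = 0 := by rw [mulVec_mulVec, hFG, zero_mulVec]
    rw [Submodule.mem_bot, ← h1, ← hy, h2]
  have h := Submodule.finrank_sup_add_finrank_inf_eq (LinearMap.range F.mulVecLin)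
    (LinearMap.range G.mulVecLin)
  rw [hinf, finrank_bot, add_zero, ← hsup] at h
  exact h

theorem rank_eq_zero' {K : Type} [Field K] {n : ℕ} (Y : Matrix (Fin n) (Fin n) K)
    (h : Y.rank = 0) : Y = 0 := by
  have h1 : Module.finrank K (LinearMap.range Y.mulVecLin) = 0 := h
  rw [Submodule.finrank_eq_zero, LinearMap.range_eq_bot] at h1
  ext i j
  have := congrArg (fun f => f (Pi.single j 1) i) h1
  simpa using this

variable (O : ValuationSubring ℂ) {G : Type} [Group G] [Finite G]

theorem central_toK {B : MonoidAlgebra O G} (hBc : ∀ a, a * B = B * a)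
    (a : MonoidAlgebra (resK O) G) : a * toK O G B = toK O G B * a := by
  obtain ⟨a', rfl⟩ := toK_surjective O (G := G) a
  rw [← map_mul, ← map_mul, hBc]

/-- an idempotent in the block with zero image in the matrix algebra is zero. -/
theorem eq_zero_of_rho {B : MonoidAlgebra O G} (S : SimpleQuot (toK O G B))
    {y : MonoidAlgebra O G} (hy : y * y = y) (hyB : y * B = y) (h : S.ρ (toK O G y) = 0) :
    y = 0 := by
  apply idem_eq_zero O hy
  have h1 := S.nil (toK O G y) h
  rw [← map_mul, hyB] at h1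
  have h2 : toK O G y * toK O G y = toK O G y := by rw [← map_mul, hy]
  obtain ⟨m, hm⟩ := h1
  have h3 : ∀ m : ℕ, (toK O G y) ^ (m + 1) = toK O G y := by
    intro m
    induction m with
    | zero => simp
    | succ m ih => rw [pow_succ, ih, h2]
  have h4 := h3 m
  rw [pow_succ, hm, zero_mul] at h4
  exact h4.symm

theorem key (B : MonoidAlgebra O G) (hBc : ∀ a, a * B = B * a)
    (S : SimpleQuot (toK O G B)) (j : MonoidAlgebra O G) (hj : j * j = j) (hjB : j * B = j)
    (hj1 : (S.ρ (toK O G j)).rank = 1) (y : MonoidAlgebra O G) (hy : y * y = y)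
    (hy0 : S.ρ (toK O G y) ≠ 0) :
    ∃ f, f * f = f ∧ y * f = f ∧ f * y = f ∧ (S.ρ (toK O G f)).rank = 1 ∧
      ∀ T : TraceFun O G, T.f f = T.f j := by
  have hPP : S.ρ (toK O G j) * S.ρ (toK O G j) = S.ρ (toK O G j) := by
    rw [← map_mul, ← map_mul, hj]
  obtain ⟨X, X', hX⟩ := exists_sandwich _ _ hPP hj1 hy0
  obtain ⟨xb, hxb⟩ := S.surj X
  obtain ⟨xb', hxb'⟩ := S.surj X'
  obtain ⟨x, rfl⟩ := toK_surjective O (G := G) xb
  obtain ⟨x', rfl⟩ := toK_surjective O (G := G) xb'
  set g := j * x * y * x' * j with hg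
  set N := toK O G g - toK O G j with hN
  have hjg : j * g = g := by rw [hg, ← mul_assoc, ← mul_assoc, ← mul_assoc, ← mul_assoc, hj]
  have hgj : g * j = g := by rw [hg, mul_assoc, hj]
  have hρN : S.ρ N = 0 := by
    rw [hN, map_sub, sub_eq_zero, hg]
    simp only [map_mul]
    rw [hxb, hxb', hX]
  have hNB : N * toK O G B = N := by
    rw [hN, sub_mul, ← map_mul, ← map_mul, hjB, hg, mul_assoc _ j B, hjB]
  have hNn : IsNilpotent N := by
    have := S.nil N hρN
    rwa [hNB] at this
  have hjN : toK O G j * N = N := by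
    rw [hN, mul_sub, ← map_mul, ← map_mul, hjg, hj]
  have hNj : N * toK O G j = N := by
    rw [hN, sub_mul, ← map_mul, ← map_mul, hgj, hj]
  obtain ⟨w, hw⟩ := hNn.isUnit_one_add
  have hgb : toK O G g * ((w⁻¹ : _) : MonoidAlgebra (resK O) G) * toK O G j = toK O G j := by
    have e1 : toK O G g = toK O G j * (1 + N) := by
      rw [mul_add, mul_one, hjN, hN]; abel
    rw [e1, ← hw, mul_assoc (toK O G j), Units.mul_inv, mul_one, ← map_mul, hj]
  obtain ⟨c, hjc, hcj, hgc, hcg, -⟩ := corner_inv O hj hjg hgj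
    (b := ((w⁻¹ : _) : MonoidAlgebra (resK O) G) * toK O G j) (by rw [← mul_assoc, hgb])
  set α := j * x * y with hα
  set β := y * x' * j * c with hβ
  have hαβ : α * β = j := by
    rw [hα, hβ]
    have : j * x * y * (y * x' * j * c) = (j * x * (y * y) * x' * j) * c := by
      simp only [mul_assoc]
    rw [this, hy, ← hg, hgc]
  have hjα : j * α = α := by rw [hα, ← mul_assoc, ← mul_assoc, hj]
  have hyβ : y * β = β := by rw [hβ, ← mul_assoc, ← mul_assoc, ← mul_assoc, hy]
  have hαy : α * y = α := by rw [hα, mul_assoc, hy]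
  have hff : β * α * (β * α) = β * α := by
    calc β * α * (β * α) = β * (α * β) * α := by simp only [mul_assoc]
      _ = β * (j * α) := by rw [hαβ, mul_assoc]
      _ = β * α := by rw [hjα]
  refine ⟨β * α, hff, by rw [← mul_assoc, hyβ], by rw [mul_assoc, hαy], ?_, ?_⟩
  · apply le_antisymm
    · have e : β * α = β * j * α := by rw [mul_assoc β j α, hjα]
      rw [e, map_mul, map_mul, map_mul, map_mul]
      refine (Matrix.rank_mul_le_left _ _).trans ((Matrix.rank_mul_le_right _ _).trans ?_)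
      rw [hj1]
    · have e : j = α * (β * α) * β := by
        calc j = j * j := hj.symm
          _ = (α * β) * (α * β) := by rw [hαβ]
          _ = α * (β * α) * β := by simp only [mul_assoc]
      have e' : S.ρ (toK O G j) = S.ρ (toK O G α) * S.ρ (toK O G (β * α)) *
          S.ρ (toK O G β) := by
        rw [← map_mul, ← map_mul, ← map_mul, ← map_mul, ← e]
      rw [← hj1, e']
      exact (Matrix.rank_mul_le_left _ _).trans (Matrix.rank_mul_le_right _ _)
  · intro T
    rw [T.comm, hαβ]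

end Pool.Agent.Helper36.NB.C1aux

namespace Pool.Agent.Helper36.NB

variable (O : ValuationSubring ℂ) {G : Type} [Group G] [Finite G]

theorem exists_rank_one (B : MonoidAlgebra O G) (hB : B * B = B) (hBc : ∀ a, a * B = B * a)
    (S : SimpleQuot (toK O G B)) :
    ∃ j : MonoidAlgebra O G, j * j = j ∧ j * B = j ∧ (S.ρ (toK O G j)).rank = 1 := by
  obtain ⟨a, ha⟩ := S.surj (Matrix.vecMulVec (Pi.single ⟨0, S.pos⟩ 1) (Pi.single ⟨0, S.pos⟩ 1))
  set E : Matrix (Fin S.n) (Fin S.n) (resK O) :=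
    Matrix.vecMulVec (Pi.single ⟨0, S.pos⟩ 1) (Pi.single ⟨0, S.pos⟩ 1) with hE
  have hEE : E * E = E := by
    rw [hE, Matrix.vecMulVec_mul_vecMulVec]
    simp
  have hE0 : E ≠ 0 := by
    intro h
    have := congrFun (congrFun h ⟨0, S.pos⟩) ⟨0, S.pos⟩
    rw [hE, Matrix.vecMulVec_apply] at this
    simp at this
  have hρ : S.ρ (a * toK O G B) = E := by rw [map_mul, S.one, mul_one, ha]
  have : FiniteDimensional (resK O) (MonoidAlgebra (resK O) G) := inferInstance
  obtain ⟨f, b, hf, hb, hff, hab, hnil⟩ := fitting (k := resK O) (a * toK O G B)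
  have hBK : toK O G B * toK O G B = toK O G B := by rw [← map_mul, hB]
  have hfB : f * toK O G B = f := by
    rw [← hab, mul_assoc, C1aux.central_toK O hBc b, ← mul_assoc, mul_assoc a, hBK]
  have hne : S.ρ f ≠ 0 := by
    intro h0
    have h1 : IsNilpotent (S.ρ (a * toK O G B * (1 - f))) := hnil.map S.ρ
    rw [map_mul, map_sub, map_one, h0, sub_zero, mul_one, hρ] at h1
    obtain ⟨m, hm⟩ := h1
    have h3 : ∀ m : ℕ, E ^ (m + 1) = E := by
      intro m
      induction m with
      | zero => simp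
      | succ m ih => rw [pow_succ, ih, hEE]
    have h4 := h3 m
    rw [pow_succ, hm, zero_mul] at h4
    exact hE0 h4.symm
  have hrank : (S.ρ f).rank = 1 := by
    apply le_antisymm
    · rw [← hab, map_mul, hρ]
      refine (Matrix.rank_mul_le_left _ _).trans ?_
      exact Matrix.rank_vecMulVec_le _ _
    · by_contra hc
      exact hne (C1aux.rank_eq_zero' _ (by omega))
  obtain ⟨i, hi, hii, hiB, -⟩ := lift_sym O B hB hBc f hff hfB
  exact ⟨i, hii, hiB, by rw [hi, hrank]⟩

/-- The values of central functions on idempotents. -/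
theorem trace_rank (B : MonoidAlgebra O G) (hB : B * B = B) (hBc : ∀ a, a * B = B * a)
    (S : SimpleQuot (toK O G B)) (j : MonoidAlgebra O G) (hj : j * j = j) (hjB : j * B = j)
    (hj1 : (S.ρ (toK O G j)).rank = 1) (y : MonoidAlgebra O G) (hy : y * y = y)
    (hyB : y * B = y) (T : TraceFun O G) :
    T.f y = ((S.ρ (toK O G y)).rank : ℂ) * T.f j := by
  obtain ⟨r, hr⟩ : ∃ r, (S.ρ (toK O G y)).rank = r := ⟨_, rfl⟩
  induction r generalizing y with
  | zero =>
    have h0 := C1aux.rank_eq_zero' _ hr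
    have hy0 := C1aux.eq_zero_of_rho O S hy hyB h0
    rw [hr, hy0, map_zero]
    simp
  | succ r ih =>
    have hne : S.ρ (toK O G y) ≠ 0 := by
      intro h
      rw [h, Matrix.rank_zero] at hr
      omega
    obtain ⟨f, hff, hyf, hfy, hf1, hfT⟩ := C1aux.key O B hBc S j hj hjB hj1 y hy hne
    have e1 : (y - f) * (y - f) = y - f := by
      rw [sub_mul, mul_sub, mul_sub, hy, hyf, hfy, hff]; abel
    have e2 : (y - f) * B = y - f := by
      rw [sub_mul, hyB]
      congr 1
      rw [← hfy, mul_assoc, hyB]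
    have e3 : f * (y - f) = 0 := by rw [mul_sub, hfy, hff, sub_self]
    have e4 : (y - f) * f = 0 := by rw [sub_mul, hyf, hff, sub_self]
    have hadd := C1aux.rank_add_orth (S.ρ (toK O G f)) (S.ρ (toK O G (y - f)))
      (by rw [← map_mul, ← map_mul, hff]) (by rw [← map_mul, ← map_mul, e1])
      (by rw [← map_mul, ← map_mul, e3, map_zero, map_zero])
      (by rw [← map_mul, ← map_mul, e4, map_zero, map_zero])
    rw [← map_add, ← map_add, add_sub_cancel, hr, hf1] at hadd
    have hr' : (S.ρ (toK O G (y - f))).rank = r := by omega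
    have := ih (y - f) e1 e2 hr'
    rw [map_sub, hr', hfT T, sub_eq_iff_eq_add] at this
    rw [this, hr]
    push_cast
    ring

theorem prim_rank (B : MonoidAlgebra O G) (hB : B * B = B) (hBc : ∀ a, a * B = B * a)
    (S : SimpleQuot (toK O G B)) (j : MonoidAlgebra O G) (hj : j * j = j) (hjB : j * B = j)
    (hj0 : j ≠ 0) (hprim : ∀ f, f * f = f → f * j = f → j * f = f → f = 0 ∨ f = j) :
    (S.ρ (toK O G j)).rank = 1 := by
  obtain ⟨i, hi, hiB, hi1⟩ := exists_rank_one O B hB hBc S
  have hne : S.ρ (toK O G j) ≠ 0 := fun h => hj0 (C1aux.eq_zero_of_rho O S hj hjB h)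
  obtain ⟨f, hff, hjf, hfj, hf1, -⟩ := C1aux.key O B hBc S i hi hiB hi1 j hj hne
  rcases hprim f hff hfj hjf with h | h
  · rw [h, map_zero, map_zero, Matrix.rank_zero] at hf1
    omega
  · rw [← h, hf1]

end Pool.Agent.Helper36.NB
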