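import Mathlib
import Pool.Agent.Helper36.NB.Defs

open scoped BigOperators MonoidAlgebra
open Classical

namespace Pool.Agent.Helper36.NB

namespace C2aux

variable {k : Type} [Field k] {H : Type} [Group H]

/-- The representation attached to a homomorphism to a matrix algebra. -/
noncomputable def rep {n : ℕ} (R : MonoidAlgebra k H →ₐ[k] Matrix (Fin n) (Fin n) k) :
    Representation k H (Fin n → k) where
  toFun g := Matrix.toLin' (R (MonoidAlgebra.single g 1))
  map_one' := by
    have : (MonoidAlgebra.single (1 : H) (1 : k)) = 1 := rfl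
    rw [this, map_one, Matrix.toLin'_one]
    rfl
  map_mul' x y := by
    have : (MonoidAlgebra.single (x * y) (1 : k)) =
        MonoidAlgebra.single x 1 * MonoidAlgebra.single y 1 := by
      simp [MonoidAlgebra.single_mul_single]
    rw [this, map_mul, Matrix.toLin'_mul]
    rfl

theorem rep_apply {n : ℕ} (R : MonoidAlgebra k H →ₐ[k] Matrix (Fin n) (Fin n) k) (g : H) :
    rep R g = Matrix.toLin' (R (MonoidAlgebra.single g 1)) := rfl

theorem rep_alg {n : ℕ} (R : MonoidAlgebra k H →ₐ[k] Matrix (Fin n) (Fin n) k)
    (a : MonoidAlgebra k H) : (rep R).asAlgebraHom a = Matrix.toLin' (R a) := by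
  have h : (rep R).asAlgebraHom =
      (Matrix.toLinAlgEquiv' (R := k) (n := Fin n)).toAlgHom.comp R := by
    apply MonoidAlgebra.algHom_ext
    · intro g
      rw [Representation.asAlgebraHom_single_one, rep_apply]
      rfl
    · ext
  rw [h]
  rfl

theorem rep_irred {n : ℕ} (hn : 0 < n)
    (R : MonoidAlgebra k H →ₐ[k] Matrix (Fin n) (Fin n) k) (hR : Function.Surjective R) :
    (rep R).IsIrreducible := by
  have key : ∀ (S : Subrepresentation (rep R)) (a : MonoidAlgebra k H) (v : Fin n → k),
      v ∈ S.toSubmodule → Matrix.toLin' (R a) v ∈ S.toSubmodule := by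
    intro S a v hv
    induction a using MonoidAlgebra.induction_linear with
    | zero => simp
    | add x y hx hy =>
      rw [map_add, map_add, LinearMap.add_apply]
      exact S.toSubmodule.add_mem hx hy
    | single g r =>
      have : (MonoidAlgebra.single g r : MonoidAlgebra k H) = r • MonoidAlgebra.single g 1 := by
        simp
      rw [this, map_smul, map_smul, LinearMap.smul_apply]
      exact S.toSubmodule.smul_mem _ (S.apply_mem_toSubmodule g hv)
  have hnt : Nontrivial (Subrepresentation (rep R)) := by
    refine ⟨⊥, ⊤, ?_⟩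
    intro h
    have h1 : (⊥ : Submodule k (Fin n → k)) = ⊤ := by
      have := congrArg Subrepresentation.toSubmodule h
      exact this
    have : Nontrivial (Fin n → k) := by
      have : Nonempty (Fin n) := ⟨⟨0, hn⟩⟩
      infer_instance
    exact bot_ne_top h1
  refine { eq_bot_or_eq_top := ?_ }
  intro S
  by_cases hS : ∃ v ∈ S.toSubmodule, v ≠ 0
  · right
    obtain ⟨v, hv, hv0⟩ := hS
    obtain ⟨i, hi⟩ := Function.ne_iff.mp hv0
    apply Subrepresentation.toSubmodule_injective
    change S.toSubmodule = ⊤
    rw [eq_top_iff]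
    intro w _
    obtain ⟨a, ha⟩ := hR (Matrix.of fun p q => if q = i then w p * (v i)⁻¹ else 0)
    have h1 := key S a v hv
    have h2 : Matrix.toLin' (R a) v = w := by
      rw [ha]
      ext p
      rw [Matrix.toLin'_apply, Matrix.mulVec, dotProduct]
      simp only [Matrix.of_apply, ite_mul, zero_mul, Finset.sum_ite_eq', Finset.mem_univ, if_true]
      have : v i ≠ 0 := hi
      field_simp
    rw [h2] at h1
    exact h1
  · left
    apply Subrepresentation.toSubmodule_injective
    change S.toSubmodule = ⊥
    rw [eq_bot_iff]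
    intro v hv
    by_contra h0
    exact hS ⟨v, hv, fun h => h0 (by rw [h]; exact Submodule.zero_mem _)⟩

end C2aux

open C2aux in
theorem simpleQuot_of_oneSimple {k : Type} [Field k] [IsAlgClosed k] {H : Type} [Group H]
    [Finite H] (b : MonoidAlgebra k H) (hb0 : b ≠ 0) (hb : b * b = b)
    (hbc : ∀ a, a * b = b * a) (h : OneSimple b) : Nonempty (SimpleQuot b) := by
  have hfin : Module.Finite k (MonoidAlgebra k H) := by
    infer_instance
  have hart : IsArtinianRing (MonoidAlgebra k H) := IsArtinianRing.of_finite k _
  have hfq : FiniteDimensional k (MonoidAlgebra k H ⧸ Ring.jacobson (MonoidAlgebra k H)) :=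
    Module.Finite.of_surjective
      (Ideal.Quotient.mkₐ k (Ring.jacobson (MonoidAlgebra k H))).toLinearMap
      Ideal.Quotient.mk_surjective
  obtain ⟨m, d, hd, ⟨e⟩⟩ := IsSemisimpleRing.exists_algEquiv_pi_matrix_of_isAlgClosed
    k (MonoidAlgebra k H ⧸ Ring.jacobson (MonoidAlgebra k H))
  let P : MonoidAlgebra k H →ₐ[k] (∀ i, Matrix (Fin (d i)) (Fin (d i)) k) :=
    e.toAlgHom.comp (Ideal.Quotient.mkₐ k (Ring.jacobson (MonoidAlgebra k H)))
  have hPs : Function.Surjective P := by
    intro x
    obtain ⟨y, hy⟩ := e.surjective x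
    obtain ⟨z, hz⟩ := Ideal.Quotient.mk_surjective y
    refine ⟨z, ?_⟩
    change e (Ideal.Quotient.mk _ z) = x
    rw [hz, hy]
  have hPn : ∀ a, P a = 0 → IsNilpotent a := by
    intro a ha
    have h1 : (Ideal.Quotient.mk (Ring.jacobson (MonoidAlgebra k H)) a) = 0 := by
      apply e.injective
      rw [map_zero]
      exact ha
    have h2 : a ∈ Ring.jacobson (MonoidAlgebra k H) := Ideal.Quotient.eq_zero_iff_mem.mp h1
    obtain ⟨N, hN⟩ := (IsSemiprimaryRing.isNilpotent (R := MonoidAlgebra k H))
    refine ⟨N, ?_⟩
    have h3 : a ^ N ∈ (Ring.jacobson (MonoidAlgebra k H)) ^ N := Ideal.pow_mem_pow h2 N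
    rw [hN] at h3
    exact h3
  let R : ∀ i, MonoidAlgebra k H →ₐ[k] Matrix (Fin (d i)) (Fin (d i)) k :=
    fun i => (Pi.evalAlgHom k _ i).comp P
  have hR : ∀ i a, R i a = P a i := fun i a => rfl
  have hRs : ∀ i, Function.Surjective (R i) := by
    intro i x
    obtain ⟨a, ha⟩ := hPs (Function.update 0 i x)
    refine ⟨a, ?_⟩
    rw [hR, ha, Function.update_self]
  have hpos : ∀ i, 0 < d i := fun i => Nat.pos_of_ne_zero (hd i).out
  have h01 : ∀ i, R i b = 0 ∨ R i b = 1 := by
    intro i
    have hcen : R i b ∈ Set.center (Matrix (Fin (d i)) (Fin (d i)) k) := by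
      rw [Semigroup.mem_center_iff]
      intro g
      obtain ⟨a, ha⟩ := hRs i g
      rw [← ha, ← map_mul, ← map_mul, hbc]
    rw [Matrix.center_eq_range] at hcen
    obtain ⟨c, hc⟩ := hcen
    have hid : R i b * R i b = R i b := by rw [← map_mul, hb]
    rw [← hc] at hid ⊢
    have hne : Nonempty (Fin (d i)) := ⟨⟨0, hpos i⟩⟩
    have hcc : c * c = c := by
      rw [← map_mul] at hid
      exact Matrix.scalar_inj.mp hid
    have hc0 : c = 0 ∨ c = 1 := by
      have : c * (c - 1) = 0 := by rw [mul_sub, hcc, mul_one, sub_self]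
      rcases mul_eq_zero.mp this with h0 | h1
      · exact Or.inl h0
      · exact Or.inr (sub_eq_zero.mp h1)
    rcases hc0 with h0 | h1
    · left; rw [h0, map_zero]
    · right; rw [h1, map_one]
  have hex : ∃ i, R i b = 1 := by
    by_contra hno
    push Not at hno
    have hP0 : P b = 0 := by
      funext i
      rcases h01 i with h0 | h1
      · exact h0
      · exact absurd h1 (hno i)
    obtain ⟨N, hN⟩ := hPn b hP0
    have hpw : ∀ N, b ^ (N + 1) = b := by
      intro N
      induction N with
      | zero => simp
      | succ N ih => rw [pow_succ, ih, hb]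
    apply hb0
    rw [← hpw N, pow_succ, hN, zero_mul]
  obtain ⟨i, hi⟩ := hex
  have huniq : ∀ j, j ≠ i → R j b = 0 := by
    intro j hj
    rcases h01 j with h0 | h1
    · exact h0
    exfalso
    obtain ⟨T⟩ := h (d i) (d j) (rep (R i)) (rep (R j)) (rep_irred (hpos i) _ (hRs i))
      (rep_irred (hpos j) _ (hRs j))
      (by rw [rep_alg, hi, Matrix.toLin'_one]; rfl) (by rw [rep_alg, h1, Matrix.toLin'_one]; rfl)
    have hT : ∀ (a : MonoidAlgebra k H) (v : Fin (d i) → k),
        T.toLinearEquiv (Matrix.toLin' (R i a) v) = Matrix.toLin' (R j a) (T.toLinearEquiv v) := by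
      intro a v
      induction a using MonoidAlgebra.induction_linear with
      | zero => simp
      | add x y hx hy =>
        rw [map_add, map_add, LinearMap.add_apply, map_add, hx, hy, map_add, map_add,
          LinearMap.add_apply]
      | single g r =>
        have : (MonoidAlgebra.single g r : MonoidAlgebra k H) = r • MonoidAlgebra.single g 1 := by
          simp
        rw [this, map_smul, map_smul, LinearMap.smul_apply, map_smul, map_smul, map_smul,
          LinearMap.smul_apply]
        congr 1
        exact LinearMap.congr_fun (T.isIntertwining' g) v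
    obtain ⟨a, ha⟩ := hPs (Function.update 0 i 1)
    have hai : R i a = 1 := by rw [hR, ha, Function.update_self]
    have haj : R j a = 0 := by rw [hR, ha, Function.update_of_ne hj]; rfl
    have h2 := hT a (fun _ => 1)
    rw [hai, haj, Matrix.toLin'_one, map_zero, LinearMap.zero_apply, LinearMap.id_apply,
      LinearEquiv.map_eq_zero_iff] at h2
    have h3 := congrFun h2 ⟨0, hpos i⟩
    simp at h3
  exact ⟨{ n := d i
           ρ := R i
           pos := hpos i
           surj := hRs i
           one := hi
           nil := by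
             intro a ha
             apply hPn
             funext j
             change R j (a * b) = 0
             rw [map_mul]
             by_cases hj : j = i
             · subst hj
               rw [ha, zero_mul]
             · rw [huniq j hj, mul_zero] }⟩

theorem exists_block {k : Type} [Field k] {H : Type} [Group H] [Finite H]
    (y : MonoidAlgebra k H) (hy : y ≠ 0) : ∃ b : MonoidAlgebra k H, IsBlock b ∧ y * b ≠ 0 := by
  have hfin : Module.Finite k (MonoidAlgebra k H) := by
    infer_instance
  let dim : MonoidAlgebra k H → ℕ := fun f =>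
    Module.finrank k (LinearMap.range (LinearMap.mulRight k f))
  have hex : ∃ n : ℕ, ∃ f : MonoidAlgebra k H, f * f = f ∧ (∀ a, a * f = f * a) ∧ y * f ≠ 0 ∧
      dim f = n := ⟨_, 1, by simp, by simp, by simpa using hy, rfl⟩
  obtain ⟨f, hf, hfc, hyf, hdim⟩ := Nat.find_spec hex
  have hmin : ∀ g : MonoidAlgebra k H, g * g = g → (∀ a, a * g = g * a) → y * g ≠ 0 →
      dim f ≤ dim g := by
    intro g hg hgc hyg
    rw [hdim]
    exact Nat.find_min' hex ⟨g, hg, hgc, hyg, rfl⟩
  have hmain : ∀ g : MonoidAlgebra k H, g * g = g → (∀ a, a * g = g * a) → y * (g * f) ≠ 0 →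
      g * f = f := by
    intro g hg hgc hyg
    have h1 : dim f ≤ dim (g * f) := by
      apply hmin
      · calc g * f * (g * f) = g * (f * g) * f := by noncomm_ring
          _ = g * (g * f) * f := by rw [hgc f]
          _ = (g * g) * (f * f) := by noncomm_ring
          _ = g * f := by rw [hg, hf]
      · intro a
        rw [← mul_assoc, hgc a, mul_assoc, hfc a, mul_assoc]
      · exact hyg
    have hle : LinearMap.range (LinearMap.mulRight k (g * f)) ≤
        LinearMap.range (LinearMap.mulRight k f) := by
      rintro _ ⟨a, rfl⟩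
      refine ⟨a * g, ?_⟩
      simp [mul_assoc]
    have heq := Submodule.eq_of_le_of_finrank_le hle h1
    have hmem : f ∈ LinearMap.range (LinearMap.mulRight k f) := ⟨1, by simp⟩
    rw [← heq] at hmem
    obtain ⟨a, ha⟩ := hmem
    simp only [LinearMap.mulRight_apply] at ha
    calc g * f = f * g := (hgc f).symm
      _ = a * (g * f) * g := by rw [ha]
      _ = a * g * (f * g) := by noncomm_ring
      _ = a * g * (g * f) := by rw [hgc f]
      _ = a * ((g * g) * f) := by noncomm_ring
      _ = f := by rw [hg, ha]
  refine ⟨f, ⟨?_, hf, hfc, ?_⟩, hyf⟩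
  · intro h0
    rw [h0, mul_zero] at hyf
    exact hyf rfl
  · intro g hg hgc
    by_cases h0 : y * (g * f) = 0
    · left
      have h1 : y * ((1 - g) * f) ≠ 0 := by
        intro h
        apply hyf
        have : y * f = y * (g * f) + y * ((1 - g) * f) := by noncomm_ring
        rw [this, h0, h, add_zero]
      have h2 := hmain (1 - g) (by
          have : (1 - g) * (1 - g) = 1 - g - g + g * g := by noncomm_ring
          rw [this, hg]; abel) (by
          intro a
          rw [mul_sub, sub_mul, hgc a, mul_one, one_mul]) h1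
      rw [sub_mul, one_mul, sub_eq_self] at h2
      exact h2
    · right
      exact hmain g hg hgc h0

end Pool.Agent.Helper36.NB
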