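import Mathlib
import Pool.Agent.Helper36.NB.Defs
import Pool.Agent.Helper36.NB.A1

open scoped BigOperators MonoidAlgebra
open Classical

namespace Pool.Agent.Helper36.NB

namespace D1aux

/-- The identity element of a stable two-sided ideal of a semisimple ring. -/
theorem ideal_one {A : Type} [Ring A] [IsSemisimpleRing A] (φ : A → A)
    (hmul : ∀ a b, φ (a * b) = φ b * φ a)
    (hφφ : ∀ a, φ (φ a) = a) (L : Ideal A) (hr : ∀ x ∈ L, ∀ y, x * y ∈ L)
    (hφ : ∀ x ∈ L, φ x ∈ L) :
    ∃ e ∈ L, e * e = e ∧ φ e = e ∧ (∀ x, e * x = x * e) ∧ ∀ x ∈ L, x * e = x := by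
  obtain ⟨e, he, hL⟩ := IsSemisimpleRing.ideal_eq_span_idempotent L
  have heL : e ∈ L := by
    rw [hL]
    exact Submodule.mem_span_singleton_self e
  have h1 : ∀ x ∈ L, x * e = x := by
    intro x hx
    rw [hL] at hx
    obtain ⟨z, rfl⟩ := Submodule.mem_span_singleton.mp hx
    change z * e * e = z * e
    rw [mul_assoc, he.eq]
  have h2 : ∀ x ∈ L, φ e * x = x := by
    intro x hx
    have h3 := congrArg φ (h1 _ (hφ x hx))
    rw [hmul, hφφ] at h3
    exact h3
  have h3 : φ e = e := by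
    rw [← h1 _ (hφ e heL), h2 e heL]
  refine ⟨e, heL, he.eq, h3, fun x => ?_, h1⟩
  have h4 := h1 _ (hr e heL x)
  have h5 := h2 _ (L.mul_mem_left x heL)
  rw [h3] at h5
  rw [← h4, mul_assoc]
  exact h5

theorem core {A K : Type} [Ring A] [IsSemisimpleRing A] [Field K] [CharP K 2] (φ : A → A)
    (hadd : ∀ a b, φ (a + b) = φ a + φ b) (hmul : ∀ a b, φ (a * b) = φ b * φ a)
    (hφφ : ∀ a, φ (φ a) = a) (lam : A → K) (hladd : ∀ a b, lam (a + b) = lam a + lam b)
    (hlam : ∀ a b, lam (a * b) = lam (b * a)) (hlamφ : ∀ a, lam (φ a) = lam a)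
    (ι : A) (hιφ : φ ι = ι) (hlι : lam ι ≠ 0)
    (hcut : ∀ c, c * c = c → φ c = c → (∀ x, c * x = x * c) → lam (ι * c) ≠ 0 → ι * c = ι)
    (I : Ideal A) (hI : ∀ x ∈ I, ∀ y, x * y ∈ I) (a : A) (ha : a ∈ I) (haι : a * ι = a)
    (ha0 : a ≠ 0) : ι ∈ I := by
  have hφ0 : φ 0 = 0 := by
    have h := hadd 0 0
    rw [add_zero] at h
    exact (add_eq_left.mp h.symm)
  have hneg : ∀ x, φ (-x) = - φ x := by
    intro x
    have h := hadd x (-x)
    rw [add_neg_cancel, hφ0] at h
    exact (neg_eq_of_add_eq_zero_right h.symm).symm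
  have hsub : ∀ x y, φ (x - y) = φ x - φ y := by
    intro x y
    rw [sub_eq_add_neg, hadd, hneg, ← sub_eq_add_neg]
  have hφ1 : φ 1 = 1 := by
    have h := hmul 1 (φ 1)
    rw [one_mul, hφφ, one_mul] at h
    exact h.symm
  have hl0 : lam 0 = 0 := by
    have h := hladd 0 0
    rw [add_zero] at h
    exact (add_eq_left.mp h.symm)
  let I' : Ideal A :=
    { carrier := {x | φ x ∈ I}
      add_mem' := by
        intro x y hx hy
        simp only [Set.mem_ofPred_eq] at *
        rw [hadd]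
        exact I.add_mem hx hy
      zero_mem' := by
        simp only [Set.mem_ofPred_eq]
        rw [hφ0]
        exact I.zero_mem
      smul_mem' := by
        intro c x hx
        simp only [Set.mem_ofPred_eq, smul_eq_mul] at *
        rw [hmul]
        exact hI _ hx _ }
  have hI'm : ∀ x, x ∈ I' ↔ φ x ∈ I := fun x => Iff.rfl
  have hI' : ∀ x ∈ I', ∀ y, x * y ∈ I' := by
    intro x hx y
    rw [hI'm, hmul]
    exact I.mul_mem_left _ hx
  have h12 : ∀ x ∈ I, φ x ∈ I' := fun x hx => by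
    rw [hI'm, hφφ]
    exact hx
  obtain ⟨c, hcL, hcc, hφc, hccen, hcid⟩ := ideal_one φ hmul hφφ (I ⊔ I') (by
      intro x hx y
      obtain ⟨p, hp, q, hq, rfl⟩ := Submodule.mem_sup.mp hx
      rw [add_mul]
      exact Submodule.add_mem_sup (hI p hp y) (hI' q hq y)) (by
      intro x hx
      obtain ⟨p, hp, q, hq, rfl⟩ := Submodule.mem_sup.mp hx
      rw [hadd, add_comm]
      exact Submodule.add_mem_sup hq (h12 p hp))
  obtain ⟨d, hdL, hdd, hφd, hdcen, hdid⟩ := ideal_one φ hmul hφφ (I ⊓ I') (by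
      intro x hx y
      exact ⟨hI x hx.1 y, hI' x hx.2 y⟩) (by
      intro x hx
      exact ⟨hx.2, h12 x hx.1⟩)
  have hdc : d * c = d := hcid d (Submodule.mem_sup_left hdL.1)
  have hcd : c * d = d := by rw [hccen, hdc]
  set u := c - d with hu
  have huu : u * u = u := by
    rw [hu, sub_mul, mul_sub, mul_sub, hcc, hcd, hdc, hdd]
    abel
  have huc : u * c = u := by rw [hu, sub_mul, hcc, hdc]
  have hud : u * d = 0 := by rw [hu, sub_mul, hcd, hdd, sub_self]
  have hucen : ∀ x, u * x = x * u := by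
    intro x
    rw [hu, sub_mul, mul_sub, hccen, hdcen]
  have hφu : φ u = u := by rw [hu, hsub, hφc, hφd]
  obtain ⟨p0, hp0, q0, hq0, hpq0⟩ := Submodule.mem_sup.mp hcL
  set p := u * p0 with hp
  set q := u * q0 with hq
  have hpI : p ∈ I := I.mul_mem_left _ hp0
  have hqI : q ∈ I' := I'.mul_mem_left _ hq0
  have hpq : p + q = u := by rw [hp, hq, ← mul_add, hpq0, huc]
  have hpφ : p = φ q := by
    have h1 : p - φ q ∈ I ⊓ I' := by
      refine ⟨I.sub_mem hpI hqI, ?_⟩
      have h2 : p - φ q = φ p - q := by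
        have h3 : φ p + φ q = u := by rw [← hadd, hpq, hφu]
        rw [sub_eq_sub_iff_add_eq_add, hpq, ← h3]
      rw [h2]
      exact I'.sub_mem (h12 p hpI) hqI
    have h2 : u * (p - φ q) = p - φ q := by
      have h3 : u * p = p := by rw [hp, ← mul_assoc, huu]
      have h4 : u * φ q = φ q := by
        rw [hucen, hq, hmul, hφu, mul_assoc, huu]
      rw [mul_sub, h3, h4]
    have h3 := hdid _ h1
    have h4 : p - φ q = 0 := by
      calc p - φ q = u * (p - φ q) := h2.symm
        _ = u * ((p - φ q) * d) := by rw [h3]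
        _ = (u * d) * (p - φ q) := by rw [← hdcen, ← mul_assoc]
        _ = 0 := by rw [hud, zero_mul]
    exact sub_eq_zero.mp h4
  have hlu : lam (ι * u) = 0 := by
    rw [← hpq, mul_add, hladd, hpφ]
    have h1 : lam (ι * φ q) = lam (ι * q) := by
      calc lam (ι * φ q) = lam (φ (q * ι)) := by rw [hmul q ι, hιφ]
        _ = lam (q * ι) := hlamφ _
        _ = lam (ι * q) := hlam _ _
    rw [h1]
    exact CharTwo.add_self_eq_zero _
  have hlc' : lam (ι * (1 - c)) = 0 := by
    by_contra hne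
    have h1 := hcut (1 - c) (by rw [mul_sub, mul_one, sub_mul, one_mul, hcc]; abel)
      (by rw [hsub, hφ1, hφc])
      (fun x => by rw [sub_mul, mul_sub, one_mul, mul_one, hccen]) hne
    have h2 : ι * c = 0 := by
      rw [mul_sub, mul_one] at h1
      exact sub_eq_self.mp h1
    have h3 := hcid a (Submodule.mem_sup_left ha)
    apply ha0
    rw [← h3, ← haι, mul_assoc, h2, mul_zero]
  have hld : lam (ι * d) ≠ 0 := by
    have h1 : ι = ι * (1 - c) + (ι * u + ι * d) := by
      rw [hu]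
      noncomm_ring
    have h2 : lam ι = lam (ι * d) := by
      conv_lhs => rw [h1]
      rw [hladd, hladd, hlc', hlu, zero_add, zero_add]
    rw [← h2]
    exact hlι
  have h1 := hcut d hdd hφd hdcen hld
  rw [← h1]
  exact I.mul_mem_left _ hdL.1

end D1aux

/-- A `ψ`-fixed idempotent in a single factor of the semisimple quotient. -/
theorem exists_homog {k R : Type} [Field k] [IsAlgClosed k] [CharP k 2] [Ring R] [Algebra k R]
    [FiniteDimensional k R] (ψ : R →ₗ[k] R) (hψm : ∀ a b, ψ (a * b) = ψ b * ψ a)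
    (hψψ : ∀ a, ψ (ψ a) = a) (lam : R →ₗ[k] k) (hlam : ∀ a b, lam (a * b) = lam (b * a))
    (hnil : ∀ a, IsNilpotent a → lam a = 0) (hlamψ : ∀ a, lam (ψ a) = lam a)
    (ε : R) (hε : ε * ε = ε) (hεψ : ψ ε = ε) (hlamε : lam ε ≠ 0) :
    ∃ i : R, i * i = i ∧ ψ i = i ∧ ε * i = i ∧ i * ε = i ∧ lam i ≠ 0 ∧
      ∀ a, i * a = a → a * i = a → ¬ IsNilpotent a →
        ∃ (m : ℕ) (x y : Fin m → R), i = ∑ l, x l * a * y l := by
  have hψ1 : ψ 1 = 1 := by
    have h := hψm 1 (ψ 1)
    rw [one_mul, hψψ, one_mul] at h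
    exact h.symm
  have : IsArtinianRing R := IsArtinianRing.of_finite k R
  obtain ⟨N, hN⟩ := IsSemiprimaryRing.isNilpotent (R := R)
  have hJnil : ∀ r ∈ Ring.jacobson R, IsNilpotent r := by
    intro r hr
    refine ⟨N, ?_⟩
    have h1 : ∀ n : ℕ, r ^ n ∈ (Ring.jacobson R) ^ n := by
      intro n
      induction n with
      | zero =>
        rw [pow_zero, Submodule.pow_zero, Ideal.one_eq_top]
        trivial
      | succ n ih =>
        rw [pow_succ, Submodule.pow_succ]
        exact Ideal.mul_mem_mul ih hr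
    have h2 := h1 N
    rw [hN] at h2
    simpa using h2
  have hnilψ : ∀ r, IsNilpotent r → IsNilpotent (ψ r) := by
    rintro r ⟨n, hn⟩
    refine ⟨n, ?_⟩
    have h1 : ∀ n : ℕ, ψ r ^ n = ψ (r ^ n) := by
      intro n
      induction n with
      | zero => simp [hψ1]
      | succ n ih => rw [pow_succ, ih, ← hψm, pow_succ']
    rw [h1, hn, map_zero]
  have hmemJ : ∀ r, (∀ y, IsNilpotent (y * r)) → r ∈ Ring.jacobson R := by
    intro r hr
    have h1 : r ∈ Ideal.jacobson (⊥ : Ideal R) := by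
      rw [Ideal.mem_jacobson_iff]
      intro y
      have h2 : IsUnit (1 + y * r) := (hr y).isUnit_one_add
      obtain ⟨v, hv⟩ := h2
      refine ⟨(↑v⁻¹ : R), ?_⟩
      have h3 : (↑v⁻¹ : R) * y * r + ↑v⁻¹ - 1 = 0 := by
        have h4 : (↑v⁻¹ : R) * (1 + y * r) = 1 := by rw [← hv]; simp
        calc (↑v⁻¹ : R) * y * r + ↑v⁻¹ - 1 = (↑v⁻¹ : R) * (1 + y * r) - 1 := by noncomm_ring
          _ = 0 := by rw [h4, sub_self]
      rw [h3]
      exact Ideal.zero_mem _
    rwa [Ideal.jacobson_bot] at h1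
  have hψJ : ∀ r ∈ Ring.jacobson R, ψ r ∈ Ring.jacobson R := by
    intro r hr
    refine hmemJ _ fun y => ?_
    have h1 : y * ψ r = ψ (r * ψ y) := by rw [hψm, hψψ]
    rw [h1]
    exact hnilψ _ (hJnil _ (Ideal.mul_mem_right _ _ hr))
  -- the quotient
  let π : R →+* (R ⧸ Ring.jacobson R) := Ideal.Quotient.mk (Ring.jacobson R)
  have hπs : Function.Surjective π := Ideal.Quotient.mk_surjective
  have hπe : ∀ {x y : R}, π x = π y ↔ x - y ∈ Ring.jacobson R := fun {x y} => Ideal.Quotient.eq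
  have hπ0 : ∀ {x : R}, π x = 0 ↔ x ∈ Ring.jacobson R := fun {x} => Ideal.Quotient.eq_zero_iff_mem
  obtain ⟨φ, hφ⟩ : ∃ φ : (R ⧸ Ring.jacobson R) → (R ⧸ Ring.jacobson R), ∀ r, φ (π r) = π (ψ r) := by
    refine ⟨fun x => π (ψ (Function.surjInv hπs x)), fun r => ?_⟩
    change π (ψ _) = π (ψ r)
    rw [hπe, ← map_sub]
    exact hψJ _ (hπe.mp (Function.surjInv_eq hπs _))
  obtain ⟨lb, hlb⟩ : ∃ lb : (R ⧸ Ring.jacobson R) → k, ∀ r, lb (π r) = lam r := by
    refine ⟨fun x => lam (Function.surjInv hπs x), fun r => ?_⟩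
    change lam _ = lam r
    rw [← sub_eq_zero, ← map_sub]
    exact hnil _ (hJnil _ (hπe.mp (Function.surjInv_eq hπs _)))
  have hφadd : ∀ a b, φ (a + b) = φ a + φ b := by
    intro a b
    obtain ⟨a, rfl⟩ := hπs a
    obtain ⟨b, rfl⟩ := hπs b
    rw [← map_add, hφ, hφ, hφ, map_add, map_add]
  have hφmul : ∀ a b, φ (a * b) = φ b * φ a := by
    intro a b
    obtain ⟨a, rfl⟩ := hπs a
    obtain ⟨b, rfl⟩ := hπs b
    rw [← map_mul, hφ, hφ, hφ, hψm, map_mul]
  have hφφ : ∀ a, φ (φ a) = a := by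
    intro a
    obtain ⟨a, rfl⟩ := hπs a
    rw [hφ, hφ, hψψ]
  have hladd : ∀ a b, lb (a + b) = lb a + lb b := by
    intro a b
    obtain ⟨a, rfl⟩ := hπs a
    obtain ⟨b, rfl⟩ := hπs b
    rw [← map_add, hlb, hlb, hlb, map_add]
  have hlbc : ∀ a b, lb (a * b) = lb (b * a) := by
    intro a b
    obtain ⟨a, rfl⟩ := hπs a
    obtain ⟨b, rfl⟩ := hπs b
    rw [← map_mul, ← map_mul, hlb, hlb, hlam]
  have hlbφ : ∀ a, lb (φ a) = lb a := by
    intro a
    obtain ⟨a, rfl⟩ := hπs a
    rw [hφ, hlb, hlb, hlamψ]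
  -- a minimal idempotent
  let μ : R → ℕ := fun i => Module.finrank k (LinearMap.range (LinearMap.mulLeft k i))
  let S : Set R := {i | i * i = i ∧ ψ i = i ∧ ε * i = i ∧ i * ε = i ∧ lam i ≠ 0}
  obtain ⟨i, hiS, hmin⟩ := (measure μ).wf.has_min S ⟨ε, hε, hεψ, hε, hε, hlamε⟩
  obtain ⟨hii, hψi, hεi, hiε, hli⟩ := hiS
  have hmin' : ∀ f ∈ S, i * f = f → f = i := by
    intro f hf hif
    have h1 : μ i ≤ μ f := not_lt.mp (hmin f hf)
    have h2 : LinearMap.range (LinearMap.mulLeft k f) ≤ LinearMap.range (LinearMap.mulLeft k i) := by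
      rintro _ ⟨x, rfl⟩
      refine ⟨f * x, ?_⟩
      simp only [LinearMap.mulLeft_apply]
      rw [← mul_assoc, hif]
    have h3 := Submodule.eq_of_le_of_finrank_le h2 h1
    have h4 : i ∈ LinearMap.range (LinearMap.mulLeft k f) := by
      rw [h3]
      exact ⟨i, by simp only [LinearMap.mulLeft_apply]; exact hii⟩
    obtain ⟨x, hx⟩ := h4
    simp only [LinearMap.mulLeft_apply] at hx
    have h5 : f * i = i := by rw [← hx, ← mul_assoc, hf.1]
    have h6 : ψ (i * f) = ψ f := by rw [hif]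
    rw [hψm, hψi, hf.2.1] at h6
    rw [← h6, h5]
  have hcut : ∀ c, c * c = c → φ c = c → (∀ x, c * x = x * c) → lb (π i * c) ≠ 0 →
      π i * c = π i := by
    intro c hcc hφc hcen hlc
    obtain ⟨y, rfl⟩ := hπs c
    set s := i * (y * ψ y) * i with hs
    have hψs : ψ s = s := by
      rw [hs, hψm, hψm, hψm, hψψ, hψi]
      noncomm_ring
    have hπi : π i * π i = π i := by rw [← map_mul, hii]
    have hπs' : π s = π i * π y := by
      have h1 : π (ψ y) = π y := by rw [← hφ, hφc]
      rw [hs, map_mul, map_mul, map_mul, h1, hcc, mul_assoc, hcen, ← mul_assoc, hπi]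
    have hss : π s * π s = π s := by
      rw [hπs']
      calc π i * π y * (π i * π y) = π i * (π y * π i) * π y := by noncomm_ring
        _ = (π i * π i) * (π y * π y) := by rw [hcen]; noncomm_ring
        _ = π i * π y := by rw [hπi, hcc]
    obtain ⟨f, b, hf, hb, hff, hsb, hnf⟩ := fitting (k := k) s
    have hcomm : ∀ x ∈ Algebra.adjoin k {s}, ∀ y ∈ Algebra.adjoin k {s}, x * y = y * x := by
      intro x hx y hy
      exact congrArg Subtype.val (mul_comm' (⟨x, hx⟩ : Algebra.adjoin k {s}) ⟨y, hy⟩)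
    have hfix : ∀ x ∈ Algebra.adjoin k {s}, ψ x = x := by
      intro x hx
      induction hx using Algebra.adjoin_induction with
      | mem x hx =>
        rw [Set.mem_singleton_iff.mp hx]
        exact hψs
      | algebraMap r => rw [Algebra.algebraMap_eq_smul_one, map_smul, hψ1]
      | add x y _ _ hx hy => rw [map_add, hx, hy]
      | mul x y hx' hy' hx hy => rw [hψm, hx, hy, hcomm y hy' x hx']
    have hsm : s ∈ Algebra.adjoin k {s} := Algebra.subset_adjoin (Set.mem_singleton s)
    have his : i * s = s := by rw [hs, ← mul_assoc, ← mul_assoc, hii]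
    have hif : i * f = f := by rw [← hsb, ← mul_assoc, his]
    have hψf : ψ f = f := hfix f hf
    have hπf : π f = π s := by
      have h1 : π f * π s = π s * π f := by
        rw [← map_mul, ← map_mul, hcomm f hf s hsm]
      have h2 : π s * (1 - π f) = 0 := by
        have h3 : IsNilpotent (π s * (1 - π f)) := by
          have := hnf.map π
          rwa [map_mul, map_sub, map_one] at this
        have h4 : (π s * (1 - π f)) * (π s * (1 - π f)) = π s * (1 - π f) := by
          have h5 : π f * π f = π f := by rw [← map_mul, hff]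
          calc (π s * (1 - π f)) * (π s * (1 - π f))
              = π s * π s - π s * π s * π f - π s * (π f * π s) + π s * (π f * π s) * π f := by
                noncomm_ring
            _ = π s * (1 - π f) := by
              rw [h1, ← mul_assoc, hss, mul_assoc (π s) (π f) (π f), h5]
              noncomm_ring
        obtain ⟨n, hn⟩ := h3
        have h6 : ∀ n : ℕ, (π s * (1 - π f)) ^ (n + 1) = π s * (1 - π f) := by
          intro n
          induction n with
          | zero => rw [zero_add, pow_one]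
          | succ n ih => rw [pow_succ, ih, h4]
        rw [← h6 n, pow_succ, hn, zero_mul]
      have h3 : π s * π f = π s := by
        rw [mul_sub, mul_one, sub_eq_zero] at h2
        exact h2.symm
      have h4 : π s * π f = π f := by
        have h5 : π f = π s * π b := by rw [← map_mul, hsb]
        rw [h5, ← mul_assoc, hss]
      rw [← h4, h3]
    have hlf : lam f ≠ 0 := by
      rw [← hlb, hπf, hπs']
      exact hlc
    have hεf : ε * f = f := by rw [← hif, ← mul_assoc, hεi]
    have hfε : f * ε = f := by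
      have h1 := congrArg ψ hεf
      rwa [hψm, hψf, hεψ] at h1
    have h1 := hmin' f ⟨hff, hψf, hεf, hfε, hlf⟩ hif
    rw [← hπs', ← hπf, h1]
  refine ⟨i, hii, hψi, hεi, hiε, hli, fun a hia hai hna => ?_⟩
  let I : Ideal (R ⧸ Ring.jacobson R) := Submodule.span _ {x | ∃ y : R, x = π (a * y)}
  have hI : ∀ x ∈ I, ∀ y, x * y ∈ I := by
    intro x hx y
    induction hx using Submodule.span_induction with
    | mem x hx =>
      obtain ⟨z, rfl⟩ := hx
      obtain ⟨y, rfl⟩ := hπs y
      refine Submodule.subset_span ⟨z * y, ?_⟩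
      rw [← map_mul, mul_assoc]
    | zero => rw [zero_mul]; exact I.zero_mem
    | add x z _ _ hx hz => rw [add_mul]; exact I.add_mem hx hz
    | smul c x _ hx =>
      rw [smul_eq_mul, mul_assoc]
      exact I.mul_mem_left _ hx
  have hmem := D1aux.core φ hφadd hφmul hφφ lb hladd hlbc hlbφ (π i) (by rw [hφ, hψi])
    (by rw [hlb]; exact hli) hcut I hI (π a) (Submodule.subset_span ⟨1, by rw [mul_one]⟩)
    (by rw [← map_mul, hai]) (fun h => hna (hJnil a (hπ0.mp h)))
  obtain ⟨m, g, w, hw⟩ := Submodule.mem_span_set'.mp hmem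
  choose y hy using fun l => (w l).2
  choose x hx using fun l => hπs (g l)
  have hsum : π (∑ l, x l * a * y l) = π i := by
    rw [← hw, map_sum]
    refine Finset.sum_congr rfl fun l _ => ?_
    rw [hy l, mul_assoc, map_mul, hx l]
    rfl
  set W := ∑ l, x l * a * y l with hW
  set n := i - i * W * i with hn
  have hnJ : n ∈ Ring.jacobson R := by
    rw [← hπ0, hn, map_sub, map_mul, map_mul, hsum, ← map_mul, ← map_mul, hii, hii, sub_self]
  obtain ⟨v, hv⟩ := (hJnil n hnJ).isUnit_one_sub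
  have hin : i * n = n := by
    rw [hn, mul_sub, ← mul_assoc, ← mul_assoc, hii]
  have h1 : i * W * i = i * (v : R) := by
    rw [hv, mul_sub, mul_one, hin, hn]
    abel
  refine ⟨m, fun l => i * x l, fun l => y l * i * (↑v⁻¹ : R), ?_⟩
  calc i = i * (v : R) * (↑v⁻¹ : R) := by rw [mul_assoc, Units.mul_inv, mul_one]
    _ = i * W * i * (↑v⁻¹ : R) := by rw [h1]
    _ = ∑ l, i * x l * a * (y l * i * (↑v⁻¹ : R)) := by
      rw [hW, Finset.mul_sum, Finset.sum_mul, Finset.sum_mul]
      refine Finset.sum_congr rfl fun l _ => ?_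
      noncomm_ring

end Pool.Agent.Helper36.NB
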