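import Mathlib
import Pool.Agent.Helper36.NB.Defs

open scoped BigOperators MonoidAlgebra
open Classical

namespace Pool.Agent.Helper36.NB

private lemma D2_inv_single {k : Type} [CommRing k] {G : Type} [Group G] (g : G) (r : k) :
    inv' (MonoidAlgebra.single g r) = MonoidAlgebra.single g⁻¹ r := by
  simp [inv']

private lemma D2_inv_add {k : Type} [CommRing k] {G : Type} [Group G] (a b : MonoidAlgebra k G) :
    inv' (a + b) = inv' a + inv' b := by
  simp [inv', MonoidAlgebra.mapDomain_add]

private lemma D2_inv_zero {k : Type} [CommRing k] {G : Type} [Group G] :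
    inv' (0 : MonoidAlgebra k G) = 0 := by
  simp [inv']

private lemma D2_inv_smul {k : Type} [CommRing k] {G : Type} [Group G] (c : k)
    (a : MonoidAlgebra k G) : inv' (c • a) = c • inv' a := by
  induction a using MonoidAlgebra.induction_linear with
  | zero => simp [D2_inv_zero]
  | add x y hx hy => rw [smul_add, D2_inv_add, D2_inv_add, smul_add, hx, hy]
  | single g r =>
    rw [MonoidAlgebra.smul_single, D2_inv_single, D2_inv_single, MonoidAlgebra.smul_single]

private lemma D2_inv_inv {k : Type} [CommRing k] {G : Type} [Group G]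
    (a : MonoidAlgebra k G) : inv' (inv' a) = a := by
  induction a using MonoidAlgebra.induction_linear with
  | zero => simp [D2_inv_zero]
  | add x y hx hy => rw [D2_inv_add, D2_inv_add, hx, hy]
  | single g r => rw [D2_inv_single, D2_inv_single, inv_inv]

private lemma D2_inv_mul {k : Type} [CommRing k] {G : Type} [Group G]
    (a b : MonoidAlgebra k G) : inv' (a * b) = inv' b * inv' a := by
  induction a using MonoidAlgebra.induction_linear with
  | zero => simp [D2_inv_zero]
  | add x y hx hy => rw [add_mul, D2_inv_add, D2_inv_add, mul_add, hx, hy]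
  | single g r =>
    induction b using MonoidAlgebra.induction_linear with
    | zero => simp [D2_inv_zero]
    | add x y hx hy => rw [mul_add, D2_inv_add, D2_inv_add, add_mul, hx, hy]
    | single h s =>
      rw [MonoidAlgebra.single_mul_single, D2_inv_single, D2_inv_single, D2_inv_single,
        MonoidAlgebra.single_mul_single, mul_inv_rev, mul_comm r s]

private lemma D2_inv_one {k : Type} [CommRing k] {G : Type} [Group G] :
    inv' (1 : MonoidAlgebra k G) = 1 := by
  rw [MonoidAlgebra.one_def, D2_inv_single, inv_one]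

/-- the dual representation as a linear map. -/
private noncomputable def D2_dual {k : Type} [Field k] {G : Type} [Group G] {n : ℕ}
    (ρ : MonoidAlgebra k G →ₐ[k] Matrix (Fin n) (Fin n) k) :
    MonoidAlgebra k G →ₗ[k] Matrix (Fin n) (Fin n) k where
  toFun a := (ρ (inv' a)).transpose
  map_add' a b := by rw [D2_inv_add, map_add, Matrix.transpose_add]
  map_smul' c a := by rw [D2_inv_smul, map_smul, Matrix.transpose_smul]; rfl

private lemma D2_dual_apply {k : Type} [Field k] {G : Type} [Group G] {n : ℕ}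
    (ρ : MonoidAlgebra k G →ₐ[k] Matrix (Fin n) (Fin n) k) (a : MonoidAlgebra k G) :
    D2_dual ρ a = (ρ (inv' a)).transpose := rfl

private lemma D2_trace_conj {k : Type} [Field k] {n : ℕ}
    (σ : Matrix (Fin n) (Fin n) k ≃ₐ[k] Matrix (Fin n) (Fin n) k)
    (A : Matrix (Fin n) (Fin n) k) : (σ A).trace = A.trace := by
  let φ : Matrix (Fin n) (Fin n) k ≃ₐ[k] Module.End k (Fin n → k) := Matrix.toLinAlgEquiv'
  let f : Module.End k (Fin n → k) ≃ₐ[k] Module.End k (Fin n → k) := (φ.symm.trans σ).trans φ
  obtain ⟨T, hT⟩ := f.eq_linearEquivConjAlgEquiv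
  have hφ : ∀ B : Matrix (Fin n) (Fin n) k, LinearMap.trace k _ (φ B) = B.trace := fun B =>
    Matrix.trace_toLin'_eq B
  have h1 : f (φ A) = φ (σ A) := by simp [f]
  have h2 : f (φ A) = T.conj (φ A) := by rw [hT]; rfl
  have h3 : LinearMap.trace k _ (φ (σ A)) = LinearMap.trace k _ (φ A) := by
    rw [← h1, h2, LinearMap.trace_conj']
  rw [hφ, hφ] at h3
  exact h3

/-- The simple module of a real block is self-dual. -/
theorem trace_inv {k : Type} [Field k] {G : Type} [Group G] [Finite G]
    (e : MonoidAlgebra k G) (hee : inv' e = e) (S : SimpleQuot e) (a : MonoidAlgebra k G) :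
    (S.ρ (inv' a)).trace = (S.ρ a).trace := by
  set r : MonoidAlgebra k G →ₗ[k] Matrix (Fin S.n) (Fin S.n) k := D2_dual S.ρ with hr
  have hmul : ∀ x y, r (x * y) = r x * r y := by
    intro x y
    rw [hr, D2_dual_apply, D2_dual_apply, D2_dual_apply, D2_inv_mul, map_mul,
      Matrix.transpose_mul]
  have hone : r 1 = 1 := by
    rw [hr, D2_dual_apply, D2_inv_one, map_one, Matrix.transpose_one]
  have he : r e = 1 := by
    rw [hr, D2_dual_apply, hee, S.one, Matrix.transpose_one]
  have hsurj : Function.Surjective r := by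
    intro A
    obtain ⟨x, hx⟩ := S.surj A.transpose
    refine ⟨inv' x, ?_⟩
    rw [hr, D2_dual_apply, D2_inv_inv, hx, Matrix.transpose_transpose]
  have hpow : ∀ x (m : ℕ), r (x ^ m) = r x ^ m := by
    intro x m
    induction m with
    | zero => rw [pow_zero, pow_zero, hone]
    | succ m ih => rw [pow_succ, pow_succ, hmul, ih]
  -- the kernel of `ρ` is contained in the kernel of `r`
  have hker : ∀ x, S.ρ x = 0 → r x = 0 := by
    intro x hx
    by_contra hne
    obtain ⟨i, j, hij⟩ : ∃ i j, r x i j ≠ 0 := by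
      by_contra hcon
      push Not at hcon
      exact hne (Matrix.ext fun i j => hcon i j)
    obtain ⟨u, hu⟩ := hsurj (Matrix.single i i (1 : k))
    obtain ⟨v, hv⟩ := hsurj (Matrix.single j i ((r x i j)⁻¹))
    have hρ : S.ρ (u * x * v) = 0 := by rw [map_mul, map_mul, hx, mul_zero, zero_mul]
    obtain ⟨m, hm⟩ := S.nil _ hρ
    have h1 : r (u * x * v) = Matrix.single i i (1 : k) := by
      rw [hmul, hmul, hu, hv]
      rw [Matrix.single_mul_mul_single, one_mul, mul_inv_cancel₀ hij]
    have h2 : r ((u * x * v * e) ^ m) = Matrix.single i i (1 : k) ^ m := by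
      rw [hpow, hmul, he, mul_one, h1]
    rw [hm, map_zero] at h2
    have h3 : ∀ m : ℕ, (Matrix.single i i (1 : k) : Matrix (Fin S.n) (Fin S.n) k) ^ m ≠ 0 := by
      intro m
      have h4 : ∀ m : ℕ, ((Matrix.single i i (1 : k) : Matrix (Fin S.n) (Fin S.n) k)) ^ (m + 1)
          = Matrix.single i i (1 : k) := by
        intro m
        induction m with
        | zero => rw [zero_add, pow_one]
        | succ m ih => rw [pow_succ, ih, Matrix.single_mul_single_same, mul_one]
      intro h0
      have h5 : ((Matrix.single i i (1 : k) : Matrix (Fin S.n) (Fin S.n) k)) ^ (m + 1) = 0 := by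
        rw [pow_succ, h0, zero_mul]
      rw [h4 m] at h5
      have h6 := congrFun (congrFun h5 i) i
      simp at h6
    exact h3 m h2.symm
  -- the induced automorphism
  obtain ⟨s, hs⟩ := S.ρ.toLinearMap.exists_rightInverse_of_surjective
    (LinearMap.range_eq_top.2 S.surj)
  have hs' : ∀ A, S.ρ (s A) = A := fun A => by
    have := LinearMap.congr_fun hs A
    simpa using this
  have hσ : ∀ x, r (s (S.ρ x)) = r x := by
    intro x
    have h := hker (s (S.ρ x) - x) (by rw [map_sub, hs', sub_self])
    rw [map_sub, sub_eq_zero] at h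
    exact h
  let σ₀ : Matrix (Fin S.n) (Fin S.n) k →ₗ[k] Matrix (Fin S.n) (Fin S.n) k := r ∘ₗ s
  let σ₁ : Matrix (Fin S.n) (Fin S.n) k →ₐ[k] Matrix (Fin S.n) (Fin S.n) k :=
    AlgHom.ofLinearMap σ₀
      (by
        have h := hσ 1
        rw [map_one, hone] at h
        exact h)
      (by
        intro A B
        obtain ⟨x, rfl⟩ := S.surj A
        obtain ⟨y, rfl⟩ := S.surj B
        change r (s (S.ρ x * S.ρ y)) = r (s (S.ρ x)) * r (s (S.ρ y))
        rw [← map_mul, hσ, hσ, hσ, hmul])
  have hσ₁ : ∀ x, σ₁ (S.ρ x) = r x := hσ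
  have hsurj₁ : Function.Surjective σ₁ := by
    intro A
    obtain ⟨x, hx⟩ := hsurj A
    exact ⟨S.ρ x, by rw [hσ₁, hx]⟩
  have hinj₁ : Function.Injective σ₁ :=
    (LinearMap.injective_iff_surjective (f := σ₁.toLinearMap)).2 hsurj₁
  have h := D2_trace_conj (AlgEquiv.ofBijective σ₁ ⟨hinj₁, hsurj₁⟩) (S.ρ a)
  have h' : (r a).trace = (S.ρ a).trace := by
    rw [← hσ₁]; exact h
  rw [← h', hr, D2_dual_apply, Matrix.trace_transpose]

private lemma D2_el_pow {k : Type} [CommRing k] {G : Type} [Group G] (x : G) (i : ℕ) :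
    el k x ^ i = el k (x ^ i) := by
  induction i with
  | zero => rw [pow_zero, pow_zero]; rfl
  | succ i ih => rw [pow_succ, pow_succ, el_mul, ih]

private lemma D2_inv_sum {k : Type} [CommRing k] {G : Type} [Group G] {ι : Type} (s : Finset ι)
    (f : ι → MonoidAlgebra k G) : inv' (∑ i ∈ s, f i) = ∑ i ∈ s, inv' (f i) := by
  induction s using Finset.induction_on with
  | empty => simp [D2_inv_zero]
  | insert a s ha ih => rw [Finset.sum_insert ha, Finset.sum_insert ha, D2_inv_add, ih]

private lemma D2_inv_el {k : Type} [CommRing k] {G : Type} [Group G] (g : G) :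
    inv' (el k g) = el k g⁻¹ := by
  rw [el, D2_inv_single, el]

theorem exists_eps {k : Type} [Field k] [IsAlgClosed k] [CharP k 2] {G : Type} [Group G]
    [Finite G] (x t : G) (hx : Odd (orderOf x)) (htx : t * x * t⁻¹ = x⁻¹)
    (lam : MonoidAlgebra k G →ₗ[k] k) (hx0 : lam (el k x) ≠ 0) :
    ∃ ε ∈ Algebra.adjoin k {el k x}, ε * ε = ε ∧ el k t * inv' ε * el k t⁻¹ = ε ∧
      lam ε ≠ 0 := by
  set o := orderOf x with ho
  have hcast : (o : k) = 1 := by
    obtain ⟨m, hm⟩ := hx
    rw [hm]
    push_cast
    rw [CharTwo.two_eq_zero, zero_mul, zero_add]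
  have : NeZero (o : k) := ⟨by rw [hcast]; exact one_ne_zero⟩
  obtain ⟨ω, hω⟩ := HasEnoughRootsOfUnity.exists_primitiveRoot k o
  have hω0 : ω ≠ 0 := hω.ne_zero (by
    intro h
    rw [h] at hcast
    simp at hcast)
  have hωo : ω ^ o = 1 := hω.pow_eq_one
  have hinvo : (ω⁻¹) ^ o = 1 := by rw [inv_pow, hωo, inv_one]
  have hxo : el k x ^ o = 1 := by
    rw [D2_el_pow, ho, pow_orderOf_eq_one]; rfl
  let F : ℕ → ℕ → MonoidAlgebra k G := fun j i => ((ω⁻¹) ^ (j * i)) • (el k x) ^ i
  let E : ℕ → MonoidAlgebra k G := fun j => ∑ i ∈ Finset.range o, F j i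
  have hF0 : ∀ j, F j o = F j 0 := by
    intro j
    change ((ω⁻¹) ^ (j * o)) • (el k x) ^ o = ((ω⁻¹) ^ (j * 0)) • (el k x) ^ 0
    rw [mul_comm j o, pow_mul, hinvo, one_pow, hxo, mul_zero, pow_zero, pow_zero]
  have hshift : ∀ j, ∑ i ∈ Finset.range o, F j (i + 1) = E j := by
    intro j
    have h1 := Finset.sum_range_succ (F j) o
    have h2 := Finset.sum_range_succ' (F j) o
    rw [h1, hF0] at h2
    exact (add_right_cancel h2).symm
  have hxE : ∀ j, el k x * E j = (ω ^ j) • E j := by
    intro j
    conv_rhs => rw [← hshift j]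
    change el k x * ∑ i ∈ Finset.range o, F j i = _
    rw [Finset.mul_sum, Finset.smul_sum]
    refine Finset.sum_congr rfl fun i _ => ?_
    change el k x * (((ω⁻¹) ^ (j * i)) • (el k x) ^ i)
      = (ω ^ j) • (((ω⁻¹) ^ (j * (i + 1))) • (el k x) ^ (i + 1))
    rw [smul_smul, mul_smul_comm, ← pow_succ']
    congr 1
    rw [mul_add, mul_one, pow_add, mul_comm ((ω⁻¹) ^ (j * i)), ← mul_assoc, ← mul_pow,
      mul_inv_cancel₀ hω0, one_pow, one_mul]
  have hxiE : ∀ j i, el k x ^ i * E j = (ω ^ (j * i)) • E j := by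
    intro j i
    induction i with
    | zero => simp
    | succ i ih =>
      rw [pow_succ', mul_assoc, ih, mul_smul_comm, hxE, smul_smul, mul_add, mul_one, pow_add]
  have hEE : ∀ j, E j * E j = E j := by
    intro j
    have h1 : E j * E j = ∑ i ∈ Finset.range o, F j i * E j := by
      rw [← Finset.sum_mul]
    rw [h1]
    have h2 : ∀ i ∈ Finset.range o, F j i * E j = E j := by
      intro i _
      change (((ω⁻¹) ^ (j * i)) • (el k x) ^ i) * E j = E j
      rw [smul_mul_assoc, hxiE, smul_smul, ← mul_pow, inv_mul_cancel₀ hω0, one_pow, one_smul]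
    rw [Finset.sum_congr rfl h2, Finset.sum_const, Finset.card_range, ← Nat.cast_smul_eq_nsmul k,
      hcast, one_smul]
  have hsum : ∑ j ∈ Finset.range o, E j = 1 := by
    change ∑ j ∈ Finset.range o, ∑ i ∈ Finset.range o, ((ω⁻¹) ^ (j * i)) • (el k x) ^ i = 1
    rw [Finset.sum_comm]
    have h1 : ∀ i ∈ Finset.range o, ∑ j ∈ Finset.range o, ((ω⁻¹) ^ (j * i)) • (el k x) ^ i
        = if i = 0 then (1 : MonoidAlgebra k G) else 0 := by
      intro i hi
      rw [← Finset.sum_smul]
      split_ifs with h0
      · rw [h0]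
        simp only [mul_zero, pow_zero, Finset.sum_const, Finset.card_range, nsmul_eq_mul,
          mul_one, hcast, one_smul]
      · have h2 : ∑ j ∈ Finset.range o, (ω⁻¹) ^ (j * i) = 0 := by
          have h3 : ∑ j ∈ Finset.range o, (ω⁻¹) ^ (j * i)
              = ∑ j ∈ Finset.range o, ((ω⁻¹) ^ i) ^ j := by
            refine Finset.sum_congr rfl fun j _ => ?_
            rw [← pow_mul, mul_comm]
          rw [h3]
          have h4 := geom_sum_mul ((ω⁻¹) ^ i) o
          rw [← pow_mul, mul_comm i o, pow_mul, hinvo, one_pow, sub_self] at h4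
          rcases mul_eq_zero.1 h4 with h5 | h5
          · exact h5
          · exfalso
            rw [sub_eq_zero, inv_pow, inv_eq_one] at h5
            exact h0 (Nat.eq_zero_of_dvd_of_lt (hω.dvd_of_pow_eq_one i h5)
              (Finset.mem_range.1 hi))
        rw [h2, zero_smul]
    rw [Finset.sum_congr rfl h1, Finset.sum_ite_eq' (Finset.range o) 0, if_pos]
    rw [Finset.mem_range]
    exact Nat.pos_of_ne_zero (by
      intro h
      rw [h] at hcast
      simp at hcast)
  obtain ⟨j, hj⟩ : ∃ j, lam (E j) ≠ 0 := by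
    by_contra hcon
    push Not at hcon
    apply hx0
    have h1 : el k x = ∑ j ∈ Finset.range o, (ω ^ j) • E j := by
      calc el k x = el k x * ∑ j ∈ Finset.range o, E j := by rw [hsum, mul_one]
        _ = _ := by
          rw [Finset.mul_sum]
          exact Finset.sum_congr rfl fun j _ => hxE j
    rw [h1, map_sum]
    refine Finset.sum_eq_zero fun j _ => ?_
    rw [map_smul, hcon j, smul_zero]
  refine ⟨E j, ?_, hEE j, ?_, hj⟩
  · have hm : el k x ∈ Algebra.adjoin k {el k x} := Algebra.subset_adjoin (Set.mem_singleton _)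
    have hm2 : ∀ i, (el k x) ^ i ∈ Algebra.adjoin k {el k x} := fun i =>
      (Algebra.adjoin k {el k x}).pow_mem hm i
    have hm3 : ∀ i, F j i ∈ Algebra.adjoin k {el k x} := fun i =>
      (Algebra.adjoin k {el k x}).smul_mem (hm2 i) ((ω⁻¹) ^ (j * i))
    exact (Algebra.adjoin k {el k x}).sum_mem fun i _ => hm3 i
  · change el k t * inv' (∑ i ∈ Finset.range o, F j i) * el k t⁻¹ = ∑ i ∈ Finset.range o, F j i
    rw [D2_inv_sum, Finset.mul_sum, Finset.sum_mul]
    refine Finset.sum_congr rfl fun i _ => ?_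
    change el k t * inv' (((ω⁻¹) ^ (j * i)) • (el k x) ^ i) * el k t⁻¹
      = ((ω⁻¹) ^ (j * i)) • (el k x) ^ i
    rw [D2_inv_smul, mul_smul_comm, smul_mul_assoc]
    congr 1
    rw [D2_el_pow, D2_inv_el, ← el_mul, ← el_mul]
    congr 1
    have h1 : t * (x ^ i)⁻¹ * t⁻¹ = ((t * x * t⁻¹) ^ i)⁻¹ := by
      rw [conj_pow]; group
    rw [h1, htx, inv_pow, inv_inv]

theorem exists_primitive {k R : Type} [Field k] [Ring R] [Algebra k R] [FiniteDimensional k R]
    (lam : R →ₗ[k] k) (i : R) (hi : i * i = i) (hlam : lam i ≠ 0) :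
    ∃ q : R, q * q = q ∧ i * q = q ∧ q * i = q ∧ lam q ≠ 0 ∧
      ∀ f, f * f = f → q * f = f → f * q = f → f = 0 ∨ f = q := by
  have key : ∀ (n : ℕ) (i : R), i * i = i → lam i ≠ 0 →
      Module.finrank k (LinearMap.range (LinearMap.mulLeft k i)) = n →
      ∃ q : R, q * q = q ∧ i * q = q ∧ q * i = q ∧ lam q ≠ 0 ∧
        ∀ f, f * f = f → q * f = f → f * q = f → f = 0 ∨ f = q := by
    intro n
    induction n using Nat.strong_induction_on with
    | _ n ih =>
      intro i hi hlam hn
      by_cases hprim : ∀ f, f * f = f → i * f = f → f * i = f → f = 0 ∨ f = i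
      · exact ⟨i, hi, hi, hi, hlam, hprim⟩
      · push Not at hprim
        obtain ⟨f, hf, hif, hfi, hf0, hfne⟩ := hprim
        -- a proper subidempotent has smaller rank
        have hlt : ∀ g : R, g * g = g → i * g = g → g * i = g → g ≠ i →
            Module.finrank k (LinearMap.range (LinearMap.mulLeft k g)) < n := by
          intro g hg hig hgi hgne
          rw [← hn]
          apply Submodule.finrank_lt_finrank_of_lt
          refine lt_of_le_of_ne ?_ ?_
          · rintro _ ⟨y, rfl⟩
            refine ⟨g * y, ?_⟩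
            simp only [LinearMap.mulLeft_apply]
            rw [← mul_assoc, hig]
          · intro heq
            have h1 : i ∈ LinearMap.range (LinearMap.mulLeft k i) :=
              ⟨i, by simp only [LinearMap.mulLeft_apply]; exact hi⟩
            rw [← heq] at h1
            obtain ⟨y, hy⟩ := h1
            simp only [LinearMap.mulLeft_apply] at hy
            apply hgne
            calc g = g * i := hgi.symm
              _ = g * (g * y) := by rw [hy]
              _ = g * y := by rw [← mul_assoc, hg]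
              _ = i := hy
        by_cases h1 : lam f = 0
        · have h2 : lam (i - f) ≠ 0 := by rw [map_sub, h1, sub_zero]; exact hlam
          have h3 : (i - f) * (i - f) = i - f := by
            rw [sub_mul, mul_sub, mul_sub, hi, hif, hfi, hf]; abel
          have h4 : i * (i - f) = i - f := by rw [mul_sub, hi, hif]
          have h5 : (i - f) * i = i - f := by rw [sub_mul, hi, hfi]
          have h6 : i - f ≠ i := by
            intro h
            apply hf0
            exact sub_eq_self.1 h
          obtain ⟨q, hq, hiq, hqi, hlq, hqp⟩ := ih _ (hlt _ h3 h4 h5 h6) (i - f) h3 h2 rfl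
          refine ⟨q, hq, ?_, ?_, hlq, hqp⟩
          · rw [← hiq, ← mul_assoc, h4]
          · rw [← hqi, mul_assoc, h5]
        · obtain ⟨q, hq, hiq, hqi, hlq, hqp⟩ := ih _ (hlt _ hf hif hfi hfne) f hf h1 rfl
          refine ⟨q, hq, ?_, ?_, hlq, hqp⟩
          · rw [← hiq, ← mul_assoc, hif]
          · rw [← hqi, mul_assoc, hfi]
  exact key _ i hi hlam rfl

end Pool.Agent.Helper36.NB
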