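import Mathlib
import Pool.Agent.Helper36.NB.Defs

open scoped BigOperators MonoidAlgebra
open Classical

namespace Pool.Agent.Helper36.NB

theorem sum_fixed {k P X : Type} [Ring k] [CharP k 2] [Group P] [Finite P] [Fintype X]
    [MulAction P X] (hP : IsPGroup 2 P) (F : X → k) (hF : ∀ (p : P) (x : X), F (p • x) = F x) :
    ∑ x, F x = ∑ x ∈ Finset.univ.filter (fun x => ∀ p : P, p • x = x), F x := by
  rw [← Finset.sum_filter_add_sum_filter_not Finset.univ (fun x : X => ∀ p : P, p • x = x) F]
  suffices h0 : ∑ x ∈ Finset.univ.filter (fun x : X => ¬ ∀ p : P, p • x = x), F x = 0 by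
    rw [h0, add_zero]
  let _ : Fintype (Quotient (MulAction.orbitRel P X)) := Fintype.ofFinite _
  rw [← Finset.sum_fiberwise (Finset.univ.filter (fun x : X => ¬ ∀ p : P, p • x = x))
    (fun x => (Quotient.mk (MulAction.orbitRel P X) x)) F]
  refine Finset.sum_eq_zero (fun q _ => ?_)
  obtain ⟨y, rfl⟩ := Quotient.exists_rep q
  have hmk : ∀ x : X, (Quotient.mk (MulAction.orbitRel P X) x
      = Quotient.mk (MulAction.orbitRel P X) y) ↔ x ∈ MulAction.orbit P y := by
    intro x
    rw [Quotient.eq]
    exact Iff.rfl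
  by_cases hy : ∀ p : P, p • y = y
  · refine Finset.sum_eq_zero (fun x hx => ?_)
    exfalso
    rw [Finset.mem_filter, Finset.mem_filter] at hx
    obtain ⟨⟨_, h1⟩, h2⟩ := hx
    obtain ⟨p, hp⟩ := (hmk x).1 h2
    have hp' : p • y = x := hp
    rw [hy p] at hp'
    exact h1 (hp' ▸ hy)
  · have hset : (Finset.univ.filter (fun x : X => ¬ ∀ p : P, p • x = x)).filter
        (fun x => Quotient.mk (MulAction.orbitRel P X) x
          = Quotient.mk (MulAction.orbitRel P X) y) = (MulAction.orbit P y).toFinset := by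
      ext x
      rw [Finset.mem_filter, Finset.mem_filter, Set.mem_toFinset, hmk x]
      constructor
      · exact fun h => h.2
      · intro h
        refine ⟨⟨Finset.mem_univ _, fun hx => hy ?_⟩, h⟩
        obtain ⟨p, hp⟩ := h
        have hp' : p • y = x := hp
        have h3 : y = x := by
          have h4 := hx p⁻¹
          rw [← hp', inv_smul_smul] at h4
          rw [← hp']
          exact h4
        rw [h3]
        exact hx
    rw [hset]
    have h5 : ∀ x ∈ (MulAction.orbit P y).toFinset, F x = F y := by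
      intro x hx
      rw [Set.mem_toFinset] at hx
      obtain ⟨p, hp⟩ := hx
      have hp' : p • y = x := hp
      rw [← hp', hF]
    rw [Finset.sum_congr rfl h5, Finset.sum_const]
    obtain ⟨n, hn⟩ := hP.card_orbit y
    have hcard : (MulAction.orbit P y).toFinset.card = 2 ^ n := by
      rw [← hn, Set.toFinset_card, Nat.card_eq_fintype_card]
    have hn0 : n ≠ 0 := by
      intro h0
      apply hy
      intro p
      rw [h0, pow_zero, Finset.card_eq_one] at hcard
      obtain ⟨z, hz⟩ := hcard
      have h6 : p • y ∈ (MulAction.orbit P y).toFinset := by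
        rw [Set.mem_toFinset]; exact ⟨p, rfl⟩
      have h7 : y ∈ (MulAction.orbit P y).toFinset := by
        rw [Set.mem_toFinset]; exact MulAction.mem_orbit_self y
      rw [hz, Finset.mem_singleton] at h6 h7
      rw [h6, ← h7]
    obtain ⟨m, rfl⟩ := Nat.exists_eq_succ_of_ne_zero hn0
    rw [hcard, pow_succ, nsmul_eq_mul, Nat.cast_mul]
    have h2 : ((2 : ℕ) : k) = 0 := CharP.cast_eq_zero k 2
    rw [h2, mul_zero, zero_mul]

namespace G1aux

theorem conj_sum {k : Type} [Field k] [CharP k 2] {G : Type} [Group G] [Fintype G]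
    (Q : Subgroup G) (hQ : IsPGroup 2 Q) (F : G → k)
    (hF : ∀ p ∈ Q, ∀ x, F (p * x * p⁻¹) = F x) :
    ∑ x, F x = ∑ x : Subgroup.centralizer (Q : Set G), F x := by
  let act : MulAction Q G := MulAction.compHom G ((MulAut.conj (G := G)).comp Q.subtype)
  have hact : ∀ (p : Q) (x : G), act.toSMul.smul p x = (p : G) * x * (p : G)⁻¹ := fun p x => rfl
  have h := @sum_fixed k Q G _ _ _ _ _ act hQ F (fun p x => by
    change F (act.toSMul.smul p x) = F x
    rw [hact]; exact hF p p.2 x)
  rw [h]
  symm
  refine Finset.sum_bij (fun (x : Subgroup.centralizer (Q : Set G)) _ => (x : G)) ?_ ?_ ?_ ?_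
  · intro x _
    refine (@Finset.mem_filter _ _ (_) _ _).2 ⟨Finset.mem_univ _, fun p => ?_⟩
    change act.toSMul.smul p x = x
    rw [hact]
    have h1 := Subgroup.mem_centralizer_iff.1 x.2 p p.2
    rw [h1]; group
  · intro x _ y _ hxy
    exact Subtype.ext hxy
  · intro x hx
    replace hx := (@Finset.mem_filter _ _ (_) _ _).1 hx
    refine ⟨⟨x, Subgroup.mem_centralizer_iff.2 fun p hp => ?_⟩, Finset.mem_univ _, rfl⟩
    have h1 : act.toSMul.smul ⟨p, hp⟩ x = x := hx.2 ⟨p, hp⟩
    rw [hact] at h1
    calc p * x = p * x * p⁻¹ * p := by group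
      _ = x * p := by
        have h2 : p * x * p⁻¹ = x := h1
        rw [h2]
  · intro x _
    rfl

theorem coeff_conj {k : Type} [Field k] {G : Type} [Group G] (u : G) (a : MonoidAlgebra k G)
    (ha : el k u * a = a * el k u) (x : G) : a.coeff (u * x * u⁻¹) = a.coeff x := by
  have h := congrArg (fun z => z.coeff (u * x)) ha
  simp only [el, MonoidAlgebra.coeff_single_mul_apply, MonoidAlgebra.coeff_mul_single_apply,
    one_mul, mul_one, inv_mul_cancel_left] at h
  exact h.symm

theorem coeff_mul_sum {k : Type} [Field k] {G : Type} [Group G] [Fintype G]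
    (a b : MonoidAlgebra k G) (g : G) :
    (a * b).coeff g = ∑ x, a.coeff x * b.coeff (x⁻¹ * g) := by
  rw [MonoidAlgebra.coeff_mul_apply_left, Finsupp.sum_fintype]
  intro i
  rw [zero_mul]

theorem res_coeff {k : Type} [Field k] {G : Type} [Group G] (H : Subgroup G)
    (a : MonoidAlgebra k G) (h : H) : (res H a).coeff h = a.coeff (h : G) := by
  simp [res]

theorem eq_sum {k : Type} [Field k] {G : Type} [Group G] [Fintype G] (a : MonoidAlgebra k G) :
    a = ∑ g, MonoidAlgebra.single g (a.coeff g) := by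
  ext g
  rw [MonoidAlgebra.coeff_sum]
  simp

end G1aux

open G1aux

/-- The Brauer homomorphism is multiplicative. -/
theorem res_mul {k : Type} [Field k] [CharP k 2] {G : Type} [Group G] [Finite G]
    (Q : Subgroup G) (hQ : IsPGroup 2 Q) (H : Subgroup G)
    (hH : H = Subgroup.centralizer (Q : Set G)) (a b : MonoidAlgebra k G) (ha : Cen Q a)
    (hb : Cen Q b) : res H (a * b) = res H a * res H b := by
  subst hH
  let _ : Fintype G := Fintype.ofFinite G
  ext h
  rw [res_coeff, coeff_mul_sum, coeff_mul_sum]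
  have h1 : ∀ x : Subgroup.centralizer (Q : Set G),
      (res (Subgroup.centralizer (Q : Set G)) a).coeff x
        * (res (Subgroup.centralizer (Q : Set G)) b).coeff (x⁻¹ * h)
      = a.coeff (x : G) * b.coeff ((x : G)⁻¹ * h) := by
    intro x
    rw [res_coeff, res_coeff]
    rfl
  rw [Finset.sum_congr rfl (fun x _ => h1 x)]
  refine conj_sum Q hQ (fun x => a.coeff x * b.coeff (x⁻¹ * (h : G))) ?_
  intro p hp x
  have h2 := Subgroup.mem_centralizer_iff.1 h.2 p hp
  have h3 : (p * x * p⁻¹)⁻¹ * (h : G) = p * (x⁻¹ * h) * p⁻¹ := by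
    have h4 : p⁻¹ * (h : G) = h * p⁻¹ := by
      rw [inv_mul_eq_iff_eq_mul, ← mul_assoc, h2]; group
    calc (p * x * p⁻¹)⁻¹ * (h : G) = p * x⁻¹ * (p⁻¹ * h) := by group
      _ = p * (x⁻¹ * h) * p⁻¹ := by rw [h4]; group
  change a.coeff (p * x * p⁻¹) * b.coeff ((p * x * p⁻¹)⁻¹ * (h : G)) = _
  rw [h3, coeff_conj p a (ha p hp) x, coeff_conj p b (hb p hp) (x⁻¹ * h)]

theorem res_mul_cent {k : Type} [Field k] [CharP k 2] {G : Type} [Group G] [Finite G]
    (u : G) (hu : ∃ n : ℕ, orderOf u = 2 ^ n) (a b : MonoidAlgebra k G)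
    (ha : el k u * a = a * el k u) (hb : el k u * b = b * el k u) :
    res (cent u) (a * b) = res (cent u) a * res (cent u) b := by
  have hcen : ∀ c : MonoidAlgebra k G, el k u * c = c * el k u → Cen (Subgroup.zpowers u) c := by
    intro c hc v hv
    rw [← mem_powers_iff_mem_zpowers] at hv
    obtain ⟨n, hn⟩ := hv
    have hn' : u ^ n = v := hn
    rw [← hn']
    clear hn hn'
    induction n with
    | zero => rw [pow_zero, el_one, one_mul, mul_one]
    | succ m ih =>
      rw [pow_succ, el_mul, mul_assoc, hc, ← mul_assoc, ih, mul_assoc]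
  refine res_mul (Subgroup.zpowers u) ?_ (cent u) ?_ a b (hcen a ha) (hcen b hb)
  · obtain ⟨n, hn⟩ := hu
    exact IsPGroup.of_card (n := n) (by rw [Nat.card_zpowers, hn])
  · ext x
    rw [Subgroup.mem_centralizer_iff, Subgroup.mem_centralizer_iff]
    constructor
    · intro h v hv
      have h1 : Commute u x := h u rfl
      obtain ⟨n, hn⟩ := hv
      have hn' : u ^ n = v := hn
      rw [← hn']
      exact (h1.zpow_left n).eq
    · intro h v hv
      rw [Set.mem_singleton_iff] at hv
      rw [hv]
      exact h u (Subgroup.mem_zpowers u)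

/-- A central function only depends on the Brauer homomorphism. -/
theorem lam_res {k : Type} [Field k] [CharP k 2] {G : Type} [Group G] [Finite G]
    (Q : Subgroup G) (hQ : IsPGroup 2 Q) (H : Subgroup G)
    (hH : H = Subgroup.centralizer (Q : Set G)) (lam : MonoidAlgebra k G →ₗ[k] k)
    (hlam : ∀ a b, lam (a * b) = lam (b * a)) (a : MonoidAlgebra k G) (ha : Cen Q a) :
    lam a = lam (incl k H (res H a)) := by
  subst hH
  let _ : Fintype G := Fintype.ofFinite G
  have hs : ∀ (g : G) (c : k), MonoidAlgebra.single g c = c • el k g := by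
    intro g c
    simp [el]
  have h1 : lam a = ∑ g, a.coeff g * lam (el k g) := by
    conv_lhs => rw [eq_sum a]
    rw [map_sum]
    refine Finset.sum_congr rfl (fun g _ => ?_)
    rw [hs, map_smul, smul_eq_mul]
  have h2 : lam (incl k (Subgroup.centralizer (Q : Set G))
      (res (Subgroup.centralizer (Q : Set G)) a))
      = ∑ x : Subgroup.centralizer (Q : Set G), a.coeff (x : G) * lam (el k (x : G)) := by
    rw [eq_sum (res (Subgroup.centralizer (Q : Set G)) a), map_sum, map_sum]
    refine Finset.sum_congr rfl (fun x _ => ?_)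
    have h3 : incl k (Subgroup.centralizer (Q : Set G)) (MonoidAlgebra.single x
        ((res (Subgroup.centralizer (Q : Set G)) a).coeff x))
        = MonoidAlgebra.single (x : G) (a.coeff (x : G)) := by
      rw [res_coeff]
      simp [incl]
    rw [h3, hs, map_smul, smul_eq_mul]
  rw [h1, h2]
  refine conj_sum Q hQ (fun x => a.coeff x * lam (el k x)) ?_
  intro p hp x
  rw [coeff_conj p a (ha p hp) x, mul_assoc p x, el_mul, hlam, ← el_mul]
  congr 3
  group

end Pool.Agent.Helper36.NB
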