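import Mathlib
import Pool.Agent.Helper36.NB.Defs
import Pool.Agent.Helper36.NB.G1
import Pool.Agent.Helper36.NB.C2

open scoped BigOperators MonoidAlgebra
open Classical

namespace Pool.Agent.Helper36.NB

namespace D3aux

variable {k : Type} [Field k] {G : Type} [Group G]

theorem res_coeff (H : Subgroup G) (a : MonoidAlgebra k G) (h : H) :
    (res H a).coeff h = a.coeff (h : G) := by
  simp [res]

theorem incl_coeff_mem (H : Subgroup G) (x : MonoidAlgebra k H) (g : G) (hg : g ∈ H) :
    (incl k H x).coeff g = x.coeff ⟨g, hg⟩ := by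
  have h := Finsupp.mapDomain_apply (f := (Subtype.val : H → G)) Subtype.val_injective x.coeff
    ⟨g, hg⟩
  exact h

theorem incl_coeff_not_mem (H : Subgroup G) (x : MonoidAlgebra k H) (g : G) (hg : g ∉ H) :
    (incl k H x).coeff g = 0 := by
  have h := Finsupp.mapDomain_of_notMem_range (f := (Subtype.val : H → G)) x.coeff g
    (by simpa using hg)
  exact h

theorem res_incl (H : Subgroup G) (x : MonoidAlgebra k H) : res H (incl k H x) = x := by
  ext h
  rw [res_coeff, incl_coeff_mem H x (h : G) h.2]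

/-- restriction to the centraliser -/
noncomputable def br (Q : Subgroup G) (a : MonoidAlgebra k G) : MonoidAlgebra k G :=
  incl k (Subgroup.centralizer (Q : Set G)) (res (Subgroup.centralizer (Q : Set G)) a)

theorem br_coeff (Q : Subgroup G) (a : MonoidAlgebra k G) (g : G) :
    (br Q a).coeff g = if g ∈ Subgroup.centralizer (Q : Set G) then a.coeff g else 0 := by
  split_ifs with h
  · rw [br, incl_coeff_mem _ _ _ h, res_coeff]
  · rw [br, incl_coeff_not_mem _ _ _ h]

theorem br_add (Q : Subgroup G) (a b : MonoidAlgebra k G) : br Q (a + b) = br Q a + br Q b := by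
  ext g
  simp only [br_coeff, MonoidAlgebra.coeff_add, Finsupp.add_apply]
  split_ifs <;> simp

theorem br_sub (Q : Subgroup G) (a b : MonoidAlgebra k G) : br Q (a - b) = br Q a - br Q b := by
  ext g
  simp only [br_coeff, MonoidAlgebra.coeff_sub, Finsupp.sub_apply]
  split_ifs <;> simp

theorem br_zero (Q : Subgroup G) : br Q (0 : MonoidAlgebra k G) = 0 := by
  ext g
  simp [br_coeff]

theorem br_sum {ι : Type} (s : Finset ι) (Q : Subgroup G) (a : ι → MonoidAlgebra k G) :
    br Q (∑ l ∈ s, a l) = ∑ l ∈ s, br Q (a l) := by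
  induction s using Finset.induction_on with
  | empty => simp [br_zero]
  | insert x s hx ih => rw [Finset.sum_insert hx, Finset.sum_insert hx, br_add, ih]

theorem el_mul_coeff (u : G) (a : MonoidAlgebra k G) (g : G) :
    (el k u * a).coeff g = a.coeff (u⁻¹ * g) := by
  rw [el, MonoidAlgebra.coeff_single_mul_apply, one_mul]

theorem mul_el_coeff (u : G) (a : MonoidAlgebra k G) (g : G) :
    (a * el k u).coeff g = a.coeff (g * u⁻¹) := by
  rw [el, MonoidAlgebra.coeff_mul_single_apply, mul_one]

theorem comm_iff (u : G) (a : MonoidAlgebra k G) :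
    el k u * a = a * el k u ↔ ∀ g, a.coeff (u⁻¹ * g * u) = a.coeff g := by
  constructor
  · intro h g
    have h1 := congrArg (fun x => x.coeff (g * u)) h
    simp only [el_mul_coeff, mul_el_coeff] at h1
    rw [mul_assoc, h1]
    congr 1
    group
  · intro h
    ext g
    rw [el_mul_coeff, mul_el_coeff, ← h (g * u⁻¹)]
    congr 1
    group

theorem el_inv_mul (u : G) : el k u⁻¹ * el k u = 1 := by
  rw [← el_mul, inv_mul_cancel, el_one]

theorem el_mul_inv (u : G) : el k u * el k u⁻¹ = 1 := by
  rw [← el_mul, mul_inv_cancel, el_one]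

theorem cen_mul {D : Subgroup G} {a b : MonoidAlgebra k G} (ha : Cen D a) (hb : Cen D b) :
    Cen D (a * b) := by
  intro u hu
  rw [← mul_assoc, ha u hu, mul_assoc, hb u hu, mul_assoc]

theorem cen_sub {D : Subgroup G} {a b : MonoidAlgebra k G} (ha : Cen D a) (hb : Cen D b) :
    Cen D (a - b) := by
  intro u hu
  rw [mul_sub, sub_mul, ha u hu, hb u hu]

theorem cen_one (D : Subgroup G) : Cen D (1 : MonoidAlgebra k G) := by
  intro u _
  rw [mul_one, one_mul]

theorem cen_mono {D E : Subgroup G} (h : E ≤ D) {a : MonoidAlgebra k G} (ha : Cen D a) :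
    Cen E a := fun u hu => ha u (h hu)

theorem coeff_conj {D : Subgroup G} {a : MonoidAlgebra k G} (ha : Cen D a) (u : G) (hu : u ∈ D)
    (g : G) : a.coeff (u⁻¹ * g * u) = a.coeff g := (comm_iff u a).1 (ha u hu) g

/-- an element commuting with `H` commutes with everything supported on `H` -/
theorem comm_of_supp [Finite G] (H : Subgroup G) (e a : MonoidAlgebra k G)
    (he : ∀ g ∈ H, el k g * e = e * el k g) (ha : ∀ g, a.coeff g ≠ 0 → g ∈ H) :
    a * e = e * a := by
  have hsum : a = ∑ g ∈ a.coeff.support, a.coeff g • el k g := by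
    conv_lhs => rw [← MonoidAlgebra.sum_coeff_single a]
    rw [Finsupp.sum]
    refine Finset.sum_congr rfl fun g _ => ?_
    rw [el, MonoidAlgebra.smul_single, smul_eq_mul, mul_one]
  rw [hsum, Finset.sum_mul, Finset.mul_sum]
  refine Finset.sum_congr rfl fun g hg => ?_
  rw [smul_mul_assoc, mul_smul_comm, he g (ha g (Finsupp.mem_support_iff.1 hg))]

theorem br_eq_self (Q : Subgroup G) (a : MonoidAlgebra k G)
    (ha : ∀ g, a.coeff g ≠ 0 → g ∈ Subgroup.centralizer (Q : Set G)) : br Q a = a := by
  ext g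
  rw [br_coeff]
  split_ifs with h
  · rfl
  · by_contra h1
    exact h (ha g (fun h2 => h1 h2.symm))

theorem supp_br (Q : Subgroup G) (a : MonoidAlgebra k G) (g : G) (h : (br Q a).coeff g ≠ 0) :
    g ∈ Subgroup.centralizer (Q : Set G) := by
  rw [br_coeff] at h
  split_ifs at h with h1
  · exact h1
  · exact absurd rfl h

theorem supp_of_br {Q : Subgroup G} {a : MonoidAlgebra k G} (h : br Q a = a) (g : G)
    (hg : a.coeff g ≠ 0) : g ∈ Subgroup.centralizer (Q : Set G) := by
  rw [← h] at hg
  exact supp_br Q a g hg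

theorem br_mul_self (Q : Subgroup G) (a b : MonoidAlgebra k G) (ha : br Q a = a)
    (hb : br Q b = b) : br Q (a * b) = a * b := by
  have h : a * b = incl k (Subgroup.centralizer (Q : Set G))
      (res (Subgroup.centralizer (Q : Set G)) a * res (Subgroup.centralizer (Q : Set G)) b) := by
    rw [map_mul]
    conv_lhs => rw [← ha, ← hb]
    rfl
  rw [h, br, res_incl]

theorem br_one (Q : Subgroup G) : br Q (1 : MonoidAlgebra k G) = 1 := by
  apply br_eq_self
  intro g hg
  by_cases h : g = 1
  · rw [h]; exact Subgroup.one_mem _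
  · exfalso
    apply hg
    rw [MonoidAlgebra.one_def, MonoidAlgebra.coeff_single, Finsupp.single_apply,
      if_neg (Ne.symm h)]

theorem br_mul [CharP k 2] [Finite G] {Q : Subgroup G} (hQ : IsPGroup 2 Q)
    {a b : MonoidAlgebra k G} (ha : Cen Q a) (hb : Cen Q b) :
    br Q (a * b) = br Q a * br Q b := by
  rw [br, res_mul Q hQ _ rfl a b ha hb, map_mul]
  rfl

theorem lam_br [CharP k 2] [Finite G] {Q : Subgroup G} (hQ : IsPGroup 2 Q)
    (lam : MonoidAlgebra k G →ₗ[k] k) (hlam : ∀ a b, lam (a * b) = lam (b * a))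
    {a : MonoidAlgebra k G} (ha : Cen Q a) : lam a = lam (br Q a) :=
  lam_res Q hQ _ rfl lam hlam a ha

theorem br_br {Q T : Subgroup G} (h : Q ≤ T) (a : MonoidAlgebra k G) :
    br T (br Q a) = br T a := by
  ext g
  rw [br_coeff, br_coeff, br_coeff]
  by_cases h1 : g ∈ Subgroup.centralizer (T : Set G)
  · have h2 : g ∈ Subgroup.centralizer (Q : Set G) :=
      Subgroup.centralizer_le (by exact_mod_cast h) h1
    rw [if_pos h1, if_pos h2, if_pos h1]
  · rw [if_neg h1, if_neg h1]

/-- The normaliser condition inside a `2`-group. -/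
theorem exists_normalizer [Finite G] {Q D : Subgroup G} (hD : IsPGroup 2 D) (hQ : Q ≤ D)
    (hne : Q ≠ D) : ∃ x ∈ D, x ∉ Q ∧ x ∈ Subgroup.normalizer (Q : Set G) := by
  have : Fact (Nat.Prime 2) := ⟨Nat.prime_two⟩
  have : Group.IsNilpotent D := hD.isNilpotent
  have hN : NormalizerCondition D := Group.normalizerCondition_of_isNilpotent
  have hlt : Q.subgroupOf D < ⊤ := by
    rw [lt_top_iff_ne_top]
    intro h
    rw [Subgroup.subgroupOf_eq_top] at h
    exact hne (le_antisymm hQ h)
  obtain ⟨x, hx1, hx2⟩ := SetLike.exists_of_lt (hN _ hlt)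
  refine ⟨x, x.2, fun h => hx2 (by rwa [Subgroup.mem_subgroupOf]), ?_⟩
  rw [Subgroup.mem_normalizer_iff]
  rw [Subgroup.mem_normalizer_iff] at hx1
  intro q
  constructor
  · intro hq
    have := (hx1 ⟨q, hQ hq⟩).1 (by rw [Subgroup.mem_subgroupOf]; exact hq)
    rw [Subgroup.mem_subgroupOf] at this
    simpa using this
  · intro hq
    have hqD : q ∈ D := by
      have h1 := D.mul_mem (D.mul_mem (D.inv_mem x.2) (hQ hq)) x.2
      have h2 : (x : G)⁻¹ * ((x : G) * q * (x : G)⁻¹) * (x : G) = q := by group
      rwa [h2] at h1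
    have := (hx1 ⟨q, hqD⟩).2 (by
      rw [Subgroup.mem_subgroupOf]
      simpa using hq)
    rw [Subgroup.mem_subgroupOf] at this
    exact this


/-- The core of the argument. -/
theorem core [CharP k 2] [Finite G] {Q D N : Subgroup G} (hD : IsPGroup 2 D) (hQ : Q ≤ D)
    (hne : Q ≠ D) (hN : ∀ x, x ∈ N ↔ x ∈ D ∧ x ∈ Subgroup.normalizer (Q : Set G))
    (i : MonoidAlgebra k G) (hi : i * i = i) (hiD : Cen D i) (lam : MonoidAlgebra k G →ₗ[k] k)
    (hlam : ∀ a b, lam (a * b) = lam (b * a)) (hlami : lam i ≠ 0)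
    (hH : ∀ a, Cen D a → i * a = a → a * i = a → ¬ IsNilpotent a →
      ∃ (m : ℕ) (x y : Fin m → MonoidAlgebra k G), (∀ l, Cen D (x l)) ∧ (∀ l, Cen D (y l)) ∧
        i = ∑ l, x l * a * y l)
    (w : MonoidAlgebra k G) (hw : br Q w = w) (hwN : Cen N w) (hww : w * w = w)
    (hew : br Q i * w = w) (hwe : w * br Q i = w)
    (hT : ∀ T : Subgroup G, Q ≤ T → Q ≠ T → T ≤ N → br T w = 0) : w = 0 := by
  have hQD2 : IsPGroup 2 Q := hD.to_le hQ
  -- stabilisers of elements of the support
  have K : ∀ g, w.coeff g ≠ 0 → ∀ d ∈ D, d * g = g * d → d ∈ Q := by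
    intro g hg d hd hdg
    by_contra hdQ
    have hgQ : g ∈ Subgroup.centralizer (Q : Set G) := supp_of_br hw g hg
    rw [Subgroup.mem_centralizer_iff] at hgQ
    have h1 : Q ≤ D ⊓ Subgroup.centralizer {g} := by
      intro q hq
      refine Subgroup.mem_inf.2 ⟨hQ hq, ?_⟩
      rw [Subgroup.mem_centralizer_iff]
      intro z hz
      rw [Set.mem_singleton_iff.1 hz]
      exact (hgQ q hq).symm
    have h2 : Q ≠ D ⊓ Subgroup.centralizer {g} := by
      intro h
      apply hdQ
      rw [h]
      refine Subgroup.mem_inf.2 ⟨hd, ?_⟩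
      rw [Subgroup.mem_centralizer_iff]
      intro z hz
      rw [Set.mem_singleton_iff.1 hz]
      exact hdg.symm
    obtain ⟨x, hx1, hx2, hx3⟩ := exists_normalizer (hD.to_le inf_le_left) h1 h2
    have h3 : br (N ⊓ Subgroup.centralizer {g}) w = 0 := by
      apply hT
      · intro q hq
        refine ⟨(hN q).2 ⟨hQ hq, ?_⟩, (h1 hq).2⟩
        exact Subgroup.le_normalizer hq
      · intro h
        apply hx2
        rw [h]
        exact ⟨(hN x).2 ⟨hx1.1, hx3⟩, hx1.2⟩
      · exact inf_le_left
    have h4 : (br (N ⊓ Subgroup.centralizer {g}) w).coeff g = w.coeff g := by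
      rw [br_coeff, if_pos]
      rw [Subgroup.mem_centralizer_iff]
      rintro z ⟨-, hz⟩
      have hz' := (Subgroup.mem_centralizer_iff.1 hz) g rfl
      exact hz'.symm
    rw [h3] at h4
    exact hg h4.symm
  -- conjugate elements of the support
  have Kn : ∀ g, g ∈ Subgroup.centralizer (Q : Set G) → ∀ d ∈ D, w.coeff (d⁻¹ * g * d) ≠ 0 →
      w.coeff (d⁻¹ * g * d) = w.coeff g := by
    intro g hg d hd hgd
    have hdN : d⁻¹ ∈ Subgroup.normalizer (Q : Set G) := by
      apply Subgroup.mem_normalizer_fintype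
      intro q hq
      rw [inv_inv]
      apply K _ hgd
      · exact D.mul_mem (D.mul_mem (D.inv_mem hd) (hQ hq)) hd
      · have h1 := (Subgroup.mem_centralizer_iff.1 hg) q hq
        calc d⁻¹ * q * d * (d⁻¹ * g * d) = d⁻¹ * (q * g) * d := by group
          _ = d⁻¹ * (g * q) * d := by rw [h1]
          _ = d⁻¹ * g * d * (d⁻¹ * q * d) := by group
    have hdN' : d ∈ N := by
      rw [hN]
      refine ⟨hd, ?_⟩
      rw [← inv_inv d]
      exact Subgroup.inv_mem _ hdN
    exact coeff_conj hwN d hdN' g
  have Wd : ∀ g d d', d ∈ D → d' ∈ D → w.coeff (d⁻¹ * g * d) ≠ 0 →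
      w.coeff (d'⁻¹ * g * d') ≠ 0 → w.coeff (d⁻¹ * g * d) = w.coeff (d'⁻¹ * g * d') := by
    intro g d d' hd hd' h h'
    have h1 : d⁻¹ * g * d = (d'⁻¹ * d)⁻¹ * (d'⁻¹ * g * d') * (d'⁻¹ * d) := by group
    rw [h1]
    apply Kn
    · exact supp_of_br hw _ h'
    · exact D.mul_mem (D.inv_mem hd') hd
    · rw [← h1]; exact h
  let A : MonoidAlgebra k G := MonoidAlgebra.ofCoeff (Finsupp.equivFunOnFinite.symm (fun g =>
    if h : ∃ d ∈ D, w.coeff (d⁻¹ * g * d) ≠ 0 then
      w.coeff ((Classical.choose h)⁻¹ * g * Classical.choose h) else 0))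
  have A1 : ∀ g d, d ∈ D → w.coeff (d⁻¹ * g * d) ≠ 0 → A.coeff g = w.coeff (d⁻¹ * g * d) := by
    intro g d hd h
    have hex : ∃ d ∈ D, w.coeff (d⁻¹ * g * d) ≠ 0 := ⟨d, hd, h⟩
    have h1 : A.coeff g = w.coeff ((Classical.choose hex)⁻¹ * g * Classical.choose hex) := by
      change (if h : ∃ d ∈ D, w.coeff (d⁻¹ * g * d) ≠ 0 then
        w.coeff ((Classical.choose h)⁻¹ * g * Classical.choose h) else 0) = _
      rw [dif_pos hex]
    rw [h1]
    exact Wd g _ _ (Classical.choose_spec hex).1 hd (Classical.choose_spec hex).2 h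
  have A2 : ∀ g, (∀ d ∈ D, w.coeff (d⁻¹ * g * d) = 0) → A.coeff g = 0 := by
    intro g h
    change (if h : ∃ d ∈ D, w.coeff (d⁻¹ * g * d) ≠ 0 then
        w.coeff ((Classical.choose h)⁻¹ * g * Classical.choose h) else 0) = _
    rw [dif_neg]
    rintro ⟨d, hd, hd'⟩
    exact hd' (h d hd)
  have AD : Cen D A := by
    intro u hu
    rw [comm_iff]
    intro g
    by_cases h : ∃ d ∈ D, w.coeff (d⁻¹ * g * d) ≠ 0
    · obtain ⟨d, hd, hd'⟩ := h
      rw [A1 g d hd hd']
      have h1 : (u⁻¹ * d)⁻¹ * (u⁻¹ * g * u) * (u⁻¹ * d) = d⁻¹ * g * d := by group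
      rw [A1 (u⁻¹ * g * u) (u⁻¹ * d) (D.mul_mem (D.inv_mem hu) hd) (by rwa [h1]), h1]
    · push Not at h
      rw [A2 g h, A2]
      intro d hd
      have h1 : d⁻¹ * (u⁻¹ * g * u) * d = (u * d)⁻¹ * g * (u * d) := by group
      rw [h1]
      exact h _ (D.mul_mem hu hd)
  have AQ : br Q A = w := by
    ext g
    rw [br_coeff]
    split_ifs with hg
    · by_cases h : ∃ d ∈ D, w.coeff (d⁻¹ * g * d) ≠ 0
      · obtain ⟨d, hd, hd'⟩ := h
        rw [A1 g d hd hd', Kn g hg d hd hd']
      · push Not at h
        rw [A2 g h]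
        have := h 1 D.one_mem
        simpa using this.symm
    · by_contra h
      exact hg (supp_of_br hw g (fun h' => h h'.symm))
  have A0 : br D A = 0 := by
    ext g
    rw [br_coeff]
    split_ifs with hg
    · rw [A2]
      · rfl
      · intro d hd
        by_contra h
        have h1 : d⁻¹ * g * d = g := by
          rw [mul_assoc, ← (Subgroup.mem_centralizer_iff.1 hg) d hd]
          group
        rw [h1] at h
        apply hne
        apply le_antisymm hQ
        intro x hx
        exact K g h x hx ((Subgroup.mem_centralizer_iff.1 hg) x hx)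
    · rfl
  by_contra hw0
  have hiQ : Cen Q i := cen_mono hQ hiD
  have AQ' : Cen Q A := cen_mono hQ AD
  have ha : Cen D (i * A * i) := cen_mul (cen_mul hiD AD) hiD
  have hbra : br Q (i * A * i) = w := by
    rw [br_mul hQD2 (cen_mul hiQ AQ') hiQ, br_mul hQD2 hiQ AQ', AQ, hew, hwe]
  have hnil : ¬ IsNilpotent (i * A * i) := by
    rintro ⟨n, hn⟩
    have hpow : ∀ n : ℕ, Cen Q ((i * A * i) ^ n) ∧
        br Q ((i * A * i) ^ (n + 1)) = w := by
      intro n
      induction n with
      | zero =>
        refine ⟨by rw [pow_zero]; exact cen_one Q, ?_⟩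
        rw [zero_add, pow_one, hbra]
      | succ n ih =>
        have h1 : Cen Q ((i * A * i) ^ (n + 1)) := by
          rw [pow_succ]
          exact cen_mul ih.1 (cen_mono hQ ha)
        refine ⟨h1, ?_⟩
        rw [pow_succ, br_mul hQD2 h1 (cen_mono hQ ha), ih.2, hbra, hww]
    have := (hpow n).2
    rw [pow_succ, hn, zero_mul, br_zero] at this
    exact hw0 this.symm
  obtain ⟨m, x, y, hx, hy, hxy⟩ := hH (i * A * i) ha
    (by rw [← mul_assoc, ← mul_assoc, hi]) (by rw [mul_assoc, hi]) hnil
  apply hlami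
  rw [hxy, map_sum]
  refine Finset.sum_eq_zero fun l _ => ?_
  have h1 : lam (x l * (i * A * i) * y l) = lam (A * (i * y l * (x l * i))) := by
    rw [show x l * (i * A * i) * y l = (x l * i) * (A * (i * y l)) by noncomm_ring, hlam]
    congr 1
    noncomm_ring
  have hr : Cen D (i * y l * (x l * i)) := cen_mul (cen_mul hiD (hy l)) (cen_mul (hx l) hiD)
  rw [h1, lam_br hD lam hlam (cen_mul AD hr), br_mul hD AD hr, A0, zero_mul, map_zero]


/-- the statement of `single_block` inside `k[G]` -/
def Pr (i : MonoidAlgebra k G) (Q : Subgroup G) : Prop :=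
  ∀ F : MonoidAlgebra k G, br Q F = F → F * F = F →
    (∀ g ∈ Subgroup.centralizer (Q : Set G), el k g * F = F * el k g) →
    br Q i * F = 0 ∨ br Q i * F = br Q i

theorem cen_of_supp {Q : Subgroup G} {F : MonoidAlgebra k G} (h : br Q F = F) : Cen Q F := by
  intro u hu
  rw [comm_iff]
  intro g
  by_cases hg : g ∈ Subgroup.centralizer (Q : Set G)
  · have h1 := (Subgroup.mem_centralizer_iff.1 hg) u hu
    rw [mul_assoc, ← h1]
    congr 1
    group
  · have h0 : F.coeff g = 0 := by
      by_contra h'
      exact hg (supp_of_br h g h')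
    have h0' : F.coeff (u⁻¹ * g * u) = 0 := by
      by_contra h'
      have h2 := supp_of_br h _ h'
      apply hg
      have h1 := (Subgroup.mem_centralizer_iff.1 h2) u hu
      have h3 : u⁻¹ * g * u = g := by
        have h4 : u * (u⁻¹ * g * u) = g * u := by group
        rw [h4] at h1
        have h5 : u⁻¹ * g * u * u = g * u := h1.symm
        exact mul_right_cancel h5
      rwa [h3] at h2
    rw [h0, h0']

theorem cen_br {Q D N : Subgroup G} (hN : ∀ x, x ∈ N ↔ x ∈ D ∧ x ∈ Subgroup.normalizer (Q : Set G))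
    {i : MonoidAlgebra k G} (hi : Cen D i) : Cen N (br Q i) := by
  intro u hu
  obtain ⟨huD, huQ⟩ := (hN u).1 hu
  rw [comm_iff]
  intro g
  rw [br_coeff, br_coeff, coeff_conj hi u huD]
  have h1 : u⁻¹ * g * u ∈ Subgroup.centralizer (Q : Set G) ↔
      g ∈ Subgroup.centralizer (Q : Set G) := by
    rw [Subgroup.mem_centralizer_iff, Subgroup.mem_centralizer_iff]
    rw [Subgroup.mem_normalizer_iff] at huQ
    constructor
    · intro h q hq
      have h2 : u⁻¹ * q * u ∈ Q := by
        rw [huQ]
        have : u * (u⁻¹ * q * u) * u⁻¹ = q := by group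
        rw [this]
        exact hq
      have h3 := h _ h2
      have h4 : u * (u⁻¹ * q * u * (u⁻¹ * g * u)) * u⁻¹ = q * g := by group
      have h5 : u * (u⁻¹ * g * u * (u⁻¹ * q * u)) * u⁻¹ = g * q := by group
      rw [← h4, h3, h5]
    · intro h q hq
      have h2 : u * q * u⁻¹ ∈ Q := (huQ q).1 hq
      have h3 := h _ h2
      have h4 : u⁻¹ * (u * q * u⁻¹ * g) * u = q * (u⁻¹ * g * u) := by group
      have h5 : u⁻¹ * (g * (u * q * u⁻¹)) * u = u⁻¹ * g * u * q := by group
      rw [← h4, h3, h5]
  simp only [h1]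

/-- the case of an `N`-stable idempotent -/
theorem step1 [CharP k 2] [Finite G] {Q D N : Subgroup G} (hD : IsPGroup 2 D) (hQ : Q ≤ D)
    (hne : Q ≠ D) (hN : ∀ x, x ∈ N ↔ x ∈ D ∧ x ∈ Subgroup.normalizer (Q : Set G))
    (i : MonoidAlgebra k G) (hi : i * i = i) (hiD : Cen D i) (lam : MonoidAlgebra k G →ₗ[k] k)
    (hlam : ∀ a b, lam (a * b) = lam (b * a)) (hlami : lam i ≠ 0)
    (hH : ∀ a, Cen D a → i * a = a → a * i = a → ¬ IsNilpotent a →
      ∃ (m : ℕ) (x y : Fin m → MonoidAlgebra k G), (∀ l, Cen D (x l)) ∧ (∀ l, Cen D (y l)) ∧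
        i = ∑ l, x l * a * y l)
    (ih : ∀ T : Subgroup G, Q ≤ T → Q ≠ T → T ≤ D → Pr i T)
    (F : MonoidAlgebra k G) (hF : br Q F = F) (hFF : F * F = F)
    (hFc : ∀ g ∈ Subgroup.centralizer (Q : Set G), el k g * F = F * el k g) (hFN : Cen N F) :
    br Q i * F = 0 ∨ br Q i * F = br Q i := by
  have hND : N ≤ D := fun x hx => ((hN x).1 hx).1
  have hQN : Q ≤ N := fun q hq => (hN q).2 ⟨hQ hq, Subgroup.le_normalizer hq⟩
  have hQN' : Q ≠ N := by
    intro h
    obtain ⟨x, hx1, hx2, hx3⟩ := exists_normalizer hD hQ hne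
    apply hx2
    rw [h]
    exact (hN x).2 ⟨hx1, hx3⟩
  have hQ2 : IsPGroup 2 Q := hD.to_le hQ
  have hiQ : Cen Q i := cen_mono hQ hiD
  have hee : br Q i * br Q i = br Q i := by rw [← br_mul hQ2 hiQ hiQ, hi]
  have heN : Cen N (br Q i) := cen_br hN hiD
  have hbi : br Q (br Q i) = br Q i := br_br le_rfl i
  have hNi : br N i ≠ 0 := by
    intro h
    apply hlami
    rw [lam_br (hD.to_le hND) lam hlam (cen_mono hND hiD), h, map_zero]
  -- the general statement with the extra condition
  have main : ∀ F : MonoidAlgebra k G, br Q F = F → F * F = F →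
      (∀ g ∈ Subgroup.centralizer (Q : Set G), el k g * F = F * el k g) → Cen N F →
      br N (br Q i * F) = 0 → br Q i * F = 0 := by
    intro F hF hFF hFc hFN h0
    have hcomm : br Q i * F = F * br Q i :=
      comm_of_supp _ F (br Q i) hFc (fun g hg => supp_br Q i g hg)
    apply core hD hQ hne hN i hi hiD lam hlam hlami hH
    · exact br_mul_self Q _ _ hbi hF
    · exact cen_mul heN hFN
    · rw [mul_assoc, ← mul_assoc F, ← hcomm, mul_assoc, hFF, ← mul_assoc, hee]
    · rw [← mul_assoc, hee]
    · rw [mul_assoc, ← hcomm, ← mul_assoc, hee]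
    · intro T hQT hQT' hTN
      have hT2 : IsPGroup 2 T := hD.to_le (hTN.trans hND)
      have h1 : br T (br Q i * F) = br T i * br T F := by
        rw [br_mul hT2 (cen_mono hTN heN) (cen_mono hTN hFN), br_br hQT]
      have h2 := ih T hQT hQT' (hTN.trans hND) (br T F) (br_br le_rfl F)
        (by rw [← br_mul hT2 (cen_mono hTN hFN) (cen_mono hTN hFN), hFF])
        (by
          intro g hg
          have hgT : br T (el k g) = el k g := by
            apply br_eq_self
            intro z hz
            have hz' : z = g := by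
              by_contra h
              apply hz
              rw [el, MonoidAlgebra.coeff_single, Finsupp.single_apply, if_neg (Ne.symm h)]
            rw [hz']
            exact hg
          have hgc : Cen T (el k g) := cen_of_supp hgT
          have hgQ : g ∈ Subgroup.centralizer (Q : Set G) :=
            Subgroup.centralizer_le (by exact_mod_cast hQT) hg
          have h3 : br T (el k g) * br T F = br T F * br T (el k g) := by
            rw [← br_mul hT2 hgc (cen_mono hTN hFN), ← br_mul hT2 (cen_mono hTN hFN) hgc,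
              hFc g hgQ]
          rwa [hgT] at h3)
      rw [← h1] at h2
      rcases h2 with h2 | h2
      · exact h2
      · exfalso
        have h3 : br N (br T (br Q i * F)) = br N (br T i) := by rw [h2]
        rw [br_br hTN, br_br hTN, h0] at h3
        exact hNi h3.symm
  have hNN : br N (br Q i * F) = 0 ∨ br N (br Q i * F) = br N i := by
    have hN2 : IsPGroup 2 N := hD.to_le hND
    have h1 : br N (br Q i * F) = br N i * br N F := by
      rw [br_mul hN2 heN hFN, br_br hQN]
    rw [h1]
    apply ih N hQN hQN' hND (br N F) (br_br le_rfl F)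
    · rw [← br_mul hN2 hFN hFN, hFF]
    · intro g hg
      have hgT : br N (el k g) = el k g := by
        apply br_eq_self
        intro z hz
        have hz' : z = g := by
          by_contra h
          apply hz
          rw [el, MonoidAlgebra.coeff_single, Finsupp.single_apply, if_neg (Ne.symm h)]
        rw [hz']
        exact hg
      have hgc : Cen N (el k g) := cen_of_supp hgT
      have hgQ : g ∈ Subgroup.centralizer (Q : Set G) :=
        Subgroup.centralizer_le (by exact_mod_cast hQN) hg
      have h3 : br N (el k g) * br N F = br N F * br N (el k g) := by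
        rw [← br_mul hN2 hgc hFN, ← br_mul hN2 hFN hgc, hFc g hgQ]
      rwa [hgT] at h3
  rcases hNN with h | h
  · left
    exact main F hF hFF hFc hFN h
  · right
    have h1 := main (1 - F) (by rw [br_sub, br_one, hF]) (by
        rw [mul_sub, mul_one, sub_mul, one_mul, hFF]
        abel)
      (by
        intro g hg
        rw [mul_sub, sub_mul, hFc g hg, mul_one, one_mul])
      (cen_sub (cen_one N) hFN)
      (by
        rw [mul_sub, mul_one, br_sub, h, br_br hQN, sub_self])
    rw [mul_sub, mul_one, sub_eq_zero] at h1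
    exact h1.symm


/-- conjugation action on the group algebra -/
@[reducible] noncomputable def conjAct (N : Subgroup G) : MulAction N (MonoidAlgebra k G) where
  smul n x := el k (n : G) * x * el k (n : G)⁻¹
  one_smul x := by
    change el k ((1 : N) : G) * x * el k ((1 : N) : G)⁻¹ = x
    rw [Subgroup.coe_one, inv_one, el_one, one_mul, mul_one]
  mul_smul m n x := by
    change el k ((m * n : N) : G) * x * el k ((m * n : N) : G)⁻¹ =
      el k (m : G) * (el k (n : G) * x * el k (n : G)⁻¹) * el k (m : G)⁻¹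
    rw [Subgroup.coe_mul, mul_inv_rev, el_mul, el_mul]
    noncomm_ring

theorem conj_coeff (n : G) (x : MonoidAlgebra k G) (g : G) :
    (el k n * x * el k n⁻¹).coeff g = x.coeff (n⁻¹ * g * n) := by
  rw [mul_el_coeff, el_mul_coeff, inv_inv]
  congr 1
  group

theorem incl_injective (H : Subgroup G) : Function.Injective (incl k H) := by
  intro x y h
  have := congrArg (res H) h
  rwa [res_incl, res_incl] at this

theorem incl_res {Q : Subgroup G} {F : MonoidAlgebra k G} (h : br Q F = F) :
    incl k (Subgroup.centralizer (Q : Set G)) (res (Subgroup.centralizer (Q : Set G)) F) = F := h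

theorem br_incl (Q : Subgroup G) (x : MonoidAlgebra k (Subgroup.centralizer (Q : Set G))) :
    br Q (incl k _ x) = incl k _ x := by
  rw [br, res_incl]

theorem step2 [CharP k 2] [Finite G] {Q D N : Subgroup G} (hD : IsPGroup 2 D) (hQ : Q ≤ D)
    (hne : Q ≠ D) (hN : ∀ x, x ∈ N ↔ x ∈ D ∧ x ∈ Subgroup.normalizer (Q : Set G))
    (i : MonoidAlgebra k G) (hi : i * i = i) (hiD : Cen D i) (lam : MonoidAlgebra k G →ₗ[k] k)
    (hlam : ∀ a b, lam (a * b) = lam (b * a)) (hlami : lam i ≠ 0)
    (hH : ∀ a, Cen D a → i * a = a → a * i = a → ¬ IsNilpotent a →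
      ∃ (m : ℕ) (x y : Fin m → MonoidAlgebra k G), (∀ l, Cen D (x l)) ∧ (∀ l, Cen D (y l)) ∧
        i = ∑ l, x l * a * y l)
    (ih : ∀ T : Subgroup G, Q ≤ T → Q ≠ T → T ≤ D → Pr i T) : Pr i Q := by
  intro F hF hFF hFc
  by_cases h0 : br Q i * F = 0
  · exact Or.inl h0
  right
  have hND : N ≤ D := fun x hx => ((hN x).1 hx).1
  have hQN : Q ≤ N := fun q hq => (hN q).2 ⟨hQ hq, Subgroup.le_normalizer hq⟩
  have hQ2 : IsPGroup 2 Q := hD.to_le hQ
  have hN2 : IsPGroup 2 N := hD.to_le hND
  have hiQ : Cen Q i := cen_mono hQ hiD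
  have heN : Cen N (br Q i) := cen_br hN hiD
  have hbi : br Q (br Q i) = br Q i := br_br le_rfl i
  have hNi : br N i ≠ 0 := by
    intro h
    apply hlami
    rw [lam_br (hD.to_le hND) lam hlam (cen_mono hND hiD), h, map_zero]
  have hbw : br Q (br Q i * F) = br Q i * F := br_mul_self Q _ _ hbi hF
  have hy : res (Subgroup.centralizer (Q : Set G)) (br Q i * F) ≠ 0 := by
    intro h
    apply h0
    rw [← hbw, br, h, map_zero]
  obtain ⟨b, ⟨hb0, hbb, hbc, hbp⟩, hyb⟩ := exists_block _ hy
  set B : MonoidAlgebra k G := incl k _ b with hB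
  have hBQ : br Q B = B := br_incl Q b
  have hBB : B * B = B := by rw [hB, ← map_mul, hbb]
  have hBc : ∀ g ∈ Subgroup.centralizer (Q : Set G), el k g * B = B * el k g := by
    intro g hg
    have := hbc (el k ⟨g, hg⟩)
    have h1 := congrArg (incl k _) this
    rw [map_mul, map_mul, incl_el] at h1
    exact h1
  have hprim : ∀ E : MonoidAlgebra k G, br Q E = E → E * E = E →
      (∀ g ∈ Subgroup.centralizer (Q : Set G), el k g * E = E * el k g) →
      E * B = 0 ∨ E * B = B := by
    intro E hE hEE hEc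
    have h1 := hbp (res _ E) (by
      apply incl_injective
      rw [map_mul, incl_res hE, hEE]) (by
      intro a
      apply incl_injective
      rw [map_mul, map_mul, incl_res hE]
      exact comm_of_supp _ E _ hEc (fun g hg => supp_of_br (br_incl Q a) g hg))
    rcases h1 with h1 | h1
    · left
      have h2 := congrArg (incl k _) h1
      rw [map_mul, incl_res hE, map_zero] at h2
      exact h2
    · right
      have h2 := congrArg (incl k _) h1
      rw [map_mul, incl_res hE] at h2
      exact h2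
  have hne0 : br Q i * F * B ≠ 0 := by
    intro h
    apply hyb
    apply incl_injective
    rw [map_mul, map_zero, incl_res hbw]
    exact h
  have hFB : F * B = B := by
    rcases hprim F hF hFF hFc with h | h
    · exfalso
      apply hne0
      rw [mul_assoc, h, mul_zero]
    · exact h
  have hBF : B * F = B := by
    rw [comm_of_supp _ F B hFc (fun g hg => supp_of_br hBQ g hg), hFB]
  have heB : br Q i * B ≠ 0 := by
    intro h
    apply hne0
    rw [mul_assoc, hFB, h]
  -- it suffices to treat `B`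
  suffices hs : br Q i * B = br Q i by
    calc br Q i * F = br Q i * B * F := by rw [hs]
      _ = br Q i * B := by rw [mul_assoc, hBF]
      _ = br Q i := hs
  by_cases hBN : Cen N B
  · rcases step1 hD hQ hne hN i hi hiD lam hlam hlami hH ih B hBQ hBB hBc hBN with h | h
    · exact absurd h heB
    · exact h
  exfalso
  let act : MulAction N (MonoidAlgebra k G) := conjAct N
  have smul_def : ∀ (n : N) (x : MonoidAlgebra k G),
      n • x = el k (n : G) * x * el k (n : G)⁻¹ := fun _ _ => rfl
  have smul_mul : ∀ (n : N) (x y : MonoidAlgebra k G), n • (x * y) = (n • x) * (n • y) := by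
    intro n x y
    rw [smul_def, smul_def, smul_def]
    calc el k (n : G) * (x * y) * el k (n : G)⁻¹
        = el k (n : G) * x * 1 * y * el k (n : G)⁻¹ := by noncomm_ring
      _ = el k (n : G) * x * (el k (n : G)⁻¹ * el k (n : G)) * y * el k (n : G)⁻¹ := by
          rw [el_inv_mul]
      _ = _ := by noncomm_ring
  have smul_zero' : ∀ n : N, n • (0 : MonoidAlgebra k G) = 0 := by
    intro n
    rw [smul_def, mul_zero, zero_mul]
  have smul_sum' : ∀ (n : N) {ι : Type} (s : Finset ι) (f : ι → MonoidAlgebra k G),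
      n • (∑ x ∈ s, f x) = ∑ x ∈ s, n • f x := by
    intro n ι s f
    simp only [smul_def]
    rw [Finset.mul_sum, Finset.sum_mul]
  have hcenQ : ∀ (n : N) (g : G), g ∈ Subgroup.centralizer (Q : Set G) →
      (n : G)⁻¹ * g * n ∈ Subgroup.centralizer (Q : Set G) := by
    intro n g hg
    rw [Subgroup.mem_centralizer_iff] at hg ⊢
    intro q hq
    have h2 : (n : G) * q * (n : G)⁻¹ ∈ Q :=
      (Subgroup.mem_normalizer_iff.1 ((hN n).1 n.2).2 q).1 hq
    have h3 := hg _ h2
    have h4 : (n : G)⁻¹ * ((n : G) * q * (n : G)⁻¹ * g) * n = q * ((n : G)⁻¹ * g * n) := by group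
    have h5 : (n : G)⁻¹ * (g * ((n : G) * q * (n : G)⁻¹)) * n = (n : G)⁻¹ * g * n * q := by group
    rw [← h4, h3, h5]
  have hcenQ' : ∀ (n : N) (g : G), (n : G)⁻¹ * g * n ∈ Subgroup.centralizer (Q : Set G) →
      g ∈ Subgroup.centralizer (Q : Set G) := by
    intro n g hg
    have h1 := hcenQ n⁻¹ _ hg
    have h2 : ((n⁻¹ : N) : G)⁻¹ * ((n : G)⁻¹ * g * n) * ((n⁻¹ : N) : G) = g := by
      rw [Subgroup.coe_inv]
      group
    rwa [h2] at h1
  have smul_br : ∀ (n : N) (x : MonoidAlgebra k G), br Q x = x → br Q (n • x) = n • x := by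
    intro n x hx
    apply br_eq_self
    intro g hg
    rw [smul_def, conj_coeff] at hg
    exact hcenQ' n g (supp_of_br hx _ hg)
  have smul_cen : ∀ (n : N) (x : MonoidAlgebra k G),
      (∀ g ∈ Subgroup.centralizer (Q : Set G), el k g * x = x * el k g) →
      ∀ g ∈ Subgroup.centralizer (Q : Set G), el k g * (n • x) = (n • x) * el k g := by
    intro n x hx g hg
    have h1 := hx _ (hcenQ n g hg)
    have h2 := congrArg (fun z => n • z) h1
    simp only [smul_mul] at h2
    have h3 : n • el k ((n : G)⁻¹ * g * n) = el k g := by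
      rw [smul_def, ← el_mul, ← el_mul]
      congr 1
      group
    rwa [h3] at h2
  -- the orbit
  have hfin : Finite (MulAction.orbit N B) := Set.finite_range _ |>.to_subtype
  let _ : Fintype (MulAction.orbit N B) := Fintype.ofFinite _
  have hS : ∀ s : MulAction.orbit N B, ∃ n : N, n • B = (s : MonoidAlgebra k G) := fun s => s.2
  have hSQ : ∀ s : MulAction.orbit N B, br Q (s : MonoidAlgebra k G) = s := by
    intro s
    obtain ⟨n, hn⟩ := hS s
    rw [← hn]
    exact smul_br n B hBQ
  have hSS : ∀ s : MulAction.orbit N B, (s : MonoidAlgebra k G) * s = s := by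
    intro s
    obtain ⟨n, hn⟩ := hS s
    rw [← hn, ← smul_mul, hBB]
  have hSc : ∀ s : MulAction.orbit N B, ∀ g ∈ Subgroup.centralizer (Q : Set G),
      el k g * (s : MonoidAlgebra k G) = s * el k g := by
    intro s
    obtain ⟨n, hn⟩ := hS s
    rw [← hn]
    exact smul_cen n B hBc
  have hSp : ∀ s : MulAction.orbit N B, ∀ E : MonoidAlgebra k G, br Q E = E → E * E = E →
      (∀ g ∈ Subgroup.centralizer (Q : Set G), el k g * E = E * el k g) →
      E * s = 0 ∨ E * s = (s : MonoidAlgebra k G) := by
    intro s E hE hEE hEc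
    obtain ⟨n, hn⟩ := hS s
    rw [← hn]
    have h1 : E = n • (n⁻¹ • E) := (smul_inv_smul n E).symm
    have h2 := hprim (n⁻¹ • E) (smul_br _ _ hE) (by rw [← smul_mul, hEE]) (smul_cen _ _ hEc)
    rcases h2 with h2 | h2
    · left
      rw [h1, ← smul_mul, h2, smul_zero']
    · right
      rw [h1, ← smul_mul, h2]
  have hSort : ∀ s t : MulAction.orbit N B, s ≠ t →
      (s : MonoidAlgebra k G) * (t : MonoidAlgebra k G) = 0 := by
    intro s t hst
    by_contra h
    apply hst
    have h1 := (hSp t s (hSQ s) (hSS s) (hSc s)).resolve_left h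
    have hc : (s : MonoidAlgebra k G) * t = t * s :=
      comm_of_supp _ (t : MonoidAlgebra k G) s (hSc t) (fun g hg => supp_of_br (hSQ s) g hg)
    have h2 := (hSp s t (hSQ t) (hSS t) (hSc t)).resolve_left (by rwa [← hc])
    apply Subtype.ext
    rw [← h1, hc, h2]
  set F' : MonoidAlgebra k G := ∑ s : MulAction.orbit N B, (s : MonoidAlgebra k G) with hF'
  have hF'Q : br Q F' = F' := by
    rw [hF', br_sum]
    exact Finset.sum_congr rfl fun s _ => hSQ s
  have hmulF : ∀ s : MulAction.orbit N B, F' * (s : MonoidAlgebra k G) = s := by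
    intro s
    rw [hF', Finset.sum_mul, Finset.sum_eq_single s]
    · exact hSS s
    · intro t _ hts
      exact hSort t s hts
    · intro h
      exact absurd (Finset.mem_univ _) h
  have hF'F' : F' * F' = F' := by
    conv_lhs => rhs; rw [hF']
    rw [Finset.mul_sum]
    exact Finset.sum_congr rfl fun s _ => hmulF s
  have hF'c : ∀ g ∈ Subgroup.centralizer (Q : Set G), el k g * F' = F' * el k g := by
    intro g hg
    rw [hF', Finset.mul_sum, Finset.sum_mul]
    exact Finset.sum_congr rfl fun s _ => hSc s g hg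
  have hF'N : Cen N F' := by
    intro u hu
    have h1 : (⟨u, hu⟩ : N) • F' = F' := by
      rw [hF', smul_sum']
      exact Equiv.sum_comp (MulAction.toPerm (⟨u, hu⟩ : N) : Equiv.Perm (MulAction.orbit N B))
        (fun s => (s : MonoidAlgebra k G))
    rw [smul_def] at h1
    change el k u * F' * el k u⁻¹ = F' at h1
    calc el k u * F' = el k u * F' * (el k u⁻¹ * el k u) := by rw [el_inv_mul, mul_one]
      _ = el k u * F' * el k u⁻¹ * el k u := by noncomm_ring
      _ = F' * el k u := by rw [h1]
  have hB1 : F' * B = B := hmulF ⟨B, MulAction.mem_orbit_self B⟩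
  have hF'N0 : br N F' = 0 := by
    ext g
    rw [br_coeff]
    split_ifs with hg
    · rw [hF', MonoidAlgebra.coeff_sum, Finsupp.finsetSum_apply]
      rw [sum_fixed hN2 (fun s : MulAction.orbit N B => (s : MonoidAlgebra k G).coeff g)]
      · rw [Finset.sum_eq_zero]
        · rfl
        · intro s hs
          exfalso
          rw [Finset.mem_filter] at hs
          apply hBN
          intro u hu
          obtain ⟨n, hn⟩ := hS s
          have h1 : ∀ p : N, p • B = B := by
            intro p
            have h2 := hs.2 (n * p * n⁻¹)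
            have h3 := congrArg (fun z : MulAction.orbit N B => (z : MonoidAlgebra k G)) h2
            change (n * p * n⁻¹) • (s : MonoidAlgebra k G) = s at h3
            rw [← hn, mul_smul, mul_smul, inv_smul_smul] at h3
            exact (MulAction.injective n) h3
          have h4 := h1 ⟨u, hu⟩
          rw [smul_def] at h4
          change el k u * B * el k u⁻¹ = B at h4
          calc el k u * B = el k u * B * (el k u⁻¹ * el k u) := by rw [el_inv_mul, mul_one]
            _ = el k u * B * el k u⁻¹ * el k u := by noncomm_ring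
            _ = B * el k u := by rw [h4]
      · intro p s
        change (p • (s : MonoidAlgebra k G)).coeff g = _
        rw [smul_def, conj_coeff]
        congr 1
        have := (Subgroup.mem_centralizer_iff.1 hg) p p.2
        rw [mul_assoc, ← this]
        group
    · rfl
  rcases step1 hD hQ hne hN i hi hiD lam hlam hlami hH ih F' hF'Q hF'F' hF'c hF'N with h | h
  · apply heB
    rw [← hB1, ← mul_assoc, h, zero_mul]
  · have h1 : br N (br Q i * F') = br N i := by rw [h, br_br hQN]
    rw [br_mul hN2 heN hF'N, hF'N0, mul_zero] at h1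
    exact hNi h1.symm

/-- the case `Q = D` -/
theorem base [CharP k 2] [Finite G] {D : Subgroup G} (hD : IsPGroup 2 D)
    (i : MonoidAlgebra k G) (hi : i * i = i) (hiD : Cen D i)
    (hH : ∀ a, Cen D a → i * a = a → a * i = a → ¬ IsNilpotent a →
      ∃ (m : ℕ) (x y : Fin m → MonoidAlgebra k G), (∀ l, Cen D (x l)) ∧ (∀ l, Cen D (y l)) ∧
        i = ∑ l, x l * a * y l) : Pr i D := by
  intro F hF hFF hFc
  by_cases h0 : br D i * F = 0
  · exact Or.inl h0
  right
  have hFD : Cen D F := cen_of_supp hF
  have hee : br D i * br D i = br D i := by rw [← br_mul hD hiD hiD, hi]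
  have hcomm : ∀ a, br D a * F = F * br D a := fun a =>
    comm_of_supp _ F (br D a) hFc (fun g hg => supp_br D a g hg)
  have ha : Cen D (i * F * i) := cen_mul (cen_mul hiD hFD) hiD
  have hbra : br D (i * F * i) = br D i * F := by
    rw [br_mul hD (cen_mul hiD hFD) hiD, br_mul hD hiD hFD, hF, mul_assoc, ← hcomm i,
      ← mul_assoc, hee]
  have hww : br D i * F * (br D i * F) = br D i * F := by
    rw [mul_assoc, ← mul_assoc F, ← hcomm, mul_assoc, hFF, ← mul_assoc, hee]
  have hnil : ¬ IsNilpotent (i * F * i) := by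
    rintro ⟨n, hn⟩
    have hpow : ∀ n : ℕ, Cen D ((i * F * i) ^ n) ∧
        br D ((i * F * i) ^ (n + 1)) = br D i * F := by
      intro n
      induction n with
      | zero =>
        refine ⟨by rw [pow_zero]; exact cen_one D, ?_⟩
        rw [zero_add, pow_one, hbra]
      | succ n ih =>
        have h1 : Cen D ((i * F * i) ^ (n + 1)) := by
          rw [pow_succ]
          exact cen_mul ih.1 ha
        refine ⟨h1, ?_⟩
        rw [pow_succ, br_mul hD h1 ha, ih.2, hbra, hww]
    have := (hpow n).2
    rw [pow_succ, hn, zero_mul, br_zero] at this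
    exact h0 this.symm
  obtain ⟨m, x, y, hx, hy, hxy⟩ := hH (i * F * i) ha
    (by rw [← mul_assoc, ← mul_assoc, hi]) (by rw [mul_assoc, hi]) hnil
  have h1 : br D i = ∑ l, br D (x l) * (br D i * F) * br D (y l) := by
    conv_lhs => rw [hxy]
    rw [br_sum]
    refine Finset.sum_congr rfl fun l _ => ?_
    rw [br_mul hD (cen_mul (hx l) ha) (hy l), br_mul hD (hx l) ha, hbra]
  have h2 : br D i * F = br D i := by
    conv_lhs => rw [h1]
    conv_rhs => rw [h1]
    rw [Finset.sum_mul]
    refine Finset.sum_congr rfl fun l _ => ?_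
    calc br D (x l) * (br D i * F) * br D (y l) * F
        = br D (x l) * (br D i * F) * (br D (y l) * F) := by noncomm_ring
      _ = br D (x l) * (br D i * F) * (F * br D (y l)) := by rw [hcomm (y l)]
      _ = br D (x l) * (br D i * (F * F)) * br D (y l) := by noncomm_ring
      _ = _ := by rw [hFF]
  exact h2

theorem all [CharP k 2] [Finite G] {D : Subgroup G} (hD : IsPGroup 2 D)
    (i : MonoidAlgebra k G) (hi : i * i = i) (hiD : Cen D i) (lam : MonoidAlgebra k G →ₗ[k] k)
    (hlam : ∀ a b, lam (a * b) = lam (b * a)) (hlami : lam i ≠ 0)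
    (hH : ∀ a, Cen D a → i * a = a → a * i = a → ¬ IsNilpotent a →
      ∃ (m : ℕ) (x y : Fin m → MonoidAlgebra k G), (∀ l, Cen D (x l)) ∧ (∀ l, Cen D (y l)) ∧
        i = ∑ l, x l * a * y l) :
    ∀ (n : ℕ) (Q : Subgroup G), Q ≤ D → Nat.card D - Nat.card Q ≤ n → Pr i Q := by
  intro n
  induction n using Nat.strong_induction_on with
  | _ n ih =>
    intro Q hQ hn
    by_cases hne : Q = D
    · rw [hne]
      exact base hD i hi hiD hH
    · have hcard : Nat.card Q < Nat.card D := by
        apply lt_of_le_of_ne (Subgroup.card_le_of_le hQ)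
        intro h
        exact hne (Subgroup.eq_of_le_of_card_ge hQ h.ge)
      refine step2 (N := D ⊓ Subgroup.normalizer (Q : Set G)) hD hQ hne
        (fun x => Subgroup.mem_inf) i hi hiD lam hlam hlami hH ?_
      intro T hQT hQT' hTD
      have hcard2 : Nat.card Q < Nat.card T := by
        apply lt_of_le_of_ne (Subgroup.card_le_of_le hQT)
        intro h
        exact hQT' (Subgroup.eq_of_le_of_card_ge hQT h.ge)
      have hcard3 : Nat.card T ≤ Nat.card D := Subgroup.card_le_of_le hTD
      exact ih (Nat.card D - Nat.card T) (by omega) T hTD le_rfl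


end D3aux

/-- The Brauer construction of `i` lies in a single block for every subgroup of `D`. -/
theorem single_block {k : Type} [Field k] [CharP k 2] {G : Type} [Group G] [Finite G]
    (D : Subgroup G) (hD : IsPGroup 2 D) (i : MonoidAlgebra k G) (hi : i * i = i)
    (hiD : Cen D i) (lam : MonoidAlgebra k G →ₗ[k] k)
    (hlam : ∀ a b, lam (a * b) = lam (b * a)) (hlami : lam i ≠ 0)
    (hH : ∀ a, Cen D a → i * a = a → a * i = a → ¬ IsNilpotent a →
      ∃ (m : ℕ) (x y : Fin m → MonoidAlgebra k G), (∀ l, Cen D (x l)) ∧ (∀ l, Cen D (y l)) ∧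
        i = ∑ l, x l * a * y l)
    (Q : Subgroup G) (hQ : Q ≤ D) (H : Subgroup G)
    (hHQ : H = Subgroup.centralizer (Q : Set G)) (f : MonoidAlgebra k H) (hf : f * f = f)
    (hfc : ∀ a, a * f = f * a) : res H i * f = 0 ∨ res H i * f = res H i := by
  subst hHQ
  have h := D3aux.all hD i hi hiD lam hlam hlami hH _ Q hQ le_rfl (incl k _ f)
    (D3aux.br_incl Q f) (by rw [← map_mul, hf]) (by
      intro g hg
      have h1 := congrArg (incl k _) (hfc (el k ⟨g, hg⟩))
      rw [map_mul, map_mul, incl_el] at h1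
      exact h1)
  rcases h with h | h
  · left
    apply D3aux.incl_injective
    rw [map_mul, map_zero]
    exact h
  · right
    apply D3aux.incl_injective
    rw [map_mul]
    exact h

end Pool.Agent.Helper36.NB
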