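import Mathlib
import Pool.Agent.Helper36.NB.Defs

open scoped BigOperators MonoidAlgebra
open Classical

namespace Pool.Agent.Helper36.NB

namespace B3aux

theorem parity {G : Type} [Group G] {s : G} (hs : Even (orderOf s)) {k l : ℤ}
    (h : s ^ k = s ^ l) : Even k ↔ Even l := by
  have h1 : s ^ (k - l) = 1 := by rw [zpow_sub, h, mul_inv_cancel]
  have h2 : (orderOf s : ℤ) ∣ k - l := orderOf_dvd_iff_zpow_eq_one.2 h1
  have h3 : Even (k - l) := by
    obtain ⟨m, hm⟩ := h2
    rw [hm]
    have h4 : Even (orderOf s : ℤ) := by exact_mod_cast hs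
    exact h4.mul_right m
  rw [Int.even_sub] at h3
  exact h3

theorem exists_half {G : Type} [Group G] {s : G} (hs : Even (orderOf s)) :
    ∃ Y : G → Prop, ∀ g, Y g ↔ ¬ Y (s * g) := by
  let r : G → G := fun g =>
    (Quotient.mk (QuotientGroup.rightRel (Subgroup.zpowers s)) g).out
  have hr1 : ∀ g, ∃ k : ℤ, g = s ^ k * r g := by
    intro g
    have h1 : (QuotientGroup.rightRel (Subgroup.zpowers s)) (r g) g :=
      Quotient.mk_out (s := QuotientGroup.rightRel (Subgroup.zpowers s)) g
    rw [QuotientGroup.rightRel_apply] at h1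
    obtain ⟨k, hk⟩ := Subgroup.mem_zpowers_iff.1 h1
    exact ⟨k, by rw [hk]; group⟩
  have hr2 : ∀ g, r (s * g) = r g := by
    intro g
    have h1 : (QuotientGroup.rightRel (Subgroup.zpowers s)) (s * g) g := by
      rw [QuotientGroup.rightRel_apply]
      refine Subgroup.mem_zpowers_iff.2 ⟨-1, ?_⟩
      group
    have h2 : Quotient.mk (QuotientGroup.rightRel (Subgroup.zpowers s)) (s * g) =
        Quotient.mk (QuotientGroup.rightRel (Subgroup.zpowers s)) g := Quotient.sound h1
    simp only [r]
    rw [h2]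
  refine ⟨fun g => ∃ k : ℤ, Even k ∧ g = s ^ k * r g, fun g => ?_⟩
  obtain ⟨m, hm⟩ := hr1 g
  have hm' : s * g = s ^ (m + 1) * r (s * g) := by
    rw [hr2]
    conv_lhs => rw [hm]
    rw [← mul_assoc, ← zpow_one_add, add_comm]
  have key : ∀ (h : G) (m : ℤ), h = s ^ m * r h → ((∃ k : ℤ, Even k ∧ h = s ^ k * r h) ↔ Even m) := by
    intro h m hm
    constructor
    · rintro ⟨k, hk, hk2⟩
      have h1 : s ^ k = s ^ m := by
        have : s ^ k * r h = s ^ m * r h := by rw [← hk2, ← hm]
        exact mul_right_cancel this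
      exact (parity hs h1).1 hk
    · intro hm2
      exact ⟨m, hm2, hm⟩
  have h1 := key g m hm
  have h2 := key (s * g) (m + 1) hm'
  rw [Int.even_add_one] at h2
  simp only []
  rw [h1, h2, not_not]

theorem trace_zero {n : Type} [Fintype n] [DecidableEq n] (O : ValuationSubring ℂ)
    (h2 : (2 : O) ∈ IsLocalRing.maximalIdeal O) {S T X D : Matrix n n O} (hTS : T * S = 1)
    (hXX : X * X = X) (hSX : S * X = X * S) (hD : D + S * D * T = 1) : (S * X).trace = 0 := by
  set C := X * D * X with hC
  set Z := 1 - (2 : O) • C with hZ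
  have hXC : X * C = C := by rw [hC, ← Matrix.mul_assoc, ← Matrix.mul_assoc, hXX]
  have hCX : C * X = C := by rw [hC, Matrix.mul_assoc, hXX]
  have hXZ : X * Z = X - (2 : O) • C := by
    rw [hZ, Matrix.mul_sub, Matrix.mul_one, Matrix.mul_smul, hXC]
  have hZX : Z * X = X - (2 : O) • C := by
    rw [hZ, Matrix.sub_mul, Matrix.one_mul, Matrix.smul_mul, hCX]
  have hSD : S * D = S - D * S := by
    have h3 : (D + S * D * T) * S = S := by rw [hD, Matrix.one_mul]
    rw [Matrix.add_mul, Matrix.mul_assoc (S * D) T S, hTS, Matrix.mul_one] at h3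
    exact eq_sub_of_add_eq' h3
  have hSC : S * C = X * S - C * S := by
    calc S * C = S * X * D * X := by rw [hC]; simp only [Matrix.mul_assoc]
      _ = X * (S * D) * X := by rw [hSX]; simp only [Matrix.mul_assoc]
      _ = X * (S * X) - X * D * (S * X) := by
          rw [hSD, Matrix.mul_sub, Matrix.sub_mul]; simp only [Matrix.mul_assoc]
      _ = X * S - C * S := by
          rw [hSX, ← Matrix.mul_assoc, hXX, ← Matrix.mul_assoc, hC]
  have hSW : S * (X - (2 : O) • C) = -((X - (2 : O) • C) * S) := by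
    rw [Matrix.mul_sub, Matrix.mul_smul, hSC, hSX, Matrix.sub_mul, Matrix.smul_mul, smul_sub,
      two_smul, two_smul]
    abel
  have hdet : IsUnit Z.det := by
    rw [← IsLocalRing.residue_ne_zero_iff_isUnit]
    have h3 : (IsLocalRing.residue O) Z.det = ((IsLocalRing.residue O).mapMatrix Z).det :=
      RingHom.map_det _ _
    have h4 : (IsLocalRing.residue O).mapMatrix Z = 1 := by
      rw [hZ, map_sub, map_one, sub_eq_self]
      ext i j
      simp only [RingHom.mapMatrix_apply, Matrix.map_apply, Matrix.smul_apply, smul_eq_mul,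
        map_mul, Matrix.zero_apply]
      rw [(IsLocalRing.residue_eq_zero_iff _).2 h2, zero_mul]
    rw [h3, h4, Matrix.det_one]
    exact one_ne_zero
  have hZZ : Z⁻¹ * Z = 1 := Matrix.nonsing_inv_mul _ hdet
  have hZZ' : Z * Z⁻¹ = 1 := Matrix.mul_nonsing_inv _ hdet
  have hXZi : X * Z⁻¹ = Z⁻¹ * X := by
    calc X * Z⁻¹ = Z⁻¹ * Z * X * Z⁻¹ := by rw [hZZ, Matrix.one_mul]
      _ = Z⁻¹ * (X * Z) * Z⁻¹ := by rw [hXZ, ← hZX]; simp only [Matrix.mul_assoc]
      _ = Z⁻¹ * X * (Z * Z⁻¹) := by simp only [Matrix.mul_assoc]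
      _ = Z⁻¹ * X := by rw [hZZ', Matrix.mul_one]
  set W := X - (2 : O) • C with hW
  have h5 : W * (Z⁻¹ * X) = X := by
    rw [← hXZ, Matrix.mul_assoc, ← Matrix.mul_assoc Z, hZZ', Matrix.one_mul, hXX]
  have h6 : (Z⁻¹ * X) * W = X := by
    rw [← hXZi, ← hZX, Matrix.mul_assoc, ← Matrix.mul_assoc Z⁻¹, hZZ, Matrix.one_mul, hXX]
  have h7 : (S * X).trace = -(S * X).trace := by
    calc (S * X).trace = (S * W * (Z⁻¹ * X)).trace := by
          rw [Matrix.mul_assoc, h5]
      _ = -(W * (S * (Z⁻¹ * X))).trace := by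
          rw [hSW, Matrix.neg_mul, Matrix.trace_neg, Matrix.mul_assoc]
      _ = -(S * (Z⁻¹ * X) * W).trace := by rw [Matrix.trace_mul_comm]
      _ = -(S * X).trace := by rw [Matrix.mul_assoc, h6]
  have h8 : (2 : O) * (S * X).trace = 0 := by
    rw [two_mul]
    nth_rewrite 1 [h7]
    rw [neg_add_cancel]
  rcases mul_eq_zero.1 h8 with h9 | h9
  · exact absurd h9 two_ne_zero
  · exact h9

end B3aux

/-- The average of an idempotent over a class of elements of even order is zero. -/
theorem proj_vanish (O : ValuationSubring ℂ) {G : Type} [Group G] [Fintype G]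
    (h2 : (2 : O) ∈ IsLocalRing.maximalIdeal O) (x : MonoidAlgebra O G) (hx : x * x = x)
    (s : G) (hs : Even (orderOf s)) : ∑ g : G, x.coeff (g⁻¹ * s * g) = 0 := by
  obtain ⟨Y, hY⟩ := B3aux.exists_half hs
  let X : Matrix G G O := Matrix.of fun g h => x.coeff (h⁻¹ * g)
  let S : Matrix G G O := Matrix.of fun g h => if h = s * g then 1 else 0
  let T : Matrix G G O := Matrix.of fun g h => if h = s⁻¹ * g then 1 else 0
  let D : Matrix G G O := Matrix.diagonal fun g => if Y g then 1 else 0
  have hSM : ∀ (M : Matrix G G O) (g h : G), (S * M) g h = M (s * g) h := by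
    intro M g h
    simp [S, Matrix.mul_apply]
  have hMS : ∀ (M : Matrix G G O) (g h : G), (M * S) g h = M g (s⁻¹ * h) := by
    intro M g h
    rw [Matrix.mul_apply, Finset.sum_eq_single (s⁻¹ * h)]
    · simp [S]
    · intro b _ hb
      have : h ≠ s * b := fun h3 => hb (by rw [h3]; group)
      simp [S, this]
    · simp
  have hMT : ∀ (M : Matrix G G O) (g h : G), (M * T) g h = M g (s * h) := by
    intro M g h
    rw [Matrix.mul_apply, Finset.sum_eq_single (s * h)]
    · simp [T]
    · intro b _ hb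
      have : h ≠ s⁻¹ * b := fun h3 => hb (by rw [h3]; group)
      simp [T, this]
    · simp
  have hTS : T * S = 1 := by
    refine Matrix.ext fun g h => ?_
    rw [hMS]
    simp only [T, Matrix.of_apply, Matrix.one_apply]
    by_cases h3 : g = h
    · rw [h3]; simp
    · have : s⁻¹ * h ≠ s⁻¹ * g := fun h4 => h3 (mul_left_cancel h4).symm
      simp [h3, this]
  have hXX : X * X = X := by
    refine Matrix.ext fun g h => ?_
    rw [Matrix.mul_apply]
    simp only [X, Matrix.of_apply]
    conv_rhs => rw [← hx]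
    rw [MonoidAlgebra.coeff_mul_apply_left, Finsupp.sum_fintype _ _ (by simp)]
    refine Fintype.sum_equiv (Equiv.mulLeft h⁻¹) _ _ fun k => ?_
    simp only [Equiv.coe_mulLeft]
    rw [mul_comm]
    congr 2
    group
  have hSX : S * X = X * S := by
    refine Matrix.ext fun g h => ?_
    rw [hSM, hMS]
    simp only [X, Matrix.of_apply]
    rw [show h⁻¹ * (s * g) = (s⁻¹ * h)⁻¹ * g by group]
  have hD : D + S * D * T = 1 := by
    refine Matrix.ext fun g h => ?_
    rw [Matrix.add_apply, hMT, hSM]
    simp only [D, Matrix.diagonal_apply, Matrix.one_apply]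
    by_cases h3 : g = h
    · subst h3
      have := hY g
      by_cases h4 : Y g
      · have h5 := this.1 h4
        simp [h4, h5]
      · have h5 : Y (s * g) := by
          by_contra h6
          exact h4 (this.2 h6)
        simp [h4, h5]
    · have : s * g ≠ s * h := fun h4 => h3 (mul_left_cancel h4)
      simp [h3, this]
  have h3 := B3aux.trace_zero O h2 hTS hXX hSX hD
  rw [← h3, Matrix.trace]
  refine Finset.sum_congr rfl fun g _ => ?_
  rw [Matrix.diag_apply, hSM]
  simp only [X, Matrix.of_apply]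
  rw [mul_assoc]

end Pool.Agent.Helper36.NB
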