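import Mathlib
import Pool.Agent.Helper36.NB.Defs
import Pool.Agent.Helper36.NB.C1

open scoped BigOperators MonoidAlgebra
open Classical

namespace Pool.Agent.Helper36.NB

namespace C3aux

theorem eps_exists {R A : Type} [CommRing R] [IsDomain R] [Ring A] [Algebra R A] (n : ℕ)
    (hn : 0 < n) (z w u : R) (hz : IsPrimitiveRoot z n) (hzw : z * w = 1)
    (hu : u * (n : R) = 1) (s : A) (hs : s ^ n = 1) :
    ∃ E : ℕ → A, (∀ k, E k * E k = E k) ∧ s = ∑ k ∈ Finset.range n, z ^ k • E k := by
  have hwn : w ^ n = 1 := by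
    have h1 : (z * w) ^ n = 1 := by rw [hzw, one_pow]
    rw [mul_pow, hz.pow_eq_one, one_mul] at h1
    exact h1
  have htn : ∀ k, (w ^ k • s) ^ n = 1 := by
    intro k
    rw [smul_pow, hs, ← pow_mul, mul_comm, pow_mul, hwn, one_pow, one_smul]
  have htE : ∀ k, (w ^ k • s) * (∑ i ∈ Finset.range n, (w ^ k • s) ^ i)
      = ∑ i ∈ Finset.range n, (w ^ k • s) ^ i := by
    intro k
    have h1 := mul_geom_sum (w ^ k • s) n
    rw [htn k, sub_self, sub_mul, one_mul, sub_eq_zero] at h1
    exact h1
  have htiE : ∀ k j, (w ^ k • s) ^ j * (∑ i ∈ Finset.range n, (w ^ k • s) ^ i)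
      = ∑ i ∈ Finset.range n, (w ^ k • s) ^ i := by
    intro k j
    induction j with
    | zero => simp
    | succ j ih => rw [pow_succ, mul_assoc, htE, ih]
  refine ⟨fun k => u • ∑ i ∈ Finset.range n, (w ^ k • s) ^ i, ?_, ?_⟩
  · intro k
    change (u • ∑ i ∈ Finset.range n, (w ^ k • s) ^ i) *
      (u • ∑ i ∈ Finset.range n, (w ^ k • s) ^ i) = u • ∑ i ∈ Finset.range n, (w ^ k • s) ^ i
    rw [smul_mul_smul_comm, Finset.sum_mul]
    simp only [htiE]
    rw [Finset.sum_const, Finset.card_range, ← Nat.cast_smul_eq_nsmul R, smul_smul, mul_assoc,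
      hu, mul_one]
  · have hsum : ∑ k ∈ Finset.range n, (u • ∑ i ∈ Finset.range n, (w ^ k • s) ^ i) = 1 := by
      have hw : IsPrimitiveRoot w n := by
        have h2 : w = z ^ (n - 1) := by
          have h3 : z * z ^ (n - 1) = 1 := by
            rw [← pow_succ', Nat.sub_add_cancel hn, hz.pow_eq_one]
          calc w = (z * z ^ (n - 1)) * w := by rw [h3, one_mul]
            _ = (z * w) * z ^ (n - 1) := by ring
            _ = z ^ (n - 1) := by rw [hzw, one_mul]
        rw [h2]
        refine hz.pow_of_coprime _ ?_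
        have h4 : n = (n - 1) + 1 := (Nat.sub_add_cancel hn).symm
        conv_rhs => rw [h4]
        simp
      calc ∑ k ∈ Finset.range n, (u • ∑ i ∈ Finset.range n, (w ^ k • s) ^ i)
          = ∑ i ∈ Finset.range n, (u • ((∑ k ∈ Finset.range n, (w ^ i) ^ k) • s ^ i)) := by
            simp only [smul_pow, Finset.smul_sum, Finset.sum_smul]
            rw [Finset.sum_comm]
            refine Finset.sum_congr rfl fun i _ => Finset.sum_congr rfl fun k _ => ?_
            rw [← pow_mul, ← pow_mul, mul_comm k i]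
        _ = u • ((∑ k ∈ Finset.range n, (w ^ 0) ^ k) • s ^ 0) := by
            refine Finset.sum_eq_single 0 ?_ ?_
            · intro i hi hi0
              have hlt : i < n := Finset.mem_range.1 hi
              have hne : w ^ i ≠ 1 := hw.pow_ne_one_of_pos_of_lt hi0 hlt
              have h5 := mul_geom_sum (w ^ i) n
              rw [← pow_mul, mul_comm i n, pow_mul, hwn, one_pow, sub_self] at h5
              have h6 : ∑ k ∈ Finset.range n, (w ^ i) ^ k = 0 := by
                rcases mul_eq_zero.1 h5 with h7 | h7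
                · exact absurd (sub_eq_zero.1 h7) hne
                · exact h7
              rw [h6, zero_smul, smul_zero]
            · intro h
              exact absurd (Finset.mem_range.2 hn) h
        _ = 1 := by
            simp only [pow_zero, one_pow, Finset.sum_const, Finset.card_range, nsmul_eq_mul,
              mul_one]
            rw [smul_smul, hu, one_smul]
    calc s = s * ∑ k ∈ Finset.range n, (u • ∑ i ∈ Finset.range n, (w ^ k • s) ^ i) := by
          rw [hsum, mul_one]
      _ = ∑ k ∈ Finset.range n, z ^ k • (u • ∑ i ∈ Finset.range n, (w ^ k • s) ^ i) := by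
          rw [Finset.mul_sum]
          refine Finset.sum_congr rfl fun k _ => ?_
          have h8 : s = z ^ k • (w ^ k • s) := by
            rw [smul_smul, ← mul_pow, hzw, one_pow, one_smul]
          conv_lhs => rw [mul_smul_comm]
          conv_lhs => rw [h8]
          rw [show (z ^ k • w ^ k • s) * ∑ i ∈ Finset.range n, (w ^ k • z ^ k • w ^ k • s) ^ i
            = (z ^ k • w ^ k • s) * ∑ i ∈ Finset.range n, (w ^ k • s) ^ i by rw [← h8]]
          rw [smul_mul_assoc, htE, smul_comm]

/-- The trace of an idempotent matrix over a field is its rank. -/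
theorem trace_eq_rank {k : Type} [Field k] {n : ℕ} (M : Matrix (Fin n) (Fin n) k)
    (hM : M * M = M) : M.trace = (M.rank : k) := by
  have h1 : IsIdempotentElem (Matrix.toLin' M) := by
    change Matrix.toLin' M * Matrix.toLin' M = Matrix.toLin' M
    rw [Module.End.mul_eq_comp, ← Matrix.toLin'_mul, hM]
  have h2 := (LinearMap.IsIdempotentElem.isProj_range _ h1).trace
  rw [← Matrix.trace_toLin'_eq]
  rw [h2]
  rfl

end C3aux

open C3aux

/-- The lifted Brauer character value at an element of odd order. -/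
theorem brauer_val (O : ValuationSubring ℂ) {G : Type} [Group G] [Finite G]
    (h2 : (2 : O) ∈ IsLocalRing.maximalIdeal O)
    (B : MonoidAlgebra O G) (hB : B * B = B) (hBc : ∀ a, a * B = B * a)
    (S : SimpleQuot (toK O G B)) (j : MonoidAlgebra O G) (hj : j * j = j) (hjB : j * B = j)
    (hj1 : (S.ρ (toK O G j)).rank = 1) (s : G) (hs : Odd (orderOf s)) :
    ∃ φ : O, IsIntegral ℤ (φ : ℂ) ∧
      IsLocalRing.residue O φ = (S.ρ (el (resK O) s)).trace ∧
      ∀ T : TraceFun O G, T.f (el O s * B) = (φ : ℂ) * T.f j := by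
  set n := orderOf s with hn
  have hn0 : 0 < n := orderOf_pos s
  -- a primitive root of unity of `O`
  have hzC : IsPrimitiveRoot (Complex.exp (2 * Real.pi * Complex.I / n)) n :=
    Complex.isPrimitiveRoot_exp n hn0.ne'
  have hzi : IsIntegral ℤ (Complex.exp (2 * Real.pi * Complex.I / n)) :=
    hzC.isIntegral hn0
  have hzO : Complex.exp (2 * Real.pi * Complex.I / n) ∈ O := by
    have h1 : IsIntegral O (Complex.exp (2 * Real.pi * Complex.I / n)) := hzi.tower_top
    obtain ⟨y, hy⟩ := (IsIntegrallyClosed.isIntegral_iff (R := O) (K := ℂ)).1 h1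
    rw [← hy]
    exact y.2
  obtain ⟨z, hzdef⟩ : ∃ z : O, (z : ℂ) = Complex.exp (2 * Real.pi * Complex.I / n) :=
    ⟨⟨_, hzO⟩, rfl⟩
  have hz : IsPrimitiveRoot z n := by
    refine IsPrimitiveRoot.of_map_of_injective (f := O.subtype) ?_ Subtype.val_injective
    change IsPrimitiveRoot (z : ℂ) n
    rw [hzdef]
    exact hzC
  have hzw : z * z ^ (n - 1) = 1 := by
    rw [← pow_succ', Nat.sub_add_cancel hn0, hz.pow_eq_one]
  -- `n` is a unit
  have hnu : IsUnit (n : O) := by
    obtain ⟨r, hr⟩ := hs
    by_contra hcon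
    have h3 : (n : O) ∈ IsLocalRing.maximalIdeal O := (IsLocalRing.mem_maximalIdeal _).2 hcon
    have h4 : (1 : O) ∈ IsLocalRing.maximalIdeal O := by
      have h5 : (1 : O) = (n : O) - (r : O) * 2 := by
        rw [hr]
        push_cast
        ring
      rw [h5]
      exact Ideal.sub_mem _ h3 (Ideal.mul_mem_left _ _ h2)
    exact (Ideal.ne_top_iff_one _).1 (IsLocalRing.maximalIdeal.isMaximal O).ne_top h4
  obtain ⟨u, hu⟩ := hnu.exists_left_inv
  have hsn : (el O s) ^ n = 1 := by
    have h1 : ∀ m : ℕ, (el O s) ^ m = el O (s ^ m) := by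
      intro m
      induction m with
      | zero => rw [pow_zero, pow_zero, el_one]
      | succ m ih => rw [pow_succ, ih, pow_succ, el_mul]
    rw [h1, hn, pow_orderOf_eq_one, el_one]
  obtain ⟨E, hE, hsE⟩ := eps_exists (A := MonoidAlgebra O G) n hn0 z (z ^ (n - 1)) u hz hzw hu
    (el O s) hsn
  have hyy : ∀ k, (E k * B) * (E k * B) = E k * B := by
    intro k
    calc (E k * B) * (E k * B) = E k * (B * E k) * B := by simp only [mul_assoc]
      _ = E k * (E k * B) * B := by rw [← hBc (E k)]
      _ = (E k * E k) * (B * B) := by simp only [mul_assoc]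
      _ = E k * B := by rw [hE, hB]
  have hyB : ∀ k, (E k * B) * B = E k * B := by
    intro k
    rw [mul_assoc, hB]
  have hsB : el O s * B = ∑ k ∈ Finset.range n, z ^ k • (E k * B) := by
    conv_lhs => rw [hsE]
    rw [Finset.sum_mul]
    refine Finset.sum_congr rfl fun k _ => ?_
    rw [smul_mul_assoc]
  refine ⟨∑ k ∈ Finset.range n, z ^ k * (((S.ρ (toK O G (E k * B))).rank : ℕ) : O), ?_, ?_, ?_⟩
  · have h1 : ((∑ k ∈ Finset.range n, z ^ k * (((S.ρ (toK O G (E k * B))).rank : ℕ) : O) : O) : ℂ)
        = ∑ k ∈ Finset.range n, (z : ℂ) ^ k * (((S.ρ (toK O G (E k * B))).rank : ℕ) : ℂ) := by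
      push_cast
      rfl
    rw [h1]
    refine IsIntegral.sum _ fun k _ => ?_
    refine IsIntegral.mul ?_ ?_
    · rw [hzdef]
      exact hzi.pow k
    · exact isIntegral_natCast _
  · have h1 : S.ρ (el (resK O) s) = S.ρ (toK O G (el O s * B)) := by
      rw [map_mul, map_mul, S.one, mul_one, toK_el]
    have hsm : ∀ (c : O) (x : MonoidAlgebra O G),
        toK O G (c • x) = IsLocalRing.residue O c • toK O G x := by
      intro c x
      ext g
      rw [toK_apply]
      simp [toK_apply]
    rw [h1, hsB, map_sum, map_sum, map_sum, Matrix.trace_sum]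
    refine Finset.sum_congr rfl fun k _ => ?_
    rw [hsm, map_smul, Matrix.trace_smul, trace_eq_rank]
    · rw [map_mul, map_pow, map_natCast, smul_eq_mul]
    · rw [← map_mul, ← map_mul, hyy]
  · intro T
    rw [hsB, map_sum]
    have h1 : ((∑ k ∈ Finset.range n, z ^ k * (((S.ρ (toK O G (E k * B))).rank : ℕ) : O) : O) : ℂ)
        = ∑ k ∈ Finset.range n, (z : ℂ) ^ k * (((S.ρ (toK O G (E k * B))).rank : ℕ) : ℂ) := by
      push_cast
      rfl
    rw [h1, Finset.sum_mul]
    refine Finset.sum_congr rfl fun k _ => ?_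
    rw [map_smul, trace_rank O B hB hBc S j hj hjB hj1 (E k * B) (hyy k) (hyB k) T]
    rw [mul_assoc]
    change ((z ^ k : O) : ℂ) * _ = _
    push_cast
    rfl

end Pool.Agent.Helper36.NB
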