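import Mathlib
import Pool.Agent.Helper36.NB.Defs
import Pool.Agent.Helper36.NB.A2
import Pool.Agent.Helper36.NB.A3
import Pool.Agent.Helper36.NB.C1
import Pool.Agent.Helper36.NB.E0

open scoped BigOperators MonoidAlgebra
open Classical

namespace Pool.Agent.Helper36.NB

namespace C4aux

theorem eps_exists {R A : Type} [CommRing R] [IsDomain R] [Ring A] [Algebra R A] (n : ℕ)
    (hn : 0 < n) (z w u : R) (hz : IsPrimitiveRoot z n) (hzw : z * w = 1)
    (hu : u * (n : R) = 1) (s : A) (hs : s ^ n = 1) :
    ∃ E : ℕ → A, (∀ k, E k * E k = E k) ∧ s = ∑ k ∈ Finset.range n, z ^ k • E k := by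
  have hwn : w ^ n = 1 := by
    have h1 : (z * w) ^ n = 1 := by rw [hzw, one_pow]
    rw [mul_pow, hz.pow_eq_one, one_mul] at h1
    exact h1
  have htn : ∀ k, (w ^ k • s) ^ n = 1 := by
    intro k
    rw [smul_pow, hs, ← pow_mul, mul_comm, pow_mul, hwn, one_pow, one_smul]
  have htE : ∀ k, (w ^ k • s) * (∑ i ∈ Finset.range n, (w ^ k • s) ^ i)
      = ∑ i ∈ Finset.range n, (w ^ k • s) ^ i := by
    intro k
    have h1 := mul_geom_sum (w ^ k • s) n
    rw [htn k, sub_self, sub_mul, one_mul, sub_eq_zero] at h1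
    exact h1
  have htiE : ∀ k j, (w ^ k • s) ^ j * (∑ i ∈ Finset.range n, (w ^ k • s) ^ i)
      = ∑ i ∈ Finset.range n, (w ^ k • s) ^ i := by
    intro k j
    induction j with
    | zero => simp
    | succ j ih => rw [pow_succ, mul_assoc, htE, ih]
  refine ⟨fun k => u • ∑ i ∈ Finset.range n, (w ^ k • s) ^ i, ?_, ?_⟩
  · intro k
    change (u • ∑ i ∈ Finset.range n, (w ^ k • s) ^ i) *
      (u • ∑ i ∈ Finset.range n, (w ^ k • s) ^ i) = u • ∑ i ∈ Finset.range n, (w ^ k • s) ^ i
    rw [smul_mul_smul_comm, Finset.sum_mul]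
    simp only [htiE]
    rw [Finset.sum_const, Finset.card_range, ← Nat.cast_smul_eq_nsmul R, smul_smul, mul_assoc,
      hu, mul_one]
  · have hsum : ∑ k ∈ Finset.range n, (u • ∑ i ∈ Finset.range n, (w ^ k • s) ^ i) = 1 := by
      have hw : IsPrimitiveRoot w n := by
        have h2 : w = z ^ (n - 1) := by
          have h3 : z * z ^ (n - 1) = 1 := by
            rw [← pow_succ', Nat.sub_add_cancel hn, hz.pow_eq_one]
          calc w = (z * z ^ (n - 1)) * w := by rw [h3, one_mul]
            _ = (z * w) * z ^ (n - 1) := by ring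
            _ = z ^ (n - 1) := by rw [hzw, one_mul]
        rw [h2]
        refine hz.pow_of_coprime _ ?_
        have h4 : n = (n - 1) + 1 := (Nat.sub_add_cancel hn).symm
        conv_rhs => rw [h4]
        simp
      calc ∑ k ∈ Finset.range n, (u • ∑ i ∈ Finset.range n, (w ^ k • s) ^ i)
          = ∑ i ∈ Finset.range n, (u • ((∑ k ∈ Finset.range n, (w ^ i) ^ k) • s ^ i)) := by
            simp only [smul_pow, Finset.smul_sum, Finset.sum_smul]
            rw [Finset.sum_comm]
            refine Finset.sum_congr rfl fun i _ => Finset.sum_congr rfl fun k _ => ?_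
            rw [← pow_mul, ← pow_mul, mul_comm k i]
        _ = u • ((∑ k ∈ Finset.range n, (w ^ 0) ^ k) • s ^ 0) := by
            refine Finset.sum_eq_single 0 ?_ ?_
            · intro i hi hi0
              have hlt : i < n := Finset.mem_range.1 hi
              have hne : w ^ i ≠ 1 := hw.pow_ne_one_of_pos_of_lt hi0 hlt
              have h5 := mul_geom_sum (w ^ i) n
              rw [← pow_mul, mul_comm i n, pow_mul, hwn, one_pow, sub_self] at h5
              have h6 : ∑ k ∈ Finset.range n, (w ^ i) ^ k = 0 := by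
                rcases mul_eq_zero.1 h5 with h7 | h7
                · exact absurd (sub_eq_zero.1 h7) hne
                · exact h7
              rw [h6, zero_smul, smul_zero]
            · intro h
              exact absurd (Finset.mem_range.2 hn) h
        _ = 1 := by
            simp only [pow_zero, one_pow, Finset.sum_const, Finset.card_range, nsmul_eq_mul,
              mul_one]
            rw [smul_smul, hu, one_smul]
    calc s = s * ∑ k ∈ Finset.range n, (u • ∑ i ∈ Finset.range n, (w ^ k • s) ^ i) := by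
          rw [hsum, mul_one]
      _ = ∑ k ∈ Finset.range n, z ^ k • (u • ∑ i ∈ Finset.range n, (w ^ k • s) ^ i) := by
          rw [Finset.mul_sum]
          refine Finset.sum_congr rfl fun k _ => ?_
          have h8 : s = z ^ k • (w ^ k • s) := by
            rw [smul_smul, ← mul_pow, hzw, one_pow, one_smul]
          conv_lhs => rw [mul_smul_comm]
          conv_lhs => rw [h8]
          rw [show (z ^ k • w ^ k • s) * ∑ i ∈ Finset.range n, (w ^ k • z ^ k • w ^ k • s) ^ i
            = (z ^ k • w ^ k • s) * ∑ i ∈ Finset.range n, (w ^ k • s) ^ i by rw [← h8]]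
          rw [smul_mul_assoc, htE, smul_comm]

/-- The trace of an idempotent matrix over a field is its rank. -/
theorem trace_eq_rank {k : Type} [Field k] {n : ℕ} (M : Matrix (Fin n) (Fin n) k)
    (hM : M * M = M) : M.trace = (M.rank : k) := by
  have h1 : IsIdempotentElem (Matrix.toLin' M) := by
    change Matrix.toLin' M * Matrix.toLin' M = Matrix.toLin' M
    rw [Module.End.mul_eq_comp, ← Matrix.toLin'_mul, hM]
  have h2 := (LinearMap.IsIdempotentElem.isProj_range _ h1).trace
  rw [← Matrix.trace_toLin'_eq]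
  rw [h2]
  rfl


theorem mapDomain_conj {R : Type} [CommRing R] {G : Type} [Group G] (g : G)
    (x : MonoidAlgebra R G) :
    MonoidAlgebra.mapDomain (fun h => g * h * g⁻¹) x = el R g * x * el R g⁻¹ := by
  induction x using MonoidAlgebra.induction_linear with
  | zero => simp
  | add x y hx hy => rw [MonoidAlgebra.mapDomain_add, hx, hy, mul_add, add_mul]
  | single h c =>
    rw [MonoidAlgebra.mapDomain_single, el, el, MonoidAlgebra.single_mul_single,
      MonoidAlgebra.single_mul_single, one_mul, mul_one]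

theorem central_of_el {R : Type} [CommRing R] {G : Type} [Group G] (x : MonoidAlgebra R G)
    (h : ∀ g, el R g * x = x * el R g) (y : MonoidAlgebra R G) : y * x = x * y := by
  induction y using MonoidAlgebra.induction_linear with
  | zero => simp
  | add y y' hy hy' => rw [add_mul, mul_add, hy, hy']
  | single g c =>
    have h1 : MonoidAlgebra.single g c = c • el R g := by
      simp [el]
    rw [h1, smul_mul_assoc, mul_smul_comm, h]

theorem central_of_mapDomain {R : Type} [CommRing R] {G : Type} [Group G]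
    (x : MonoidAlgebra R G)
    (h : ∀ g : G, MonoidAlgebra.mapDomain (fun h => g * h * g⁻¹) x = x)
    (y : MonoidAlgebra R G) : y * x = x * y := by
  refine central_of_el x (fun g => ?_) y
  have h1 := h g
  rw [mapDomain_conj] at h1
  have h2 : el R g⁻¹ * el R g = 1 := by
    rw [← el_mul, inv_mul_cancel, el_one]
  calc el R g * x = el R g * x * (el R g⁻¹ * el R g) := by rw [h2, mul_one]
    _ = (el R g * x * el R g⁻¹) * el R g := by simp only [mul_assoc]
    _ = x * el R g := by rw [h1]

theorem mapDomain_of_central {R : Type} [CommRing R] {G : Type} [Group G]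
    (x : MonoidAlgebra R G) (h : ∀ y, y * x = x * y) (g : G) :
    MonoidAlgebra.mapDomain (fun h => g * h * g⁻¹) x = x := by
  rw [mapDomain_conj, h, mul_assoc, ← el_mul, mul_inv_cancel, el_one, mul_one]

/-- The zero function is a character. -/
theorem isChar_zero {N : Type} [Group N] : IsChar (fun _ : N => (0 : ℂ)) := by
  refine ⟨0, 1, fun u => ?_⟩
  simp [Representation.character]

theorem isChar_add {N : Type} [Group N] {η θ : N → ℂ} (h1 : IsChar η) (h2 : IsChar θ) :
    IsChar (fun u => η u + θ u) := by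
  obtain ⟨m, ρ, hρ⟩ := h1
  obtain ⟨n, σ, hσ⟩ := h2
  have hE : Nonempty (((Fin m → ℂ) × (Fin n → ℂ)) ≃ₗ[ℂ] (Fin (m + n) → ℂ)) := by
    apply FiniteDimensional.nonempty_linearEquiv_of_finrank_eq
    simp
  obtain ⟨E⟩ := hE
  refine ⟨m + n,
    { toFun := fun g => E.conj ((ρ g).prodMap (σ g))
      map_one' := ?_
      map_mul' := ?_ }, ?_⟩
  · rw [map_one, map_one]
    refine LinearMap.ext fun v => ?_
    simp [LinearEquiv.conj_apply]
  · intro g h
    rw [map_mul, map_mul]
    refine LinearMap.ext fun v => ?_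
    simp [LinearEquiv.conj_apply]
  · intro u
    change LinearMap.trace ℂ _ (E.conj ((ρ u).prodMap (σ u))) = _
    rw [LinearMap.trace_conj', LinearMap.trace_prodMap']
    change _ = η u + θ u
    rw [← hρ, ← hσ]
    rfl

theorem isChar_nat_mul {N : Type} [Group N] {η : N → ℂ} (h1 : IsChar η) (m : ℕ) :
    IsChar (fun u => (m : ℂ) * η u) := by
  induction m with
  | zero =>
    have h := isChar_zero (N := N)
    refine (?_ : IsChar (fun u => ((0 : ℕ) : ℂ) * η u))
    simpa using h
  | succ m ih =>
    have h := isChar_add ih h1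
    have h2 : (fun u => (m : ℂ) * η u + η u) = fun u => ((m + 1 : ℕ) : ℂ) * η u := by
      funext u
      push_cast
      ring
    rw [← h2]
    exact h

theorem isChar_sum {N : Type} [Group N] {ι : Type} (s : Finset ι) (c : ι → ℕ) (η : ι → N → ℂ)
    (h : ∀ i, IsChar (η i)) : IsChar (fun u => ∑ i ∈ s, (c i : ℂ) * η i u) := by
  induction s using Finset.induction_on with
  | empty => simpa using isChar_zero (N := N)
  | insert i s hi ih =>
    have h1 := isChar_add (isChar_nat_mul (h i) (c i)) ih
    simpa [Finset.sum_insert hi] using h1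


/-- An idempotent complex matrix with trace zero is zero. -/
theorem idem_trace_zero {n : ℕ} (M : Matrix (Fin n) (Fin n) ℂ) (hM : M * M = M)
    (h0 : M.trace = 0) : M = 0 := by
  rw [trace_eq_rank M hM] at h0
  have h1 : M.rank = 0 := by exact_mod_cast h0
  rw [Matrix.rank] at h1
  have h2 : LinearMap.range M.mulVecLin = ⊥ := Submodule.finrank_eq_zero.1 h1
  rw [LinearMap.range_eq_bot] at h2
  ext i j
  have h3 := congrFun (LinearMap.congr_fun h2 (Pi.single j 1)) i
  simpa using h3

/-- The idempotents of `O[L]` for a group `L` of odd order. -/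
theorem exists_family (O : ValuationSubring ℂ) (h2 : (2 : O) ∈ IsLocalRing.maximalIdeal O)
    (L : Type) [Group L] [Finite L] (hL : Odd (Nat.card L)) :
    ∃ (n : ℕ) (d : Fin n → ℕ) (j : Fin n → MonoidAlgebra O L)
      (e : Fin n → MonoidAlgebra O L) (R : Fin n → MonoidAlgebra O L → ℕ),
      (∀ a, 0 < d a) ∧ (∑ a, (d a) ^ 2 = Nat.card L) ∧ (∀ a, j a * j a = j a) ∧
      (∀ a, j a ≠ 0) ∧ (∀ a, j a * e a = j a) ∧ (∀ a x, x * e a = e a * x) ∧
      (∀ a b, a ≠ b → e a * e b = 0) ∧ (∀ a, R a 1 = d a) ∧
      (∀ (T : TraceFun O L) (y : MonoidAlgebra O L), y * y = y →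
        T.f y = ∑ a, (R a y : ℂ) * T.f (j a)) := by
  have : IsAlgClosed (resK O) := resK_isAlgClosed O
  have : CharP (resK O) 2 := resK_charP O h2
  have : NeZero (Nat.card L : resK O) := ⟨by
    intro h
    rw [CharP.cast_eq_zero_iff (resK O) 2] at h
    exact (Nat.not_even_iff_odd.2 hL) (even_iff_two_dvd.2 h)⟩
  have : IsSemisimpleRing (MonoidAlgebra (resK O) L) := inferInstance
  have : FiniteDimensional (resK O) (MonoidAlgebra (resK O) L) :=
    Module.Finite.of_basis (MonoidAlgebra.basis L (resK O))
  obtain ⟨n, d, hd, ⟨ε⟩⟩ :=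
    IsSemisimpleRing.exists_algEquiv_pi_matrix_of_isAlgClosed (resK O)
      (MonoidAlgebra (resK O) L)
  have hdpos : ∀ a, 0 < d a := fun a => Nat.pos_of_ne_zero (hd a).out
  -- dimension count
  have hdim : ∑ a, (d a) ^ 2 = Nat.card L := by
    have := Fintype.ofFinite L
    have h1 := ε.toLinearEquiv.finrank_eq
    rw [Module.finrank_eq_card_basis (MonoidAlgebra.basis L (resK O)),
      Module.finrank_pi_fintype] at h1
    rw [Nat.card_eq_fintype_card, h1]
    refine Finset.sum_congr rfl fun a _ => ?_
    rw [Module.finrank_matrix, Module.finrank_self, Fintype.card_fin, mul_one, sq]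
  -- central idempotents of `k[L]`
  have hc1 : ∀ a : Fin n, ∀ y : MonoidAlgebra (resK O) L,
      y * ε.symm (Pi.single a 1) = ε.symm (Pi.single a 1) * y := by
    intro a y
    apply ε.injective
    rw [map_mul, map_mul, AlgEquiv.apply_symm_apply]
    funext b
    by_cases hab : b = a
    · subst hab
      simp
    · simp [hab]
  have hc2 : ∀ a : Fin n, ε.symm (Pi.single a 1) * ε.symm (Pi.single a 1) =
      ε.symm (Pi.single a 1) := by
    intro a
    rw [← map_mul, ← Pi.single_mul, one_mul]
  have hc3 : ∀ a b : Fin n, a ≠ b → ε.symm (Pi.single a 1) * ε.symm (Pi.single b 1) = 0 := by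
    intro a b hab
    apply ε.injective
    rw [map_mul, AlgEquiv.apply_symm_apply, AlgEquiv.apply_symm_apply, map_zero]
    funext c
    by_cases hc : c = a
    · subst hc
      simp [hab]
    · simp [hc]
  have hc4 : ∑ a, ε.symm (Pi.single a 1) = 1 := by
    rw [← map_sum, Finset.univ_sum_single (fun a => (1 : Matrix (Fin (d a)) (Fin (d a)) (resK O)))]
    exact map_one _
  -- lifting
  have hl : ∀ a : Fin n, ∃ i : MonoidAlgebra O L, toK O L i = ε.symm (Pi.single a 1) ∧
      i * i = i ∧ ∀ y, y * i = i * y := by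
    intro a
    obtain ⟨i, hi1, hi2, -, hi4⟩ := lift_sym O (1 : MonoidAlgebra O L) (by rw [one_mul])
      (by intro a; rw [one_mul, mul_one]) (ε.symm (Pi.single a 1)) (hc2 a)
      (by rw [map_one, mul_one])
    refine ⟨i, hi1, hi2, central_of_mapDomain i fun g => ?_⟩
    refine hi4 (fun h => g * h * g⁻¹) ?_ (Or.inl fun x y => by group) ?_ ?_
    · constructor
      · intro x y hxy
        simpa using hxy
      · intro y
        exact ⟨g⁻¹ * y * g, by group⟩
    · exact mapDomain_of_central _ (by intro y; rw [one_mul, mul_one]) g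
    · exact mapDomain_of_central _ (hc1 a) g
  choose e he1 he2 he3 using hl
  have he4 : ∀ a b, a ≠ b → e a * e b = 0 := by
    intro a b hab
    apply idem_eq_zero O
    · calc e a * e b * (e a * e b) = e a * (e b * e a) * e b := by simp only [mul_assoc]
        _ = e a * (e a * e b) * e b := by rw [he3 a (e b)]
        _ = (e a * e a) * (e b * e b) := by simp only [mul_assoc]
        _ = e a * e b := by rw [he2, he2]
    · rw [map_mul, he1, he1, hc3 a b hab]
  have he5 : ∑ a, e a = 1 := by
    have hs : (∑ a, e a) * (∑ a, e a) = ∑ a, e a := by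
      rw [Finset.sum_mul_sum]
      refine Finset.sum_congr rfl fun a _ => ?_
      rw [Finset.sum_eq_single a]
      · exact he2 a
      · intro b _ hb
        exact he4 a b (Ne.symm hb)
      · intro h
        exact absurd (Finset.mem_univ a) h
    have h1 : (1 - ∑ a, e a) = 0 := by
      apply idem_eq_zero O
      · rw [mul_sub, sub_mul, sub_mul, one_mul, mul_one, one_mul, hs, sub_self, sub_zero]
      · rw [map_sub, map_one, map_sum]
        simp only [he1]
        rw [hc4, sub_self]
    exact (sub_eq_zero.1 h1).symm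
  -- the simple quotients
  have hS : ∀ a : Fin n, ∃ S : SimpleQuot (toK O L (e a)),
      ∀ x, (S.ρ x).rank = (ε x a).rank := by
    intro a
    refine ⟨
      { n := d a
        ρ := (Pi.evalAlgHom (resK O) (fun a => Matrix (Fin (d a)) (Fin (d a)) (resK O)) a).comp
          ε.toAlgHom
        pos := hdpos a
        surj := ?_
        one := ?_
        nil := ?_ }, fun x => rfl⟩
    · intro M
      refine ⟨ε.symm (Pi.single a M), ?_⟩
      simp
    · rw [he1]
      simp
    · intro x hx
      refine ⟨1, ?_⟩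
      rw [pow_one, he1]
      apply ε.injective
      rw [map_mul, AlgEquiv.apply_symm_apply, map_zero]
      have hx' : ε x a = 0 := hx
      funext c
      by_cases hc : c = a
      · subst hc
        simp [hx']
      · simp [hc]
  choose S hSr using hS
  have hj : ∀ a, ∃ j : MonoidAlgebra O L, j * j = j ∧ j * e a = j ∧
      ((S a).ρ (toK O L j)).rank = 1 :=
    fun a => exists_rank_one O (e a) (he2 a) (he3 a) (S a)
  choose j hj1 hj2 hj3 using hj
  refine ⟨n, d, j, e, fun a y => (ε (toK O L y) a).rank, hdpos, hdim, hj1, ?_, hj2, he3, he4,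
    ?_, ?_⟩
  · intro a h0
    have h1 := hj3 a
    rw [h0, map_zero, map_zero, Matrix.rank_zero] at h1
    exact zero_ne_one h1
  · intro a
    change (ε (toK O L 1) a).rank = d a
    rw [map_one, map_one, Pi.one_apply, Matrix.rank_one, Fintype.card_fin]
  · intro T y hy
    have h1 : y = ∑ a, y * e a := by
      rw [← Finset.mul_sum, he5, mul_one]
    conv_lhs => rw [h1]
    rw [map_sum]
    refine Finset.sum_congr rfl fun a _ => ?_
    have h3 : (y * e a) * (y * e a) = y * e a := by
      calc (y * e a) * (y * e a) = y * (e a * y) * e a := by simp only [mul_assoc]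
        _ = y * (y * e a) * e a := by rw [← he3 a y]
        _ = (y * y) * (e a * e a) := by simp only [mul_assoc]
        _ = y * e a := by rw [hy, he2]
    rw [trace_rank O (e a) (he2 a) (he3 a) (S a) (j a) (hj1 a) (hj2 a) (hj3 a) (y * e a) h3
      (by rw [mul_assoc, he2]) T, hSr]
    congr 2
    rw [map_mul, he1, map_mul, Pi.mul_apply, AlgEquiv.apply_symm_apply, Pi.single_eq_same,
      mul_one]

/-- The multiplicities are orthonormal. -/
theorem exists_mult (O : ValuationSubring ℂ) (h2 : (2 : O) ∈ IsLocalRing.maximalIdeal O)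
    (L : Type) [Group L] [Fintype L] (hL : Odd (Nat.card L)) (J : IrrData L) :
    ∃ (n : ℕ) (j : Fin n → MonoidAlgebra O L) (R : Fin n → MonoidAlgebra O L → ℕ)
      (m : Fin J.r → Fin n → ℕ), (∀ a, j a * j a = j a) ∧
      (∀ β a, J.chi β (toC O L (j a)) = m β a) ∧
      (∀ a b, ∑ β, m β a * m β b = if a = b then 1 else 0) ∧
      (∀ (T : TraceFun O L) (y : MonoidAlgebra O L), y * y = y →
        T.f y = ∑ a, (R a y : ℂ) * T.f (j a)) := by
  obtain ⟨n, d, j, e, R, hd, hdim, hj, hj0, hje, hec, hee, hR1, hF⟩ :=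
    exists_family O h2 L hL
  have hm : ∀ β a, ∃ m : ℕ, J.chi β (toC O L (j a)) = m :=
    fun β a => chi_idem J β _ (by rw [← map_mul, hj])
  choose m hm using hm
  have hcross : ∀ a b, a ≠ b → ∑ β, m β a * m β b = 0 := by
    intro a b hab
    have h1 := sum_chi_mul J (toC O L (j a)) (toC O L (j b))
    have h3 : ∀ g : L, toC O L (j a) * el ℂ g * toC O L (j b) = 0 := by
      intro g
      rw [← toC_el O, ← map_mul, ← map_mul]
      have h4 : j a * el O g * j b = 0 := by
        calc j a * el O g * j b = (j a * e a) * el O g * (j b * e b) := by rw [hje, hje]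
          _ = j a * (e a * (el O g * j b)) * e b := by simp only [mul_assoc]
          _ = j a * ((el O g * j b) * e a) * e b := by rw [← hec a (el O g * j b)]
          _ = j a * (el O g * j b) * (e a * e b) := by simp only [mul_assoc]
          _ = 0 := by rw [hee a b hab, mul_zero]
      rw [h4, map_zero]
    simp only [h3, hm] at h1
    have h5 : ∑ x : L, (0 : MonoidAlgebra ℂ L).coeff x = 0 :=
      Finset.sum_eq_zero fun g _ => by simp
    rw [h5] at h1
    exact_mod_cast h1
  have hM : ∀ a, 1 ≤ ∑ β, m β a * m β a := by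
    intro a
    by_contra hcon
    have h0 : ∑ β, m β a * m β a = 0 := by omega
    rw [Finset.sum_eq_zero_iff] at h0
    apply hj0 a
    apply toC_injective O
    rw [map_zero]
    apply J.equiv.injective
    rw [map_zero]
    funext β
    rw [Pi.zero_apply]
    apply idem_trace_zero
    · rw [← Pi.mul_apply, ← map_mul, ← map_mul, hj]
    · have h5 := hm β a
      have h6 : m β a = 0 := by
        have := h0 β (Finset.mem_univ β)
        simpa using this
      rw [h6] at h5
      simpa [IrrData.chi] using h5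
  have hdβ : ∀ β, J.d β = ∑ a, d a * m β a := by
    intro β
    have h1 := hF (TraceFun.ofChi O J β) 1 (by rw [one_mul])
    rw [TraceFun.ofChi_apply, map_one, chi_one] at h1
    simp only [TraceFun.ofChi_apply, hm, hR1] at h1
    exact_mod_cast h1
  have hsum : ∑ β, (J.d β) ^ 2 = Nat.card L := by
    have h1 := sum_chi_mul J 1 1
    simp only [chi_one, one_mul, mul_one] at h1
    have h3 : ∀ g : L, (el ℂ g).coeff g = 1 := by
      intro g
      simp [el]
    simp only [h3] at h1
    rw [Finset.sum_const, Finset.card_univ, nsmul_eq_mul, mul_one] at h1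
    rw [Nat.card_eq_fintype_card]
    have h4 : ((∑ β, (J.d β) ^ 2 : ℕ) : ℂ) = (Fintype.card L : ℂ) := by
      rw [← h1]
      push_cast
      exact Finset.sum_congr rfl fun β _ => sq _
    exact_mod_cast h4
  have hexp : ∑ a, (d a) ^ 2 * ∑ β, m β a * m β a = ∑ a, (d a) ^ 2 := by
    rw [hdim, ← hsum]
    simp only [hdβ]
    have h1 : ∀ β, (∑ a, d a * m β a) ^ 2 = ∑ a, ∑ b, d a * d b * (m β a * m β b) := by
      intro β
      rw [sq, Finset.sum_mul_sum]
      refine Finset.sum_congr rfl fun a _ => Finset.sum_congr rfl fun b _ => by ring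
    simp only [h1]
    rw [Finset.sum_comm]
    refine Finset.sum_congr rfl fun a _ => ?_
    rw [Finset.sum_comm, Finset.sum_eq_single a]
    · rw [Finset.mul_sum]
      refine Finset.sum_congr rfl fun β _ => by ring
    · intro b _ hb
      rw [← Finset.mul_sum, hcross a b (Ne.symm hb), mul_zero]
    · intro h
      exact absurd (Finset.mem_univ a) h
  have hM1 : ∀ a, ∑ β, m β a * m β a = 1 := by
    have h1 := (Finset.sum_eq_sum_iff_of_le (s := Finset.univ)
      (f := fun a => (d a) ^ 2) (g := fun a => (d a) ^ 2 * ∑ β, m β a * m β a)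
      (fun a _ => Nat.le_mul_of_pos_right _ (hM a))).1 hexp.symm
    intro a
    have h3 := h1 a (Finset.mem_univ a)
    have h4 : 0 < (d a) ^ 2 := pow_pos (hd a) 2
    have h5 : (d a) ^ 2 * 1 = (d a) ^ 2 * ∑ β, m β a * m β a := by
      rw [mul_one]
      exact h3
    exact (Nat.eq_of_mul_eq_mul_left h4 h5).symm
  refine ⟨n, j, R, m, hj, hm, ?_, hF⟩
  intro a b
  by_cases hab : a = b
  · subst hab
    rw [if_pos rfl, hM1]
  · rw [if_neg hab, hcross a b hab]

/-- Elements of odd order are combinations of idempotents. -/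
theorem el_expand (O : ValuationSubring ℂ) (h2 : (2 : O) ∈ IsLocalRing.maximalIdeal O)
    {G : Type} [Group G] [Finite G] (s : G) (hs : Odd (orderOf s)) :
    ∃ (n : ℕ) (z : O) (E : ℕ → MonoidAlgebra O G), (∀ k, E k * E k = E k) ∧
      el O s = ∑ k ∈ Finset.range n, z ^ k • E k := by
  set n := orderOf s with hn
  have hn0 : 0 < n := orderOf_pos s
  have hzC : IsPrimitiveRoot (Complex.exp (2 * Real.pi * Complex.I / n)) n :=
    Complex.isPrimitiveRoot_exp n hn0.ne'
  have hzi : IsIntegral ℤ (Complex.exp (2 * Real.pi * Complex.I / n)) :=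
    hzC.isIntegral hn0
  have hzO : Complex.exp (2 * Real.pi * Complex.I / n) ∈ O := by
    have h1 : IsIntegral O (Complex.exp (2 * Real.pi * Complex.I / n)) := hzi.tower_top
    obtain ⟨y, hy⟩ := (IsIntegrallyClosed.isIntegral_iff (R := O) (K := ℂ)).1 h1
    rw [← hy]
    exact y.2
  obtain ⟨z, hzdef⟩ : ∃ z : O, (z : ℂ) = Complex.exp (2 * Real.pi * Complex.I / n) :=
    ⟨⟨_, hzO⟩, rfl⟩
  have hz : IsPrimitiveRoot z n := by
    refine IsPrimitiveRoot.of_map_of_injective (f := O.subtype) ?_ Subtype.val_injective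
    change IsPrimitiveRoot (z : ℂ) n
    rw [hzdef]
    exact hzC
  have hzw : z * z ^ (n - 1) = 1 := by
    rw [← pow_succ', Nat.sub_add_cancel hn0, hz.pow_eq_one]
  have hnu : IsUnit (n : O) := by
    obtain ⟨r, hr⟩ := hs
    by_contra hcon
    have h3 : (n : O) ∈ IsLocalRing.maximalIdeal O := (IsLocalRing.mem_maximalIdeal _).2 hcon
    have h4 : (1 : O) ∈ IsLocalRing.maximalIdeal O := by
      have h5 : (1 : O) = (n : O) - (r : O) * 2 := by
        rw [hr]
        push_cast
        ring
      rw [h5]
      exact Ideal.sub_mem _ h3 (Ideal.mul_mem_left _ _ h2)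
    exact (Ideal.ne_top_iff_one _).1 (IsLocalRing.maximalIdeal.isMaximal O).ne_top h4
  obtain ⟨u, hu⟩ := hnu.exists_left_inv
  have hsn : (el O s) ^ n = 1 := by
    have h1 : ∀ m : ℕ, (el O s) ^ m = el O (s ^ m) := by
      intro m
      induction m with
      | zero => rw [pow_zero, pow_zero, el_one]
      | succ m ih => rw [pow_succ, ih, pow_succ, el_mul]
    rw [h1, hn, pow_orderOf_eq_one, el_one]
  obtain ⟨E, hE, hsE⟩ := eps_exists (A := MonoidAlgebra O G) n hn0 z (z ^ (n - 1)) u hz hzw hu
    (el O s) hsn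
  exact ⟨n, z, E, hE, hsE⟩

end C4aux

open C4aux

/-- Restriction of the block `B` to a group of odd order. -/
theorem rep_odd (O : ValuationSubring ℂ) {G : Type} [Group G] [Finite G]
    (h2 : (2 : O) ∈ IsLocalRing.maximalIdeal O)
    (B : MonoidAlgebra O G) (hB : B * B = B) (hBc : ∀ a, a * B = B * a)
    (S : SimpleQuot (toK O G B)) (j : MonoidAlgebra O G) (hj : j * j = j) (hjB : j * B = j)
    (hj1 : (S.ρ (toK O G j)).rank = 1) (L : Type) [Group L] [Finite L]
    (hL : Odd (Nat.card L)) (φ : L →* G) :
    ∃ η : L → ℂ, IsChar η ∧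
      ∀ (l : L) (T : TraceFun O G), T.f (el O (φ l) * B) = η l * T.f j := by
  have := Fintype.ofFinite L
  obtain ⟨J⟩ := exists_irrData L
  obtain ⟨n, j', R, m, hj', hm, horth, hF⟩ := exists_mult O h2 L hL J
  set Φ := MonoidAlgebra.mapDomainAlgHom O O φ with hΦ
  have hΦel : ∀ l, Φ (el O l) = el O (φ l) := by
    intro l
    rw [hΦ, el, el]
    simp
  have hidem : ∀ y : MonoidAlgebra O L, y * y = y → (Φ y * B) * (Φ y * B) = Φ y * B := by
    intro y hy
    calc (Φ y * B) * (Φ y * B) = Φ y * (B * Φ y) * B := by simp only [mul_assoc]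
      _ = Φ y * (Φ y * B) * B := by rw [← hBc (Φ y)]
      _ = (Φ y * Φ y) * (B * B) := by simp only [mul_assoc]
      _ = Φ y * B := by rw [← map_mul, hy, hB]
  set r : Fin n → ℕ := fun a => (S.ρ (toK O G (Φ (j' a) * B))).rank with hr
  have hrT : ∀ (T : TraceFun O G) a, T.f (Φ (j' a) * B) = (r a : ℂ) * T.f j := by
    intro T a
    exact trace_rank O B hB hBc S j hj hjB hj1 (Φ (j' a) * B) (hidem _ (hj' a))
      (by rw [mul_assoc, hB]) T
  set c : Fin J.r → ℕ := fun β => ∑ a, r a * m β a with hc
  have hcr : ∀ b, ∑ β, (c β : ℂ) * J.chi β (toC O L (j' b)) = (r b : ℂ) := by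
    intro b
    simp only [hm]
    have h1 : ∑ β, c β * m β b = r b := by
      simp only [hc, Finset.sum_mul]
      rw [Finset.sum_comm]
      have h3 : ∀ a, ∑ β, r a * m β a * m β b = r a * if a = b then 1 else 0 := by
        intro a
        rw [← horth a b, Finset.mul_sum]
        exact Finset.sum_congr rfl fun β _ => by ring
      simp only [h3]
      simp
    exact_mod_cast h1
  refine ⟨fun l => ∑ β, (c β : ℂ) * J.ch β l, isChar_sum Finset.univ c (fun β => J.ch β)
    (fun β => ch_isChar J β), ?_⟩
  intro l T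
  -- the difference as a central function
  obtain ⟨D, hD⟩ : ∃ D : TraceFun O L, ∀ x, D.f x =
      T.f (Φ x * B) - (∑ β, (c β : ℂ) * J.chi β (toC O L x)) * T.f j := by
    refine ⟨
      { f :=
          { toFun := fun x =>
              T.f (Φ x * B) - (∑ β, (c β : ℂ) * J.chi β (toC O L x)) * T.f j
            map_add' := ?_
            map_smul' := ?_ }
        comm := ?_ }, fun x => rfl⟩
    · intro x y
      simp only [map_add, add_mul, chi_add, mul_add, Finset.sum_add_distrib]
      ring
    · intro a x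
      have h1 : Φ (a • x) * B = a • (Φ x * B) := by
        rw [map_smul, smul_mul_assoc]
      rw [h1, map_smul]
      simp only [toC_smul, chi_smul]
      have h3 : ∑ β, (c β : ℂ) * ((a : ℂ) * J.chi β (toC O L x)) =
          (a : ℂ) * ∑ β, (c β : ℂ) * J.chi β (toC O L x) := by
        rw [Finset.mul_sum]
        exact Finset.sum_congr rfl fun β _ => by ring
      rw [h3]
      change (a : ℂ) * _ - _ = (a : ℂ) * _
      ring
    · intro x y
      change T.f (Φ (x * y) * B) - (∑ β, (c β : ℂ) * J.chi β (toC O L (x * y))) * T.f j =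
        T.f (Φ (y * x) * B) - (∑ β, (c β : ℂ) * J.chi β (toC O L (y * x))) * T.f j
      have h1 : T.f (Φ (x * y) * B) = T.f (Φ (y * x) * B) := by
        rw [map_mul Φ, map_mul Φ, mul_assoc, T.comm, mul_assoc, ← hBc, ← mul_assoc]
      have h3 : ∀ β, J.chi β (toC O L (x * y)) = J.chi β (toC O L (y * x)) := by
        intro β
        rw [map_mul, map_mul, chi_mul_comm]
      rw [h1]
      simp only [h3]
  have hD0 : ∀ a, D.f (j' a) = 0 := by
    intro a
    rw [hD, hrT, hcr, sub_self]
  have hDi : ∀ y, y * y = y → D.f y = 0 := by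
    intro y hy
    rw [hF D y hy]
    simp [hD0]
  have hodd : Odd (orderOf l) := by
    rcases Nat.even_or_odd (orderOf l) with h | h
    · exfalso
      have h3 : 2 ∣ Nat.card L := (even_iff_two_dvd.1 h).trans (orderOf_dvd_natCard l)
      exact (Nat.not_even_iff_odd.2 hL) (even_iff_two_dvd.2 h3)
    · exact h
  obtain ⟨N, z, E, hE, hlE⟩ := el_expand O h2 l hodd
  have hDl : D.f (el O l) = 0 := by
    rw [hlE, map_sum]
    refine Finset.sum_eq_zero fun k _ => ?_
    rw [map_smul, hDi _ (hE k), smul_zero]
  rw [hD, hΦel, toC_el] at hDl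
  have h4 := sub_eq_zero.1 hDl
  rw [h4]
  rfl

end Pool.Agent.Helper36.NB
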