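import Mathlib
import Pool.Agent.Helper36.NB.Defs

open scoped BigOperators MonoidAlgebra
open Classical

namespace Pool.Agent.Helper36.NB

namespace E1aux

/-- The character of a representation on any finite-dimensional space is a character. -/
theorem ofRep {G : Type} [Group G] {V : Type*} [AddCommGroup V] [Module ℂ V]
    [FiniteDimensional ℂ V] (ρ : Representation ℂ G V) : IsChar ρ.character := by
  let e : V ≃ₗ[ℂ] (Fin (Module.finrank ℂ V) → ℂ) := (Module.finBasis ℂ V).equivFun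
  refine ⟨Module.finrank ℂ V,
    { toFun := fun g => e.conj (ρ g)
      map_one' := by
        rw [map_one]
        exact e.conj_id
      map_mul' := fun g h => by
        rw [map_mul]
        exact e.conj_comp _ _ }, fun u => ?_⟩
  exact LinearMap.trace_conj' (ρ u) e

theorem sum_pow_zero {x : ℂ} {N : ℕ} (hx : x ≠ 1) (hN : x ^ N = 1) :
    ∑ j ∈ Finset.range N, x ^ j = 0 := by
  have h := geom_sum_mul x N
  rw [hN, sub_self] at h
  rcases mul_eq_zero.1 h with h | h
  · exact h
  · exact absurd (sub_eq_zero.1 h) hx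

/-- Traces of the powers of a matrix of finite order. -/
theorem spectral {n : ℕ} (A : Matrix (Fin n) (Fin n) ℂ) (N : ℕ) (hN : 0 < N) (hA : A ^ N = 1)
    (ω : ℂ) (hω : IsPrimitiveRoot ω N) : ∃ m : ℕ → ℕ, ∀ k : ℕ,
      (A ^ k).trace = ∑ j ∈ Finset.range N, (m j : ℂ) * (ω ^ j) ^ k := by
  have hω0 : ω ≠ 0 := hω.ne_zero hN.ne'
  have hNc : (N : ℂ) ≠ 0 := by exact_mod_cast hN.ne'
  set P : ℕ → Matrix (Fin n) (Fin n) ℂ :=
    fun j => (N : ℂ)⁻¹ • ∑ i ∈ Finset.range N, ((ω ^ j)⁻¹) ^ i • A ^ i with hP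
  have hjN : ∀ j, ((ω ^ j)⁻¹) ^ N = 1 := by
    intro j
    rw [inv_pow, ← pow_mul, mul_comm, pow_mul, hω.pow_eq_one, one_pow, inv_one]
  have hAP : ∀ j, A * P j = ω ^ j • P j := by
    intro j
    have hj0 : ω ^ j ≠ 0 := pow_ne_zero _ hω0
    simp only [hP]
    rw [Matrix.mul_smul, smul_comm]
    congr 1
    rw [Finset.mul_sum, Finset.smul_sum]
    have h1 : ∀ i, A * (((ω ^ j)⁻¹) ^ i • A ^ i) =
        ω ^ j • (((ω ^ j)⁻¹) ^ (i + 1) • A ^ (i + 1)) := by
      intro i
      rw [Matrix.mul_smul, ← pow_succ', smul_smul]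
      congr 1
      rw [pow_succ]
      field_simp
    rw [Finset.sum_congr rfl fun i _ => h1 i]
    have h2 := Finset.sum_range_succ (fun i => ω ^ j • (((ω ^ j)⁻¹) ^ i • A ^ i)) N
    have h3 := Finset.sum_range_succ' (fun i => ω ^ j • (((ω ^ j)⁻¹) ^ i • A ^ i)) N
    rw [h3] at h2
    have h4 : ω ^ j • (((ω ^ j)⁻¹) ^ N • A ^ N) = ω ^ j • (((ω ^ j)⁻¹) ^ 0 • A ^ 0) := by
      rw [hjN, hA, pow_zero, pow_zero]
    rw [h4] at h2
    exact add_right_cancel h2
  have hAkP : ∀ j k, A ^ k * P j = (ω ^ j) ^ k • P j := by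
    intro j k
    induction k with
    | zero => simp
    | succ k ih =>
      rw [pow_succ, mul_assoc, hAP, Matrix.mul_smul, ih, smul_smul, pow_succ, mul_comm]
  have hPP : ∀ j, P j * P j = P j := by
    intro j
    have hj0 : ω ^ j ≠ 0 := pow_ne_zero _ hω0
    have h1 : P j * P j = (N : ℂ)⁻¹ • ∑ i ∈ Finset.range N, ((ω ^ j)⁻¹) ^ i • (A ^ i * P j) := by
      conv_lhs => rw [hP]
      simp only []
      rw [Matrix.smul_mul, Finset.sum_mul]
      congr 1
      refine Finset.sum_congr rfl fun i _ => ?_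
      rw [Matrix.smul_mul]
    rw [h1]
    have h2 : ∀ i ∈ Finset.range N, ((ω ^ j)⁻¹) ^ i • (A ^ i * P j) = P j := by
      intro i _
      rw [hAkP, smul_smul, inv_pow, inv_mul_cancel₀ (pow_ne_zero _ hj0), one_smul]
    rw [Finset.sum_congr rfl h2, Finset.sum_const, Finset.card_range,
      ← Nat.cast_smul_eq_nsmul ℂ, smul_smul, inv_mul_cancel₀ hNc, one_smul]
  have hsum : ∑ j ∈ Finset.range N, P j = 1 := by
    simp only [hP]
    rw [← Finset.smul_sum, Finset.sum_comm]
    have h1 : ∀ i ∈ Finset.range N, ∑ j ∈ Finset.range N, ((ω ^ j)⁻¹) ^ i • A ^ i =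
        if i = 0 then (N : ℂ) • (1 : Matrix (Fin n) (Fin n) ℂ) else 0 := by
      intro i hi
      rw [← Finset.sum_smul]
      by_cases h0 : i = 0
      · subst h0
        simp
      · rw [if_neg h0]
        have h2 : ∀ j ∈ Finset.range N, ((ω ^ j)⁻¹) ^ i = ((ω ^ i)⁻¹) ^ j := by
          intro j _
          rw [inv_pow, inv_pow, ← pow_mul, ← pow_mul, mul_comm]
        rw [Finset.sum_congr rfl h2, sum_pow_zero _ (hjN i), zero_smul]
        intro h3
        rw [inv_eq_one] at h3
        exact hω.pow_ne_one_of_pos_of_lt h0 (Finset.mem_range.1 hi) h3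
    rw [Finset.sum_congr rfl h1, Finset.sum_ite_eq' (Finset.range N) 0]
    rw [if_pos (Finset.mem_range.2 hN), smul_smul, inv_mul_cancel₀ hNc, one_smul]
  have htr : ∀ j, ∃ m : ℕ, (P j).trace = m := by
    intro j
    have hid : IsIdempotentElem (Matrix.toLin' (P j)) := by
      unfold IsIdempotentElem
      rw [Module.End.mul_eq_comp, ← Matrix.toLin'_mul, hPP]
    refine ⟨Module.finrank ℂ (LinearMap.range (Matrix.toLin' (P j))), ?_⟩
    rw [← LinearMap.IsProj.trace (LinearMap.IsIdempotentElem.isProj_range _ hid)]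
    exact (Matrix.trace_toLin'_eq _).symm
  choose m hm using htr
  refine ⟨m, fun k => ?_⟩
  have h1 : A ^ k = ∑ j ∈ Finset.range N, (ω ^ j) ^ k • P j := by
    rw [← Finset.sum_congr rfl fun j _ => hAkP j k, ← Finset.mul_sum, hsum, mul_one]
  rw [h1, Matrix.trace_sum]
  refine Finset.sum_congr rfl fun j _ => ?_
  rw [Matrix.trace_smul, hm, smul_eq_mul, mul_comm]

/-- Character values as sums of roots of unity. -/
theorem char_spectral {G : Type} [Group G] [Finite G] {η : G → ℂ} (hη : IsChar η) (g : G)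
    (ω : ℂ) (hω : IsPrimitiveRoot ω (orderOf g)) : ∃ m : ℕ → ℕ, ∀ k : ℕ,
      η (g ^ k) = ∑ j ∈ Finset.range (orderOf g), (m j : ℂ) * (ω ^ j) ^ k := by
  obtain ⟨n, ρ, hρ⟩ := hη
  set W : G → Matrix (Fin n) (Fin n) ℂ := fun g => LinearMap.toMatrix' (ρ g) with hW
  have hWmul : ∀ g h, W (g * h) = W g * W h := by
    intro g h
    simp only [hW]
    rw [map_mul, Module.End.mul_eq_comp, LinearMap.toMatrix'_comp]
  have hW1 : W 1 = 1 := by
    simp only [hW]
    rw [map_one, Module.End.one_eq_id, LinearMap.toMatrix'_id]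
  have hWtr : ∀ g, (W g).trace = η g := by
    intro g
    rw [← hρ g]
    simp only [hW]
    rw [Representation.character, LinearMap.trace_eq_matrix_trace ℂ (Pi.basisFun ℂ (Fin n))]
    rfl
  have hWk : ∀ k : ℕ, W g ^ k = W (g ^ k) := by
    intro k
    induction k with
    | zero => simp [hW1]
    | succ k ih => rw [pow_succ, ih, pow_succ, hWmul]
  obtain ⟨m, hm⟩ := spectral (W g) (orderOf g) (orderOf_pos g)
    (by rw [hWk, pow_orderOf_eq_one, hW1]) ω hω
  refine ⟨m, fun k => ?_⟩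
  rw [← hWtr, ← hWk, hm]

end E1aux

/-- Inner products of characters are natural numbers. -/
theorem char_inner {G : Type} [Group G] [Fintype G] (η θ : G → ℂ) (hη : IsChar η)
    (hθ : IsChar θ) : ∃ m : ℕ, (∑ g : G, η g * θ g⁻¹) / (Nat.card G : ℂ) = m := by
  obtain ⟨n, ρ, hρ⟩ := hη
  obtain ⟨n', σ, hσ⟩ := hθ
  have hc : (Nat.card G : ℂ) ≠ 0 := by
    exact_mod_cast (Nat.card_pos (α := G)).ne'
  have : Invertible (Nat.card G : ℂ) := invertibleOfNonzero hc
  refine ⟨Module.finrank ℂ (Representation.IntertwiningMap σ ρ), ?_⟩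
  rw [← Representation.card_inv_mul_sum_char_mul_char_eq_finrank σ ρ, div_eq_inv_mul]
  congr 1
  refine Finset.sum_congr rfl fun g _ => ?_
  rw [hρ, hσ]

theorem isChar_mul {G : Type} [Group G] [Finite G] {η θ : G → ℂ} (hη : IsChar η)
    (hθ : IsChar θ) : IsChar (fun g => η g * θ g) := by
  obtain ⟨n, ρ, hρ⟩ := hη
  obtain ⟨n', σ, hσ⟩ := hθ
  have h := E1aux.ofRep (ρ.tprod σ)
  rw [Representation.char_tensor] at h
  have h2 : (fun g => η g * θ g) = ρ.character * σ.character := by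
    funext g
    rw [Pi.mul_apply, hρ, hσ]
  rw [h2]
  exact h

theorem isChar_one {G : Type} [Group G] [Finite G] : IsChar (fun _ : G => (1 : ℂ)) := by
  have h := E1aux.ofRep (Representation.trivial ℂ G ℂ)
  have h2 : (Representation.trivial ℂ G ℂ).character = fun _ : G => (1 : ℂ) := by
    funext g
    have h3 : (Representation.trivial ℂ G ℂ) g = LinearMap.id := rfl
    rw [Representation.character, h3, LinearMap.trace_id]
    simp
  rw [h2] at h
  exact h

theorem isChar_dual {G : Type} [Group G] [Finite G] {η : G → ℂ} (hη : IsChar η) :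
    IsChar (fun g => η g⁻¹) := by
  obtain ⟨n, ρ, hρ⟩ := hη
  have h := E1aux.ofRep ρ.dual
  have h2 : (fun g => η g⁻¹) = ρ.dual.character := by
    funext g
    rw [Representation.char_dual, hρ]
  rw [h2]
  exact h

theorem isChar_conj {G : Type} [Group G] [Finite G] {η : G → ℂ} (hη : IsChar η) (g : G) :
    η g⁻¹ = (starRingEnd ℂ) (η g) := by
  have hN : orderOf g ≠ 0 := (orderOf_pos g).ne'
  have hω := Complex.isPrimitiveRoot_exp (orderOf g) hN
  set ω := Complex.exp (2 * Real.pi * Complex.I / (orderOf g : ℂ)) with hωd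
  obtain ⟨m, hm⟩ := E1aux.char_spectral hη g ω hω
  have h1 : g⁻¹ = g ^ (orderOf g - 1) := by
    rw [inv_eq_iff_mul_eq_one, ← pow_succ', Nat.sub_add_cancel (orderOf_pos g),
      pow_orderOf_eq_one]
  have h2 := hm 1
  rw [pow_one] at h2
  rw [h1, hm, h2, map_sum]
  refine Finset.sum_congr rfl fun j _ => ?_
  rw [map_mul, Complex.conj_natCast, pow_one]
  congr 1
  have hnorm : ‖ω‖ = 1 := hω.norm'_eq_one hN
  have h3 : (starRingEnd ℂ) (ω ^ j) = (ω ^ j)⁻¹ := by
    rw [Complex.inv_def, Complex.normSq_eq_norm_sq, norm_pow, hnorm]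
    simp
  rw [h3]
  have h4 : (ω ^ j) ^ (orderOf g - 1) * ω ^ j = 1 := by
    rw [← pow_succ, Nat.sub_add_cancel (orderOf_pos g), ← pow_mul, mul_comm, pow_mul,
      hω.pow_eq_one, one_pow]
  exact eq_inv_of_mul_eq_one_left h4

theorem isChar_class {G : Type} [Group G] [Finite G] {η : G → ℂ} (hη : IsChar η) (g h : G) :
    η (g * h * g⁻¹) = η h := by
  obtain ⟨n, ρ, hρ⟩ := hη
  rw [← hρ, ← hρ, Representation.char_conj]

theorem isChar_integral {G : Type} [Group G] [Finite G] {η : G → ℂ} (hη : IsChar η) (g : G) :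
    IsIntegral ℤ (η g) := by
  have hN : orderOf g ≠ 0 := (orderOf_pos g).ne'
  have hω := Complex.isPrimitiveRoot_exp (orderOf g) hN
  set ω := Complex.exp (2 * Real.pi * Complex.I / (orderOf g : ℂ)) with hωd
  obtain ⟨m, hm⟩ := E1aux.char_spectral hη g ω hω
  have h2 := hm 1
  rw [pow_one] at h2
  rw [h2]
  refine IsIntegral.sum _ fun j _ => ?_
  refine IsIntegral.mul (isIntegral_natCast (m j)) ?_
  exact ((hω.isIntegral (orderOf_pos g)).pow j).pow 1

/-- Character values of a `2`-group are congruent to the degree modulo every prime over `2`. -/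
theorem isChar_two {G : Type} [Group G] [Finite G] (hG : IsPGroup 2 G) {η : G → ℂ}
    (hη : IsChar η) (O : ValuationSubring ℂ) (h2 : (2 : O) ∈ IsLocalRing.maximalIdeal O)
    (g : G) : ∃ y : O, y ∈ IsLocalRing.maximalIdeal O ∧ η g = η 1 + (y : ℂ) := by
  have hN : orderOf g ≠ 0 := (orderOf_pos g).ne'
  have hω := Complex.isPrimitiveRoot_exp (orderOf g) hN
  set ω := Complex.exp (2 * Real.pi * Complex.I / (orderOf g : ℂ)) with hωd
  obtain ⟨m, hm⟩ := E1aux.char_spectral hη g ω hω
  have hω0 : ω ≠ 0 := hω.ne_zero hN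
  have hmem : ω ∈ O := by
    rcases O.mem_or_inv_mem ω with h | h
    · exact h
    · have h3 : ω = (ω⁻¹) ^ (orderOf g - 1) := by
        have h4 : ω⁻¹ ^ (orderOf g - 1) * ω⁻¹ = 1 := by
          rw [← pow_succ, Nat.sub_add_cancel (orderOf_pos g), inv_pow, hω.pow_eq_one, inv_one]
        have h5 := eq_inv_of_mul_eq_one_left h4
        rw [inv_inv] at h5
        exact h5.symm
      rw [h3]
      exact pow_mem h _
  obtain ⟨e, he⟩ := (IsPGroup.iff_orderOf.1 hG) g
  have : CharP (resK O) 2 := by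
    have h0 : ((2 : ℕ) : resK O) = 0 := by
      have h1 : IsLocalRing.residue O (2 : O) = 0 := (IsLocalRing.residue_eq_zero_iff _).2 h2
      have h3 : IsLocalRing.residue O (2 : O) = ((2 : ℕ) : resK O) := by
        rw [map_ofNat]
        rfl
      rw [← h3, h1]
    exact CharTwo.of_one_ne_zero_of_two_eq_zero one_ne_zero (by exact_mod_cast h0)
  set w : O := ⟨ω, hmem⟩ with hw
  have hw1 : w ^ orderOf g = 1 := by
    apply Subtype.ext
    simp only [hw]
    exact hω.pow_eq_one
  have hres : IsLocalRing.residue O w = 1 := by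
    have h3 : (IsLocalRing.residue O w) ^ (2 ^ e) = 1 := by
      rw [← he, ← map_pow, hw1, map_one]
    have h4 : (IsLocalRing.residue O w - 1) ^ (2 ^ e) = 0 := by
      rw [sub_pow_char_pow, h3, one_pow, sub_self]
    exact sub_eq_zero.1 (pow_eq_zero_iff (pow_ne_zero _ two_ne_zero) |>.1 h4)
  refine ⟨∑ j ∈ Finset.range (orderOf g), (m j : O) * (w ^ j - 1), ?_, ?_⟩
  · refine Ideal.sum_mem _ fun j _ => Ideal.mul_mem_left _ _ ?_
    rw [← IsLocalRing.residue_eq_zero_iff, map_sub, map_pow, hres, one_pow, map_one, sub_self]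
  · have h3 := hm 1
    have h4 := hm 0
    rw [pow_one] at h3
    rw [pow_zero] at h4
    rw [h3, h4]
    push_cast
    rw [← Finset.sum_add_distrib]
    refine Finset.sum_congr rfl fun j _ => ?_
    simp only [hw]
    ring

end Pool.Agent.Helper36.NB
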