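import Mathlib
import Pool.Agent.Helper36.NB.Defs

open scoped BigOperators MonoidAlgebra
open Classical

namespace Pool.Agent.Helper36.NB

theorem isIntegral_trace_of_pow {n : ℕ} (A : Matrix (Fin n) (Fin n) ℂ) (o : ℕ) (ho : 0 < o)
    (hA : A ^ (o + 1) = A) : IsIntegral ℤ A.trace := by
  rw [Matrix.trace_eq_sum_roots_charpoly]
  apply IsIntegral.multiset_sum
  intro x hx
  have hroot : (Matrix.charpoly A).eval x = 0 := (Polynomial.mem_roots'.1 hx).2
  rw [Matrix.eval_charpoly] at hroot
  obtain ⟨v, hv0, hv⟩ := Matrix.exists_mulVec_eq_zero_iff.2 hroot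
  have hAv : A.mulVec v = x • v := by
    rw [Matrix.sub_mulVec, sub_eq_zero] at hv
    rw [← hv]
    ext i
    simp [Matrix.mulVec_diagonal]
  have hpow : ∀ k : ℕ, (A ^ k).mulVec v = x ^ k • v := by
    intro k
    induction k with
    | zero => simp
    | succ k ih =>
      rw [pow_succ, ← Matrix.mulVec_mulVec, hAv, Matrix.mulVec_smul, ih, smul_smul, pow_succ,
        mul_comm]
  have h1 : x ^ (o + 1) = x := by
    have h2 := hpow (o + 1)
    rw [hA, hAv] at h2
    obtain ⟨i, hi⟩ : ∃ i, v i ≠ 0 := by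
      by_contra hcon
      push Not at hcon
      exact hv0 (funext hcon)
    have h3 := congrFun h2 i
    simp only [Pi.smul_apply, smul_eq_mul] at h3
    exact (mul_right_cancel₀ hi h3).symm
  refine ⟨Polynomial.X ^ (o + 1) - Polynomial.X, ?_, ?_⟩
  · apply Polynomial.monic_X_pow_sub
    rw [Polynomial.degree_X]
    have h1o : 1 < o + 1 := by omega
    exact_mod_cast h1o
  · simp [h1]

/-- The trace of an idempotent matrix is a natural number. -/
theorem trace_idem {n : ℕ} (A : Matrix (Fin n) (Fin n) ℂ) (hA : A * A = A) :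
    ∃ m : ℕ, A.trace = m := by
  have hid : IsIdempotentElem (Matrix.toLin' A) := by
    unfold IsIdempotentElem
    rw [Module.End.mul_eq_comp, ← Matrix.toLin'_mul, hA]
  refine ⟨Module.finrank ℂ (LinearMap.range (Matrix.toLin' A)), ?_⟩
  rw [← LinearMap.IsProj.trace (LinearMap.IsIdempotentElem.isProj_range _ hid)]
  exact (Matrix.trace_toLin'_eq A).symm

/-- Averages of a character over a coset `x Q` with `x` commuting with `Q`. -/
theorem coset_int (L : Type) [Group L] [Fintype L] (η : L → ℂ) (hη : IsChar η)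
    (Q : Subgroup L) (x : L) (hx : ∀ q ∈ Q, q * x = x * q) :
    IsIntegral ℤ ((∑ q : Q, η (x * q)) / (Nat.card Q : ℂ)) := by
  obtain ⟨n, ρ, hρ⟩ := hη
  set W : L → Matrix (Fin n) (Fin n) ℂ := fun g => LinearMap.toMatrix' (ρ g) with hW
  have hWmul : ∀ g h, W (g * h) = W g * W h := by
    intro g h
    simp only [hW]
    rw [map_mul, Module.End.mul_eq_comp, LinearMap.toMatrix'_comp]
  have hW1 : W 1 = 1 := by
    simp only [hW]
    rw [map_one, Module.End.one_eq_id, LinearMap.toMatrix'_id]
  have hWtr : ∀ g, (W g).trace = η g := by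
    intro g
    rw [← hρ g]
    simp only [hW]
    rw [Representation.character, LinearMap.trace_eq_matrix_trace ℂ (Pi.basisFun ℂ (Fin n))]
    rfl
  have hc : (Nat.card Q : ℂ) ≠ 0 := by
    exact_mod_cast (Nat.card_pos).ne'
  set S : Matrix (Fin n) (Fin n) ℂ := ∑ q : Q, W q with hS
  have hSq : ∀ q : Q, W q * S = S := by
    intro q
    rw [hS, Finset.mul_sum]
    rw [← Equiv.sum_comp (Equiv.mulLeft q) (fun q : Q => W q)]
    apply Finset.sum_congr rfl
    intro r _
    rw [← hWmul]
    rfl
  have hSS : S * S = (Nat.card Q : ℂ) • S := by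
    conv_lhs => rw [hS]
    rw [Finset.sum_mul]
    have : ∀ q ∈ (Finset.univ : Finset Q), W q * (∑ q : Q, W q) = S := fun q _ => hSq q
    rw [Finset.sum_congr rfl this, Finset.sum_const, Finset.card_univ, Nat.card_eq_fintype_card,
      ← Nat.cast_smul_eq_nsmul ℂ]
  have hSx : S * W x = W x * S := by
    rw [hS, Finset.sum_mul, Finset.mul_sum]
    apply Finset.sum_congr rfl
    intro q _
    rw [← hWmul, ← hWmul, hx q q.2]
  set p : Matrix (Fin n) (Fin n) ℂ := (Nat.card Q : ℂ)⁻¹ • S with hp
  have hpp : p * p = p := by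
    rw [hp, Matrix.smul_mul, Matrix.mul_smul, hSS, smul_smul, smul_smul]
    congr 1
    field_simp
  have hpx : Commute (W x) p := by
    unfold Commute SemiconjBy
    rw [hp, Matrix.smul_mul, Matrix.mul_smul, hSx]
  have hpk : ∀ k : ℕ, p ^ (k + 1) = p := by
    intro k
    induction k with
    | zero => simp
    | succ k ih => rw [pow_succ, ih, hpp]
  have hWk : ∀ k : ℕ, W x ^ k = W (x ^ k) := by
    intro k
    induction k with
    | zero => simp [hW1]
    | succ k ih => rw [pow_succ, ih, pow_succ, hWmul]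
  have hpow : (W x * p) ^ (orderOf x + 1) = W x * p := by
    rw [hpx.mul_pow, hpk, hWk, pow_succ, pow_orderOf_eq_one, one_mul]
  have htr : (W x * p).trace = (∑ q : Q, η (x * q)) / (Nat.card Q : ℂ) := by
    rw [hp, Matrix.mul_smul, Matrix.trace_smul, hS, Finset.mul_sum, Matrix.trace_sum, smul_eq_mul,
      div_eq_inv_mul]
    congr 1
    apply Finset.sum_congr rfl
    intro q _
    rw [← hWmul, hWtr]
  rw [← htr]
  exact isIntegral_trace_of_pow _ (orderOf x) (orderOf_pos x) hpow

end Pool.Agent.Helper36.NB
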