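import Mathlib
import Pool.Agent.Helper36.NB.Defs

open scoped BigOperators MonoidAlgebra
open Classical

namespace Pool.Agent.Helper36.NB

theorem intAt_add {l : ℕ} (hl : l.Prime) {x y : ℂ} (hx : IntAt l x) (hy : IntAt l y) :
    IntAt l (x + y) := by
  obtain ⟨m, hm, hm'⟩ := hx
  obtain ⟨n, hn, hn'⟩ := hy
  refine ⟨m * n, hl.prime.not_dvd_mul hm hn, ?_⟩
  have h : ((m * n : ℕ) : ℂ) * (x + y) = (n : ℂ) * ((m : ℂ) * x) + (m : ℂ) * ((n : ℂ) * y) := by
    push_cast; ring
  rw [h]
  exact ((isIntegral_natCast n).mul hm').add ((isIntegral_natCast m).mul hn')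

theorem intAt_mul {l : ℕ} (hl : l.Prime) {x y : ℂ} (hx : IntAt l x) (hy : IntAt l y) :
    IntAt l (x * y) := by
  obtain ⟨m, hm, hm'⟩ := hx
  obtain ⟨n, hn, hn'⟩ := hy
  refine ⟨m * n, hl.prime.not_dvd_mul hm hn, ?_⟩
  have h : ((m * n : ℕ) : ℂ) * (x * y) = ((m : ℂ) * x) * ((n : ℂ) * y) := by
    push_cast; ring
  rw [h]
  exact hm'.mul hn'

theorem intAt_of_isIntegral {l : ℕ} (hl : l.Prime) {x : ℂ} (hx : IsIntegral ℤ x) :
    IntAt l x :=
  ⟨1, hl.one_lt.not_ge ∘ Nat.le_of_dvd one_pos, by simpa using hx⟩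

theorem intAt_sum {l : ℕ} (hl : l.Prime) {ι : Type} (s : Finset ι) (f : ι → ℂ)
    (hf : ∀ i ∈ s, IntAt l (f i)) : IntAt l (∑ i ∈ s, f i) := by
  classical
  induction s using Finset.induction_on with
  | empty => simpa using intAt_of_isIntegral hl isIntegral_zero
  | insert a s ha ih =>
    rw [Finset.sum_insert ha]
    exact intAt_add hl (hf a (Finset.mem_insert_self _ _))
      (ih fun i hi => hf i (Finset.mem_insert_of_mem hi))

namespace M2aux

theorem intAt_inv {l n : ℕ} (hn : ¬ l ∣ n) : IntAt l ((n : ℂ)⁻¹) := by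
  have hn0 : (n : ℂ) ≠ 0 := by
    intro h
    rw [Nat.cast_eq_zero] at h
    exact hn (h ▸ dvd_zero _)
  refine ⟨n, hn, ?_⟩
  rw [mul_inv_cancel₀ hn0]
  exact isIntegral_one

theorem intAt_zero {l : ℕ} (hl : l.Prime) : IntAt l 0 :=
  intAt_of_isIntegral hl isIntegral_zero

theorem intAt_nat {l : ℕ} (hl : l.Prime) (n : ℕ) : IntAt l (n : ℂ) :=
  intAt_of_isIntegral hl (isIntegral_natCast n)

theorem intAt_int {l : ℕ} (hl : l.Prime) (n : ℤ) : IntAt l (n : ℂ) :=
  intAt_of_isIntegral hl (isIntegral_intCast n)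

/-- Sum of an invariant function over a set with group action. -/
theorem orbit_sum {l : ℕ} (hl : l.Prime) {K Y : Type} [Group K] [Fintype K] [Fintype Y]
    [MulAction K Y] (s : Y → ℂ) (hs : ∀ (k : K) (y : Y), s (k • y) = s y)
    (hi : ∀ y, IntAt l (s y / (Nat.card (MulAction.stabilizer K y) : ℂ))) :
    IntAt l ((∑ y, s y) / (Nat.card K : ℂ)) := by
  classical
  have h1 : (∑ y, s y) / (Nat.card K : ℂ)
      = ∑ ω : MulAction.orbitRel.Quotient K Y,
        s ω.out / (Nat.card (MulAction.stabilizer K ω.out) : ℂ) := by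
    rw [Finset.sum_div, ← Finset.sum_fiberwise Finset.univ
      (fun y : Y => (Quotient.mk'' y : MulAction.orbitRel.Quotient K Y))]
    refine Finset.sum_congr rfl fun ω _ => ?_
    have h2 : ∀ y ∈ Finset.univ.filter
        (fun y : Y => (Quotient.mk'' y : MulAction.orbitRel.Quotient K Y) = ω),
        s y / (Nat.card K : ℂ) = s ω.out / (Nat.card K : ℂ) := by
      intro y hy
      rw [Finset.mem_filter] at hy
      have h3 : y ∈ MulAction.orbit K ω.out := by
        rw [← MulAction.orbitRel_apply, ← Quotient.eq'' (s₁ := MulAction.orbitRel K Y), hy.2]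
        exact (Quotient.out_eq' ω).symm
      obtain ⟨k, hk⟩ := h3
      rw [← hk]
      exact congrArg (· / (Nat.card K : ℂ)) (hs k ω.out)
    rw [Finset.sum_congr rfl h2, Finset.sum_const, nsmul_eq_mul]
    have h4 : (Finset.univ.filter
        (fun y : Y => (Quotient.mk'' y : MulAction.orbitRel.Quotient K Y) = ω)).card
        = Fintype.card (MulAction.orbit K ω.out) := by
      rw [← Set.toFinset_card]
      congr 1
      ext y
      rw [Finset.mem_filter, Set.mem_toFinset, ← MulAction.orbitRel_apply,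
        ← Quotient.eq'' (s₁ := MulAction.orbitRel K Y)]
      constructor
      · rintro ⟨-, h⟩
        rw [h]
        exact (Quotient.out_eq' ω).symm
      · intro h
        refine ⟨Finset.mem_univ _, ?_⟩
        rw [h]
        exact Quotient.out_eq' ω
    have h5 := MulAction.card_orbit_mul_card_stabilizer_eq_card_group K ω.out
    rw [h4, Nat.card_eq_fintype_card, Nat.card_eq_fintype_card, ← h5]
    have h6 : (Fintype.card (MulAction.orbit K ω.out) : ℂ) ≠ 0 := by
      rw [Nat.cast_ne_zero]
      exact (Fintype.card_pos_iff.2 ⟨⟨ω.out, MulAction.mem_orbit_self _⟩⟩).ne'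
    have h7 : (Fintype.card (MulAction.stabilizer K ω.out) : ℂ) ≠ 0 := by
      rw [Nat.cast_ne_zero]
      exact Fintype.card_pos.ne'
    push_cast
    field_simp
  rw [h1]
  exact intAt_sum hl _ _ fun ω _ => hi _

/-- the sum over a subgroup as a sum over the group -/
theorem sum_subgroup {H : Type} [Group H] [Fintype H] (Q : Subgroup H) (f : H → ℂ) :
    ∑ q : Q, f q = ∑ h ∈ Finset.univ.filter (fun h => h ∈ Q), f h := by
  classical
  exact (Finset.sum_subtype (p := fun h => h ∈ Q) (Finset.univ.filter (fun h => h ∈ Q))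
    (fun x => by simp) f).symm

/-- Class functions whose averages over the `l`-subgroups are integral at `l`. -/
structure Adm {H : Type} [Group H] [Fintype H] (l : ℕ) (f : H → ℂ) : Prop where
  cls : ∀ g h, f (g * h * g⁻¹) = f h
  int : ∀ h, IntAt l (f h)
  loc : ∀ Q : Subgroup H, IsPGroup l Q → IntAt l ((∑ q : Q, f q) / (Nat.card Q : ℂ))

/-- The number of fixed points on a set. -/
noncomputable def theta {H : Type} [Group H] (X : Type) [Fintype X] [MulAction H X] (h : H) : ℕ :=
  (Finset.univ.filter (fun x : X => h • x = x)).card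

theorem theta_eq {H : Type} [Group H] (X : Type) [Fintype X] [MulAction H X] (h : H) :
    theta X h = Nat.card {x : X // h • x = x} := by
  classical
  rw [Nat.card_eq_fintype_card, Fintype.card_subtype]
  rfl

theorem theta_conj {H : Type} [Group H] (X : Type) [Fintype X] [MulAction H X] (g h : H) :
    theta X (g * h * g⁻¹) = theta X h := by
  classical
  unfold theta
  symm
  refine Finset.card_bij (fun x _ => g • x) ?_ ?_ ?_
  · intro x hx
    rw [Finset.mem_filter] at hx ⊢
    refine ⟨Finset.mem_univ _, ?_⟩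
    rw [← mul_smul, inv_mul_cancel_right, mul_smul, hx.2]
  · intro x _ y _ h
    exact smul_left_cancel g h
  · intro y hy
    rw [Finset.mem_filter] at hy
    refine ⟨g⁻¹ • y, ?_, smul_inv_smul g y⟩
    rw [Finset.mem_filter]
    refine ⟨Finset.mem_univ _, ?_⟩
    rw [eq_inv_smul_iff, ← mul_smul, ← mul_smul, hy.2]

theorem adm_mul_theta {H : Type} [Group H] [Fintype H] {l : ℕ} (hl : l.Prime) {f : H → ℂ}
    (hf : Adm l f) (X : Type) [Fintype X] [MulAction H X] :
    Adm l (fun h => f h * (theta X h : ℂ)) where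
  cls g h := by rw [hf.cls, theta_conj]
  int h := intAt_mul hl (hf.int h) (intAt_nat hl _)
  loc Q hQ := by
    classical
    have h1 : ∑ q : Q, f q * (theta X (q : H) : ℂ)
        = ∑ x : X, ∑ q : Q, if (q : H) • x = x then f q else 0 := by
      rw [Finset.sum_comm]
      refine Finset.sum_congr rfl fun q _ => ?_
      unfold theta
      rw [Finset.card_filter, Nat.cast_sum, Finset.mul_sum]
      refine Finset.sum_congr rfl fun x _ => ?_
      split_ifs <;> simp
    rw [h1]
    refine orbit_sum hl (K := Q) (Y := X) _ ?_ ?_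
    · intro k x
      refine Fintype.sum_equiv (MulAut.conj k⁻¹).toEquiv _ _ fun q => ?_
      have h2 : (((MulAut.conj k⁻¹).toEquiv q : Q) : H) = (k : H)⁻¹ * q * k := by
        simp
      rw [h2]
      have h3 : ((q : H) • (k • x) = k • x) ↔ (((k : H)⁻¹ * q * k) • x = x) := by
        rw [mul_smul, mul_smul, inv_smul_eq_iff]
        rfl
      have h4 : f ((k : H)⁻¹ * q * k) = f q := by
        have := hf.cls (k : H)⁻¹ q
        rwa [inv_inv] at this
      rw [h4]
      by_cases h5 : (q : H) • (k • x) = k • x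
      · rw [if_pos h5, if_pos (h3.1 h5)]
      · rw [if_neg h5, if_neg (fun h => h5 (h3.2 h))]
    · intro x
      have h5 := hf.loc (Q ⊓ MulAction.stabilizer H x) (hQ.to_le inf_le_left)
      have h6 : ∑ q : (Q ⊓ MulAction.stabilizer H x : Subgroup H), f q
          = ∑ q : Q, if (q : H) • x = x then f q else 0 := by
        rw [sum_subgroup, sum_subgroup Q (fun h => if h • x = x then f h else 0),
          ← Finset.sum_filter, Finset.filter_filter]
        refine Finset.sum_congr ?_ fun _ _ => rfl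
        ext h
        simp [Subgroup.mem_inf, MulAction.mem_stabilizer_iff]
      have h7 : Nat.card (Q ⊓ MulAction.stabilizer H x : Subgroup H)
          = Nat.card (MulAction.stabilizer Q x) := by
        refine Nat.card_congr
          { toFun := fun h => ⟨⟨h.1, h.2.1⟩, h.2.2⟩
            invFun := fun q => ⟨q.1.1, q.1.2, q.2⟩
            left_inv := fun _ => rfl
            right_inv := fun _ => rfl }
      rw [h6, h7] at h5
      exact h5

theorem adm_mul_theta_pow {H : Type} [Group H] [Fintype H] {l : ℕ} (hl : l.Prime) {f : H → ℂ}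
    (hf : Adm l f) (X : Type) [Fintype X] [MulAction H X] (n : ℕ) :
    Adm l (fun h => f h * (theta X h : ℂ) ^ n) := by
  induction n with
  | zero => simpa using hf
  | succ n ih =>
    have h := adm_mul_theta hl ih X
    have e : (fun h => f h * (theta X h : ℂ) ^ n * (theta X h : ℂ))
        = fun h => f h * (theta X h : ℂ) ^ (n + 1) := by
      funext h
      rw [pow_succ, mul_assoc]
    rwa [e] at h

/-- `y` is an `l`-element. -/
def IsL {H : Type} [Group H] (l : ℕ) (y : H) : Prop := ∃ k : ℕ, y ^ l ^ k = 1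

/-- the sum over the `l`-elements weighted with the permutation character of `H / P` -/
theorem sum_theta {H : Type} [Group H] [Fintype H] {l : ℕ} {f : H → ℂ} (hf : Adm l f)
    (P : Subgroup H) (hP : IsPGroup l P) :
    ∑ y ∈ Finset.univ.filter (fun y : H => IsL l y), f y * (theta (H ⧸ P) y : ℂ)
      = (P.index : ℂ) * ∑ q : P, f q := by
  classical
  have h1 : ∑ y ∈ Finset.univ.filter (fun y : H => IsL l y), f y * (theta (H ⧸ P) y : ℂ)
      = ∑ x : H ⧸ P, ∑ y ∈ Finset.univ.filter (fun y : H => IsL l y),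
        if y • x = x then f y else 0 := by
    rw [Finset.sum_comm]
    refine Finset.sum_congr rfl fun q _ => ?_
    unfold theta
    rw [Finset.card_filter, Nat.cast_sum, Finset.mul_sum]
    refine Finset.sum_congr rfl fun x _ => ?_
    split_ifs <;> simp
  have h2 : ∀ x : H ⧸ P, ∑ y ∈ Finset.univ.filter (fun y : H => IsL l y),
      (if y • x = x then f y else 0) = ∑ q : P, f q := by
    intro x
    induction x using QuotientGroup.induction_on with
    | H c =>
      rw [← Finset.sum_filter, Finset.filter_filter, sum_subgroup]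
      symm
      refine Finset.sum_bij (fun q _ => c * q * c⁻¹) ?_ ?_ ?_ ?_
      · intro q hq
        rw [Finset.mem_filter] at hq ⊢
        refine ⟨Finset.mem_univ _, ?_, ?_⟩
        · obtain ⟨k, hk⟩ := hP ⟨q, hq.2⟩
          refine ⟨k, ?_⟩
          have hk' : q ^ l ^ k = 1 := congrArg Subtype.val hk
          rw [conj_pow, hk', mul_one, mul_inv_cancel]
        · rw [MulAction.Quotient.smul_mk, QuotientGroup.eq, smul_eq_mul, inv_mul_cancel_right,
            mul_inv_rev, inv_mul_cancel_right]
          exact P.inv_mem hq.2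
      · intro a _ b _ h
        exact mul_left_cancel (mul_right_cancel h)
      · intro y hy
        rw [Finset.mem_filter] at hy
        refine ⟨c⁻¹ * y * c, ?_, by group⟩
        rw [Finset.mem_filter]
        refine ⟨Finset.mem_univ _, ?_⟩
        have h3 := hy.2.2
        rw [MulAction.Quotient.smul_mk, QuotientGroup.eq, smul_eq_mul] at h3
        have h4 := P.inv_mem h3
        have h5 : ((y * c)⁻¹ * c)⁻¹ = c⁻¹ * y * c := by group
        rwa [h5] at h4
      · intro q _
        exact (hf.cls c q).symm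
  rw [h1, Finset.sum_congr rfl fun x _ => h2 x, Finset.sum_const, nsmul_eq_mul,
    Finset.card_univ, ← Nat.card_eq_fintype_card]
  rfl

theorem theta_coprime {H : Type} [Group H] [Fintype H] {l : ℕ} [hl : Fact l.Prime]
    (P : Sylow l H) (y : H) (hy : IsL l y) : ¬ l ∣ theta (H ⧸ (P : Subgroup H)) y := by
  classical
  obtain ⟨k, hk⟩ := hy
  have h1 : IsPGroup l (Subgroup.zpowers y) := by
    rintro ⟨z, hz⟩
    obtain ⟨n, rfl⟩ := Subgroup.mem_zpowers_iff.1 hz
    refine ⟨k, ?_⟩
    apply Subtype.ext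
    change (y ^ n) ^ l ^ k = 1
    rw [← zpow_natCast, ← zpow_mul, mul_comm, zpow_mul, zpow_natCast, hk, one_zpow]
  have h2 := h1.card_modEq_card_fixedPoints (H ⧸ (P : Subgroup H))
  have h3 : Nat.card (MulAction.fixedPoints (Subgroup.zpowers y) (H ⧸ (P : Subgroup H)))
      = theta (H ⧸ (P : Subgroup H)) y := by
    rw [theta_eq]
    refine Nat.card_congr (Equiv.subtypeEquivRight fun x => ?_)
    rw [MulAction.mem_fixedPoints]
    constructor
    · intro h
      exact h ⟨y, Subgroup.mem_zpowers y⟩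
    · rintro h ⟨z, hz⟩
      have h5 : Subgroup.zpowers y ≤ MulAction.stabilizer H x := by
        rw [Subgroup.zpowers_le]
        exact h
      exact h5 hz
  rw [h3] at h2
  intro h4
  have h5 : ¬ l ∣ (P : Subgroup H).index := P.not_dvd_index
  apply h5
  have h6 : (P : Subgroup H).index = Nat.card (H ⧸ (P : Subgroup H)) := rfl
  rw [h6, Nat.dvd_iff_mod_eq_zero, h2, ← Nat.dvd_iff_mod_eq_zero]
  exact h4

/-- The average over the `l`-elements. -/
theorem average_l {H : Type} [Group H] [Fintype H] {l : ℕ} (hl : l.Prime) {f : H → ℂ}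
    (hf : Adm l f) :
    IntAt l ((∑ y ∈ Finset.univ.filter (fun y : H => IsL l y), f y) / (Nat.card H : ℂ)) := by
  classical
  have : Fact l.Prime := ⟨hl⟩
  obtain ⟨P⟩ : Nonempty (Sylow l H) := inferInstance
  set X := H ⧸ (P : Subgroup H) with hX
  have hcard : Nat.card H = Nat.card P * (P : Subgroup H).index :=
    ((P : Subgroup H).card_mul_index).symm
  have hidx : ¬ l ∣ (P : Subgroup H).index := P.not_dvd_index
  have hP0 : (Nat.card P : ℂ) ≠ 0 := Nat.cast_ne_zero.2 Nat.card_pos.ne'
  have hi0 : ((P : Subgroup H).index : ℂ) ≠ 0 := by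
    rw [Nat.cast_ne_zero]
    intro h
    exact hidx (h ▸ dvd_zero _)
  obtain ⟨N, hN⟩ : ∃ N, Nat.totient (Nat.card P) = N + 1 :=
    ⟨_, (Nat.succ_pred_eq_of_pos (Nat.totient_pos.2 Nat.card_pos)).symm⟩
  have hmod : ∀ y : H, IsL l y →
      ∃ z : ℤ, (1 : ℂ) - (theta X y : ℂ) ^ (N + 1) = (Nat.card P : ℂ) * z := by
    intro y hy
    have h1 : Nat.Coprime (theta X y) (Nat.card P) := by
      obtain ⟨n, hn⟩ := IsPGroup.iff_card.1 P.2
      rw [hn]
      apply Nat.Coprime.pow_right
      rw [Nat.coprime_comm, hl.coprime_iff_not_dvd]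
      exact theta_coprime P y hy
    have h2 := Nat.ModEq.pow_totient h1
    rw [hN] at h2
    have h3 : (Nat.card P : ℤ) ∣ (1 : ℤ) - (theta X y : ℤ) ^ (N + 1) := by
      have h4 := (Nat.modEq_iff_dvd).1 h2
      push_cast at h4
      exact h4
    obtain ⟨z, hz⟩ := h3
    refine ⟨z, ?_⟩
    have h5 := congrArg (Int.cast : ℤ → ℂ) hz
    push_cast at h5
    exact h5
  have hsplit : (∑ y ∈ Finset.univ.filter (fun y : H => IsL l y), f y) / (Nat.card H : ℂ)
      = (∑ q : (P : Subgroup H), f q * (theta X (q : H) : ℂ) ^ N) / (Nat.card P : ℂ)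
        + ∑ y ∈ Finset.univ.filter (fun y : H => IsL l y),
          f y * ((1 - (theta X y : ℂ) ^ (N + 1)) / (Nat.card H : ℂ)) := by
    have h1 := sum_theta (adm_mul_theta_pow hl hf X N) (P : Subgroup H) P.2
    have h2 : ∑ y ∈ Finset.univ.filter (fun y : H => IsL l y), f y
        = (∑ y ∈ Finset.univ.filter (fun y : H => IsL l y),
            f y * (theta X y : ℂ) ^ N * (theta X y : ℂ))
          + ∑ y ∈ Finset.univ.filter (fun y : H => IsL l y),
            f y * (1 - (theta X y : ℂ) ^ (N + 1)) := by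
      rw [← Finset.sum_add_distrib]
      refine Finset.sum_congr rfl fun y _ => ?_
      ring
    rw [h2, h1, add_div, hcard]
    congr 1
    · push_cast
      field_simp
    · rw [Finset.sum_div]
      refine Finset.sum_congr rfl fun y _ => ?_
      rw [mul_div_assoc]
  rw [hsplit]
  refine intAt_add hl ((adm_mul_theta_pow hl hf X N).loc (P : Subgroup H) P.2) ?_
  refine intAt_sum hl _ _ fun y hy => ?_
  rw [Finset.mem_filter] at hy
  refine intAt_mul hl (hf.int y) ?_
  obtain ⟨z, hz⟩ := hmod y hy.2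
  rw [hz, hcard]
  have h8 : (Nat.card P : ℂ) * (z : ℂ) / ((Nat.card P * (P : Subgroup H).index : ℕ) : ℂ)
      = (z : ℂ) * ((P : Subgroup H).index : ℂ)⁻¹ := by
    push_cast
    field_simp
  rw [h8]
  exact intAt_mul hl (intAt_int hl z) (intAt_inv hidx)

/-- Exponent that extracts the `l'`-part. -/
theorem exists_exponent {l : ℕ} (hl : l.Prime) (n : ℕ) (hn : n ≠ 0) :
    ∃ a b e : ℕ, n = l ^ a * b ∧ ¬ l ∣ b ∧ Nat.Coprime (l ^ a) b ∧ l ^ a ∣ e ∧
      (b : ℤ) ∣ (e : ℤ) - 1 := by
  obtain ⟨a, b, hb, hn'⟩ := Nat.exists_eq_pow_mul_and_not_dvd hn l hl.ne_one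
  have hc : Nat.Coprime (l ^ a) b := by
    apply Nat.Coprime.pow_left
    rwa [hl.coprime_iff_not_dvd]
  obtain ⟨e, he1, he2⟩ := Nat.chineseRemainder hc 0 1
  refine ⟨a, b, e, hn', hb, hc, (Nat.modEq_zero_iff_dvd).1 he1, ?_⟩
  have h := (Nat.modEq_iff_dvd).1 he2.symm
  push_cast at h
  exact h

/-- the inner sum -/
noncomputable def inner {G : Type} [Group G] [Fintype G] (l : ℕ) (F : G → ℂ) (x : G) : ℂ :=
  if l ∣ orderOf x then 0 else
    ∑ y ∈ Finset.univ.filter (fun y : G => y ∈ Subgroup.centralizer {x} ∧ IsL l y), F (x * y)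

theorem isL_conj {G : Type} [Group G] {l : ℕ} (g y : G) (h : IsL l y) : IsL l (g * y * g⁻¹) := by
  obtain ⟨k, hk⟩ := h
  exact ⟨k, by rw [conj_pow, hk, mul_one, mul_inv_cancel]⟩

theorem inner_conj {G : Type} [Group G] [Fintype G] (l : ℕ) (F : G → ℂ)
    (hF : ∀ g h, F (g * h * g⁻¹) = F h) (g x : G) :
    inner l F (g * x * g⁻¹) = inner l F x := by
  classical
  have h1 : orderOf (g * x * g⁻¹) = orderOf x := by
    have := orderOf_injective (MulAut.conj g).toMonoidHom (MulAut.conj g).injective x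
    simpa using this
  unfold inner
  rw [h1]
  split_ifs with h2
  · rfl
  symm
  refine Finset.sum_bij (fun y _ => g * y * g⁻¹) ?_ ?_ ?_ ?_
  · intro y hy
    rw [Finset.mem_filter, Subgroup.mem_centralizer_singleton_iff] at hy ⊢
    refine ⟨Finset.mem_univ _, ?_, isL_conj g y hy.2.2⟩
    have h3 := hy.2.1
    calc g * y * g⁻¹ * (g * x * g⁻¹) = g * (y * x) * g⁻¹ := by group
      _ = g * (x * y) * g⁻¹ := by rw [h3]
      _ = g * x * g⁻¹ * (g * y * g⁻¹) := by group
  · intro y _ z _ h
    exact mul_left_cancel (mul_right_cancel h)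
  · intro z hz
    rw [Finset.mem_filter, Subgroup.mem_centralizer_singleton_iff] at hz
    refine ⟨g⁻¹ * z * g, ?_, by group⟩
    rw [Finset.mem_filter, Subgroup.mem_centralizer_singleton_iff]
    refine ⟨Finset.mem_univ _, ?_, ?_⟩
    · have h3 := hz.2.1
      calc g⁻¹ * z * g * x = g⁻¹ * (z * (g * x * g⁻¹)) * g := by group
        _ = g⁻¹ * ((g * x * g⁻¹) * z) * g := by rw [h3]
        _ = x * (g⁻¹ * z * g) := by group
    · have := isL_conj g⁻¹ z hz.2.2
      rwa [inv_inv] at this
  · intro y _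
    rw [← hF g (x * y)]
    congr 1
    group

theorem sum_inner {G : Type} [Group G] [Fintype G] {l : ℕ} (hl : l.Prime) (F : G → ℂ) :
    ∑ x, inner l F x = ∑ g, F g := by
  classical
  obtain ⟨a, b, e, hn, hb, hc, he1, he2⟩ := exists_exponent hl (Nat.card G) Nat.card_pos.ne'
  have hcard : ∀ g : G, orderOf g ∣ l ^ a * b := fun g => hn ▸ orderOf_dvd_natCard g
  have hx : ∀ x : G, ¬ l ∣ orderOf x → x ^ e = x := by
    intro x hx
    have h1 : orderOf x ∣ b := by
      apply Nat.Coprime.dvd_of_dvd_mul_left _ (hcard x)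
      apply Nat.Coprime.pow_right
      rw [Nat.coprime_comm, hl.coprime_iff_not_dvd]
      exact hx
    have h2 : (orderOf x : ℤ) ∣ (e : ℤ) - 1 := (Int.natCast_dvd_natCast.2 h1).trans he2
    have h3 : x ^ ((e : ℤ) - 1) = 1 := orderOf_dvd_iff_zpow_eq_one.1 h2
    rw [zpow_sub, zpow_natCast, zpow_one, mul_inv_eq_one] at h3
    exact h3
  have hy : ∀ y : G, IsL l y → y ^ e = 1 := by
    rintro y ⟨k, hk⟩
    have h1 : orderOf y ∣ l ^ k := orderOf_dvd_of_pow_eq_one hk
    have h2 : orderOf y ∣ l ^ a := by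
      apply Nat.Coprime.dvd_of_dvd_mul_right _ (hcard y)
      apply Nat.Coprime.coprime_dvd_left h1
      apply Nat.Coprime.pow_left
      rwa [hl.coprime_iff_not_dvd]
    exact orderOf_dvd_iff_pow_eq_one.1 (h2.trans he1)
  have h1 : ∑ x, inner l F x = ∑ x ∈ Finset.univ.filter (fun x : G => ¬ l ∣ orderOf x),
      ∑ y ∈ Finset.univ.filter (fun y : G => y ∈ Subgroup.centralizer {x} ∧ IsL l y),
        F (x * y) := by
    rw [Finset.sum_filter]
    refine Finset.sum_congr rfl fun x _ => ?_
    unfold inner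
    split_ifs <;> rfl
  rw [h1, Finset.sum_sigma']
  refine Finset.sum_bij' (fun p _ => p.1 * p.2) (fun g _ => ⟨g ^ e, (g ^ e)⁻¹ * g⟩) ?_ ?_ ?_ ?_ ?_
  · intro p _
    exact Finset.mem_univ _
  · intro g _
    rw [Finset.mem_sigma, Finset.mem_filter, Finset.mem_filter,
      Subgroup.mem_centralizer_singleton_iff]
    refine ⟨⟨Finset.mem_univ _, ?_⟩, Finset.mem_univ _, ?_, a, ?_⟩
    · intro h
      apply hb
      refine h.trans ?_
      apply orderOf_dvd_of_pow_eq_one
      rw [← pow_mul]
      apply orderOf_dvd_iff_pow_eq_one.1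
      exact (hcard g).trans (mul_dvd_mul_right he1 b)
    · have h2 : Commute (g ^ e) g := (Commute.refl g).pow_left e
      exact ((Commute.refl (g ^ e)).inv_left.mul_left h2.symm).eq
    · have h2 : (g ^ e)⁻¹ * g = g ^ (1 - (e : ℤ)) := by
        rw [zpow_sub, zpow_one, zpow_natCast]
        exact (((Commute.refl g).pow_left e).inv_left).eq
      change ((g ^ e)⁻¹ * g) ^ l ^ a = 1
      rw [h2, ← zpow_natCast, ← zpow_mul]
      apply orderOf_dvd_iff_zpow_eq_one.1
      have h3 : ((l ^ a * b : ℕ) : ℤ) ∣ (1 - (e : ℤ)) * ((l ^ a : ℕ) : ℤ) := by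
        push_cast
        rw [mul_comm]
        apply mul_dvd_mul_right
        rw [← Int.dvd_neg, neg_sub]
        exact he2
      exact (Int.natCast_dvd_natCast.2 (hcard g)).trans h3
  · rintro ⟨x, y⟩ hp
    rw [Finset.mem_sigma, Finset.mem_filter, Finset.mem_filter,
      Subgroup.mem_centralizer_singleton_iff] at hp
    obtain ⟨⟨-, h2⟩, -, h3, h4⟩ := hp
    have h5 : (x * y) ^ e = x := by
      have h6 : Commute x y := h3.symm
      rw [h6.mul_pow, hx x h2, hy y h4, mul_one]
    change (⟨(x * y) ^ e, ((x * y) ^ e)⁻¹ * (x * y)⟩ : (_ : G) × G) = ⟨x, y⟩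
    rw [h5, inv_mul_cancel_left]
  · intro g _
    exact mul_inv_cancel_left _ _
  · intro p _
    rfl

/-- The integrality of the inner sums. -/
theorem inner_int {G : Type} [Group G] [Fintype G] {l : ℕ} (hl : l.Prime) (F : G → ℂ)
    (hF : ∀ g h, F (g * h * g⁻¹) = F h) (hint : ∀ h, IntAt l (F h))
    (hloc : ∀ (x : G) (Q : Subgroup G), IsPGroup l Q → ¬ l ∣ orderOf x →
      (∀ q ∈ Q, q * x = x * q) → IntAt l ((∑ q : Q, F (x * q)) / (Nat.card Q : ℂ))) (x : G) :
    IntAt l (inner l F x / (Nat.card (Subgroup.centralizer {x}) : ℂ)) := by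
  classical
  by_cases hx : l ∣ orderOf x
  · unfold inner
    rw [if_pos hx, zero_div]
    exact intAt_zero hl
  have hA : Adm l (fun y : Subgroup.centralizer {x} => F (x * y)) := by
    refine ⟨?_, fun h => hint _, ?_⟩
    · intro g h
      have h1 : (g : G) * x = x * g := Subgroup.mem_centralizer_singleton_iff.1 g.2
      have h2 : x * ((g * h * g⁻¹ : Subgroup.centralizer {x}) : G)
          = (g : G) * (x * h) * (g : G)⁻¹ := by
        push_cast
        rw [← mul_assoc, ← mul_assoc, ← mul_assoc, h1]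
      rw [h2, hF]
    · intro Q hQ
      have h1 := hloc x (Q.map (Subgroup.centralizer {x}).subtype) (hQ.map _) hx (by
        rintro q ⟨z, -, rfl⟩
        exact Subgroup.mem_centralizer_singleton_iff.1 z.2)
      let E : Q ≃ Q.map (Subgroup.centralizer {x}).subtype :=
        (Q.equivMapOfInjective _ (Subgroup.subtype_injective _)).toEquiv
      have h2 : Nat.card Q = Nat.card (Q.map (Subgroup.centralizer {x}).subtype) :=
        Nat.card_congr E
      rw [h2]
      have h3 : ∑ q : Q, F (x * ((q : Subgroup.centralizer {x}) : G))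
          = ∑ q : Q.map (Subgroup.centralizer {x}).subtype, F (x * q) :=
        Fintype.sum_equiv E _ _ fun q => rfl
      rw [h3]
      exact h1
  have h1 := average_l hl hA
  have h2 : inner l F x = ∑ y ∈ Finset.univ.filter
      (fun y : Subgroup.centralizer {x} => IsL l y), F (x * y) := by
    unfold inner
    rw [if_neg hx]
    symm
    refine Finset.sum_bij (fun y _ => (y : G)) ?_ ?_ ?_ ?_
    · intro y hy
      rw [Finset.mem_filter] at hy ⊢
      obtain ⟨k, hk⟩ := hy.2
      exact ⟨Finset.mem_univ _, y.2, k, congrArg Subtype.val hk⟩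
    · intro y _ z _ h
      exact Subtype.ext h
    · intro y hy
      rw [Finset.mem_filter] at hy
      obtain ⟨-, h3, k, hk⟩ := hy
      refine ⟨⟨y, h3⟩, ?_, rfl⟩
      rw [Finset.mem_filter]
      exact ⟨Finset.mem_univ _, k, Subtype.ext hk⟩
    · intro y _
      rfl
  rw [h2]
  exact h1

end M2aux

open M2aux in
/-- A local form of Brauer's theorem: integrality of the average of a class function. -/
theorem brauer_local {G : Type} [Group G] [Fintype G] (l : ℕ) (hl : l.Prime) (F : G → ℂ)
    (hF : ∀ g h, F (g * h * g⁻¹) = F h) (hint : ∀ h, IntAt l (F h))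
    (hloc : ∀ (x : G) (Q : Subgroup G), IsPGroup l Q → ¬ l ∣ orderOf x →
      (∀ q ∈ Q, q * x = x * q) → IntAt l ((∑ q : Q, F (x * q)) / (Nat.card Q : ℂ))) :
    IntAt l ((∑ g : G, F g) / (Nat.card G : ℂ)) := by
  classical
  have h1 := orbit_sum hl (K := ConjAct G) (Y := G) (inner l F) (by
      intro k y
      rw [ConjAct.smul_def]
      exact inner_conj l F hF _ _) (by
      intro y
      have h2 := inner_int hl F hF hint hloc y
      have h3 : Nat.card (MulAction.stabilizer (ConjAct G) y)
          = Nat.card (Subgroup.centralizer {y}) := by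
        have h4 : ∀ k : ConjAct G, k ∈ MulAction.stabilizer (ConjAct G) y ↔
            ConjAct.ofConjAct k ∈ Subgroup.centralizer {y} := by
          intro k
          rw [MulAction.mem_stabilizer_iff, ConjAct.smul_def,
            Subgroup.mem_centralizer_singleton_iff, mul_inv_eq_iff_eq_mul]
        exact Nat.card_congr
          { toFun := fun z => ⟨ConjAct.ofConjAct z.1, (h4 z.1).1 z.2⟩
            invFun := fun z => ⟨ConjAct.toConjAct z.1, (h4 (ConjAct.toConjAct z.1)).2 z.2⟩
            left_inv := fun _ => rfl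
            right_inv := fun _ => rfl }
      rw [h3]
      exact h2)
  rw [sum_inner hl] at h1
  exact h1

end Pool.Agent.Helper36.NB
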