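import Mathlib
import Pool.Agent.Helper36.NB.Defs
import Pool.Agent.Helper36.NB.B3
import Pool.Agent.Helper36.NB.C1
import Pool.Agent.Helper36.NB.C3
import Pool.Agent.Helper36.NB.C4
import Pool.Agent.Helper36.NB.E0
import Pool.Agent.Helper36.NB.E1
import Pool.Agent.Helper36.NB.M1
import Pool.Agent.Helper36.NB.M2

open scoped BigOperators MonoidAlgebra
open Classical

namespace Pool.Agent.Helper36.NB

namespace F1aux

/-- A complex idempotent matrix with zero trace is zero. -/
theorem mat_zero {n : ℕ} (A : Matrix (Fin n) (Fin n) ℂ) (hA : A * A = A) (h0 : A.trace = 0) :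
    A = 0 := by
  have he : IsIdempotentElem (Matrix.toLin' A) := by
    change Matrix.toLin' A * Matrix.toLin' A = Matrix.toLin' A
    rw [Module.End.mul_eq_comp, ← Matrix.toLin'_mul, hA]
  have h1 : LinearMap.trace ℂ (Fin n → ℂ) (Matrix.toLin' A) = 0 := by
    rw [Matrix.trace_toLin'_eq, h0]
  have h2 := LinearMap.IsIdempotentElem.eq_zero_of_trace_eq_zero he h1
  exact (LinearEquiv.map_eq_zero_iff Matrix.toLin').1 h2

/-- Elements commuting with all group elements are central. -/
theorem central_of_el {G : Type} [Group G] [Fintype G] (x : MonoidAlgebra ℂ G)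
    (h : ∀ g, el ℂ g * x = x * el ℂ g) (y : MonoidAlgebra ℂ G) : y * x = x * y := by
  induction y using MonoidAlgebra.induction_linear with
  | zero => simp
  | add a b ha hb => rw [add_mul, mul_add, ha, hb]
  | single g c =>
    have e : (MonoidAlgebra.single g c : MonoidAlgebra ℂ G) = c • el ℂ g := by
      simp [el]
    rw [e, smul_mul_assoc, mul_smul_comm, h g]

/-- The coefficient at `h` of `g h j`. -/
theorem coeff_el {G : Type} [Group G] (g h : G) (x : MonoidAlgebra ℂ G) :
    (el ℂ g * el ℂ h * x).coeff h = x.coeff (h⁻¹ * g⁻¹ * h) := by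
  rw [← el_mul, el, MonoidAlgebra.coeff_single_mul_apply]
  simp

/-- The character is a class function. -/
theorem ch_class {G : Type} [Group G] [Fintype G] (I : IrrData G) (a : Fin I.r) (g h : G) :
    I.ch a (g * h * g⁻¹) = I.ch a h := by
  unfold IrrData.ch
  rw [el_mul, el_mul, chi_mul_comm, ← mul_assoc, ← el_mul, inv_mul_cancel, el_one, one_mul]

/-- A rational number which is integral at `l`. -/
theorem not_dvd {l c : ℕ} (hc : c ≠ 0) (h : IntAt l ((1 : ℂ) / c)) : ¬ l ∣ c := by
  obtain ⟨n, hn, hi⟩ := h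
  have h1 : ((n : ℂ) * (1 / c)) = algebraMap ℚ ℂ ((n : ℚ) / c) := by
    simp [div_eq_mul_inv]
  rw [h1, isIntegral_algebraMap_iff (algebraMap ℚ ℂ).injective,
    IsIntegrallyClosed.isIntegral_iff] at hi
  obtain ⟨k, hk⟩ := hi
  intro hl
  apply hn
  have hc' : (c : ℚ) ≠ 0 := by exact_mod_cast hc
  have h2 : (n : ℚ) = k * c := by
    have : (k : ℚ) = n / c := by simpa using hk
    rw [this]
    field_simp
  have h3 : (n : ℤ) = k * c := by exact_mod_cast h2
  have h4 : (c : ℤ) ∣ n := ⟨k, by rw [h3]; ring⟩
  exact hl.trans (Int.natCast_dvd_natCast.1 h4)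

/-- Regular part: the combination `Φ` of the characters. -/
theorem main (O : ValuationSubring ℂ) {G : Type} [Group G] [Fintype G]
    (h2 : (2 : O) ∈ IsLocalRing.maximalIdeal O) (I : IrrData G)
    (B : MonoidAlgebra O G) (hB : B * B = B) (hBc : ∀ a, a * B = B * a)
    (S : SimpleQuot (toK O G B)) (j : MonoidAlgebra O G) (hj : j * j = j) (hjB : j * B = j)
    (hj1 : (S.ρ (toK O G j)).rank = 1) (m : Fin I.r → ℕ)
    (hm : ∀ a, I.chi a (toC O G j) = m a) :
    ∃ n : ℕ, ∑ a, (m a) ^ 2 = 2 ^ n := by
  -- the number c is not zero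
  have hjj : toC O G j * toC O G j = toC O G j := by rw [← map_mul, hj]
  have hjBc : toC O G j * toC O G B = toC O G j := by rw [← map_mul, hjB]
  have hBB : toC O G B * toC O G B = toC O G B := by rw [← map_mul, hB]
  have hex : ∃ a, m a ≠ 0 := by
    by_contra hcon
    push Not at hcon
    have h0 : I.equiv (toC O G j) = 0 := by
      funext a
      refine mat_zero _ ?_ ?_
      · have := congrArg (fun z => I.equiv z a) hjj
        simpa using this
      · have := hm a
        rw [hcon a] at this
        simpa [IrrData.chi] using this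
    have h1 : toC O G j = 0 := by
      apply I.equiv.injective
      rw [h0, map_zero]
    have h3 : j = 0 := by
      apply toC_injective O
      rw [h1, map_zero]
    rw [h3, map_zero, map_zero, Matrix.rank_zero] at hj1
    exact zero_ne_one hj1
  obtain ⟨a0, ha0⟩ := hex
  obtain ⟨c, hcdef⟩ : ∃ c : ℕ, c = ∑ a, (m a) ^ 2 := ⟨_, rfl⟩
  have hc0 : c ≠ 0 := by
    rw [hcdef]
    intro h
    rw [Finset.sum_eq_zero_iff] at h
    exact ha0 (by simpa using h a0 (Finset.mem_univ _))
  have hc0' : (c : ℂ) ≠ 0 := by exact_mod_cast hc0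
  -- B acts as the identity on the components with m a ≠ 0
  have hBone : ∀ a, m a ≠ 0 → I.equiv (toC O G B) a = 1 := by
    intro a ha
    rcases chi_central I a (toC O G B) hBB (central_of_el _ (fun g => by
      have := congrArg (toC O G) (hBc (el O g))
      simpa [toC_el] using this)) with h | h
    · exfalso
      apply ha
      have h3 : I.chi a (toC O G j) = 0 := by
        rw [← hjBc, IrrData.chi, map_mul, Pi.mul_apply, h, mul_zero, Matrix.trace_zero]
      rw [hm a] at h3
      exact_mod_cast h3
    · exact h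
  have hchB : ∀ a, m a ≠ 0 → ∀ g, I.chi a (toC O G (el O g * B)) = I.ch a g := by
    intro a ha g
    rw [map_mul, toC_el, IrrData.chi, map_mul, Pi.mul_apply, hBone a ha, mul_one]
    rfl
  -- the function Φ
  obtain ⟨Φ, hΦ⟩ : ∃ Φ : G → ℂ, ∀ g, Φ g = ∑ a, (m a : ℂ) * I.ch a g := ⟨_, fun _ => rfl⟩
  have hΦclass : ∀ g h, Φ (g * h * g⁻¹) = Φ h := by
    intro g h
    rw [hΦ, hΦ]
    exact Finset.sum_congr rfl fun a _ => by rw [ch_class]
  have hΦeven : ∀ g, Even (orderOf g) → Φ g = 0 := by
    intro g hg
    have h3 := sum_chi_mul I (el ℂ g) (toC O G j)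
    have h4 : Φ g = ∑ h : G, ((j.coeff (h⁻¹ * g⁻¹ * h) : O) : ℂ) := by
      rw [hΦ]
      calc ∑ a, (m a : ℂ) * I.ch a g = ∑ a, I.chi a (el ℂ g) * I.chi a (toC O G j) := by
            refine Finset.sum_congr rfl fun a _ => ?_
            rw [hm a, mul_comm]
            rfl
        _ = ∑ h : G, ((j.coeff (h⁻¹ * g⁻¹ * h) : O) : ℂ) := by
            rw [h3]
            refine Finset.sum_congr rfl fun h _ => ?_
            rw [coeff_el, toC_apply]
    have h5 := proj_vanish O h2 j hj g⁻¹ (by rw [orderOf_inv]; exact hg)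
    rw [h4]
    have h6 := congrArg (fun x : O => (x : ℂ)) h5
    simpa using h6
  have hΦφ : ∀ (g : G) (z : ℂ), (∀ T : TraceFun O G, T.f (el O g * B) = z * T.f j) →
      Φ g = c * z := by
    intro g z hz
    rw [hΦ, hcdef]
    push_cast
    rw [Finset.sum_mul]
    refine Finset.sum_congr rfl fun a _ => ?_
    by_cases ha : m a = 0
    · simp [ha]
    · have h3 := hz (TraceFun.ofChi O I a)
      rw [TraceFun.ofChi_apply, TraceFun.ofChi_apply, hchB a ha, hm a] at h3
      rw [h3]
      ring
  -- the average of Φ(g)Φ(g⁻¹)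
  have hsum : (∑ g : G, Φ g * Φ g⁻¹) / (Nat.card G : ℂ) = c := by
    have h3 : ∀ g, Φ g * Φ g⁻¹ = ∑ a, ∑ b, ((m a : ℂ) * m b) * (I.ch a g * I.ch b g⁻¹) := by
      intro g
      rw [hΦ, hΦ, Finset.sum_mul_sum]
      refine Finset.sum_congr rfl fun a _ => Finset.sum_congr rfl fun b _ => ?_
      ring
    calc (∑ g : G, Φ g * Φ g⁻¹) / (Nat.card G : ℂ)
        = ∑ a, ∑ b, ((m a : ℂ) * m b) *
            ((∑ g : G, I.ch a g * I.ch b g⁻¹) / (Nat.card G : ℂ)) := by
          simp only [h3]
          rw [Finset.sum_comm, Finset.sum_div]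
          refine Finset.sum_congr rfl fun a _ => ?_
          rw [Finset.sum_comm, Finset.sum_div]
          refine Finset.sum_congr rfl fun b _ => ?_
          rw [← Finset.mul_sum, mul_div_assoc]
      _ = ∑ a, ∑ b, ((m a : ℂ) * m b) * (if a = b then 1 else 0) := by
          refine Finset.sum_congr rfl fun a _ => Finset.sum_congr rfl fun b _ => ?_
          rw [ch_orth I a b]
      _ = c := by
          rw [hcdef]
          push_cast
          refine Finset.sum_congr rfl fun a _ => ?_
          rw [Finset.sum_eq_single a]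
          · simp [sq]
          · intro b _ hb
            rw [if_neg (Ne.symm hb), mul_zero]
          · intro h
            exact absurd (Finset.mem_univ a) h
  -- the function F
  obtain ⟨F, hF⟩ : ∃ F : G → ℂ, ∀ g, F g = Φ g * Φ g⁻¹ / (c : ℂ) ^ 2 := ⟨_, fun _ => rfl⟩
  have hFsum : (∑ g : G, F g) / (Nat.card G : ℂ) = 1 / c := by
    have h3 : ∑ g : G, F g = (∑ g : G, Φ g * Φ g⁻¹) / (c : ℂ) ^ 2 := by
      rw [Finset.sum_div]
      exact Finset.sum_congr rfl fun g _ => hF g
    rw [h3, div_right_comm, hsum]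
    field_simp
  have hFclass : ∀ g h, F (g * h * g⁻¹) = F h := by
    intro g h
    have e : (g * h * g⁻¹)⁻¹ = g * h⁻¹ * g⁻¹ := by group
    rw [hF, hF, e, hΦclass, hΦclass]
  have hFeven : ∀ g, Even (orderOf g) → F g = 0 := by
    intro g hg
    rw [hF, hΦeven g hg, zero_mul, zero_div]
  have hFprod : ∀ (g : G) (z w : ℂ), Φ g = c * z → Φ g⁻¹ = c * w → F g = z * w := by
    intro g z w hz hw
    rw [hF, hz, hw]
    field_simp
  -- odd primes do not divide c
  have key : ∀ l : ℕ, l.Prime → l ≠ 2 → ¬ l ∣ c := by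
    intro l hl hl2
    refine not_dvd hc0 ?_
    rw [← hFsum]
    refine brauer_local l hl F hFclass ?_ ?_
    · intro h
      refine intAt_of_isIntegral hl ?_
      rcases Nat.even_or_odd (orderOf h) with he | ho
      · rw [hFeven h he]
        exact isIntegral_zero
      · obtain ⟨φ, hφi, -, hφ⟩ := brauer_val O h2 B hB hBc S j hj hjB hj1 h ho
        obtain ⟨ψ, hψi, -, hψ⟩ := brauer_val O h2 B hB hBc S j hj hjB hj1 h⁻¹
          (by rw [orderOf_inv]; exact ho)
        rw [hFprod h φ ψ (hΦφ h φ hφ) (hΦφ h⁻¹ ψ hψ)]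
        exact hφi.mul hψi
    · intro x Q hQ hlx hcomm
      refine intAt_of_isIntegral hl ?_
      rcases Nat.even_or_odd (orderOf x) with he | ho
      · have h3 : ∀ q : Q, F (x * q) = 0 := by
          intro q
          apply hFeven
          have hq : (orderOf x).Coprime (orderOf (q : G)) := by
            have : Fact l.Prime := ⟨hl⟩
            obtain ⟨k, hk⟩ := (IsPGroup.iff_orderOf.1 hQ) q
            rw [Subgroup.orderOf_coe, hk]
            exact Nat.Coprime.pow_right k (Nat.Coprime.symm ((Nat.Prime.coprime_iff_not_dvd hl).2 hlx))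
          have hcx : Commute x (q : G) := (hcomm q q.2).symm
          rw [hcx.orderOf_mul_eq_mul_orderOf_of_coprime hq]
          exact he.mul_right _
        rw [Finset.sum_eq_zero fun q _ => h3 q, zero_div]
        exact isIntegral_zero
      · -- L = <x> × Q
        have hcomm' : ∀ (a : Subgroup.zpowers x) (q : Q),
            Commute ((Subgroup.zpowers x).subtype a) (Q.subtype q) := by
          intro a q
          obtain ⟨k, hk⟩ := Subgroup.mem_zpowers_iff.1 a.2
          change Commute (a : G) (q : G)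
          rw [← hk]
          exact Commute.zpow_left (show Commute x (q : G) from (hcomm q q.2).symm) k
        obtain ⟨f, hf⟩ : ∃ f : (Subgroup.zpowers x) × Q →* G, ∀ u, f u = (u.1 : G) * (u.2 : G) :=
          ⟨MonoidHom.noncommCoprod (Subgroup.zpowers x).subtype Q.subtype hcomm',
            fun u => rfl⟩
        have hodd : Odd (Nat.card ((Subgroup.zpowers x) × Q)) := by
          rw [Nat.card_prod, Nat.card_zpowers]
          refine ho.mul ?_
          have : Fact l.Prime := ⟨hl⟩
          obtain ⟨k, hk⟩ := IsPGroup.iff_card.1 hQ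
          rw [hk]
          exact (hl.odd_of_ne_two hl2).pow
        obtain ⟨η, hη, hηT⟩ := rep_odd O h2 B hB hBc S j hj hjB hj1
          ((Subgroup.zpowers x) × Q) hodd f
        have hΦη : ∀ u, Φ (f u) = c * η u := fun u => hΦφ (f u) (η u) (hηT u)
        have hFη : ∀ u, F (f u) = η u * η u⁻¹ := by
          intro u
          refine hFprod (f u) (η u) (η u⁻¹) (hΦη u) ?_
          rw [← map_inv]
          exact hΦη u⁻¹
        have hψ : IsChar (fun u : (Subgroup.zpowers x) × Q => η u * η u⁻¹) :=
          isChar_mul hη (isChar_dual hη)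
        have : Fintype ((Subgroup.zpowers x) × Q) := Fintype.ofFinite _
        have hx1 : ∀ q ∈ (MonoidHom.inr (Subgroup.zpowers x) Q).range,
            q * ((⟨x, Subgroup.mem_zpowers x⟩, 1) : (Subgroup.zpowers x) × Q) =
              ((⟨x, Subgroup.mem_zpowers x⟩, 1) : (Subgroup.zpowers x) × Q) * q := by
          rintro q ⟨q', rfl⟩
          refine Prod.ext ?_ ?_ <;> simp
        have h3 := coset_int _ _ hψ (MonoidHom.inr (Subgroup.zpowers x) Q).range
          ((⟨x, Subgroup.mem_zpowers x⟩, 1) : (Subgroup.zpowers x) × Q) hx1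
        have hinj : Function.Injective (MonoidHom.inr (Subgroup.zpowers x) Q) := by
          intro p q hpq
          exact congrArg Prod.snd hpq
        have hcard : Nat.card (MonoidHom.inr (Subgroup.zpowers x) Q).range = Nat.card Q :=
          (Nat.card_congr (MonoidHom.ofInjective hinj).toEquiv).symm
        have h4 : ∀ q : Q, F (x * q) = (fun u : (Subgroup.zpowers x) × Q => η u * η u⁻¹)
            (((⟨x, Subgroup.mem_zpowers x⟩, 1) : (Subgroup.zpowers x) × Q) *
              ((MonoidHom.ofInjective hinj).toEquiv q :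
                (MonoidHom.inr (Subgroup.zpowers x) Q).range)) := by
          intro q
          have h5 : f (((⟨x, Subgroup.mem_zpowers x⟩, 1) : (Subgroup.zpowers x) × Q) *
              ((MonoidHom.ofInjective hinj).toEquiv q :
                (MonoidHom.inr (Subgroup.zpowers x) Q).range)) = x * q := by
            rw [hf]
            have h6 : (((MonoidHom.ofInjective hinj).toEquiv q :
                (MonoidHom.inr (Subgroup.zpowers x) Q).range) : (Subgroup.zpowers x) × Q) =
                (1, q) := rfl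
            rw [h6]
            simp
          rw [← h5, hFη]
        rw [hcard] at h3
        convert h3 using 2
        refine (Fintype.sum_equiv (MonoidHom.ofInjective hinj).toEquiv (fun q => F (x * q))
          (fun q => η (((⟨x, Subgroup.mem_zpowers x⟩, 1) : (Subgroup.zpowers x) × Q) * q) *
            η (((⟨x, Subgroup.mem_zpowers x⟩, 1) : (Subgroup.zpowers x) × Q) * q)⁻¹) h4).trans ?_
        refine Finset.sum_congr ?_ fun _ _ => rfl
        ext
        simp
  refine ⟨c.primeFactorsList.length, ?_⟩
  rw [← hcdef]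
  exact Nat.eq_prime_pow_of_unique_prime_dvd hc0 (fun {d} hd hdc => by
    by_contra hne
    exact key d hd hne hdc)

end F1aux

/-- The Cartan number of a block with one simple module is a power of `2`. -/
theorem cartan_pow_two (O : ValuationSubring ℂ) {G : Type} [Group G] [Fintype G]
    (h2 : (2 : O) ∈ IsLocalRing.maximalIdeal O) (I : IrrData G)
    (B : MonoidAlgebra O G) (hB : B * B = B) (hBc : ∀ a, a * B = B * a)
    (S : SimpleQuot (toK O G B)) (j : MonoidAlgebra O G) (hj : j * j = j) (hjB : j * B = j)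
    (hj1 : (S.ρ (toK O G j)).rank = 1) :
    ∃ n : ℕ, ∑ a, I.chi a (toC O G j) ^ 2 = (2 : ℂ) ^ n := by
  have hjj : toC O G j * toC O G j = toC O G j := by rw [← map_mul, hj]
  choose m hm using fun a => chi_idem I a (toC O G j) hjj
  obtain ⟨n, hn⟩ := F1aux.main O h2 I B hB hBc S j hj hjB hj1 m hm
  refine ⟨n, ?_⟩
  have h3 : ∑ a, I.chi a (toC O G j) ^ 2 = ((∑ a, (m a) ^ 2 : ℕ) : ℂ) := by
    push_cast
    exact Finset.sum_congr rfl fun a _ => by rw [hm a]
  rw [h3, hn]
  push_cast
  rfl

end Pool.Agent.Helper36.NB
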