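import Mathlib
import Pool.Agent.Helper36.NB.Defs
import Pool.Agent.Helper36.NB.B3
import Pool.Agent.Helper36.NB.C1
import Pool.Agent.Helper36.NB.C3
import Pool.Agent.Helper36.NB.E0
import Pool.Agent.Helper36.NB.F1

open scoped BigOperators MonoidAlgebra
open Classical

namespace Pool.Agent.Helper36.NB

namespace F2aux

/-- Orbit-stabiliser for conjugacy classes. -/
theorem card_class {G : Type} [Group G] [Fintype G] (x : G) :
    (Finset.univ.filter (fun g : G => IsConj x g)).card * Nat.card (cent x) = Nat.card G := by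
  have h := MulAction.card_orbit_mul_card_stabilizer_eq_card_group (ConjAct G) x
  rw [Nat.card_eq_fintype_card (α := G)]
  have h1 : Fintype.card (MulAction.orbit (ConjAct G) x) =
      (Finset.univ.filter (fun g : G => IsConj x g)).card := by
    rw [Fintype.card_subtype]
    congr 1
    ext g
    simp only [Finset.mem_filter, Finset.mem_univ, true_and]
    rw [ConjAct.mem_orbit_conjAct, isConj_comm]
  have h2 : Fintype.card (MulAction.stabilizer (ConjAct G) x) = Nat.card (cent x) := by
    rw [← Nat.card_eq_fintype_card, ConjAct.stabilizer_eq_centralizer]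
    rfl
  rw [← h1, ← h2, h]
  rfl

/-- A complex number times an odd number: comparison of powers of two in `O`. -/
theorem pow_eq {O : ValuationSubring ℂ} (h2 : (2 : O) ∈ IsLocalRing.maximalIdeal O)
    {a b : O} (ha : IsUnit a) (hb : IsUnit b) {p q : ℕ} (h : (2 : O) ^ p * a = 2 ^ q * b) :
    p = q := by
  have key : ∀ {a b : O}, IsUnit a → IsUnit b → ∀ {p q : ℕ}, (2 : O) ^ p * a = 2 ^ q * b →
      ¬ p < q := by
    intro a b ha hb p q h hpq
    obtain ⟨r, rfl⟩ := Nat.exists_eq_add_of_lt hpq
    have h0 : (2 : O) ^ p ≠ 0 := pow_ne_zero _ (by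
      intro h
      have := congrArg (fun z : O => (z : ℂ)) h
      norm_num at this)
    have h3 : a = 2 ^ (r + 1) * b := by
      apply mul_left_cancel₀ h0
      rw [h, add_assoc, pow_add, mul_assoc]
    have h4 : a ∈ IsLocalRing.maximalIdeal O := by
      rw [h3, pow_succ, mul_assoc, mul_comm (2 : O) b, ← mul_assoc]
      exact Ideal.mul_mem_left _ _ h2
    exact (IsLocalRing.mem_maximalIdeal _).1 h4 ha
  rcases lt_trichotomy p q with h' | h' | h'
  · exact absurd h' (key ha hb h)
  · exact h'
  · exact absurd h' (key hb ha h.symm)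

/-- An odd natural number is a unit of `O`. -/
theorem odd_unit {O : ValuationSubring ℂ} (h2 : (2 : O) ∈ IsLocalRing.maximalIdeal O)
    {r : ℕ} (hr : Odd r) : IsUnit (r : O) := by
  by_contra hcon
  have h1 : (r : O) ∈ IsLocalRing.maximalIdeal O := (IsLocalRing.mem_maximalIdeal _).2 hcon
  obtain ⟨k, rfl⟩ := hr
  have h3 : ((2 * k + 1 : ℕ) : O) - (k : O) * 2 ∈ IsLocalRing.maximalIdeal O :=
    Ideal.sub_mem _ h1 (Ideal.mul_mem_left _ _ h2)
  have h4 : ((2 * k + 1 : ℕ) : O) - (k : O) * 2 = 1 := by push_cast; ring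
  rw [h4] at h3
  exact (IsLocalRing.mem_maximalIdeal _).1 h3 isUnit_one

/-- A natural number is a power of two times a unit in `O`. -/
theorem nat_two {O : ValuationSubring ℂ} (h2 : (2 : O) ∈ IsLocalRing.maximalIdeal O)
    {m : ℕ} (hm : m ≠ 0) : ∃ u : O, IsUnit u ∧ (m : O) = 2 ^ (m.factorization 2) * u := by
  refine ⟨((m / 2 ^ (m.factorization 2) : ℕ) : O), odd_unit h2 ?_, ?_⟩
  · rw [← Nat.not_even_iff_odd, even_iff_two_dvd]
    exact Nat.not_dvd_ordCompl Nat.prime_two hm
  · conv_lhs => rw [← Nat.ordProj_mul_ordCompl_eq_self m 2]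
    push_cast
    rfl

/-- The values `Φ(1) = ∑ d_a χ_a(1)` are divisible by the order of a Sylow `2`-subgroup. -/
theorem proj_dvd (O : ValuationSubring ℂ) {G : Type} [Group G] [Fintype G]
    (h2 : (2 : O) ∈ IsLocalRing.maximalIdeal O) (I : IrrData G)
    (j : MonoidAlgebra O G) (hj : j * j = j) (d : Fin I.r → ℕ)
    (hd : ∀ a, I.chi a (toC O G j) = d a) :
    2 ^ (Nat.card G).factorization 2 ∣ ∑ a, d a * I.d a := by
  obtain ⟨P⟩ : Nonempty (Sylow 2 G) := inferInstance
  have hP : Nat.card P = 2 ^ (Nat.card G).factorization 2 := P.card_eq_multiplicity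
  rw [← hP]
  -- the averaging idempotent
  set c : ℂ := (Nat.card P : ℂ)⁻¹ with hc
  have hP0 : (Nat.card P : ℂ) ≠ 0 := by
    rw [hP]
    exact Nat.cast_ne_zero.2 (pow_ne_zero _ two_ne_zero)
  set y : MonoidAlgebra ℂ G := ∑ g : P, el ℂ (g : G) with hy
  have hyy : y * y = (Nat.card P : ℂ) • y := by
    have h1 : ∀ g : P, el ℂ (g : G) * y = y := by
      intro g
      rw [hy, Finset.mul_sum]
      refine Fintype.sum_equiv (Equiv.mulLeft g) _ _ ?_
      intro h
      rw [← el_mul]
      rfl
    calc y * y = ∑ g : P, el ℂ (g : G) * y := by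
          conv_lhs => rw [hy]
          rw [Finset.sum_mul]
      _ = ∑ g : P, y := Finset.sum_congr rfl (fun g _ => h1 g)
      _ = (Nat.card P : ℂ) • y := by
          rw [Finset.sum_const, Finset.card_univ, ← Nat.card_eq_fintype_card, Nat.cast_smul_eq_nsmul]
  have hidem : (c • y) * (c • y) = c • y := by
    rw [smul_mul_smul_comm, hyy, smul_smul, mul_assoc, hc, inv_mul_cancel₀ hP0, mul_one]
  have hk : ∀ a, ∃ m : ℕ, I.chi a (c • y) = m := fun a => chi_idem I a _ hidem
  choose k hk using hk
  -- Φ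
  have hPhi : ∀ g : G, ∑ a, I.chi a (toC O G j) * I.chi a (el ℂ g) =
      ((∑ h : G, j.coeff (h⁻¹ * g⁻¹ * h) : O) : ℂ) := by
    intro g
    rw [sum_chi_mul]
    push_cast
    refine Fintype.sum_equiv (Equiv.inv G) _ _ ?_
    intro h
    rw [mul_assoc, ← el_mul, el, MonoidAlgebra.coeff_mul_single_apply, mul_one, toC_apply]
    simp [mul_assoc]
  have hodd : ∀ g : P, g ≠ 1 → Even (orderOf (g : G)) := by
    intro g hg
    obtain ⟨n, hn⟩ := (IsPGroup.iff_orderOf.1 P.isPGroup') g
    rw [Subgroup.orderOf_coe, hn]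
    rcases n with _ | n
    · exfalso
      apply hg
      rw [pow_zero] at hn
      exact orderOf_eq_one_iff.1 hn
    · rw [pow_succ]
      exact even_two.mul_left _
  have hsum : ∑ g : P, ∑ a, I.chi a (toC O G j) * I.chi a (el ℂ (g : G)) =
      ∑ a, I.chi a (toC O G j) * I.chi a 1 := by
    refine (Finset.sum_eq_single (1 : P) ?_ ?_).trans ?_
    · intro g _ hg
      rw [hPhi]
      have hev : Even (orderOf ((g : G)⁻¹)) := by
        rw [orderOf_inv]; exact hodd g hg
      rw [proj_vanish O h2 j hj _ hev]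
      rfl
    · intro h
      exact absurd (Finset.mem_univ _) h
    · rfl
  have hmain : ((∑ a, d a * I.d a : ℕ) : ℂ) = ((Nat.card P * ∑ a, d a * k a : ℕ) : ℂ) := by
    push_cast
    have h3 : ∑ a, I.chi a (toC O G j) * I.chi a 1 = ∑ a, (d a : ℂ) * (I.d a : ℂ) := by
      refine Finset.sum_congr rfl fun a _ => ?_
      rw [hd, chi_one]
    rw [← h3, ← hsum, Finset.sum_comm, Finset.mul_sum]
    refine Finset.sum_congr rfl fun a _ => ?_
    have h4 : (k a : ℂ) = c * ∑ g : P, I.chi a (el ℂ (g : G)) := by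
      rw [← hk a, chi_smul, hy, chi_sum]
    rw [h4, hd, ← Finset.mul_sum]
    rw [mul_left_comm (d a : ℂ) c, ← mul_assoc (Nat.card P : ℂ) c, hc, mul_inv_cancel₀ hP0, one_mul]
  have hnat : ∑ a, d a * I.d a = Nat.card P * ∑ a, d a * k a := by exact_mod_cast hmain
  rw [hnat]
  exact dvd_mul_right _ _

/-- Every element of `ℂ[G]` commutes with the image of a central element of `O[G]`. -/
theorem toC_central (O : ValuationSubring ℂ) {G : Type} [Group G]
    (e : MonoidAlgebra O G) (hec : ∀ a, a * e = e * a) (y : MonoidAlgebra ℂ G) :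
    y * toC O G e = toC O G e * y := by
  induction y using MonoidAlgebra.induction_linear with
  | zero => simp
  | add f g hf hg => rw [add_mul, mul_add, hf, hg]
  | single g r =>
    have h1 : el ℂ g * toC O G e = toC O G e * el ℂ g := by
      rw [← toC_el O, ← map_mul, ← map_mul, hec]
    have h3 : MonoidAlgebra.single g r = r • el ℂ g := by
      simp [el]
    rw [h3, smul_mul_assoc, mul_smul_comm, h1]

/-- The class sum is central. -/
theorem classSum_central (R : Type) [CommRing R] {G : Type} [Group G] [Fintype G] (x : G)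
    (y : MonoidAlgebra R G) : y * classSum R x = classSum R x * y := by
  induction y using MonoidAlgebra.induction_linear with
  | zero => simp
  | add f g hf hg => rw [add_mul, mul_add, hf, hg]
  | single g r =>
    have h3 : MonoidAlgebra.single g r = r • el R g := by
      simp [el]
    have h1 : el R g * classSum R x = classSum R x * el R g := by
      rw [classSum, Finset.mul_sum, Finset.sum_mul]
      refine Finset.sum_bij' (fun h _ => g * h * g⁻¹) (fun h _ => g⁻¹ * h * g) ?_ ?_ ?_ ?_ ?_
      · intro h hh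
        simp only [Finset.mem_filter, Finset.mem_univ, true_and] at hh ⊢
        exact hh.trans (isConj_iff.2 ⟨g, rfl⟩)
      · intro h hh
        simp only [Finset.mem_filter, Finset.mem_univ, true_and] at hh ⊢
        exact hh.trans (isConj_iff.2 ⟨g⁻¹, by simp⟩)
      · intro h _
        group
      · intro h _
        group
      · intro h _
        rw [← el_mul, ← el_mul]
        congr 1
        group
    rw [h3, smul_mul_assoc, mul_smul_comm, h1]

/-- A central element acts on the component `a` as a scalar. -/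
theorem central_scalar {G : Type} [Group G] [Fintype G] (I : IrrData G) (a : Fin I.r)
    (z : MonoidAlgebra ℂ G) (hz : ∀ y, y * z = z * y) :
    I.equiv z a = (I.chi a z / (I.d a : ℂ)) • (1 : Matrix (Fin (I.d a)) (Fin (I.d a)) ℂ) := by
  have hcomm : ∀ M : Matrix (Fin (I.d a)) (Fin (I.d a)) ℂ, Commute M (I.equiv z a) := by
    intro M
    have h1 := hz (I.equiv.symm (Pi.single a M))
    have h2 := congrFun (congrArg I.equiv h1) a
    rw [map_mul, map_mul, AlgEquiv.apply_symm_apply, Pi.mul_apply, Pi.mul_apply,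
      Pi.single_eq_same] at h2
    exact h2
  obtain ⟨r, hr⟩ := Matrix.mem_range_scalar_of_commute_single (M := I.equiv z a)
    (fun i j _ => hcomm _)
  have hpos : (I.d a : ℂ) ≠ 0 := Nat.cast_ne_zero.2 (I.pos a).ne'
  have htr : I.chi a z = r * I.d a := by
    rw [IrrData.chi, ← hr]
    simp [Matrix.scalar_apply, Matrix.trace_diagonal, mul_comm]
  rw [htr, mul_div_cancel_right₀ _ hpos, ← hr]
  ext i j
  simp [Matrix.scalar_apply, Matrix.one_apply, Matrix.diagonal_apply]

end F2aux

open F2aux in
/-- For a defect class of a block with one simple module: the Cartan number is `|D|`, and the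
Brauer character is nonzero modulo `2` at the defect class. -/
theorem defect_data (O : ValuationSubring ℂ) {G : Type} [Group G] [Fintype G]
    (h2 : (2 : O) ∈ IsLocalRing.maximalIdeal O) (I : IrrData G)
    (e : MonoidAlgebra O G) (he : e * e = e) (hec : ∀ a, a * e = e * a)
    (S : SimpleQuot (toK O G e)) (j : MonoidAlgebra O G) (hj : j * j = j) (hje : j * e = j)
    (hj1 : (S.ρ (toK O G j)).rank = 1) (x : G) (hx : Odd (orderOf x)) (hxr : IsConj x x⁻¹)
    (hex : IsLocalRing.residue O (e.coeff x) ≠ 0)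
    (hK : ¬ IsNilpotent (toK O G (classSum O x * e))) (D : Subgroup G)
    (hD : Nat.card D = 2 ^ (Nat.card (cent x)).factorization 2) :
    ∑ a, I.chi a (toC O G j) ^ 2 = (Nat.card D : ℂ) ∧
      (S.ρ (el (resK O) x)).trace ≠ 0 ∧
      S.n.factorization 2 + (Nat.card D).factorization 2 = (Nat.card G).factorization 2 := by
  have hjj : toC O G j * toC O G j = toC O G j := by rw [← map_mul, hj]
  have hee : toC O G e * toC O G e = toC O G e := by rw [← map_mul, he]
  have hecC : ∀ y, y * toC O G e = toC O G e * y := toC_central O e hec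
  have hdex : ∀ a, ∃ m : ℕ, I.chi a (toC O G j) = m := fun a => chi_idem I a _ hjj
  choose d hd using hdex
  -- the values at `e`
  have hrank : (S.ρ (toK O G e)).rank = S.n := by
    rw [S.one, Matrix.rank_one, Fintype.card_fin]
  have hce : ∀ a, I.chi a (toC O G e) = (S.n : ℂ) * (d a : ℂ) := by
    intro a
    have h := trace_rank O e he hec S j hj hje hj1 e he he (TraceFun.ofChi O I a)
    rw [TraceFun.ofChi_apply, TraceFun.ofChi_apply, hrank, hd] at h
    exact h
  have hcase : ∀ a, (d a = 0 ∧ I.equiv (toC O G e) a = 0) ∨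
      (d a ≠ 0 ∧ I.equiv (toC O G e) a = 1 ∧ I.d a = S.n * d a) := by
    intro a
    rcases chi_central I a (toC O G e) hee hecC with h | h
    · left
      refine ⟨?_, h⟩
      have h1 := hce a
      rw [IrrData.chi, h, Matrix.trace_zero] at h1
      have h3 : ((S.n * d a : ℕ) : ℂ) = 0 := by push_cast; exact h1.symm
      rcases Nat.mul_eq_zero.1 (Nat.cast_eq_zero.1 h3) with h4 | h4
      · exact absurd h4 S.pos.ne'
      · exact h4
    · right
      have h1 := hce a
      rw [IrrData.chi, h, Matrix.trace_one, Fintype.card_fin] at h1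
      have h3 : I.d a = S.n * d a := by exact_mod_cast h1
      refine ⟨?_, h, h3⟩
      intro h0
      rw [h0, mul_zero] at h3
      exact absurd h3 (I.pos a).ne'
  -- the Brauer character
  obtain ⟨φ, -, hφ, hφT⟩ := brauer_val O h2 e he hec S j hj hje hj1 x hx
  have hφinv : ∀ a, I.chi a (toC O G e * el ℂ x⁻¹) = (φ : ℂ) * (d a : ℂ) := by
    intro a
    obtain ⟨g, hg⟩ := isConj_iff.1 hxr
    have h1 := hφT (TraceFun.ofChi O I a)
    rw [TraceFun.ofChi_apply, TraceFun.ofChi_apply, hd, map_mul, toC_el] at h1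
    rw [← h1, ← hg, el_mul, el_mul, chi_mul_comm, mul_assoc, mul_assoc, chi_mul_comm, mul_assoc,
      mul_assoc, ← hecC (el ℂ g), ← mul_assoc (el ℂ g⁻¹), ← mul_assoc, mul_assoc (el ℂ x),
      ← el_mul, inv_mul_cancel, el_one, one_mul]
  set c : ℕ := ∑ a, d a ^ 2 with hc
  obtain ⟨m, hm⟩ := cartan_pow_two O h2 I e he hec S j hj hje hj1
  have hcc : c = 2 ^ m := by
    have h1 : ((c : ℕ) : ℂ) = ((2 ^ m : ℕ) : ℂ) := by
      rw [hc]
      push_cast
      rw [← hm]
      exact Finset.sum_congr rfl fun a _ => by rw [hd]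
    exact_mod_cast h1
  have hc0 : c ≠ 0 := by rw [hcc]; exact pow_ne_zero _ two_ne_zero
  -- the coefficient of `e` at `x`
  have hcoeff : (Nat.card G : ℂ) * ((e.coeff x : O) : ℂ) = (φ : ℂ) * ((S.n * c : ℕ) : ℂ) := by
    have h1 := sum_chi_mul I (toC O G e * el ℂ x⁻¹) 1
    have h3 : ∀ g : G, (toC O G e * el ℂ x⁻¹ * el ℂ g * 1).coeff g = ((e.coeff x : O) : ℂ) := by
      intro g
      rw [mul_one, mul_assoc, ← el_mul, el, MonoidAlgebra.coeff_mul_single_apply, mul_one,
        toC_apply]
      congr 2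
      group
    rw [Finset.sum_congr rfl (fun g _ => h3 g), Finset.sum_const, Finset.card_univ,
      ← Nat.card_eq_fintype_card, nsmul_eq_mul] at h1
    rw [← h1, hc]
    push_cast
    rw [Finset.mul_sum, Finset.mul_sum]
    refine Finset.sum_congr rfl fun a _ => ?_
    rw [hφinv, chi_one]
    rcases hcase a with ⟨h0, -⟩ | ⟨-, -, h4⟩
    · rw [h0]; simp
    · rw [h4]; push_cast; ring
  -- divisibility
  have hdvd : 2 ^ (Nat.card G).factorization 2 ∣ S.n * c := by
    have h1 := proj_dvd O h2 I j hj d hd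
    have h3 : ∑ a, d a * I.d a = S.n * c := by
      rw [hc, Finset.mul_sum]
      refine Finset.sum_congr rfl fun a _ => ?_
      rcases hcase a with ⟨h0, -⟩ | ⟨-, -, h4⟩
      · rw [h0]; simp
      · rw [h4]; ring
    rwa [h3] at h1
  obtain ⟨M, hM⟩ := hdvd
  have hG0 : Nat.card G ≠ 0 := Nat.card_pos.ne'
  set w : ℕ := (Nat.card G).factorization 2 with hw
  obtain ⟨uG, huG, huG'⟩ := nat_two h2 hG0
  rw [← hw] at huG'
  have htwo : (2 : O) ≠ 0 := by
    intro h
    have := congrArg (fun z : O => (z : ℂ)) h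
    norm_num at this
  have hOeq : uG * e.coeff x = φ * (M : O) := by
    apply mul_left_cancel₀ (pow_ne_zero w htwo)
    apply Subtype.ext
    have h1 : (2 : O) ^ w * (uG * e.coeff x) = (Nat.card G : O) * e.coeff x := by
      rw [huG', mul_assoc]
    have h3 : (2 : O) ^ w * (φ * (M : O)) = φ * ((S.n * c : ℕ) : O) := by
      rw [hM]; push_cast; ring
    rw [h1, h3]
    push_cast at hcoeff ⊢
    exact hcoeff
  have hunit : IsUnit (e.coeff x) := (IsLocalRing.residue_ne_zero_iff_isUnit _).1 hex
  have hprod : IsUnit (φ * (M : O)) := by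
    rw [← hOeq]; exact huG.mul hunit
  have hφu : IsUnit φ := isUnit_of_mul_isUnit_left hprod
  have hMu : IsUnit (M : O) := isUnit_of_mul_isUnit_right hprod
  have hMf : (S.n * c).factorization 2 = w := by
    have hn0 : S.n * c ≠ 0 := mul_ne_zero S.pos.ne' hc0
    obtain ⟨u, hu, hu'⟩ := nat_two h2 hn0
    apply pow_eq h2 hu hMu
    rw [← hu', hM]
    push_cast
    rfl
  have htr : (S.ρ (el (resK O) x)).trace ≠ 0 := by
    rw [← hφ]
    exact (IsLocalRing.residue_ne_zero_iff_isUnit _).2 hφu
  -- the class sum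
  set Kc : ℕ := (Finset.univ.filter (fun g : G => IsConj x g)).card with hKc
  have hKcard : Kc * Nat.card (cent x) = Nat.card G := card_class x
  have hKz : ∀ y, y * toC O G (classSum O x) = toC O G (classSum O x) * y :=
    toC_central O _ (classSum_central O x)
  have hn0C : (S.n : ℂ) ≠ 0 := Nat.cast_ne_zero.2 S.pos.ne'
  set ω : ℂ := (Kc : ℂ) * (φ : ℂ) / (S.n : ℂ) with hω
  have hKchi : ∀ a, I.chi a (toC O G (classSum O x)) = (Kc : ℂ) * I.chi a (el ℂ x) := by
    intro a
    rw [classSum, map_sum, chi_sum]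
    rw [Finset.sum_congr rfl (g := fun _ => I.chi a (el ℂ x))]
    · rw [Finset.sum_const, nsmul_eq_mul]
    · intro g hg
      obtain ⟨t, ht⟩ := isConj_iff.1 (Finset.mem_filter.1 hg).2
      rw [toC_el, ← ht, el_mul, chi_mul_comm, ← el_mul]
      congr 2
      group
  have hKe : toC O G (classSum O x * e) = ω • toC O G e := by
    apply I.equiv.injective
    funext a
    rw [map_mul, map_mul, map_smul, Pi.mul_apply, Pi.smul_apply]
    rcases hcase a with ⟨h0, h3⟩ | ⟨h0, h3, h4⟩
    · rw [h3, mul_zero, smul_zero]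
    · rw [h3, mul_one, central_scalar I a _ hKz]
      congr 1
      have h5 : I.chi a (el ℂ x) = (φ : ℂ) * (d a : ℂ) := by
        have h6 := hφT (TraceFun.ofChi O I a)
        rw [TraceFun.ofChi_apply, TraceFun.ofChi_apply, hd, map_mul, toC_el] at h6
        rw [← h6, IrrData.chi, IrrData.chi, map_mul, Pi.mul_apply, h3, mul_one]
      have hda : (d a : ℂ) ≠ 0 := Nat.cast_ne_zero.2 h0
      rw [hKchi, h5, h4, hω]
      push_cast
      field_simp
  obtain ⟨ue, hue⟩ := hunit
  set ω' : O := (classSum O x * e).coeff x * ((ue⁻¹ : Oˣ) : O) with hω'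
  have hωω : (ω' : ℂ) = ω := by
    have h1 := congrArg (fun z => z.coeff x) hKe
    simp only [toC_apply, MonoidAlgebra.coeff_smul, Finsupp.smul_apply, smul_eq_mul] at h1
    have h3 : (e.coeff x) * ((ue⁻¹ : Oˣ) : O) = 1 := by
      rw [← hue]; exact ue.mul_inv
    have h4 : ((e.coeff x : O) : ℂ) * (((ue⁻¹ : Oˣ) : O) : ℂ) = 1 := by
      have := congrArg (fun z : O => (z : ℂ)) h3
      simpa using this
    rw [hω']
    push_cast
    rw [h1, mul_assoc, h4, mul_one]
  have hKeO : classSum O x * e = ω' • e := by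
    apply toC_injective O
    rw [hKe, toC_smul, hωω]
  have hωu : IsUnit ω' := by
    by_contra hcon
    apply hK
    rw [hKeO]
    have h1 : toK O G (ω' • e) = 0 := by
      ext g
      rw [toK_apply]
      have h3 : IsLocalRing.residue O ω' = 0 :=
        (IsLocalRing.residue_eq_zero_iff _).2 ((IsLocalRing.mem_maximalIdeal _).2 hcon)
      simp [h3]
    rw [h1]
    exact IsNilpotent.zero
  have hKc0 : Kc ≠ 0 := by
    intro h
    rw [h, zero_mul] at hKcard
    exact hG0 hKcard.symm
  have hcent0 : Nat.card (cent x) ≠ 0 := Nat.card_pos.ne'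
  have hnK : S.n.factorization 2 = Kc.factorization 2 := by
    obtain ⟨un, hun, hun'⟩ := nat_two h2 S.pos.ne'
    obtain ⟨uk, huk, huk'⟩ := nat_two h2 hKc0
    apply pow_eq h2 (hun.mul hωu) (huk.mul hφu)
    have h1 : (2 : O) ^ S.n.factorization 2 * (un * ω') = (S.n : O) * ω' := by
      rw [hun', mul_assoc]
    have h3 : (2 : O) ^ Kc.factorization 2 * (uk * φ) = (Kc : O) * φ := by
      rw [huk', mul_assoc]
    rw [h1, h3]
    apply Subtype.ext
    push_cast
    rw [hωω, hω]
    field_simp
  have hwK : Kc.factorization 2 + (Nat.card (cent x)).factorization 2 = w := by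
    rw [hw, ← hKcard, Nat.factorization_mul hKc0 hcent0]
    rfl
  have hwn : S.n.factorization 2 + m = w := by
    rw [← hMf, Nat.factorization_mul S.pos.ne' hc0, hcc]
    simp [Nat.Prime.factorization Nat.prime_two]
  have hmm : m = (Nat.card (cent x)).factorization 2 := by omega
  refine ⟨?_, htr, ?_⟩
  · rw [hm, hD, hmm]
    push_cast
    rfl
  · rw [hD, ← hmm]
    simpa [Nat.Prime.factorization Nat.prime_two] using hwn

end Pool.Agent.Helper36.NB
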