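import Mathlib
import Pool.Agent.Helper36.NB.Defs

/-!
# Real nilpotent 2-blocks: the notions of the final statement
-/

open scoped BigOperators MonoidAlgebra
open Classical

namespace Pool.Agent.Helper36.NB

/-- `q` is a source idempotent of the block `e` of `k[G]` for the subgroup `D`: a primitive
idempotent of `k[G]^D`, contained in `k[G]e`, with nonzero image under the Brauer homomorphism
`k[G]^D → k[C_G(D)]`. -/
def IsSource {k : Type} [Field k] {G : Type} [Group G] (D : Subgroup G)
    (e q : MonoidAlgebra k G) : Prop :=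
  q * q = q ∧ Cen D q ∧ q * e = q ∧
    (∀ f, f * f = f → Cen D f → q * f = f → f * q = f → f = 0 ∨ f = q) ∧
    res (Subgroup.centralizer (D : Set G)) q ≠ 0

/-- The Brauer element `(u, b)`, where `b` is a block of `k[C_G(u)]`, is contained in the
maximal Brauer pair defined by the source idempotent `q`. -/
def IsBelow {k : Type} [Field k] {G : Type} [Group G] (q : MonoidAlgebra k G) (u : G)
    (b : MonoidAlgebra k (cent u)) : Prop :=
  IsBlock b ∧ res (cent u) q * b ≠ 0

/-- The two properties of the Brauer elements of a nilpotent block with defect group `D`. -/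
structure NilpotentElements {k : Type} [Field k] {G : Type} [Group G] (D : Subgroup G)
    (e : MonoidAlgebra k G) : Prop where
  /-- the block `e` has one simple module -/
  simple : OneSimple e
  /-- all blocks `b_u` have one simple module -/
  one : ∀ q, IsSource D e q → ∀ u ∈ D, ∀ b : MonoidAlgebra k (cent u), IsBelow q u b →
    OneSimple b
  /-- the fusion of Brauer elements is controlled by `D` -/
  fus : ∀ q, IsSource D e q → ∀ u ∈ D, ∀ v ∈ D, ∀ (b : MonoidAlgebra k (cent u))
    (b' : MonoidAlgebra k (cent v)), IsBelow q u b → IsBelow q v b' →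
    ∀ g : G, g * u * g⁻¹ = v → el k g * incl k _ b * el k g⁻¹ = incl k _ b' →
    ∃ d ∈ D, d * u * d⁻¹ = v

/-- `x` is a defect class representative of the block `e` of `O[G]`: an element of odd order
whose coefficient in `e` is a unit and whose class sum is not nilpotent in `k[G]e`. -/
def IsDefectClass (O : ValuationSubring ℂ) {G : Type} [Group G] [Fintype G]
    (e : MonoidAlgebra O G) (x : G) : Prop :=
  Odd (orderOf x) ∧ IsLocalRing.residue O (e.coeff x) ≠ 0 ∧
    ¬ IsNilpotent (toK O G (classSum O x * e))

/-- `D ≤ E` are Sylow `2`-subgroups of `C_G(x)` and of the extended centraliser of `x`. -/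
def IsDefectPair {G : Type} [Group G] [Fintype G] (x : G) (D E : Subgroup G) : Prop :=
  D ≤ E ∧ D ≤ cent x ∧ E ≤ extCent x ∧
    Nat.card D = 2 ^ (Nat.card (cent x)).factorization 2 ∧
    Nat.card E = 2 ^ (Nat.card (extCent x)).factorization 2

/-- The character of the projective `O[G]`-module `O[G] j`. -/
noncomputable def pim (O : ValuationSubring ℂ) {G : Type} [Group G] (j : MonoidAlgebra O G)
    (g : G) : ℂ :=
  LinearMap.trace ℂ (MonoidAlgebra ℂ G)
    ((LinearMap.mulLeft ℂ (el ℂ g)).comp (LinearMap.mulRight ℂ (toC O G j)))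

/-- `j` is a primitive idempotent of `R[G]`. -/
def IsPrimitiveIdem {R : Type} [CommRing R] {G : Type} [Group G] (j : MonoidAlgebra R G) :
    Prop :=
  j ≠ 0 ∧ j * j = j ∧ ∀ f, f * f = f → f * j = f → j * f = f → f = 0 ∨ f = j

/-- The sum of `η(y²)` over the `y ∈ E ∖ D` (with `y² ∈ D`), divided by `|D|`. -/
noncomputable def extIndicator {G : Type} [Group G] [Fintype G] (D E : Subgroup G)
    (η : D → ℂ) : ℂ :=
  (∑ y ∈ Finset.univ.filter (fun y : G => y ∈ E ∧ y ∉ D),
    if h : y * y ∈ D then η ⟨y * y, h⟩ else 0) / (Nat.card D : ℂ)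

end Pool.Agent.Helper36.NB
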