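import Mathlib
import Pool.Agent.Helper36.NB.Defs
import Pool.Agent.Helper36.NB.Inv
import Pool.Agent.Helper36.NB.Nilp
import Pool.Agent.Helper36.NB.A2
import Pool.Agent.Helper36.NB.A3
import Pool.Agent.Helper36.NB.C1
import Pool.Agent.Helper36.NB.C2
import Pool.Agent.Helper36.NB.D1
import Pool.Agent.Helper36.NB.D2
import Pool.Agent.Helper36.NB.D3
import Pool.Agent.Helper36.NB.F2
import Pool.Agent.Helper36.NB.G1
import Pool.Agent.Helper36.NB.E0

open scoped BigOperators MonoidAlgebra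
open Classical

namespace Pool.Agent.Helper36.NB

/-! ### Groups -/

theorem inf_cent_eq {G : Type} [Group G] [Fintype G] {x : G} {D E : Subgroup G}
    (h : IsDefectPair x D E) : D = E ⊓ cent x := by
  obtain ⟨hDE, hDx, hEx, hD, hE⟩ := h
  have hE2 : IsPGroup 2 E := IsPGroup.of_card hE
  have hF2 : IsPGroup 2 (E ⊓ cent x : Subgroup G) := hE2.to_le inf_le_left
  obtain ⟨m, hm⟩ := IsPGroup.iff_card.mp hF2
  have hdvd : Nat.card (E ⊓ cent x : Subgroup G) ∣ Nat.card (cent x) :=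
    Subgroup.card_dvd_of_le inf_le_right
  rw [hm] at hdvd
  have hle : m ≤ (Nat.card (cent x)).factorization 2 :=
    (Nat.Prime.pow_dvd_iff_le_factorization Nat.prime_two Nat.card_pos.ne').mp hdvd
  have hDle : D ≤ E ⊓ cent x := le_inf hDE hDx
  have hcard : Nat.card (E ⊓ cent x : Subgroup G) ≤ Nat.card D := by
    rw [hm, hD]
    exact Nat.pow_le_pow_right (by norm_num) hle
  exact Subgroup.eq_of_le_of_card_ge hDle hcard

theorem mem_cent_iff {G : Type} [Group G] {x g : G} : g ∈ cent x ↔ g * x * g⁻¹ = x := by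
  rw [Subgroup.mem_centralizer_singleton_iff]
  constructor
  · intro h
    rw [h]; group
  · intro h
    calc g * x = (g * x * g⁻¹) * g := by group
      _ = x * g := by rw [h]

theorem defectPair_t {G : Type} [Group G] [Fintype G] {x : G} {D E : Subgroup G}
    (h : IsDefectPair x D E) {t : G} (htE : t ∈ E) (htD : t ∉ D) : t * x * t⁻¹ = x⁻¹ := by
  have ht : t * x * t⁻¹ = x ∨ t * x * t⁻¹ = x⁻¹ := h.2.2.1 htE
  rcases ht with ht | ht
  · exfalso
    apply htD
    rw [inf_cent_eq h]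
    exact ⟨htE, mem_cent_iff.mpr ht⟩
  · exact ht

theorem exists_t {G : Type} [Group G] [Fintype G] {x : G} {D E : Subgroup G}
    (h : IsDefectPair x D E) (hne : D ≠ E) : ∃ t ∈ E, t ∉ D := by
  by_contra hcon
  push Not at hcon
  exact hne (le_antisymm h.1 hcon)

theorem t_mul_mem {G : Type} [Group G] [Fintype G] {x : G} {D E : Subgroup G}
    (h : IsDefectPair x D E) {t y : G} (ht : t ∈ E) (ht' : t ∉ D) (hy : y ∈ E) (hy' : y ∉ D) :
    t⁻¹ * y ∈ D := by
  have h1 := defectPair_t h ht ht'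
  have h2 := defectPair_t h hy hy'
  rw [inf_cent_eq h]
  refine ⟨E.mul_mem (E.inv_mem ht) hy, mem_cent_iff.mpr ?_⟩
  calc t⁻¹ * y * x * (t⁻¹ * y)⁻¹ = t⁻¹ * (y * x * y⁻¹) * t := by group
    _ = t⁻¹ * x⁻¹ * t := by rw [h2]
    _ = t⁻¹ * (t * x * t⁻¹) * t := by rw [h1]
    _ = x := by group

theorem tt_mem {G : Type} [Group G] [Fintype G] {x : G} {D E : Subgroup G}
    (h : IsDefectPair x D E) {t : G} (ht : t ∈ E) (ht' : t ∉ D) : t * t ∈ D := by
  have h2 : t⁻¹ ∉ D := fun h => ht' (by simpa using D.inv_mem h)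
  have := t_mul_mem h (E.inv_mem ht) h2 ht ht'
  simpa using this

theorem conj_mem {G : Type} [Group G] [Fintype G] {x : G} {D E : Subgroup G}
    (h : IsDefectPair x D E) {t u : G} (ht : t ∈ E) (hu : u ∈ D) : t⁻¹ * u * t ∈ D := by
  have hux : u * x * u⁻¹ = x := mem_cent_iff.mp (h.2.1 hu)
  rw [inf_cent_eq h]
  refine ⟨E.mul_mem (E.mul_mem (E.inv_mem ht) (h.1 hu)) ht, mem_cent_iff.mpr ?_⟩
  have ht1 : t * x * t⁻¹ = x ∨ t * x * t⁻¹ = x⁻¹ := h.2.2.1 ht
  have hux' : u * x⁻¹ * u⁻¹ = x⁻¹ := by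
    calc u * x⁻¹ * u⁻¹ = (u * x * u⁻¹)⁻¹ := by group
      _ = x⁻¹ := by rw [hux]
  rcases ht1 with ht1 | ht1
  · calc t⁻¹ * u * t * x * (t⁻¹ * u * t)⁻¹ = t⁻¹ * (u * (t * x * t⁻¹) * u⁻¹) * t := by group
      _ = t⁻¹ * (t * x * t⁻¹) * t := by rw [ht1, hux]
      _ = x := by group
  · calc t⁻¹ * u * t * x * (t⁻¹ * u * t)⁻¹ = t⁻¹ * (u * (t * x * t⁻¹) * u⁻¹) * t := by group
      _ = t⁻¹ * (t * x * t⁻¹) * t := by rw [ht1, hux']
      _ = x := by group

theorem conj_mem' {G : Type} [Group G] [Fintype G] {x : G} {D E : Subgroup G}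
    (h : IsDefectPair x D E) {t u : G} (ht : t ∈ E) (hu : u ∈ D) : t * u * t⁻¹ ∈ D := by
  have := conj_mem h (E.inv_mem ht) hu
  simpa using this

/-! ### The fixed-point subalgebra -/

/-- The subalgebra `k[G]^D`. -/
noncomputable def fixSub (k : Type) [Field k] {G : Type} [Group G] (D : Subgroup G) :
    Subalgebra k (MonoidAlgebra k G) :=
  Subalgebra.centralizer k {a | ∃ u ∈ D, a = el k u}

theorem mem_fixSub {k : Type} [Field k] {G : Type} [Group G] (D : Subgroup G)
    (a : MonoidAlgebra k G) : a ∈ fixSub k D ↔ Cen D a := by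
  unfold fixSub
  rw [Subalgebra.mem_centralizer_iff]
  constructor
  · intro h u hu
    exact h _ ⟨u, hu, rfl⟩
  · rintro h _ ⟨u, hu, rfl⟩
    exact h u hu

instance {k : Type} [Field k] {G : Type} [Group G] [Finite G] :
    FiniteDimensional k (MonoidAlgebra k G) := by
  infer_instance

/-- The map `ψ(a) = t a^∘ t⁻¹`. -/
noncomputable def psi {R : Type} [CommRing R] {G : Type} [Group G] (t : G) :
    MonoidAlgebra R G →ₗ[R] MonoidAlgebra R G where
  toFun a := el R t * inv' a * el R t⁻¹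
  map_add' a b := by rw [inv'_add, mul_add, add_mul]
  map_smul' c a := by
    rw [inv'_smul]
    simp [mul_smul_comm, smul_mul_assoc]

theorem psi_apply {R : Type} [CommRing R] {G : Type} [Group G] (t : G)
    (a : MonoidAlgebra R G) : psi t a = el R t * inv' a * el R t⁻¹ := rfl

theorem psi_mul {R : Type} [CommRing R] {G : Type} [Group G] (t : G)
    (a b : MonoidAlgebra R G) : psi t (a * b) = psi t b * psi t a := by
  simp only [psi_apply, inv'_mul]
  calc el R t * (inv' b * inv' a) * el R t⁻¹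
      = el R t * inv' b * 1 * inv' a * el R t⁻¹ := by noncomm_ring
    _ = el R t * inv' b * (el R t⁻¹ * el R t) * inv' a * el R t⁻¹ := by rw [el_inv_mul_el]
    _ = el R t * inv' b * el R t⁻¹ * (el R t * inv' a * el R t⁻¹) := by noncomm_ring

theorem psi_psi {R : Type} [CommRing R] {G : Type} [Group G] (t : G)
    (a : MonoidAlgebra R G) : psi t (psi t a) = el R (t * t) * a * el R (t * t)⁻¹ := by
  simp only [psi_apply, inv'_mul, inv'_inv', inv'_el, inv_inv]
  rw [mul_inv_rev, el_mul, el_mul]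
  noncomm_ring

theorem psi_el {R : Type} [CommRing R] {G : Type} [Group G] (t u : G) :
    psi t (el R u) = el R (t * u⁻¹ * t⁻¹) := by
  simp only [psi_apply, inv'_el, el_mul]

theorem psi_cen {R : Type} [CommRing R] {G : Type} [Group G] [Fintype G] {x : G}
    {D E : Subgroup G}
    (h : IsDefectPair x D E) {t : G} (ht : t ∈ E) {a : MonoidAlgebra R G} (ha : Cen D a) :
    Cen D (psi t a) := by
  intro u hu
  have h1 : t⁻¹ * u⁻¹ * t ∈ D := conj_mem h ht (D.inv_mem hu)
  have h2 := ha _ h1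
  have h3 := congrArg (psi (R := R) t) h2
  rw [psi_mul, psi_mul, psi_el] at h3
  have h4 : t * (t⁻¹ * u⁻¹ * t)⁻¹ * t⁻¹ = u := by group
  rw [h4] at h3
  exact h3.symm

end Pool.Agent.Helper36.NB
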