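import Mathlib
import Pool.Agent.Helper36.NB.Asm1

open scoped BigOperators MonoidAlgebra
open Classical

namespace Pool.Agent.Helper36.NB

/-- The trace of the simple module. -/
noncomputable def SimpleQuot.lam {k : Type} [Field k] {H : Type} [Group H]
    {b : MonoidAlgebra k H} (S : SimpleQuot b) : MonoidAlgebra k H →ₗ[k] k :=
  (Matrix.traceLinearMap (Fin S.n) k k).comp S.ρ.toLinearMap

theorem SimpleQuot.lam_apply {k : Type} [Field k] {H : Type} [Group H]
    {b : MonoidAlgebra k H} (S : SimpleQuot b) (a : MonoidAlgebra k H) :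
    S.lam a = (S.ρ a).trace := rfl

theorem SimpleQuot.lam_comm {k : Type} [Field k] {H : Type} [Group H]
    {b : MonoidAlgebra k H} (S : SimpleQuot b) (x y : MonoidAlgebra k H) :
    S.lam (x * y) = S.lam (y * x) := by
  rw [lam_apply, lam_apply, map_mul, map_mul, Matrix.trace_mul_comm]

theorem SimpleQuot.lam_nil {k : Type} [Field k] {H : Type} [Group H]
    {b : MonoidAlgebra k H} (S : SimpleQuot b) (x : MonoidAlgebra k H) (hx : IsNilpotent x) :
    S.lam x = 0 := by
  rw [lam_apply]
  exact (Matrix.isNilpotent_trace_of_isNilpotent (hx.map S.ρ)).eq_zero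

theorem SimpleQuot.lam_mul_b {k : Type} [Field k] {H : Type} [Group H]
    {b : MonoidAlgebra k H} (S : SimpleQuot b) (x : MonoidAlgebra k H) :
    S.lam (x * b) = S.lam x := by
  rw [lam_apply, lam_apply, map_mul, S.one, mul_one]

theorem toK_idem {O : ValuationSubring ℂ} {G : Type} [Group G] {e : MonoidAlgebra O G}
    (he : e * e = e) : toK O G e * toK O G e = toK O G e := by
  rw [← map_mul, he]

theorem toK_central {O : ValuationSubring ℂ} {G : Type} [Group G] [Finite G]
    {e : MonoidAlgebra O G}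
    (he : ∀ a, a * e = e * a) (a : MonoidAlgebra (resK O) G) :
    a * toK O G e = toK O G e * a := by
  obtain ⟨b, rfl⟩ := toK_surjective O a
  rw [← map_mul, he, map_mul]

theorem exists_ibar_aux {k : Type} [Field k] [IsAlgClosed k] [CharP k 2] {G : Type} [Group G]
    [Fintype G] (ē : MonoidAlgebra k G) (hēi : ē * ē = ē) (hēc : ∀ a, a * ē = ē * a)
    (hēinv : inv' ē = ē) (S : SimpleQuot ē) {x : G} (hx : Odd (orderOf x))
    {D E : Subgroup G} (hDE : IsDefectPair x D E) (t : G)
    (ht : t ∈ E) (ht' : t ∉ D) (htr : S.lam (el k x) ≠ 0) :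
    ∃ i : MonoidAlgebra k G, i * i = i ∧ i * ē = i ∧ Cen D i ∧ psi t i = i ∧
      S.lam i ≠ 0 ∧
      ∀ a, Cen D a → i * a = a → a * i = a → ¬ IsNilpotent a →
        ∃ (m : ℕ) (x y : Fin m → MonoidAlgebra k G), (∀ l, Cen D (x l)) ∧
          (∀ l, Cen D (y l)) ∧ i = ∑ l, x l * a * y l := by
  have htx := defectPair_t hDE ht ht'
  obtain ⟨ε, hεx, hε, hεψ, hε0⟩ := exists_eps (k := k) x t hx htx S.lam htr
  -- `ε` commutes with `D`
  have hεD : Cen D ε := by
    rw [← mem_fixSub]
    have hle : Algebra.adjoin k {el k x} ≤ fixSub k D := by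
      apply Algebra.adjoin_le
      rintro _ rfl
      rw [SetLike.mem_coe, mem_fixSub]
      intro u hu
      have := hDE.2.1 hu
      rw [Subgroup.mem_centralizer_singleton_iff] at this
      rw [← el_mul, ← el_mul, this]
    exact hle hεx
  have hēD : Cen D ē := fun u _ => hēc _
  have hēψ : psi t ē = ē := by
    rw [psi_apply, hēinv, hēc, mul_assoc, el_mul_el_inv, mul_one]
  set R := fixSub k D with hR
  have hψR : ∀ a ∈ R, psi (R := k) t a ∈ R := by
    intro a ha
    rw [hR, mem_fixSub] at *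
    exact psi_cen hDE ht ha
  let ψ : R →ₗ[k] R :=
    { toFun := fun a => ⟨psi t a, hψR a a.2⟩
      map_add' := fun a b => Subtype.ext (by simp)
      map_smul' := fun c a => Subtype.ext (by simp) }
  have hψv : ∀ a : R, ((ψ a : R) : MonoidAlgebra k G) = psi t (a : MonoidAlgebra _ G) :=
    fun a => rfl
  let lam : R →ₗ[k] k := S.lam.comp R.val.toLinearMap
  have hlamv : ∀ a : R, lam a = S.lam (a : MonoidAlgebra _ G) := fun a => rfl
  have hεR : ε * ē ∈ R := by
    rw [hR, mem_fixSub]
    intro u hu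
    rw [← mul_assoc, hεD u hu, mul_assoc, hēD u hu, mul_assoc]
  have : Module.Finite k R := by infer_instance
  obtain ⟨i, hi, hψi, hεi, hiε, hlami, hH⟩ := exists_homog (k := k) (R := R) ψ
    (by intro a b; apply Subtype.ext; simp only [hψv, MulMemClass.coe_mul, psi_mul])
    (by
      intro a; apply Subtype.ext
      simp only [hψv, psi_psi]
      have ha : Cen D (a : MonoidAlgebra k G) := by
        rw [← mem_fixSub]; exact a.2
      have := (cen_iff_conj D _).mp ha (t * t) (tt_mem hDE ht ht')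
      exact this)
    lam
    (by intro a b; simp only [hlamv, MulMemClass.coe_mul]; exact S.lam_comm _ _)
    (by
      intro a ha; rw [hlamv]
      exact S.lam_nil _ (ha.map R.val))
    (by
      intro a; rw [hlamv, hlamv, hψv, psi_apply]
      rw [S.lam_comm, ← mul_assoc, el_inv_mul_el, one_mul]
      exact trace_inv ē hēinv S _)
    ⟨ε * ē, hεR⟩
    (by
      apply Subtype.ext
      simp only [MulMemClass.coe_mul]
      calc ε * ē * (ε * ē) = ε * (ē * ε) * ē := by noncomm_ring
        _ = ε * (ε * ē) * ē := by rw [hēc ε]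
        _ = (ε * ε) * (ē * ē) := by noncomm_ring
        _ = ε * ē := by rw [hε, hēi])
    (by
      apply Subtype.ext
      rw [hψv]
      simp only [psi_mul]
      rw [hēψ, psi_apply, hεψ, hēc])
    (by rw [hlamv]; simp only; rw [S.lam_mul_b]; exact hε0)
  have hicoe : (i : MonoidAlgebra k G) * i = i := by
    have := congrArg Subtype.val hi
    simpa using this
  have hεi' : ε * ē * (i : MonoidAlgebra k G) = i := by
    have := congrArg Subtype.val hεi
    simpa using this
  refine ⟨i, hicoe, ?_, ?_, ?_, hlami, ?_⟩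
  · calc (i : MonoidAlgebra k G) * ē = ē * i := hēc _
      _ = ē * (ε * ē * i) := by rw [hεi']
      _ = (ē * ε) * (ē * i) := by noncomm_ring
      _ = (ε * ē) * (ē * i) := by rw [hēc ε]
      _ = ε * (ē * ē) * i := by noncomm_ring
      _ = ε * ē * i := by rw [hēi]
      _ = i := hεi'
  · rw [← mem_fixSub]; exact i.2
  · have := congrArg Subtype.val hψi
    rwa [hψv] at this
  · intro a ha hia hai hanil
    have haR : a ∈ R := by rw [hR, mem_fixSub]; exact ha
    obtain ⟨m, xx, yy, hsum⟩ := hH ⟨a, haR⟩ (Subtype.ext hia) (Subtype.ext hai)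
      (fun hn => hanil (hn.map R.val))
    refine ⟨m, fun l => xx l, fun l => yy l, fun l => ?_, fun l => ?_, ?_⟩
    · rw [← mem_fixSub]; exact (xx l).2
    · rw [← mem_fixSub]; exact (yy l).2
    · have := congrArg Subtype.val hsum
      simpa using this

theorem exists_ibar (O : ValuationSubring ℂ) {G : Type} [Group G] [Fintype G]
    (h2 : (2 : O) ∈ IsLocalRing.maximalIdeal O) (e : MonoidAlgebra O G) (he : e * e = e)
    (hec : ∀ a, a * e = e * a) (her : inv' e = e) {x : G} (hx : IsDefectClass O e x)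
    {D E : Subgroup G} (hDE : IsDefectPair x D E) (S : SimpleQuot (toK O G e)) (t : G)
    (ht : t ∈ E) (ht' : t ∉ D) :
    ∃ i : MonoidAlgebra (resK O) G, i * i = i ∧ i * toK O G e = i ∧ Cen D i ∧ psi t i = i ∧
      S.lam i ≠ 0 ∧
      ∀ a, Cen D a → i * a = a → a * i = a → ¬ IsNilpotent a →
        ∃ (m : ℕ) (x y : Fin m → MonoidAlgebra (resK O) G), (∀ l, Cen D (x l)) ∧
          (∀ l, Cen D (y l)) ∧ i = ∑ l, x l * a * y l := by
  have hchar : CharP (resK O) 2 := resK_charP O h2
  have halg : IsAlgClosed (resK O) := resK_isAlgClosed O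
  obtain ⟨I⟩ := exists_irrData G
  obtain ⟨j, hj, hje, hj1⟩ := exists_rank_one O e he hec S
  have htx := defectPair_t hDE ht ht'
  have hxr : IsConj x x⁻¹ := isConj_iff.mpr ⟨t, htx⟩
  obtain ⟨-, htr, -⟩ := defect_data O h2 I e he hec S j hj hje hj1 x hx.1 hxr hx.2.1 hx.2.2 D
    hDE.2.2.2.1
  exact exists_ibar_aux (toK O G e) (toK_idem he) (fun a => toK_central hec a)
    (by rw [← toK_inv', her]) S hx.1 hDE t ht ht' htr

end Pool.Agent.Helper36.NB
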