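import Mathlib
import Pool.Agent.Helper36.NB.Asm2

open scoped BigOperators MonoidAlgebra
open Classical

namespace Pool.Agent.Helper36.NB

theorem orderOf_two {G : Type} [Group G] {D : Subgroup G} (hD : IsPGroup 2 D) {u : G}
    (hu : u ∈ D) : ∃ n : ℕ, orderOf u = 2 ^ n := by
  obtain ⟨n, hn⟩ := IsPGroup.iff_orderOf.mp hD ⟨u, hu⟩
  exact ⟨n, by rw [← hn, Subgroup.orderOf_mk]⟩

theorem cent_eq {G : Type} [Group G] (u : G) :
    cent u = Subgroup.centralizer ((Subgroup.zpowers u : Subgroup G) : Set G) := by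
  ext g
  rw [Subgroup.mem_centralizer_singleton_iff, Subgroup.mem_centralizer_iff]
  constructor
  · intro h y hy
    obtain ⟨n, rfl⟩ := Subgroup.mem_zpowers_iff.mp hy
    have h1 : Commute g u := h
    exact (h1.zpow_right n).symm
  · intro h
    exact (h u (Subgroup.mem_zpowers u)).symm

theorem zpowers_two {G : Type} [Group G] {D : Subgroup G} (hD : IsPGroup 2 D) {u : G}
    (hu : u ∈ D) : IsPGroup 2 (Subgroup.zpowers u) :=
  hD.to_le ((Subgroup.zpowers_le).mpr hu)

section
variable {k : Type} [Field k] [CharP k 2] {G : Type} [Group G] [Fintype G]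
  (D : Subgroup G) (hD : IsPGroup 2 D) (ē : MonoidAlgebra k G) (S : SimpleQuot ē)
  (i : MonoidAlgebra k G) (hi : i * i = i) (hie : i * ē = i) (hiD : Cen D i)
  (hlam : S.lam i ≠ 0)

include hi hie hiD hlam in
theorem exists_source (hD : IsPGroup 2 D) : ∃ q, IsSource D ē q ∧ q * i = q ∧ S.lam q ≠ 0 := by
  have : Module.Finite k (fixSub k D) := by infer_instance
  obtain ⟨q, hq, hiq, hqi, hlq, hprim⟩ := exists_primitive (k := k) (R := fixSub k D)
    (S.lam.comp (fixSub k D).val.toLinearMap) ⟨i, (mem_fixSub D i).mpr hiD⟩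
    (Subtype.ext hi) hlam
  have hq' : (q : MonoidAlgebra k G) * q = q := by simpa using congrArg Subtype.val hq
  have hqi' : (q : MonoidAlgebra k G) * i = q := by simpa using congrArg Subtype.val hqi
  have hqD : Cen D (q : MonoidAlgebra k G) := (mem_fixSub D _).mp q.2
  have hlq' : S.lam (q : MonoidAlgebra k G) ≠ 0 := hlq
  refine ⟨q, ⟨hq', hqD, ?_, ?_, ?_⟩, hqi', hlq'⟩
  · rw [← hqi', mul_assoc, hie]
  · intro f hf hfD hqf hfq
    rcases hprim ⟨f, (mem_fixSub D f).mpr hfD⟩ (Subtype.ext hf) (Subtype.ext hqf)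
      (Subtype.ext hfq) with h | h
    · left; simpa using congrArg Subtype.val h
    · right; rw [← h]
  · intro h0
    apply hlq'
    rw [lam_res D hD _ rfl S.lam (fun a b => S.lam_comm a b) _ hqD, h0, map_zero, map_zero]

omit [Fintype G] [CharP k 2] in
theorem cen_mono {D' : Subgroup G} {a : MonoidAlgebra k G} (ha : Cen D a) (h : D' ≤ D) :
    Cen D' a := fun u hu => ha u (h hu)

theorem res_ne_zero (hD : IsPGroup 2 D) (q : MonoidAlgebra k G) (hqD : Cen D q)
    (lam : MonoidAlgebra k G →ₗ[k] k) (hl : ∀ a b, lam (a * b) = lam (b * a))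
    (hlq : lam q ≠ 0) (u : G) (hu : u ∈ D) : res (cent u) q ≠ 0 := by
  intro h0
  apply hlq
  rw [lam_res (Subgroup.zpowers u) (zpowers_two hD hu) (cent u) (cent_eq u) lam hl q
    (cen_mono D hqD ((Subgroup.zpowers_le).mpr hu)), h0, map_zero, map_zero]

theorem below_of (hD : IsPGroup 2 D) (q : MonoidAlgebra k G) (hqD : Cen D q)
    (hiD : Cen D i) (hqi : q * i = q)
    (lam : MonoidAlgebra k G →ₗ[k] k) (hl : ∀ a b, lam (a * b) = lam (b * a))
    (hlq : lam q ≠ 0) (u : G) (hu : u ∈ D) (b : MonoidAlgebra k (cent u)) (hb : IsBlock b)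
    (hib : res (cent u) i * b = res (cent u) i) : IsBelow q u b := by
  refine ⟨hb, ?_⟩
  have h1 : res (cent u) q = res (cent u) q * res (cent u) i := by
    rw [← res_mul_cent u (orderOf_two hD hu) q i (hqD u hu) (hiD u hu), hqi]
  have h2 : res (cent u) q * b = res (cent u) q := by
    rw [h1, mul_assoc, hib]
  rw [h2]
  exact res_ne_zero D hD q hqD lam hl hlq u hu

include hi hie hiD hlam in
theorem local_blocks (hD : IsPGroup 2 D)
    (hH : ∀ a, Cen D a → i * a = a → a * i = a → ¬ IsNilpotent a →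
      ∃ (m : ℕ) (x y : Fin m → MonoidAlgebra k G), (∀ l, Cen D (x l)) ∧
        (∀ l, Cen D (y l)) ∧ i = ∑ l, x l * a * y l)
    (hnil : NilpotentElements D ē) :
    (∀ u ∈ D, ∃ b : MonoidAlgebra k (cent u), IsBlock b ∧
      res (cent u) i * b = res (cent u) i ∧ OneSimple b) ∧
    (∀ u ∈ D, ∀ v ∈ D, ∀ (b : MonoidAlgebra k (cent u)) (b' : MonoidAlgebra k (cent v)),
      IsBlock b → IsBlock b' → res (cent u) i * b = res (cent u) i →
      res (cent v) i * b' = res (cent v) i → ∀ g : G, g * u * g⁻¹ = v →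
      el k g * incl k _ b * el k g⁻¹ = incl k _ b' → ∃ d ∈ D, d * u * d⁻¹ = v) := by
  obtain ⟨q, hq, hqi, hlq⟩ := exists_source D ē S i hi hie hiD hlam hD
  have hqD : Cen D q := hq.2.1
  constructor
  · intro u hu
    have hne : res (cent u) i ≠ 0 :=
      res_ne_zero D hD i hiD S.lam (fun a b => S.lam_comm a b) hlam u hu
    obtain ⟨b, hb, hib⟩ := exists_block _ hne
    have hib' : res (cent u) i * b = res (cent u) i := by
      rcases single_block D hD i hi hiD S.lam (fun a b => S.lam_comm a b) hlam hH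
        (Subgroup.zpowers u) ((Subgroup.zpowers_le).mpr hu) (cent u) (cent_eq u) b hb.2.1
        hb.2.2.1 with h | h
      · exact absurd h hib
      · exact h
    refine ⟨b, hb, hib', ?_⟩
    exact hnil.one q hq u hu b
      (below_of D i hD q hqD hiD hqi S.lam (fun a b => S.lam_comm a b) hlq u hu b hb hib')
  · intro u hu v hv b b' hb hb' hib hib' g hg hgb
    exact hnil.fus q hq u hu v hv b b'
      (below_of D i hD q hqD hiD hqi S.lam (fun a b => S.lam_comm a b) hlq u hu b hb hib)
      (below_of D i hD q hqD hiD hqi S.lam (fun a b => S.lam_comm a b) hlq v hv b' hb' hib')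
      g hg hgb

end

end Pool.Agent.Helper36.NB
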