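import Mathlib
import Pool.Agent.Helper36.NB.Defs
import Pool.Agent.Helper36.NB.B3
import Pool.Agent.Helper36.NB.E0

open scoped BigOperators MonoidAlgebra
open Classical

namespace Pool.Agent.Helper36.NB

/-- Only the elements of odd order contribute to the pairing of an idempotent with a class
function. -/
private theorem E2_odd (O : ValuationSubring ℂ) {H : Type} [Group H] [Fintype H]
    (h2 : (2 : O) ∈ IsLocalRing.maximalIdeal O) (x : MonoidAlgebra O H) (hx : x * x = x)
    (F : H → ℂ) (hF : ∀ a c, F (a * c * a⁻¹) = F c) :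
    ∑ c, (x.coeff c : ℂ) * F c = ∑ c, (x.coeff c : ℂ) * (if Odd (orderOf c) then F c else 0) := by
  have hF' : ∀ a c, F (a⁻¹ * c * a) = F c := fun a c => by
    have := hF a⁻¹ c
    rwa [inv_inv] at this
  have ho : ∀ a c : H, orderOf (a⁻¹ * c * a) = orderOf c := fun a c => by
    have := (MulAut.conj a⁻¹).orderOf_eq c
    rw [MulAut.conj_apply, inv_inv] at this
    exact this
  have hz : ∑ c, (if Even (orderOf c) then (x.coeff c : ℂ) * F c else 0) = 0 := by
    have h1 : (Fintype.card H : ℂ) *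
        ∑ c, (if Even (orderOf c) then (x.coeff c : ℂ) * F c else 0) = 0 := by
      have h3 : (Fintype.card H : ℂ) *
          ∑ c, (if Even (orderOf c) then (x.coeff c : ℂ) * F c else 0)
          = ∑ a : H, ∑ c, (if Even (orderOf c) then (x.coeff (a⁻¹ * c * a) : ℂ) * F c else 0) := by
        rw [← nsmul_eq_mul, ← Finset.card_univ, ← Finset.sum_const]
        refine Finset.sum_congr rfl fun a _ => ?_
        rw [← (MulAut.conj a⁻¹).toEquiv.sum_comp
          (fun c => if Even (orderOf c) then (x.coeff c : ℂ) * F c else 0)]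
        refine Finset.sum_congr rfl fun c _ => ?_
        have e : (MulAut.conj a⁻¹).toEquiv c = a⁻¹ * c * a := by
          change a⁻¹ * c * a⁻¹⁻¹ = _
          rw [inv_inv]
        rw [e, ho, hF']
      rw [h3, Finset.sum_comm]
      refine Finset.sum_eq_zero fun c _ => ?_
      by_cases hc : Even (orderOf c)
      · simp only [if_pos hc]
        rw [← Finset.sum_mul]
        have h4 : ((∑ g : H, x.coeff (g⁻¹ * c * g) : O) : ℂ) = ((0 : O) : ℂ) := by
          rw [proj_vanish O h2 x hx c hc]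
        push_cast at h4
        rw [h4, zero_mul]
      · simp only [if_neg hc, Finset.sum_const_zero]
    rcases mul_eq_zero.1 h1 with h | h
    · exact absurd h (Nat.cast_ne_zero.2 Fintype.card_ne_zero)
    · exact h
  rw [← sub_eq_zero, ← Finset.sum_sub_distrib]
  refine Eq.trans (Finset.sum_congr rfl fun c _ => ?_) hz
  by_cases hc : Even (orderOf c)
  · rw [if_pos hc, if_neg (Nat.not_odd_iff_even.2 hc)]
    ring
  · rw [if_neg hc, if_pos (Nat.not_even_iff_odd.1 hc)]
    ring

private theorem E2_core {G : Type} [Group G] [Fintype G] (I : IrrData G) {ι κ : Type}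
    [Fintype ι] [Fintype κ] (s : ι → G) (X : ι → ℂ) (t : κ → G) (Y : κ → ℂ) :
    ∑ a, I.chi a (∑ i, MonoidAlgebra.single (s i) (X i)) *
      I.chi a (∑ j, MonoidAlgebra.single (t j) (Y j))
    = ∑ i, ∑ j, X i * (Y j * ∑ g : G, if s i * g * t j = g then (1 : ℂ) else 0) := by
  rw [sum_chi_mul]
  have h : ∀ g : G, ((∑ i, MonoidAlgebra.single (s i) (X i)) * el ℂ g *
      (∑ j, MonoidAlgebra.single (t j) (Y j))).coeff g
      = ∑ i, ∑ j, X i * (Y j * if s i * g * t j = g then (1 : ℂ) else 0) := by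
    intro g
    rw [Finset.sum_mul, Finset.sum_mul, MonoidAlgebra.coeff_sum, Finset.sum_apply']
    refine Finset.sum_congr rfl fun i _ => ?_
    rw [Finset.mul_sum, MonoidAlgebra.coeff_sum, Finset.sum_apply']
    refine Finset.sum_congr rfl fun j _ => ?_
    rw [el, MonoidAlgebra.single_mul_single, MonoidAlgebra.single_mul_single, mul_one,
      MonoidAlgebra.coeff_single, Finsupp.single_apply]
    split_ifs <;> simp
  rw [Finset.sum_congr rfl fun g _ => h g, Finset.sum_comm]
  refine Finset.sum_congr rfl fun i _ => ?_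
  rw [Finset.sum_comm]
  refine Finset.sum_congr rfl fun j _ => ?_
  rw [← Finset.mul_sum, ← Finset.mul_sum]

private theorem E2_sum {R : Type} [CommRing R] {H : Type} [Group H] [Fintype H]
    (x : MonoidAlgebra R H) : x = ∑ c, MonoidAlgebra.single c (x.coeff c) := by
  ext d
  rw [MonoidAlgebra.coeff_sum, Finset.sum_apply']
  simp [Finsupp.single_apply]

private theorem E2_expand (O : ValuationSubring ℂ) {G : Type} [Group G] (u : G) (A : Subgroup G)
    [Fintype A] (x : MonoidAlgebra O A) :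
    toC O G (el O u * incl O A x)
      = ∑ c : A, MonoidAlgebra.single (u * (c : G)) (x.coeff c : ℂ) := by
  conv_lhs => rw [E2_sum x]
  rw [map_sum, Finset.mul_sum, map_sum]
  refine Finset.sum_congr rfl fun c _ => ?_
  simp [incl, el, toC, MonoidAlgebra.single_mul_single]

private theorem E2_expand' (O : ValuationSubring ℂ) {G : Type} [Group G] [Fintype G]
    (x : MonoidAlgebra O G) :
    toC O G x = ∑ c : G, MonoidAlgebra.single c (x.coeff c : ℂ) := by
  conv_lhs => rw [E2_sum x]
  rw [map_sum]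
  refine Finset.sum_congr rfl fun c _ => ?_
  simp [toC]

private theorem E2_two {G : Type} [Group G] {u v c d g : G}
    (hu : ∃ n : ℕ, orderOf u = 2 ^ n) (hv : ∃ n : ℕ, orderOf v = 2 ^ n)
    (hcu : Commute u c) (hdv : Commute v d) (hc : Odd (orderOf c)) (hd : Odd (orderOf d))
    (h : u * c * g * (v⁻¹ * d) = g) : g⁻¹ * u * g = v := by
  obtain ⟨n, hn⟩ := hu
  obtain ⟨n', hn'⟩ := hv
  have hcop : Nat.Coprime (2 ^ (n + n')) (orderOf c * orderOf d) :=
    Nat.Coprime.pow_left _ (Nat.coprime_two_left.2 (hc.mul hd))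
  obtain ⟨m, hm1, hm0⟩ := Nat.chineseRemainder hcop 1 0
  have h1 : g⁻¹ * (u * c) * g = d⁻¹ * v := by
    have h2 : g * (d⁻¹ * v) = u * c * g := by
      conv_lhs => rw [← h]
      group
    calc g⁻¹ * (u * c) * g = g⁻¹ * (u * c * g) := by group
      _ = g⁻¹ * (g * (d⁻¹ * v)) := by rw [h2]
      _ = d⁻¹ * v := by group
  have hum : u ^ m = u := by
    have : u ^ m = u ^ 1 := by
      rw [pow_eq_pow_iff_modEq, hn]
      exact hm1.of_dvd (pow_dvd_pow 2 (Nat.le_add_right n n'))
    rwa [pow_one] at this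
  have hvm : v ^ m = v := by
    have : v ^ m = v ^ 1 := by
      rw [pow_eq_pow_iff_modEq, hn']
      exact hm1.of_dvd (pow_dvd_pow 2 (Nat.le_add_left n' n))
    rwa [pow_one] at this
  have hm : orderOf c * orderOf d ∣ m := (Nat.modEq_zero_iff_dvd).1 hm0
  have hcm : c ^ m = 1 := orderOf_dvd_iff_pow_eq_one.1 ((Dvd.intro _ rfl).trans hm)
  have hdm : d ^ m = 1 := orderOf_dvd_iff_pow_eq_one.1 ((Dvd.intro_left _ rfl).trans hm)
  have h3 : (g⁻¹ * (u * c) * g) ^ m = (d⁻¹ * v) ^ m := by rw [h1]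
  have h4 : (g⁻¹ * (u * c) * g) ^ m = g⁻¹ * (u * c) ^ m * g := by
    have := conj_pow (a := g⁻¹) (b := u * c) (i := m)
    rwa [inv_inv] at this
  rw [h4, hcu.mul_pow, hum, hcm, mul_one] at h3
  rw [h3]
  have h5 : Commute d⁻¹ v := hdv.symm.inv_left
  rw [h5.mul_pow, hvm, inv_pow, hdm, inv_one, one_mul]

private theorem E2_gen (O : ValuationSubring ℂ)
    (h2 : (2 : O) ∈ IsLocalRing.maximalIdeal O) {A B : Type} [Group A] [Fintype A] [Group B]
    [Fintype B] (x : MonoidAlgebra O A) (hx : x * x = x) (y : MonoidAlgebra O B) (hy : y * y = y)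
    (N : A → B → ℂ) (hN1 : ∀ c b d, N c (b * d * b⁻¹) = N c d)
    (hN2 : ∀ a c d, N (a * c * a⁻¹) d = N c d) :
    ∑ c, ∑ d, (x.coeff c : ℂ) * ((y.coeff d : ℂ) * N c d)
    = ∑ c, ∑ d, (x.coeff c : ℂ) * ((y.coeff d : ℂ) *
      (if Odd (orderOf c) ∧ Odd (orderOf d) then N c d else 0)) := by
  have h1 : ∀ c, (∑ d, (y.coeff d : ℂ) * N c d)
      = ∑ d, (y.coeff d : ℂ) * (if Odd (orderOf d) then N c d else 0) := fun c =>
    E2_odd O h2 y hy (fun d => N c d) (fun b d => hN1 c b d)
  simp only [← Finset.mul_sum]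
  simp only [h1]
  rw [E2_odd O h2 x hx (fun c => ∑ d, (y.coeff d : ℂ) * (if Odd (orderOf d) then N c d else 0))
      (fun a c => Finset.sum_congr rfl fun d _ => by rw [hN2 a c d])]
  refine Finset.sum_congr rfl fun c _ => ?_
  congr 1
  by_cases hc : Odd (orderOf c)
  · simp only [hc, if_true, true_and]
  · simp only [hc, if_false, false_and, mul_zero, Finset.sum_const_zero]

private theorem E2_count {G : Type} [Group G] [Fintype G] (O : ValuationSubring ℂ)
    (h2 : (2 : O) ∈ IsLocalRing.maximalIdeal O) (u v : G)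
    (x : MonoidAlgebra O (cent u)) (hx : x * x = x)
    (y : MonoidAlgebra O (cent v)) (hy : y * y = y) :
    ∑ c : cent u, ∑ d : cent v, (x.coeff c : ℂ) * ((y.coeff d : ℂ) *
      ∑ g : G, if u * (c : G) * g * (v⁻¹ * (d : G)) = g then (1 : ℂ) else 0)
    = ∑ c : cent u, ∑ d : cent v, (x.coeff c : ℂ) * ((y.coeff d : ℂ) *
      (if Odd (orderOf c) ∧ Odd (orderOf d) then
        ∑ g : G, if u * (c : G) * g * (v⁻¹ * (d : G)) = g then (1 : ℂ) else 0 else 0)) := by
  have hcu : ∀ a : cent u, u * (a : G) = a * u := fun a =>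
    (Subgroup.mem_centralizer_singleton_iff.1 a.2).symm
  have hdv : ∀ a : cent v, v * (a : G) = a * v := fun a =>
    (Subgroup.mem_centralizer_singleton_iff.1 a.2).symm
  have hN1 : ∀ (c : cent u) (b d : cent v),
      (∑ g : G, if u * (c : G) * g * (v⁻¹ * ((b * d * b⁻¹ : cent v) : G)) = g then (1 : ℂ) else 0)
      = ∑ g : G, if u * (c : G) * g * (v⁻¹ * (d : G)) = g then (1 : ℂ) else 0 := by
    intro c b d
    rw [← Equiv.sum_comp (Equiv.mulRight (b : G)⁻¹)
      (fun g => if u * (c : G) * g * (v⁻¹ * ((b * d * b⁻¹ : cent v) : G)) = g then (1 : ℂ) else 0)]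
    refine Finset.sum_congr rfl fun g _ => if_congr ?_ rfl rfl
    have hb : v⁻¹ * (b : G) = b * v⁻¹ := (Commute.inv_left (hdv b)).eq
    have e : u * (c : G) * (g * (b : G)⁻¹) * (v⁻¹ * ((b * d * b⁻¹ : cent v) : G))
        = u * (c : G) * g * (v⁻¹ * (d : G)) * (b : G)⁻¹ := by
      calc u * (c : G) * (g * (b : G)⁻¹) * (v⁻¹ * ((b * d * b⁻¹ : cent v) : G))
          = u * (c : G) * g * ((b : G)⁻¹ * (v⁻¹ * (b : G)) * ((d : G) * (b : G)⁻¹)) := by
            simp only [Subgroup.coe_mul, Subgroup.coe_inv, mul_assoc]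
        _ = u * (c : G) * g * (v⁻¹ * (d : G)) * (b : G)⁻¹ := by
            rw [hb]
            simp only [mul_assoc, inv_mul_cancel_left]
    change u * (c : G) * (g * (b : G)⁻¹) * (v⁻¹ * ((b * d * b⁻¹ : cent v) : G)) = g * (b : G)⁻¹ ↔ _
    rw [e, mul_left_inj]
  have hN2 : ∀ (a c : cent u) (d : cent v),
      (∑ g : G, if u * ((a * c * a⁻¹ : cent u) : G) * g * (v⁻¹ * (d : G)) = g then (1 : ℂ) else 0)
      = ∑ g : G, if u * (c : G) * g * (v⁻¹ * (d : G)) = g then (1 : ℂ) else 0 := by
    intro a c d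
    rw [← Equiv.sum_comp (Equiv.mulLeft (a : G))
      (fun g => if u * ((a * c * a⁻¹ : cent u) : G) * g * (v⁻¹ * (d : G)) = g then (1 : ℂ) else 0)]
    refine Finset.sum_congr rfl fun g _ => if_congr ?_ rfl rfl
    have e : u * ((a * c * a⁻¹ : cent u) : G) * ((a : G) * g) * (v⁻¹ * (d : G))
        = (a : G) * (u * (c : G) * g * (v⁻¹ * (d : G))) := by
      calc u * ((a * c * a⁻¹ : cent u) : G) * ((a : G) * g) * (v⁻¹ * (d : G))
          = u * (a : G) * ((c : G) * g * (v⁻¹ * (d : G))) := by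
            simp only [Subgroup.coe_mul, Subgroup.coe_inv, mul_assoc, inv_mul_cancel_left]
        _ = _ := by
            rw [hcu a]
            simp only [mul_assoc]
    change u * ((a * c * a⁻¹ : cent u) : G) * ((a : G) * g) * (v⁻¹ * (d : G)) = (a : G) * g ↔ _
    rw [e, mul_right_inj]
  exact E2_gen O h2 x hx y hy (fun c d =>
    ∑ g : G, if u * (c : G) * g * (v⁻¹ * (d : G)) = g then (1 : ℂ) else 0) hN1 hN2

/-- Generalised orthogonality relations: non conjugate elements. -/
theorem col_orth (O : ValuationSubring ℂ) {G : Type} [Group G] [Fintype G]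
    (h2 : (2 : O) ∈ IsLocalRing.maximalIdeal O) (I : IrrData G) (u v : G)
    (hu : ∃ n : ℕ, orderOf u = 2 ^ n) (hv : ∃ n : ℕ, orderOf v = 2 ^ n)
    (x : MonoidAlgebra O (cent u)) (hx : x * x = x)
    (y : MonoidAlgebra O (cent v)) (hy : y * y = y) (huv : ¬ IsConj u v) :
    ∑ a, I.chi a (toC O G (el O u * incl O _ x)) *
      I.chi a (toC O G (el O v⁻¹ * incl O _ y)) = 0 := by
  simp only [E2_expand]
  rw [E2_core, E2_count O h2 u v x hx y hy]
  refine Finset.sum_eq_zero fun c _ => Finset.sum_eq_zero fun d _ => ?_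
  by_cases hcd : Odd (orderOf c) ∧ Odd (orderOf d)
  · rw [if_pos hcd, Finset.sum_eq_zero, mul_zero, mul_zero]
    intro g _
    refine if_neg fun h => huv ?_
    have h3 := E2_two hu hv (Subgroup.mem_centralizer_singleton_iff.1 c.2).symm
      (Subgroup.mem_centralizer_singleton_iff.1 d.2).symm
      (by rw [Subgroup.orderOf_coe]; exact hcd.1) (by rw [Subgroup.orderOf_coe]; exact hcd.2) h
    rw [isConj_iff]
    exact ⟨g⁻¹, by rw [inv_inv]; exact h3⟩
  · rw [if_neg hcd, mul_zero, mul_zero]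

/-- Generalised orthogonality relations: the same element. -/
theorem col_same (O : ValuationSubring ℂ) {G : Type} [Group G] [Fintype G]
    (h2 : (2 : O) ∈ IsLocalRing.maximalIdeal O) (I : IrrData G) (u : G)
    (hu : ∃ n : ℕ, orderOf u = 2 ^ n) (J : IrrData (cent u))
    (x : MonoidAlgebra O (cent u)) (hx : x * x = x)
    (y : MonoidAlgebra O (cent u)) (hy : y * y = y) :
    ∑ a, I.chi a (toC O G (el O u * incl O _ x)) *
      I.chi a (toC O G (el O u⁻¹ * incl O _ y)) =
    ∑ b, J.chi b (toC O (cent u) x) * J.chi b (toC O (cent u) y) := by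
  have hcu : ∀ a : cent u, u * (a : G) = a * u := fun a =>
    (Subgroup.mem_centralizer_singleton_iff.1 a.2).symm
  simp only [E2_expand O u (cent u) x, E2_expand O u⁻¹ (cent u) y, E2_expand' O x, E2_expand' O y]
  have hR := E2_gen O h2 x hx y hy
    (fun c d => ∑ g : cent u, if c * g * d = g then (1 : ℂ) else 0) ?_ ?_
  rw [E2_core, E2_core, E2_count O h2 u u x hx y hy]
  · refine Eq.trans ?_ (hR.symm.trans (by congr! 8))
    refine Finset.sum_congr rfl fun c _ => Finset.sum_congr rfl fun d _ => ?_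
    by_cases hcd : Odd (orderOf c) ∧ Odd (orderOf d)
    · rw [if_pos hcd, if_pos hcd]
      congr 2
      have h3 : ∀ g : G, u * (c : G) * g * (u⁻¹ * (d : G)) = g → g ∈ cent u := by
        intro g h
        have h4 := E2_two hu hu (hcu c) (hcu d)
          (by rw [Subgroup.orderOf_coe]; exact hcd.1) (by rw [Subgroup.orderOf_coe]; exact hcd.2) h
        rw [Subgroup.mem_centralizer_singleton_iff]
        calc g * u = g * (g⁻¹ * u * g) := by rw [h4]
          _ = u * g := by group
      have h5 : ∀ h : cent u, ((if c * h * d = h then (1 : ℂ) else 0))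
          = if u * (c : G) * (h : G) * (u⁻¹ * (d : G)) = (h : G) then (1 : ℂ) else 0 := by
        intro h
        refine if_congr ?_ rfl rfl
        rw [← Subtype.coe_inj]
        have e : u * (c : G) * (h : G) * (u⁻¹ * (d : G)) = ((c * h * d : cent u) : G) := by
          have h6 := hcu (c * h)
          rw [Subgroup.coe_mul] at h6
          calc u * (c : G) * (h : G) * (u⁻¹ * (d : G)) = u * ((c : G) * h) * u⁻¹ * d := by group
            _ = (c : G) * h * d := by rw [h6]; group
            _ = _ := by simp only [Subgroup.coe_mul]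
        rw [e]
      rw [Finset.sum_congr rfl fun h _ => h5 h]
      have h7 : (∑ g : G, if u * (c : G) * g * (u⁻¹ * (d : G)) = g then (1 : ℂ) else 0)
          = ∑ g ∈ Finset.univ.filter (fun g : G => g ∈ cent u),
            if u * (c : G) * g * (u⁻¹ * (d : G)) = g then (1 : ℂ) else 0 := by
        rw [Finset.sum_filter]
        refine Finset.sum_congr rfl fun g _ => ?_
        by_cases hg : g ∈ cent u
        · rw [if_pos hg]
        · rw [if_neg hg, if_neg fun h => hg (h3 g h)]
      rw [h7]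
      exact Finset.sum_subtype _ (fun g => by simp) _
    · rw [if_neg hcd, if_neg hcd]
  · intro c b d
    rw [← Equiv.sum_comp (Equiv.mulRight b⁻¹)
      (fun g => if c * g * (b * d * b⁻¹) = g then (1 : ℂ) else 0)]
    refine Finset.sum_congr rfl fun g _ => if_congr ?_ rfl rfl
    change c * (g * b⁻¹) * (b * d * b⁻¹) = g * b⁻¹ ↔ _
    rw [show c * (g * b⁻¹) * (b * d * b⁻¹) = c * g * d * b⁻¹ by group, mul_left_inj]
  · intro a c d
    rw [← Equiv.sum_comp (Equiv.mulLeft a)
      (fun g => if a * c * a⁻¹ * g * d = g then (1 : ℂ) else 0)]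
    refine Finset.sum_congr rfl fun g _ => if_congr ?_ rfl rfl
    change a * c * a⁻¹ * (a * g) * d = a * g ↔ _
    rw [show a * c * a⁻¹ * (a * g) * d = a * (c * g * d) by group, mul_right_inj]

end Pool.Agent.Helper36.NB
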