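import Mathlib
import Pool.Agent.Helper36.NB.Defs
import Pool.Agent.Helper36.NB.A2

open scoped BigOperators MonoidAlgebra
open Classical

namespace Pool.Agent.Helper36.NB

namespace B1aux

/-- an element commuting with an odd power of a `2`-element `u` commutes with `u` -/
theorem comm_of_odd {G : Type} [Group G] {u r : G} {n : ℕ} (hu : orderOf u = 2 ^ n) {d : ℤ}
    (hd : Odd d) (h : Commute r (u ^ d)) : Commute r u := by
  have hc : IsCoprime d ((2 : ℤ) ^ n) := by
    apply IsCoprime.pow_right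
    rw [isCoprime_comm, Prime.coprime_iff_not_dvd Int.prime_two]
    intro h2
    exact (Int.not_even_iff_odd.2 hd) (even_iff_two_dvd.2 h2)
  obtain ⟨a, b, hab⟩ := hc
  have h1 : u = (u ^ d) ^ a := by
    calc u = u ^ (1 : ℤ) := (zpow_one u).symm
      _ = u ^ (d * a + (2 : ℤ) ^ n * b) := by rw [← hab]; congr 1; ring
      _ = (u ^ d) ^ a * (u ^ ((2 : ℤ) ^ n)) ^ b := by rw [zpow_add, zpow_mul, zpow_mul]
      _ = (u ^ d) ^ a := by
        have : u ^ ((2 : ℤ) ^ n) = 1 := by
          have e : ((2 : ℤ) ^ n) = ((orderOf u : ℕ) : ℤ) := by rw [hu]; push_cast; rfl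
          rw [e, zpow_natCast, pow_orderOf_eq_one]
        rw [this, one_zpow, mul_one]
  rw [h1]
  exact h.zpow_right a

/-- a half of the non-fixed points of the conjugation by a `2`-element -/
theorem exists_half {G : Type} [Group G] (u : G) (hu : ∃ n : ℕ, orderOf u = 2 ^ n) :
    ∃ Y : Set G, (∀ g, u⁻¹ * (u⁻¹ * g * u) * u ∈ Y ↔ g ∈ Y) ∧
      ∀ g, ¬ Commute g u → (g ∈ Y ↔ u⁻¹ * g * u ∉ Y) := by
  obtain ⟨n, hn⟩ := hu
  have key : ∀ (g : G) (i j : ℤ), u ^ (-i) * (u ^ (-j) * g * u ^ j) * u ^ i =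
      u ^ (-(i + j)) * g * u ^ (i + j) := by
    intro g i j
    rw [neg_add, zpow_add, zpow_add, zpow_mul_comm u i j]
    simp only [mul_assoc]
  let s : Setoid G :=
    { r := fun g h => ∃ i : ℤ, u ^ (-i) * g * u ^ i = h
      iseqv :=
        { refl := fun g => ⟨0, by simp⟩
          symm := by
            rintro g h ⟨i, rfl⟩
            exact ⟨-i, by rw [key]; simp⟩
          trans := by
            rintro g h k ⟨i, rfl⟩ ⟨j, rfl⟩
            exact ⟨j + i, by rw [key]⟩ } }
  have hs : ∀ g h : G, s.r g h ↔ ∃ i : ℤ, u ^ (-i) * g * u ^ i = h := fun g h => Iff.rfl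
  let rep : G → G := fun g => (Quotient.mk s g).out
  have hrep : ∀ g, ∃ i : ℤ, u ^ (-i) * rep g * u ^ i = g := fun g =>
    (hs _ _).1 (Quotient.mk_out (s := s) g)
  have hrep2 : ∀ g, rep (u⁻¹ * g * u) = rep g := by
    intro g
    have : Quotient.mk s (u⁻¹ * g * u) = Quotient.mk s g := by
      apply Quotient.sound
      change s.r _ _
      rw [hs]
      refine ⟨-1, ?_⟩
      rw [neg_neg, zpow_one, zpow_neg_one]
      group
    simp only [rep, this]
  -- two exponents of different parity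
  have hpar : ∀ (r : G) (i j : ℤ), u ^ (-i) * r * u ^ i = u ^ (-j) * r * u ^ j → Odd (i - j) →
      Commute r u := by
    intro r i j h hodd
    apply comm_of_odd hn hodd
    have h1 : r * u ^ (i - j) = u ^ (i - j) * r := by
      have h2 : u ^ i * (u ^ (-i) * r * u ^ i) * u ^ (-j) =
          u ^ i * (u ^ (-j) * r * u ^ j) * u ^ (-j) := by rw [h]
      have e1 : u ^ i * (u ^ (-i) * r * u ^ i) * u ^ (-j) = r * u ^ (i - j) := by
        rw [sub_eq_add_neg, zpow_add, zpow_neg]
        group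
      have e2 : u ^ i * (u ^ (-j) * r * u ^ j) * u ^ (-j) = u ^ (i - j) * r := by
        rw [sub_eq_add_neg, zpow_add]
        group
      rw [e1, e2] at h2
      exact h2
    exact h1
  refine ⟨{g | ∃ j : ℤ, Even j ∧ u ^ (-j) * rep g * u ^ j = g}, ?_, ?_⟩
  · intro g
    have e : ∀ x : G, u⁻¹ * (u⁻¹ * x * u) * u = u ^ (-(2 : ℤ)) * x * u ^ (2 : ℤ) := by
      intro x
      have := key x 1 1
      rw [zpow_neg_one, zpow_one] at this
      rw [this]
      norm_num
    simp only [Set.mem_ofPred_eq]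
    rw [hrep2, hrep2]
    constructor
    · rintro ⟨j, hj, h⟩
      refine ⟨j - 2, hj.sub even_two, ?_⟩
      rw [e] at h
      have h1 : u ^ (-(-2 : ℤ)) * (u ^ (-j) * rep g * u ^ j) * u ^ (-2 : ℤ) =
          u ^ (-(-2 : ℤ)) * (u ^ (-(2 : ℤ)) * g * u ^ (2 : ℤ)) * u ^ (-2 : ℤ) := by rw [h]
      rw [key, key] at h1
      rw [show (-2 : ℤ) + j = j - 2 by ring, show (-2 : ℤ) + 2 = 0 by ring] at h1
      simpa using h1
    · rintro ⟨j, hj, h⟩
      refine ⟨2 + j, even_two.add hj, ?_⟩
      rw [e, ← key, h]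
  · intro g hg
    simp only [Set.mem_ofPred_eq]
    rw [hrep2]
    obtain ⟨i, hi⟩ := hrep g
    have hg1 : u⁻¹ * g * u = u ^ (-(1 + i)) * rep g * u ^ (1 + i) := by
      rw [← key, hi, zpow_one, zpow_neg_one]
    have hnc : ¬ Commute (rep g) u := by
      intro hc
      apply hg
      have : u ^ (-i) * rep g * u ^ i = rep g := by
        have h3 := hc.zpow_right (-i)
        rw [← h3.eq, mul_assoc, ← zpow_add]
        simp
      rw [← hi, this]
      exact hc
    constructor
    · rintro ⟨j, hj, h⟩ ⟨j', hj', h'⟩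
      rw [hg1] at h'
      have h1 : u ^ (-(1 + j)) * rep g * u ^ (1 + j) = u ^ (-(1 + i)) * rep g * u ^ (1 + i) := by
        rw [← key (rep g) 1 j, ← key (rep g) 1 i, h, hi]
      rw [← h1] at h'
      refine hnc (hpar _ _ _ h' ?_)
      rw [show j' - (1 + j) = (j' - j) - 1 by ring]
      exact (hj'.sub hj).sub_odd odd_one
    · intro h
      rcases Int.even_or_odd i with h1 | h1
      · exact ⟨i, h1, hi⟩
      · exact absurd ⟨1 + i, odd_one.add_odd h1, hg1.symm⟩ h

/-- the algebraic part -/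
theorem halving {A B : Type} [Ring A] [Ring B] (π : A →+* B) (h2 : (2 : B) = 0) {U V f c0 : A}
    (hUV : U * V = 1) (hVU : V * U = 1) (hf : f * f = f) (hfU : U * f = f * U)
    (hc : U * (U * c0) = c0 * U * U) (h0 : π (c0 + U * c0 * V) = π f)
    (hinv : ∀ a, f * a = a → a * f = a → π a = π f → ∃ c, f * c = c ∧ c * f = c ∧ a * c = f ∧
      c * a = f ∧ ∀ w, w * f = f * w → w * a = a * w → w * c = c * w) :
    ∃ w w', w * w' = f ∧ w' * w = f ∧ U * w = - (w * U) := by
  have hVf : V * f = f * V := by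
    calc V * f = V * f * (U * V) := by rw [hUV, mul_one]
      _ = V * (f * U) * V := by simp only [mul_assoc]
      _ = V * (U * f) * V := by rw [hfU]
      _ = (V * U) * f * V := by simp only [mul_assoc]
      _ = f * V := by rw [hVU, one_mul]
  obtain ⟨c1, hc1⟩ : ∃ c1, c1 = f * c0 * f := ⟨_, rfl⟩
  have hfc1 : f * c1 = c1 := by rw [hc1, ← mul_assoc, ← mul_assoc, hf]
  have hc1f : c1 * f = c1 := by rw [hc1, mul_assoc, hf]
  have hc1U : U * (U * c1) = c1 * U * U := by
    rw [hc1]
    calc U * (U * (f * c0 * f)) = U * ((U * f) * (c0 * f)) := by simp only [mul_assoc]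
      _ = U * ((f * U) * (c0 * f)) := by rw [hfU]
      _ = (U * f) * (U * (c0 * f)) := by simp only [mul_assoc]
      _ = (f * U) * (U * (c0 * f)) := by rw [hfU]
      _ = f * (U * (U * c0)) * f := by simp only [mul_assoc]
      _ = f * (c0 * U * U) * f := by rw [hc]
      _ = f * c0 * U * (U * f) := by simp only [mul_assoc]
      _ = f * c0 * U * (f * U) := by rw [hfU]
      _ = f * c0 * (U * f) * U := by simp only [mul_assoc]
      _ = f * c0 * (f * U) * U := by rw [hfU]
      _ = f * c0 * f * U * U := by simp only [mul_assoc]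
  obtain ⟨s, hs⟩ : ∃ s, s = c1 + U * c1 * V := ⟨_, rfl⟩
  have hfs : f * s = s := by
    rw [hs, mul_add, hfc1]
    congr 1
    calc f * (U * c1 * V) = (f * U) * c1 * V := by simp only [mul_assoc]
      _ = U * (f * c1) * V := by rw [← hfU]; simp only [mul_assoc]
      _ = _ := by rw [hfc1]
  have hsf : s * f = s := by
    rw [hs, add_mul, hc1f]
    congr 1
    calc U * c1 * V * f = U * c1 * (V * f) := by simp only [mul_assoc]
      _ = U * (c1 * f) * V := by rw [hVf]; simp only [mul_assoc]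
      _ = _ := by rw [hc1f]
  have hsU : U * s = s * U := by
    rw [hs, mul_add, add_mul]
    have e1 : U * (U * c1 * V) = c1 * U := by
      calc U * (U * c1 * V) = (U * (U * c1)) * V := by simp only [mul_assoc]
        _ = c1 * U * (U * V) := by rw [hc1U]; simp only [mul_assoc]
        _ = c1 * U := by rw [hUV, mul_one]
    have e2 : U * c1 * V * U = U * c1 := by rw [mul_assoc, hVU, mul_one]
    rw [e1, e2, add_comm]
  have hπs : π s = π f := by
    have e : s = f * (c0 + U * c0 * V) * f := by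
      rw [hs, hc1, mul_add, add_mul]
      congr 1
      calc U * (f * c0 * f) * V = (U * f) * c0 * (f * V) := by simp only [mul_assoc]
        _ = (f * U) * c0 * (V * f) := by rw [hfU, hVf]
        _ = _ := by simp only [mul_assoc]
    rw [e, map_mul, map_mul, h0, ← map_mul, ← map_mul, hf, hf]
  obtain ⟨d, hfd, hdf, hsd, hds, hdc⟩ := hinv s hfs hsf hπs
  have hdU : U * d = d * U := hdc U hfU hsU
  obtain ⟨c, hcd⟩ : ∃ c, c = d * c1 := ⟨_, rfl⟩
  have hfc : f * c = c := by rw [hcd, ← mul_assoc, hfd]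
  have hcf : c * f = c := by rw [hcd, mul_assoc, hc1f]
  have hcc : c + U * c * V = f := by
    rw [← hds, hs, hcd, mul_add]
    congr 1
    calc U * (d * c1) * V = (U * d) * c1 * V := by simp only [mul_assoc]
      _ = _ := by rw [hdU]; simp only [mul_assoc]
  have hUc : U * c = (f - c) * U := by
    have : f - c = U * c * V := by rw [← hcc]; abel
    rw [this, mul_assoc, hVU, mul_one]
  obtain ⟨w, hw⟩ : ∃ w, w = f - c - c := ⟨_, rfl⟩
  have hfw : f * w = w := by rw [hw, mul_sub, mul_sub, hf, hfc]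
  have hwf : w * f = w := by rw [hw, sub_mul, sub_mul, hf, hcf]
  have hπw : π w = π f := by
    have : π c + π c = 0 := by rw [← two_mul, h2, zero_mul]
    rw [hw, sub_sub, map_sub, map_add, this, sub_zero]
  obtain ⟨w', -, -, hww, hww', -⟩ := hinv w hfw hwf hπw
  refine ⟨w, w', hww, hww', ?_⟩
  rw [hw, mul_sub, mul_sub, hUc, hfU, sub_mul, sub_mul, sub_mul]
  abel

end B1aux

open B1aux in
/-- The vanishing lemma. -/
theorem vanish (O : ValuationSubring ℂ) {G : Type} [Group G] [Finite G]
    (h2 : (2 : O) ∈ IsLocalRing.maximalIdeal O) (u : G) (hu : ∃ n : ℕ, orderOf u = 2 ^ n)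
    (f : MonoidAlgebra O G) (hf : f * f = f) (hfu : el O u * f = f * el O u)
    (h0 : ∀ g, g * u = u * g → (toK O G f).coeff g = 0) (T : TraceFun O G) (k : ℕ)
    (hk : Odd k) : T.f (el O (u ^ k) * f) = 0 := by
  obtain ⟨Y, hY1, hY2⟩ := exists_half u hu
  have hUV : el O u * el O u⁻¹ = 1 := by rw [← el_mul, mul_inv_cancel, el_one]
  have hVU : el O u⁻¹ * el O u = 1 := by rw [← el_mul, inv_mul_cancel, el_one]
  -- the coefficients of `f` are invariant
  have hfco : ∀ g, f.coeff (u⁻¹ * g * u) = f.coeff g := by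
    intro g
    have h := congrArg (fun x : MonoidAlgebra O G => x.coeff (g * u)) hfu
    simp only [el, MonoidAlgebra.coeff_single_mul_apply, MonoidAlgebra.coeff_mul_single_apply,
      one_mul, mul_one] at h
    rw [mul_assoc, h, mul_inv_cancel_right]
  -- the half of `f`
  obtain ⟨c0, hc0⟩ : ∃ c0 : MonoidAlgebra O G, ∀ g, c0.coeff g = if g ∈ Y then f.coeff g else 0 :=
    ⟨MonoidAlgebra.ofCoeff (f.coeff.filter (· ∈ Y)), fun g => by
      rw [← Finsupp.filter_apply]⟩
  have hcU : el O u * (el O u * c0) = c0 * el O u * el O u := by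
    ext g
    simp only [el, MonoidAlgebra.coeff_single_mul_apply, MonoidAlgebra.coeff_mul_single_apply,
      one_mul, mul_one, hc0]
    have e1 : u⁻¹ * (u⁻¹ * (g * u⁻¹ * u⁻¹) * u) * u = u⁻¹ * (u⁻¹ * g) := by group
    have e2 := hY1 (g * u⁻¹ * u⁻¹)
    have e3 := hfco (u⁻¹ * (g * u⁻¹ * u⁻¹) * u)
    rw [hfco (g * u⁻¹ * u⁻¹)] at e3
    rw [e1] at e2 e3
    simp only [e2, e3]
  have hπ : toK O G (c0 + el O u * c0 * el O u⁻¹) = toK O G f := by
    ext g
    rw [toK_apply, toK_apply]
    simp only [el, MonoidAlgebra.coeff_add, Finsupp.add_apply,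
      MonoidAlgebra.coeff_single_mul_apply, MonoidAlgebra.coeff_mul_single_apply,
      one_mul, mul_one, inv_inv, hc0]
    rw [show u⁻¹ * (g * u) = u⁻¹ * g * u by group, hfco]
    by_cases hg : Commute g u
    · have h3 := h0 g hg.eq
      rw [toK_apply] at h3
      rw [h3]
      split_ifs <;> simp [h3]
    · have h4 := hY2 g hg
      by_cases h5 : g ∈ Y
      · have h6 := h4.1 h5
        simp [h5, h6]
      · have h6 : u⁻¹ * g * u ∈ Y := by
          by_contra h7
          exact h5 (h4.2 h7)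
        simp [h5, h6]
  have h2K : (2 : MonoidAlgebra (resK O) G) = 0 := by
    have e : (2 : MonoidAlgebra (resK O) G) = toK O G (MonoidAlgebra.single 1 (2 : O)) := by
      rw [toK, MonoidAlgebra.mapRingHom_single, map_ofNat]
      rfl
    have e2 : IsLocalRing.residue O (2 : O) = 0 := (IsLocalRing.residue_eq_zero_iff _).2 h2
    rw [e, toK, MonoidAlgebra.mapRingHom_single, e2, MonoidAlgebra.single_zero]
  obtain ⟨w, w', hww, hww', hUw⟩ := halving (toK O G) h2K hUV hVU hf hfu hcU hπ (by
    intro a h1 h3 h4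
    exact corner_inv O hf h1 h3 (b := 1) (by rw [mul_one, h4]))
  -- odd powers
  have hpow : ∀ m : ℕ, el O (u ^ (2 * m + 1)) * w = - (w * el O (u ^ (2 * m + 1))) := by
    intro m
    induction m with
    | zero => simpa using hUw
    | succ m ih =>
      have e : u ^ (2 * (m + 1) + 1) = u ^ (2 * m + 1) * (u * u) := by
        rw [← sq, ← pow_add]
        congr 1
      rw [e, el_mul, el_mul]
      calc el O (u ^ (2 * m + 1)) * (el O u * el O u) * w
          = el O (u ^ (2 * m + 1)) * (el O u * (el O u * w)) := by simp only [mul_assoc]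
        _ = el O (u ^ (2 * m + 1)) * (w * el O u * el O u) := by
          rw [hUw, mul_neg, ← mul_assoc, hUw]
          simp only [neg_mul, neg_neg]
        _ = (el O (u ^ (2 * m + 1)) * w) * (el O u * el O u) := by simp only [mul_assoc]
        _ = _ := by rw [ih]; simp only [neg_mul, mul_assoc]
  obtain ⟨m, rfl⟩ := hk
  have e1 : T.f (el O (u ^ (2 * m + 1)) * f) = - T.f (el O (u ^ (2 * m + 1)) * f) := by
    calc T.f (el O (u ^ (2 * m + 1)) * f) = T.f ((el O (u ^ (2 * m + 1)) * w) * w') := by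
          rw [mul_assoc, hww]
      _ = - T.f (w * (el O (u ^ (2 * m + 1)) * w')) := by
          rw [hpow, neg_mul, map_neg, mul_assoc]
      _ = - T.f ((el O (u ^ (2 * m + 1)) * w') * w) := by rw [T.comm]
      _ = _ := by rw [mul_assoc, hww']
  have e2 : (2 : ℂ) * T.f (el O (u ^ (2 * m + 1)) * f) = 0 := by
    rw [two_mul]
    nth_rewrite 1 [e1]
    simp
  exact (mul_eq_zero.1 e2).resolve_left two_ne_zero

end Pool.Agent.Helper36.NB
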