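import Mathlib
import Pool.Agent.Helper36.NB.Defs
import Pool.Agent.Helper36.NB.A1
import Pool.Agent.Helper36.NB.A2
import Pool.Agent.Helper36.NB.A3
import Pool.Agent.Helper36.NB.B1
import Pool.Agent.Helper36.NB.G1

open scoped BigOperators MonoidAlgebra
open Classical

namespace Pool.Agent.Helper36.NB

namespace B2aux

theorem res_coeff' {k : Type} [CommRing k] {G : Type} [Group G] (H : Subgroup G)
    (a : MonoidAlgebra k G) (h : H) : (res H a).coeff h = a.coeff (h : G) := by
  simp [res]

theorem res_sub {k : Type} [CommRing k] {G : Type} [Group G] (H : Subgroup G)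
    (a b : MonoidAlgebra k G) : res H (a - b) = res H a - res H b := by
  ext h
  simp [res_coeff']

theorem conj_eq {R : Type} [CommRing R] {G : Type} [Group G] (u : G) (a : MonoidAlgebra R G) :
    MonoidAlgebra.mapDomain (fun g => u * g * u⁻¹) a = el R u * a * el R u⁻¹ := by
  induction a using MonoidAlgebra.induction_linear with
  | zero => simp
  | add f g hf hg => rw [MonoidAlgebra.mapDomain_add, hf, hg, mul_add, add_mul]
  | single g r => simp [el, MonoidAlgebra.single_mul_single]

theorem el_inv_mul {R : Type} [CommRing R] {G : Type} [Group G] (u : G) :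
    el R u⁻¹ * el R u = 1 := by
  rw [← el_mul, inv_mul_cancel, el_one]

theorem el_mul_inv {R : Type} [CommRing R] {G : Type} [Group G] (u : G) :
    el R u * el R u⁻¹ = 1 := by
  rw [← el_mul, mul_inv_cancel, el_one]

theorem el_pow {R : Type} [CommRing R] {G : Type} [Group G] (u : G) (k : ℕ) :
    el R (u ^ k) = el R u ^ k := by
  induction k with
  | zero => simp [el_one]
  | succ n ih => rw [pow_succ, pow_succ, el_mul, ih]

theorem conj_iff {R : Type} [CommRing R] {G : Type} [Group G] (u : G) (a : MonoidAlgebra R G) :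
    MonoidAlgebra.mapDomain (fun g => u * g * u⁻¹) a = a ↔ el R u * a = a * el R u := by
  rw [conj_eq]
  constructor
  · intro h
    calc el R u * a = el R u * a * (el R u⁻¹ * el R u) := by rw [el_inv_mul, mul_one]
      _ = (el R u * a * el R u⁻¹) * el R u := by simp only [mul_assoc]
      _ = a * el R u := by rw [h]
  · intro h
    rw [h, mul_assoc, el_mul_inv, mul_one]

/-- comparison of `x` with an idempotent `f` below it -/
theorem compare (O : ValuationSubring ℂ) {G : Type} [Group G] [Finite G]
    (h2 : (2 : O) ∈ IsLocalRing.maximalIdeal O) (u : G) (hu : ∃ n : ℕ, orderOf u = 2 ^ n)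
    (x f : MonoidAlgebra O G) (hx : x * x = x) (hf : f * f = f)
    (hxu : el O u * x = x * el O u) (hfu : el O u * f = f * el O u)
    (h : res (cent u) (toK O G x) = res (cent u) (toK O G f))
    (b : MonoidAlgebra (resK O) G) (hb : toK O G (f * x * f) * b = toK O G f)
    (T : TraceFun O G) (k : ℕ) (hk : Odd k) :
    T.f (el O (u ^ k) * x) = T.f (el O (u ^ k) * f) := by
  have := resK_charP O h2
  obtain ⟨c, hfc, hcf, hgc, hcg, hcomm⟩ := corner_inv O (f := f) (a := f * x * f) hf
    (by rw [← mul_assoc, ← mul_assoc, hf]) (by rw [mul_assoc, hf]) hb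
  have hcu : el O u * c = c * el O u := by
    apply hcomm _ hfu
    calc el O u * (f * x * f) = (el O u * f) * x * f := by simp only [mul_assoc]
      _ = f * (el O u * x) * f := by rw [hfu]; simp only [mul_assoc]
      _ = f * x * (el O u * f) := by rw [hxu]; simp only [mul_assoc]
      _ = f * x * f * el O u := by rw [hfu]; simp only [mul_assoc]
  -- the idempotent below `x`
  have hfxc : f * x * c = f := by
    calc f * x * c = f * x * (f * c) := by rw [hfc]
      _ = f * x * f * c := by simp only [mul_assoc]
      _ = f := hgc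
  have hid : (x * c * x) * (x * c * x) = x * c * x := by
    calc (x * c * x) * (x * c * x) = x * c * (x * x) * c * x := by simp only [mul_assoc]
      _ = x * (c * f) * x * c * x := by rw [hx, hcf]
      _ = x * c * (f * x * c) * x := by simp only [mul_assoc]
      _ = x * (c * f) * x := by rw [hfxc]; simp only [mul_assoc]
      _ = x * c * x := by rw [hcf]
  have hxf' : x * (x * c * x) = x * c * x := by rw [← mul_assoc, ← mul_assoc, hx]
  have hf'x : (x * c * x) * x = x * c * x := by rw [mul_assoc, hx]
  have hid2 : (x - x * c * x) * (x - x * c * x) = x - x * c * x := by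
    rw [sub_mul, mul_sub, mul_sub, hx, hxf', hf'x, hid]
    abel
  have hf'u : el O u * (x * c * x) = (x * c * x) * el O u := by
    calc el O u * (x * c * x) = (el O u * x) * c * x := by simp only [mul_assoc]
      _ = x * (el O u * c) * x := by rw [hxu]; simp only [mul_assoc]
      _ = x * c * (el O u * x) := by rw [hcu]; simp only [mul_assoc]
      _ = x * c * x * el O u := by rw [hxu]; simp only [mul_assoc]
  have hdu : el O u * (x - x * c * x) = (x - x * c * x) * el O u := by
    rw [mul_sub, sub_mul, hxu, hf'u]
  -- reductions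
  have toKcomm : ∀ z : MonoidAlgebra O G, el O u * z = z * el O u →
      el (resK O) u * toK O G z = toK O G z * el (resK O) u := by
    intro z hz
    have := congrArg (toK O G) hz
    rwa [map_mul, map_mul, toK_el] at this
  have Kx := toKcomm x hxu
  have Kf := toKcomm f hfu
  have Kc := toKcomm c hcu
  have cmul : ∀ z w : MonoidAlgebra (resK O) G, el (resK O) u * z = z * el (resK O) u →
      el (resK O) u * w = w * el (resK O) u →
      el (resK O) u * (z * w) = (z * w) * el (resK O) u := by
    intro z w hz hw
    rw [← mul_assoc, hz, mul_assoc, hw, mul_assoc]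
  have hβ : res (cent u) (toK O G x) * res (cent u) (toK O G x) = res (cent u) (toK O G x) := by
    rw [← res_mul_cent u hu _ _ Kx Kx, ← map_mul, hx]
  have hγ : res (cent u) (toK O G x) * res (cent u) (toK O G c) = res (cent u) (toK O G c) := by
    rw [h, ← res_mul_cent u hu _ _ Kf Kc, ← map_mul, hfc]
  have hγ2 : res (cent u) (toK O G c) = res (cent u) (toK O G x) := by
    have e := congrArg (fun z => res (cent u) (toK O G z)) hfxc
    simp only [map_mul] at e
    rw [res_mul_cent u hu _ _ (cmul _ _ Kf Kx) Kc, res_mul_cent u hu _ _ Kf Kx, ← h, hβ, hγ] at e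
    exact e
  have hres : res (cent u) (toK O G (x * c * x)) = res (cent u) (toK O G x) := by
    rw [map_mul, map_mul, res_mul_cent u hu _ _ (cmul _ _ Kx Kc) Kx,
      res_mul_cent u hu _ _ Kx Kc, hγ2, hβ, hβ]
  have h0 : ∀ g, g * u = u * g → (toK O G (x - x * c * x)).coeff g = 0 := by
    intro g hg
    have hmem : g ∈ cent u := by
      rw [Subgroup.mem_centralizer_iff]
      intro v hv
      rw [Set.mem_singleton_iff] at hv
      rw [hv, hg]
    have e : res (cent u) (toK O G (x - x * c * x)) = 0 := by
      rw [map_sub, res_sub, hres, sub_self]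
    have e2 := congrArg (fun z => z.coeff (⟨g, hmem⟩ : cent u)) e
    simp only [res_coeff'] at e2
    rw [e2]
    simp
  have hv := vanish O h2 u hu (x - x * c * x) hid2 hdu h0 T k hk
  rw [mul_sub, map_sub, sub_eq_zero] at hv
  rw [hv]
  -- conjugation
  have hUcomm : ∀ z : MonoidAlgebra O G, el O u * z = z * el O u →
      el O (u ^ k) * z = z * el O (u ^ k) := by
    intro z hz
    rw [el_pow]
    exact (Commute.pow_left (show Commute (el O u) z from hz) k).eq
  have hUf := hUcomm f hfu
  have hUx := hUcomm x hxu
  have hUc := hUcomm c hcu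
  calc T.f (el O (u ^ k) * (x * c * x)) = T.f ((el O (u ^ k) * (x * c)) * (f * x)) := by
        congr 1
        calc el O (u ^ k) * (x * c * x) = el O (u ^ k) * (x * (c * f) * x) := by rw [hcf]
          _ = (el O (u ^ k) * (x * c)) * (f * x) := by simp only [mul_assoc]
    _ = T.f ((f * x) * (el O (u ^ k) * (x * c))) := T.comm _ _
    _ = T.f (el O (u ^ k) * f) := by
        congr 1
        calc (f * x) * (el O (u ^ k) * (x * c)) = f * (x * el O (u ^ k)) * (x * c) := by
              simp only [mul_assoc]
          _ = (f * el O (u ^ k)) * x * (x * c) := by rw [← hUx]; simp only [mul_assoc]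
          _ = el O (u ^ k) * f * (x * x) * c := by rw [← hUf]; simp only [mul_assoc]
          _ = el O (u ^ k) * (f * x * c) := by rw [hx]; simp only [mul_assoc]
          _ = el O (u ^ k) * f := by rw [hfxc]

end B2aux

open B2aux

theorem trace_eq (O : ValuationSubring ℂ) {G : Type} [Group G] [Finite G]
    (h2 : (2 : O) ∈ IsLocalRing.maximalIdeal O) (u : G) (hu : ∃ n : ℕ, orderOf u = 2 ^ n)
    (i y : MonoidAlgebra O G) (hi : i * i = i) (hy : y * y = y)
    (hiu : el O u * i = i * el O u) (hyu : el O u * y = y * el O u)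
    (h : ∀ g, g * u = u * g → (toK O G i).coeff g = (toK O G y).coeff g)
    (T : TraceFun O G) (k : ℕ) (hk : Odd k) :
    T.f (el O (u ^ k) * i) = T.f (el O (u ^ k) * y) := by
  have := resK_charP O h2
  let _ : Fintype G := Fintype.ofFinite G
  have hfin : FiniteDimensional (resK O) (MonoidAlgebra (resK O) G) := by
    infer_instance
  have toKcomm : ∀ z : MonoidAlgebra O G, el O u * z = z * el O u →
      el (resK O) u * toK O G z = toK O G z * el (resK O) u := by
    intro z hz
    have := congrArg (toK O G) hz
    rwa [map_mul, map_mul, toK_el] at this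
  have Ki := toKcomm i hiu
  have Ky := toKcomm y hyu
  obtain ⟨I, hI⟩ : ∃ I, I = toK O G i := ⟨_, rfl⟩
  obtain ⟨Y, hY⟩ : ∃ Y, Y = toK O G y := ⟨_, rfl⟩
  rw [← hI] at Ki
  rw [← hY] at Ky
  have hII : I * I = I := by rw [hI, ← map_mul, hi]
  have hYY : Y * Y = Y := by rw [hY, ← map_mul, hy]
  have hβ : res (cent u) I = res (cent u) Y := by
    ext g
    rw [res_coeff', res_coeff', hI, hY]
    apply h
    exact (Subgroup.mem_centralizer_iff.1 g.2 u (Set.mem_singleton u)).symm
  have cmul : ∀ z w : MonoidAlgebra (resK O) G, el (resK O) u * z = z * el (resK O) u →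
      el (resK O) u * w = w * el (resK O) u →
      el (resK O) u * (z * w) = (z * w) * el (resK O) u := by
    intro z w hz hw
    rw [← mul_assoc, hz, mul_assoc, hw, mul_assoc]
  -- the Fitting idempotent
  obtain ⟨A, hA⟩ : ∃ A, A = I * Y * I := ⟨_, rfl⟩
  obtain ⟨F, B, hFm, hBm, hFF, hAB, hnil⟩ := fitting (k := resK O) A
  have KA : el (resK O) u * A = A * el (resK O) u := by
    rw [hA]; exact cmul _ _ (cmul _ _ Ki Ky) Ki
  have hcent : Algebra.adjoin (resK O) {A} ≤ Subalgebra.centralizer (resK O) {el (resK O) u} := by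
    apply Algebra.adjoin_le
    rintro z hz
    rw [Set.mem_singleton_iff] at hz
    rw [hz, SetLike.mem_coe, Subalgebra.mem_centralizer_iff]
    intro w hw
    rw [Set.mem_singleton_iff] at hw
    rw [hw, KA]
  have KF : el (resK O) u * F = F * el (resK O) u :=
    (Subalgebra.mem_centralizer_iff _).1 (hcent hFm) _ (Set.mem_singleton _)
  have KB : el (resK O) u * B = B * el (resK O) u :=
    (Subalgebra.mem_centralizer_iff _).1 (hcent hBm) _ (Set.mem_singleton _)
  -- commutativity of the adjoin
  have hcommA : ∀ z w : MonoidAlgebra (resK O) G, z ∈ Algebra.adjoin (resK O) {A} →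
      w ∈ Algebra.adjoin (resK O) {A} → z * w = w * z := by
    intro z w hz hw
    have h1 : Commute A z := Algebra.commute_of_mem_adjoin_self (R := resK O) hz
    exact (Algebra.commute_of_mem_adjoin_singleton_of_commute (R := resK O) hw h1.symm).eq
  have hAm : A ∈ Algebra.adjoin (resK O) {A} := Algebra.subset_adjoin (Set.mem_singleton A)
  have hIA : I * A = A := by rw [hA, ← mul_assoc, ← mul_assoc, hII]
  have hAI : A * I = A := by rw [hA, mul_assoc, hII]
  have hIF : I * F = F := by rw [← hAB, ← mul_assoc, hIA]
  have hFI : F * I = F := by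
    rw [← hAB, hcommA _ _ hAm hBm, mul_assoc, hAI]
  have bβ : res (cent u) I * res (cent u) I = res (cent u) I := by
    rw [← res_mul_cent u hu _ _ Ki Ki, hII]
  have bA : res (cent u) A = res (cent u) I := by
    rw [hA, res_mul_cent u hu _ _ (cmul _ _ Ki Ky) Ki, res_mul_cent u hu _ _ Ki Ky, ← hβ, bβ, bβ]
  have bIF : res (cent u) I * res (cent u) F = res (cent u) F := by
    rw [← res_mul_cent u hu _ _ Ki KF, hIF]
  have bFI : res (cent u) F * res (cent u) I = res (cent u) F := by
    rw [← res_mul_cent u hu _ _ KF Ki, hFI]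
  have bFF : res (cent u) F * res (cent u) F = res (cent u) F := by
    rw [← res_mul_cent u hu _ _ KF KF, hFF]
  have bF : res (cent u) F = res (cent u) I := by
    have hD : res (cent u) (A * (1 - F)) = res (cent u) I - res (cent u) F := by
      rw [mul_sub, mul_one, res_sub, res_mul_cent u hu _ _ KA KF, bA, bIF]
    have KD : el (resK O) u * (A * (1 - F)) = (A * (1 - F)) * el (resK O) u := by
      rw [mul_sub, mul_one, mul_sub, sub_mul, KA, cmul _ _ KA KF]
    have KDn : ∀ n : ℕ, el (resK O) u * (A * (1 - F)) ^ n =
        (A * (1 - F)) ^ n * el (resK O) u := by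
      intro n
      exact (Commute.pow_right (show Commute (el (resK O) u) (A * (1 - F)) from KD) n).eq
    have hpow : ∀ n : ℕ, res (cent u) ((A * (1 - F)) ^ (n + 1)) =
        (res (cent u) I - res (cent u) F) ^ (n + 1) := by
      intro n
      induction n with
      | zero => rw [zero_add, pow_one, pow_one, hD]
      | succ m ih => rw [pow_succ, res_mul_cent u hu _ _ (KDn _) KD, ih, hD, ← pow_succ]
    have hidem : (res (cent u) I - res (cent u) F) * (res (cent u) I - res (cent u) F) =
        res (cent u) I - res (cent u) F := by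
      rw [sub_mul, mul_sub, mul_sub, bβ, bIF, bFI, bFF]
      abel
    have hidn : ∀ n : ℕ, (res (cent u) I - res (cent u) F) ^ (n + 1) =
        res (cent u) I - res (cent u) F := by
      intro n
      induction n with
      | zero => rw [zero_add, pow_one]
      | succ m ih => rw [pow_succ, ih, hidem]
    obtain ⟨n, hn⟩ := hnil
    have h1 : res (cent u) I - res (cent u) F = 0 := by
      rw [← hidn n, ← hpow n, pow_succ, hn, zero_mul]
      ext g
      simp [res_coeff']
    exact (sub_eq_zero.1 h1).symm
  -- lift
  obtain ⟨f, hfF, hff, -, hfsym⟩ := lift_sym O (1 : MonoidAlgebra O G) (one_mul 1)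
    (fun a => by rw [mul_one, one_mul]) F hFF (by rw [map_one, mul_one])
  have hfu : el O u * f = f * el O u := by
    rw [← conj_iff]
    apply hfsym (fun g => u * g * u⁻¹) (MulAut.conj u).bijective
      (Or.inl (fun g h => by group))
    · rw [conj_iff, mul_one, one_mul]
    · rw [conj_iff]; exact KF
  have e1 : toK O G (f * i * f) * F = toK O G f := by
    rw [map_mul, map_mul, hfF, ← hI, hFI, hFF, hFF]
  have e2 : toK O G (f * y * f) * B = toK O G f := by
    rw [map_mul, map_mul, hfF, ← hY]
    calc F * Y * F * B = (F * I) * Y * (I * F) * B := by rw [hFI, hIF]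
      _ = F * (I * Y * I) * F * B := by simp only [mul_assoc]
      _ = F * A * (F * B) := by rw [← hA, mul_assoc (F * A)]
      _ = F * (A * B) * F := by rw [hcommA _ _ hFm hBm]; simp only [mul_assoc]
      _ = F := by rw [hAB, hFF, hFF]
  rw [compare O h2 u hu i f hi hff hiu hfu (by rw [hfF, bF, hI]) F e1 T k hk,
    compare O h2 u hu y f hy hff hyu hfu (by rw [hfF, bF, hβ, hY]) B e2 T k hk]

end Pool.Agent.Helper36.NB
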