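import Mathlib
import Pool.Agent.Helper36.NB.Defs
import Pool.Agent.Helper36.NB.A2
import Pool.Agent.Helper36.NB.A3
import Pool.Agent.Helper36.NB.B2
import Pool.Agent.Helper36.NB.C1
import Pool.Agent.Helper36.NB.G1

open scoped BigOperators MonoidAlgebra
open Classical

namespace Pool.Agent.Helper36.NB

private theorem incl_coeff {R : Type} [CommRing R] {G : Type} [Group G] (H : Subgroup G)
    (y : MonoidAlgebra R H) (h : H) : (incl R H y).coeff (h : G) = y.coeff h := by
  unfold incl
  change (Finsupp.mapDomain (Subtype.val : H → G) y.coeff) (h : G) = y.coeff h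
  exact Finsupp.mapDomain_apply Subtype.val_injective _ _

private theorem res_coeff {R : Type} [CommRing R] {G : Type} [Group G] (H : Subgroup G)
    (a : MonoidAlgebra R G) (h : H) : (res H a).coeff h = a.coeff (h : G) := by
  unfold res
  simp

/-- A central element of the group commutes with everything. -/
private theorem el_comm {R : Type} [CommRing R] {G : Type} [Group G] (c : G)
    (hc : ∀ g, c * g = g * c) (a : MonoidAlgebra R G) : el R c * a = a * el R c := by
  induction a using MonoidAlgebra.induction_on with
  | of g =>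
    unfold el
    simp [MonoidAlgebra.of_apply, MonoidAlgebra.single_mul_single, hc g]
  | add x y hx hy => rw [mul_add, add_mul, hx, hy]
  | smul r x hx => rw [mul_smul_comm, smul_mul_assoc, hx]

private theorem mem_cent_self {G : Type} [Group G] (u : G) : u ∈ cent u := by
  rw [Subgroup.mem_centralizer_iff]
  intro h hh
  rw [Set.mem_singleton_iff] at hh
  rw [hh]

private theorem mem_cent {G : Type} [Group G] (u g : G) (h : g * u = u * g) : g ∈ cent u := by
  rw [Subgroup.mem_centralizer_iff]
  intro x hx
  rw [Set.mem_singleton_iff] at hx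
  rw [hx, h]

private theorem cent_comm {G : Type} [Group G] (u : G) (g : cent u) : u * (g : G) = g * u := by
  have := g.2
  rw [Subgroup.mem_centralizer_iff] at this
  exact this u rfl

private theorem incl_comm {R : Type} [CommRing R] {G : Type} [Group G] (u : G)
    (y : MonoidAlgebra R (cent u)) : el R u * incl R (cent u) y = incl R (cent u) y * el R u := by
  have h1 : el R u = incl R (cent u) (el R (⟨u, mem_cent_self u⟩ : cent u)) := by
    rw [incl_el]
  rw [h1, ← map_mul, ← map_mul, el_comm]
  intro g
  apply Subtype.ext
  exact cent_comm u g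

private theorem el_pow_comm {R : Type} [CommRing R] {G : Type} [Group G] (u : G) (k : ℕ)
    (a : MonoidAlgebra R G) (h : el R u * a = a * el R u) :
    el R (u ^ k) * a = a * el R (u ^ k) := by
  induction k with
  | zero => rw [pow_zero, el_one, one_mul, mul_one]
  | succ k ih => rw [pow_succ, el_mul, mul_assoc, h, ← mul_assoc, ih, mul_assoc]

/-- The central function `h ↦ T (u ^ k h)` of `O[C(u)]`. -/
private noncomputable def shiftTrace (O : ValuationSubring ℂ) {G : Type} [Group G] (u : G)
    (k : ℕ) (T : TraceFun O G) : TraceFun O (cent u) where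
  f :=
    { toFun := fun h => T.f (el O (u ^ k) * incl O (cent u) h)
      map_add' := fun x y => by rw [map_add, mul_add, map_add]
      map_smul' := fun c x => by
        have h1 : incl O (cent u) (c • x) = c • incl O (cent u) x := by
          ext g
          unfold incl
          simp [MonoidAlgebra.mapDomain_smul]
        rw [h1, mul_smul_comm, map_smul]
        rfl }
  comm := fun a b => by
    change T.f (el O (u ^ k) * incl O (cent u) (a * b)) = T.f (el O (u ^ k) * incl O (cent u) (b * a))
    rw [(incl O (cent u)).map_mul, (incl O (cent u)).map_mul, ← mul_assoc, T.comm, ← mul_assoc,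
      ← mul_assoc, el_pow_comm u k _ (incl_comm u b)]

/-- The values of central functions at `u i` for a `2`-element `u`. -/
theorem local_trace (O : ValuationSubring ℂ) {G : Type} [Group G] [Finite G]
    (h2 : (2 : O) ∈ IsLocalRing.maximalIdeal O) (u : G) (hu : ∃ n : ℕ, orderOf u = 2 ^ n)
    (i : MonoidAlgebra O G) (hi : i * i = i) (hiu : el O u * i = i * el O u)
    (B : MonoidAlgebra O (cent u)) (hB : B * B = B) (hBc : ∀ a, a * B = B * a)
    (hiB : res (cent u) (toK O G i) * toK O (cent u) B = res (cent u) (toK O G i))
    (S : SimpleQuot (toK O (cent u) B)) (j : MonoidAlgebra O (cent u)) (hj : j * j = j)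
    (hjB : j * B = j) (hj1 : (S.ρ (toK O (cent u) j)).rank = 1) (T : TraceFun O G) (k : ℕ)
    (hk : Odd k) :
    T.f (el O (u ^ k) * i) =
      ((S.ρ (res (cent u) (toK O G i))).rank : ℂ) * T.f (el O (u ^ k) * incl O _ j) := by
  have : CharP (resK O) 2 := resK_charP O h2
  have hbar : el (resK O) u * toK O G i = toK O G i * el (resK O) u := by
    rw [← toK_el, ← map_mul, hiu, map_mul]
  have hyy : res (cent u) (toK O G i) * res (cent u) (toK O G i) = res (cent u) (toK O G i) := by
    rw [← res_mul_cent u hu _ _ hbar hbar, ← map_mul, hi]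
  obtain ⟨y, hy1, hy2, hy3, -⟩ := lift_sym O B hB hBc _ hyy hiB
  have h1 : T.f (el O (u ^ k) * i) = T.f (el O (u ^ k) * incl O (cent u) y) := by
    refine trace_eq O h2 u hu i (incl O (cent u) y) hi ?_ hiu (incl_comm u y) ?_ T k hk
    · rw [← map_mul, hy2]
    · intro g hg
      have hg' := mem_cent u g hg
      rw [toK_apply O (incl O (cent u) y) g]
      have e1 : (incl O (cent u) y).coeff g = y.coeff (⟨g, hg'⟩ : cent u) :=
        incl_coeff (cent u) y ⟨g, hg'⟩
      rw [e1, ← toK_apply, hy1, res_coeff]
  have h3 := trace_rank O B hB hBc S j hj hjB hj1 y hy2 hy3 (shiftTrace O u k T)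
  rw [h1, ← hy1]
  exact h3

end Pool.Agent.Helper36.NB
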