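import Mathlib
import Pool.Agent.Helper36.NB.Asm3
import Pool.Agent.Helper36.NB.L1
import Pool.Agent.Helper36.NB.E2
import Pool.Agent.Helper36.NB.F1

open scoped BigOperators MonoidAlgebra
open Classical

namespace Pool.Agent.Helper36.NB

/-- Local data at a `2`-element `u`. -/
structure Loc (O : ValuationSubring ℂ) {G : Type} [Group G] (i : MonoidAlgebra O G)
    (u : G) where
  B : MonoidAlgebra O (cent u)
  blk : IsBlock (toK O _ B)
  hB : B * B = B
  hBc : ∀ a, a * B = B * a
  hib : res (cent u) (toK O G i) * toK O _ B = res (cent u) (toK O G i)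
  S : SimpleQuot (toK O _ B)
  j : MonoidAlgebra O (cent u)
  hj : j * j = j
  hjB : j * B = j
  hj1 : (S.ρ (toK O _ j)).rank = 1

theorem lift_central (O : ValuationSubring ℂ) {H : Type} [Group H] [Finite H]
    (b : MonoidAlgebra (resK O) H) (hb : b * b = b) (hbc : ∀ a, a * b = b * a) :
    ∃ B : MonoidAlgebra O H, toK O H B = b ∧ B * B = B ∧ ∀ a, a * B = B * a := by
  obtain ⟨B, hBb, hBB, -, hσ⟩ := lift_sym O (1 : MonoidAlgebra O H) (one_mul 1)
    (fun a => by rw [mul_one, one_mul]) b hb (by rw [map_one, mul_one])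
  refine ⟨B, hBb, hBB, ?_⟩
  have key : ∀ g : H, el O g * B = B * el O g := by
    intro g
    rw [comm_iff_conj, conj_eq_mapDomain]
    apply hσ
    · refine ⟨fun x y hxy => ?_, fun y => ⟨g⁻¹ * y * g, by simp [mul_assoc]⟩⟩
      simpa using hxy
    · left; intro x y; group
    · rw [← conj_eq_mapDomain, mul_one, el_mul_el_inv]
    · rw [← conj_eq_mapDomain, ← comm_iff_conj]
      exact hbc _
  intro a
  induction a using MonoidAlgebra.induction_linear with
  | zero => simp
  | add x y hx hy => rw [add_mul, mul_add, hx, hy]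
  | single g r =>
    have : (MonoidAlgebra.single g r : MonoidAlgebra O H) = r • el O g := by
      simp [el]
    rw [this, smul_mul_assoc, key, mul_smul_comm]

theorem exists_loc (O : ValuationSubring ℂ) {G : Type} [Group G] [Fintype G]
    (i : MonoidAlgebra O G) (u : G)
    (b : MonoidAlgebra (resK O) (cent u)) (hb : IsBlock b)
    (hib : res (cent u) (toK O G i) * b = res (cent u) (toK O G i)) (hone : OneSimple b) :
    Nonempty (Loc O i u) := by
  obtain ⟨B, hBb, hBB, hBc⟩ := lift_central O b hb.2.1 hb.2.2.1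
  subst hBb
  have halg : IsAlgClosed (resK O) := resK_isAlgClosed O
  obtain ⟨S⟩ := simpleQuot_of_oneSimple _ hb.1 hb.2.1 hb.2.2.1 hone
  obtain ⟨j, hj, hjB, hj1⟩ := exists_rank_one O B hBB hBc S
  exact ⟨⟨B, hb, hBB, hBc, hib, S, j, hj, hjB, hj1⟩⟩

namespace Loc
variable {O : ValuationSubring ℂ} {G : Type} [Group G] {i : MonoidAlgebra O G}
    {u : G} (L : Loc O i u)

/-- The multiplicity `m_u`. -/
noncomputable def m : ℕ := (L.S.ρ (res (cent u) (toK O G i))).rank

end Loc

theorem exists_odd_pow {G : Type} [Group G] (u : G) (hu : ∃ n : ℕ, orderOf u = 2 ^ n) :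
    ∃ k : ℕ, Odd k ∧ u ^ k = u⁻¹ := by
  obtain ⟨n, hn⟩ := hu
  rcases n with _ | n
  · refine ⟨1, odd_one, ?_⟩
    have : u = 1 := by rw [← orderOf_eq_one_iff, hn]; rfl
    rw [this]; simp
  · refine ⟨2 ^ (n + 1) - 1, ?_, ?_⟩
    · have : 1 ≤ 2 ^ n := Nat.one_le_two_pow
      refine ⟨2 ^ n - 1, ?_⟩
      rw [pow_succ]; omega
    · have h1 : u ^ (2 ^ (n + 1) - 1) * u = 1 := by
        rw [← pow_succ, Nat.sub_add_cancel Nat.one_le_two_pow, ← hn, pow_orderOf_eq_one]
      exact eq_inv_of_mul_eq_one_left h1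

variable {O : ValuationSubring ℂ} {G : Type} [Group G] [Fintype G]

theorem loc_trace (h2 : (2 : O) ∈ IsLocalRing.maximalIdeal O) {i : MonoidAlgebra O G}
    (hi : i * i = i) {u : G} (hu : ∃ n : ℕ, orderOf u = 2 ^ n)
    (hiu : el O u * i = i * el O u) (L : Loc O i u) (I : IrrData G) (a : Fin I.r) :
    I.chi a (toC O G (el O u * i)) = L.m * I.chi a (toC O G (el O u * incl O _ L.j)) ∧
    I.chi a (toC O G (el O u⁻¹ * i)) = L.m * I.chi a (toC O G (el O u⁻¹ * incl O _ L.j)) := by
  constructor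
  · have := local_trace O h2 u hu i hi hiu L.B L.hB L.hBc L.hib L.S L.j L.hj L.hjB L.hj1
      (TraceFun.ofChi O I a) 1 odd_one
    simp only [pow_one, TraceFun.ofChi_apply] at this
    exact this
  · obtain ⟨k, hk, hku⟩ := exists_odd_pow u hu
    have := local_trace O h2 u hu i hi hiu L.B L.hB L.hBc L.hib L.S L.j L.hj L.hjB L.hj1
      (TraceFun.ofChi O I a) k hk
    rw [hku] at this
    simp only [TraceFun.ofChi_apply] at this
    exact this

theorem loc_norm (h2 : (2 : O) ∈ IsLocalRing.maximalIdeal O) {i : MonoidAlgebra O G}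
    (hi : i * i = i) {u : G} (hu : ∃ n : ℕ, orderOf u = 2 ^ n)
    (hiu : el O u * i = i * el O u) (L : Loc O i u) (I : IrrData G) :
    ∃ n : ℕ, ∑ a, I.chi a (toC O G (el O u * i)) * I.chi a (toC O G (el O u⁻¹ * i)) =
      (L.m : ℂ) ^ 2 * (2 : ℂ) ^ n := by
  obtain ⟨J⟩ := exists_irrData (cent u)
  obtain ⟨n, hn⟩ := cartan_pow_two O h2 J L.B L.hB L.hBc L.S L.j L.hj L.hjB L.hj1
  refine ⟨n, ?_⟩
  rw [← hn]
  have h3 := col_same O h2 I u hu J L.j L.hj L.j L.hj
  calc ∑ a, I.chi a (toC O G (el O u * i)) * I.chi a (toC O G (el O u⁻¹ * i))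
      = ∑ a, (L.m : ℂ) ^ 2 * (I.chi a (toC O G (el O u * incl O _ L.j)) *
          I.chi a (toC O G (el O u⁻¹ * incl O _ L.j))) := by
        apply Finset.sum_congr rfl
        intro a _
        obtain ⟨h4, h5⟩ := loc_trace h2 hi hu hiu L I a
        rw [h4, h5]; ring
    _ = (L.m : ℂ) ^ 2 * ∑ a, I.chi a (toC O G (el O u * incl O _ L.j)) *
          I.chi a (toC O G (el O u⁻¹ * incl O _ L.j)) := by rw [Finset.mul_sum]
    _ = _ := by
        rw [h3]
        congr 1
        apply Finset.sum_congr rfl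
        intro b _
        ring

end Pool.Agent.Helper36.NB
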