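import Mathlib
import Pool.Agent.Helper36.NB.Asm4

open scoped BigOperators MonoidAlgebra
open Classical

namespace Pool.Agent.Helper36.NB

/-! ### Transport along group isomorphisms -/

section
variable {R : Type} [CommRing R] {H K : Type} [Group H] [Group K]

/-- Transport of `R[H]` to `R[K]`. -/
noncomputable def tr (R : Type) [CommRing R] {H K : Type} [Group H] [Group K] (φ : H ≃* K) :
    MonoidAlgebra R H →+* MonoidAlgebra R K :=
  MonoidAlgebra.mapDomainRingHom R (φ : H →* K)

theorem tr_single (φ : H ≃* K) (h : H) (r : R) :
    tr R φ (MonoidAlgebra.single h r) = MonoidAlgebra.single (φ h) r := by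
  simp [tr]

theorem tr_el (φ : H ≃* K) (h : H) : tr R φ (el R h) = el R (φ h) := by
  simp [tr, el]

theorem tr_symm (φ : H ≃* K) (a : MonoidAlgebra R H) : tr R φ.symm (tr R φ a) = a := by
  induction a using MonoidAlgebra.induction_linear with
  | zero => simp
  | add x y hx hy => rw [map_add, map_add, hx, hy]
  | single h r => rw [tr_single, tr_single, φ.symm_apply_apply]

theorem tr_symm' (φ : H ≃* K) (a : MonoidAlgebra R K) : tr R φ (tr R φ.symm a) = a := by
  have := tr_symm φ.symm a
  simpa using this

theorem tr_block (φ : H ≃* K) {b : MonoidAlgebra R H} (hb : IsBlock b) :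
    IsBlock (tr R φ b) := by
  obtain ⟨h0, h1, h2, h3⟩ := hb
  refine ⟨?_, ?_, ?_, ?_⟩
  · intro h
    apply h0
    rw [← tr_symm φ b, h, map_zero]
  · rw [← map_mul, h1]
  · intro a
    rw [← tr_symm' φ a, ← map_mul, h2, map_mul]
  · intro f hf hfc
    have h4 := h3 (tr R φ.symm f) (by rw [← map_mul, hf]) (by
      intro a
      rw [← tr_symm φ a, ← map_mul, hfc, map_mul])
    rcases h4 with h4 | h4
    · left
      have := congrArg (tr R φ) h4
      rwa [map_mul, tr_symm', map_zero] at this
    · right
      have := congrArg (tr R φ) h4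
      rwa [map_mul, tr_symm'] at this

theorem toK_tr (O : ValuationSubring ℂ) (φ : H ≃* K) (a : MonoidAlgebra O H) :
    toK O K (tr O φ a) = tr (resK O) φ (toK O H a) := by
  induction a using MonoidAlgebra.induction_linear with
  | zero => simp
  | add x y hx hy => simp only [map_add, hx, hy]
  | single h r => simp [toK, tr]

end

theorem blocks_mul {R : Type} [CommRing R] {H : Type} [Group H] {b b' : MonoidAlgebra R H}
    (hb : IsBlock b) (hb' : IsBlock b') : b = b' ∨ b * b' = 0 := by
  rcases hb.2.2.2 b' hb'.2.1 hb'.2.2.1 with h | h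
  · right
    rw [← hb.2.2.1 b']
    exact h
  · rcases hb'.2.2.2 b hb.2.1 hb.2.2.1 with h' | h'
    · right; exact h'
    · left
      rw [← h, hb.2.2.1 b', h']

/-- Conjugation by `g` from the centraliser of `u` to the centraliser of `g u g⁻¹`. -/
noncomputable def conjCent {G : Type} [Group G] (g u v : G) (h : g * u * g⁻¹ = v) :
    cent u ≃* cent v where
  toFun c := ⟨g * c * g⁻¹, by
    have hc := Subgroup.mem_centralizer_singleton_iff.mp c.2
    rw [Subgroup.mem_centralizer_singleton_iff, ← h]
    calc g * c * g⁻¹ * (g * u * g⁻¹) = g * (c * u) * g⁻¹ := by group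
      _ = g * (u * c) * g⁻¹ := by rw [hc]
      _ = g * u * g⁻¹ * (g * c * g⁻¹) := by group⟩
  invFun c := ⟨g⁻¹ * c * g, by
    have hc := Subgroup.mem_centralizer_singleton_iff.mp c.2
    rw [Subgroup.mem_centralizer_singleton_iff]
    have hu : u = g⁻¹ * v * g := by rw [← h]; group
    calc g⁻¹ * c * g * u = g⁻¹ * (c * v) * g := by rw [hu]; group
      _ = g⁻¹ * (v * c) * g := by rw [hc]
      _ = u * (g⁻¹ * c * g) := by rw [hu]; group⟩
  left_inv c := by
    apply Subtype.ext
    change g⁻¹ * (g * c * g⁻¹) * g = c
    group
  right_inv c := by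
    apply Subtype.ext
    change g * (g⁻¹ * c * g) * g⁻¹ = c
    group
  map_mul' a b := by
    apply Subtype.ext
    change g * (a * b) * g⁻¹ = g * a * g⁻¹ * (g * b * g⁻¹)
    group

theorem incl_tr_conj {R : Type} [CommRing R] {G : Type} [Group G] (g u v : G)
    (h : g * u * g⁻¹ = v) (a : MonoidAlgebra R (cent u)) :
    incl R _ (tr R (conjCent g u v h) a) = el R g * incl R _ a * el R g⁻¹ := by
  induction a using MonoidAlgebra.induction_linear with
  | zero => simp
  | add x y hx hy => simp only [map_add, hx, hy, mul_add, add_mul]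
  | single c r =>
    rw [tr_single]
    simp only [incl, MonoidAlgebra.mapDomainRingHom_apply, MonoidAlgebra.mapDomain_single, el,
      MonoidAlgebra.single_mul_single]
    simp [conjCent]

variable {O : ValuationSubring ℂ} {G : Type} [Group G] [Fintype G]

theorem loc_orth (h2 : (2 : O) ∈ IsLocalRing.maximalIdeal O) {i : MonoidAlgebra O G}
    (hi : i * i = i) {u v : G} (hu : ∃ n : ℕ, orderOf u = 2 ^ n)
    (hv : ∃ n : ℕ, orderOf v = 2 ^ n)
    (hiu : el O u * i = i * el O u) (hiv : el O v * i = i * el O v)
    (L : Loc O i u) (L' : Loc O i v) (I : IrrData G)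
    (hfus : ∀ g : G, g * u * g⁻¹ = v →
      el (resK O) g * incl (resK O) _ (toK O _ L.B) * el (resK O) g⁻¹ =
        incl (resK O) _ (toK O _ L'.B) → False) :
    ∑ a, I.chi a (toC O G (el O u * i)) * I.chi a (toC O G (el O v⁻¹ * i)) = 0 := by
  have hmain : ∑ a, I.chi a (toC O G (el O u * incl O _ L.j)) *
      I.chi a (toC O G (el O v⁻¹ * incl O _ L'.j)) = 0 := by
    by_cases hconj : IsConj u v
    · obtain ⟨g, hg⟩ := isConj_iff.mp hconj
      -- transport `L'` to `cent u`
      have hg' : g⁻¹ * v * g⁻¹⁻¹ = u := by rw [← hg]; group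
      set φ := conjCent g⁻¹ v u hg' with hφ
      set j'' := tr O φ L'.j with hj''
      set B'' := tr O φ L'.B with hB''
      have hjj : j'' * j'' = j'' := by rw [hj'', ← map_mul, L'.hj]
      have hBB : B'' * B'' = B'' := by rw [hB'', ← map_mul, L'.hB]
      have hjB : j'' * B'' = j'' := by rw [hj'', hB'', ← map_mul, L'.hjB]
      have hBc : ∀ a, a * B'' = B'' * a := by
        intro a
        rw [← tr_symm' φ a, hB'', ← map_mul, L'.hBc, map_mul]
      have hblk : IsBlock (toK O _ B'') := by
        rw [hB'', toK_tr]; exact tr_block φ L'.blk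
      have hne : toK O _ L.B ≠ toK O _ B'' := by
        intro heq
        apply hfus g hg
        rw [heq, ← toK_incl, hB'', hφ, incl_tr_conj, inv_inv, map_mul, map_mul, toK_el, toK_el,
          toK_incl]
        calc el (resK O) g * (el (resK O) g⁻¹ * incl (resK O) _ (toK O _ L'.B) *
              el (resK O) g) * el (resK O) g⁻¹
            = (el (resK O) g * el (resK O) g⁻¹) * incl (resK O) _ (toK O _ L'.B) *
              (el (resK O) g * el (resK O) g⁻¹) := by noncomm_ring
          _ = _ := by rw [el_mul_el_inv, one_mul, mul_one]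
      have hzero : L.B * B'' = 0 := by
        apply idem_eq_zero O
        · calc L.B * B'' * (L.B * B'') = L.B * (B'' * L.B) * B'' := by noncomm_ring
            _ = L.B * (L.B * B'') * B'' := by rw [L.hBc]
            _ = (L.B * L.B) * (B'' * B'') := by noncomm_ring
            _ = L.B * B'' := by rw [L.hB, hBB]
        · rw [map_mul]
          rcases blocks_mul L.blk hblk with h | h
          · exact absurd h hne
          · exact h
      obtain ⟨J⟩ := exists_irrData (cent u)
      have h3 := col_same O h2 I u hu J L.j L.hj j'' hjj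
      have h4 : ∀ a, I.chi a (toC O G (el O v⁻¹ * incl O _ L'.j)) =
          I.chi a (toC O G (el O u⁻¹ * incl O _ j'')) := by
        intro a
        have h5 : el O u⁻¹ * incl O _ j'' = el O g⁻¹ * ((el O v⁻¹ * incl O _ L'.j) * el O g) := by
          rw [hj'', hφ, incl_tr_conj, inv_inv]
          have h6 : u⁻¹ = g⁻¹ * v⁻¹ * g := by rw [← hg]; group
          rw [h6, el_mul, el_mul]
          calc el O g⁻¹ * el O v⁻¹ * el O g * (el O g⁻¹ * incl O _ L'.j * el O g)
              = el O g⁻¹ * el O v⁻¹ * (el O g * el O g⁻¹) * incl O _ L'.j * el O g := by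
                noncomm_ring
            _ = _ := by rw [el_mul_el_inv]; noncomm_ring
        conv_rhs => rw [h5, map_mul, chi_mul_comm, ← map_mul]
        congr 2
        rw [mul_assoc (el O v⁻¹ * incl O _ L'.j), el_mul_el_inv, mul_one]
      calc ∑ a, I.chi a (toC O G (el O u * incl O _ L.j)) *
            I.chi a (toC O G (el O v⁻¹ * incl O _ L'.j))
          = ∑ a, I.chi a (toC O G (el O u * incl O _ L.j)) *
            I.chi a (toC O G (el O u⁻¹ * incl O _ j'')) := by
            apply Finset.sum_congr rfl; intro a _; rw [h4]
        _ = _ := h3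
        _ = 0 := by
            apply Finset.sum_eq_zero
            intro b _
            have hCi : ∀ {X : MonoidAlgebra O (cent u)}, X * X = X →
                toC O _ X * toC O _ X = toC O _ X := fun hX => by rw [← map_mul, hX]
            have hcen : ∀ {X : MonoidAlgebra O (cent u)}, (∀ a, a * X = X * a) →
                ∀ y, y * toC O _ X = toC O _ X * y := by
              intro X hX y
              induction y using MonoidAlgebra.induction_linear with
              | zero => simp
              | add x y hx hy => rw [add_mul, mul_add, hx, hy]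
              | single g r =>
                have : (MonoidAlgebra.single g r : MonoidAlgebra ℂ (cent u)) =
                    r • toC O _ (el O g) := by
                  rw [toC_el]; simp [el]
                rw [this, smul_mul_assoc, ← map_mul, hX, map_mul, mul_smul_comm]
            rcases chi_central J b (toC O _ L.B) (hCi L.hB) (hcen L.hBc) with hb | hb
            · have : J.chi b (toC O _ L.j) = 0 := by
                rw [← L.hjB, map_mul, IrrData.chi, map_mul, Pi.mul_apply, hb, mul_zero,
                  Matrix.trace_zero]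
              rw [this, zero_mul]
            · have h7 : J.equiv (toC O _ B'') b = 0 := by
                have := congrArg (fun X => J.equiv (toC O _ X) b) hzero
                simpa [hb] using this
              have : J.chi b (toC O _ j'') = 0 := by
                rw [← hjB, map_mul, IrrData.chi, map_mul, Pi.mul_apply, h7, mul_zero,
                  Matrix.trace_zero]
              rw [this, mul_zero]
    · exact col_orth O h2 I u v hu hv L.j L.hj L'.j L'.hj hconj
  calc ∑ a, I.chi a (toC O G (el O u * i)) * I.chi a (toC O G (el O v⁻¹ * i))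
      = ∑ a, ((L.m : ℂ) * L'.m) * (I.chi a (toC O G (el O u * incl O _ L.j)) *
        I.chi a (toC O G (el O v⁻¹ * incl O _ L'.j))) := by
        apply Finset.sum_congr rfl
        intro a _
        rw [(loc_trace h2 hi hu hiu L I a).1, (loc_trace h2 hi hv hiv L' I a).2]
        ring
    _ = 0 := by rw [← Finset.mul_sum, hmain, mul_zero]

end Pool.Agent.Helper36.NB
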