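import Mathlib
import Pool.Agent.Helper36.NB.Defs
import Pool.Agent.Helper36.NB.E0

open scoped BigOperators MonoidAlgebra
open Classical

namespace Pool.Agent.Helper36.NB

variable {N : Type} [Group N]

namespace T1aux

open Matrix

/-- The matrix of `u` in the component `b`. -/
noncomputable def A (J : IrrData N) (b : Fin J.r) (u : N) :
    Matrix (Fin (J.d b)) (Fin (J.d b)) ℂ :=
  J.equiv (el ℂ u) b

theorem ch_eq (J : IrrData N) (b : Fin J.r) (u : N) : J.ch b u = (A J b u).trace := rfl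

theorem A_mul (J : IrrData N) (b : Fin J.r) (u v : N) :
    A J b (u * v) = A J b u * A J b v := by
  rw [A, el_mul, map_mul]; rfl

theorem A_one (J : IrrData N) (b : Fin J.r) : A J b 1 = 1 := by
  rw [A, el_one, map_one]; rfl

theorem A_inv_mul (J : IrrData N) (b : Fin J.r) (u : N) : A J b u⁻¹ * A J b u = 1 := by
  rw [← A_mul, inv_mul_cancel, A_one]

theorem A_mul_inv (J : IrrData N) (b : Fin J.r) (u : N) : A J b u * A J b u⁻¹ = 1 := by
  rw [← A_mul, mul_inv_cancel, A_one]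

theorem expand [Fintype N] (x : MonoidAlgebra ℂ N) : x = ∑ g : N, x.coeff g • el ℂ g := by
  ext g
  simp [el, MonoidAlgebra.coeff_sum]

theorem exists_comb [Fintype N] (J : IrrData N) (b : Fin J.r)
    (M : Matrix (Fin (J.d b)) (Fin (J.d b)) ℂ) :
    ∃ c : N → ℂ, M = ∑ u, c u • A J b u := by
  obtain ⟨x, hx⟩ : ∃ x, J.equiv x = Pi.single b M :=
    ⟨J.equiv.symm (Pi.single b M), J.equiv.apply_symm_apply _⟩
  refine ⟨fun u => x.coeff u, ?_⟩
  have h1 : M = J.equiv x b := by rw [hx, Pi.single_eq_same]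
  rw [h1]
  conv_lhs => rw [expand x]
  rw [map_sum, Finset.sum_apply]
  refine Finset.sum_congr rfl fun u _ => ?_
  rw [map_smul]
  rfl

theorem tau_surj (τ : N →* N) (z : N) (hτ2 : ∀ u, τ (τ u) = z⁻¹ * u * z) (g : N) :
    ∃ h, τ h = g := by
  refine ⟨τ (z * g * z⁻¹), ?_⟩
  rw [hτ2]
  group

/-- A matrix commuting with all `A (τ u)` is a scalar matrix. -/
theorem schur [Fintype N] (J : IrrData N) (b : Fin J.r) (τ : N →* N) (z : N)
    (hτ2 : ∀ u, τ (τ u) = z⁻¹ * u * z) (X : Matrix (Fin (J.d b)) (Fin (J.d b)) ℂ)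
    (hX : ∀ u, A J b (τ u) * X = X * A J b (τ u)) : ∃ c : ℂ, X = c • 1 := by
  have hcom : ∀ i j, Commute (Matrix.single i j (1 : ℂ)) X := by
    intro i j
    obtain ⟨c, hc⟩ := exists_comb J b (Matrix.single i j (1 : ℂ))
    rw [hc]
    refine Commute.sum_left _ _ _ fun u _ => ?_
    refine Commute.smul_left ?_ _
    obtain ⟨h, rfl⟩ := tau_surj τ z hτ2 u
    exact hX h
  obtain ⟨c, hc⟩ := Matrix.mem_range_scalar_iff_commute_single'.mpr hcom
  refine ⟨c, ?_⟩
  rw [← hc, Matrix.scalar_apply, Matrix.smul_one_eq_diagonal]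

/-- `B` is the matrix of an invariant form. -/
def Inv (J : IrrData N) (b : Fin J.r) (τ : N →* N)
    (B : Matrix (Fin (J.d b)) (Fin (J.d b)) ℂ) : Prop :=
  ∀ g, (A J b g)ᵀ * B * A J b (τ g) = B

/-- The average. -/
noncomputable def P [Fintype N] (J : IrrData N) (b : Fin J.r) (τ : N →* N)
    (X : Matrix (Fin (J.d b)) (Fin (J.d b)) ℂ) : Matrix (Fin (J.d b)) (Fin (J.d b)) ℂ :=
  ∑ u, (A J b u)ᵀ * X * A J b (τ u)

theorem P_inv [Fintype N] (J : IrrData N) (b : Fin J.r) (τ : N →* N)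
    (X : Matrix (Fin (J.d b)) (Fin (J.d b)) ℂ) : Inv J b τ (P J b τ X) := by
  intro g
  rw [P, Matrix.mul_sum, Matrix.sum_mul]
  refine Fintype.sum_equiv (Equiv.mulRight g) _ _ fun u => ?_
  rw [Equiv.coe_mulRight, A_mul, map_mul, A_mul, Matrix.transpose_mul]
  simp only [Matrix.mul_assoc]

theorem P_of_inv [Fintype N] (J : IrrData N) (b : Fin J.r) (τ : N →* N)
    (X : Matrix (Fin (J.d b)) (Fin (J.d b)) ℂ) (hX : Inv J b τ X) :
    P J b τ X = (Nat.card N : ℂ) • X := by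
  rw [P, Finset.sum_congr rfl fun u _ => hX u, Finset.sum_const, Finset.card_univ,
    Nat.card_eq_fintype_card, ← Nat.cast_smul_eq_nsmul ℂ]

/-- A nonzero invariant form is nondegenerate. -/
theorem inv_ker [Fintype N] (J : IrrData N) (b : Fin J.r) (τ : N →* N) (z : N)
    (hτ2 : ∀ u, τ (τ u) = z⁻¹ * u * z)
    (B : Matrix (Fin (J.d b)) (Fin (J.d b)) ℂ) (hB : Inv J b τ B) (hB0 : B ≠ 0)
    (w : Fin (J.d b) → ℂ) (hw : B *ᵥ w = 0) : w = 0 := by
  by_contra hw0
  apply hB0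
  have h1 : ∀ g, B *ᵥ (A J b g *ᵥ w) = 0 := by
    intro g
    obtain ⟨h, rfl⟩ := tau_surj τ z hτ2 g
    have h2 := congrArg (fun M => M *ᵥ w) (hB h)
    simp only [hw, ← Matrix.mulVec_mulVec] at h2
    have h3 := congrArg (fun v => (A J b h⁻¹)ᵀ *ᵥ v) h2
    simp only [Matrix.mulVec_zero, Matrix.mulVec_mulVec] at h3
    rw [← Matrix.mul_assoc, ← Matrix.mul_assoc, ← Matrix.transpose_mul, A_mul_inv,
      Matrix.transpose_one, Matrix.one_mul] at h3
    rw [Matrix.mulVec_mulVec]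
    exact h3
  have h2 : ∀ M : Matrix (Fin (J.d b)) (Fin (J.d b)) ℂ, B *ᵥ (M *ᵥ w) = 0 := by
    intro M
    obtain ⟨c, rfl⟩ := exists_comb J b M
    rw [Matrix.sum_mulVec, Matrix.mulVec_sum]
    refine Finset.sum_eq_zero fun u _ => ?_
    rw [Matrix.smul_mulVec, Matrix.mulVec_smul, h1, smul_zero]
  obtain ⟨i, hi⟩ : ∃ i, w i ≠ 0 := by
    by_contra h
    push Not at h
    exact hw0 (funext h)
  ext k l
  have h3 := congrFun (h2 (Matrix.single l i (w i)⁻¹)) k
  rw [Matrix.single_mulVec] at h3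
  have h4 : (Function.update (0 : Fin (J.d b) → ℂ) l ((w i)⁻¹ * w i)) = Pi.single l 1 := by
    rw [inv_mul_cancel₀ hi]
    rfl
  rw [h4, Matrix.mulVec_single_one] at h3
  exact h3

theorem inv_unit [Fintype N] (J : IrrData N) (b : Fin J.r) (τ : N →* N) (z : N)
    (hτ2 : ∀ u, τ (τ u) = z⁻¹ * u * z)
    (B : Matrix (Fin (J.d b)) (Fin (J.d b)) ℂ) (hB : Inv J b τ B) (hB0 : B ≠ 0) :
    IsUnit B := by
  rw [← Matrix.mulVec_injective_iff_isUnit]
  intro v w hvw
  rw [← sub_eq_zero]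
  refine inv_ker J b τ z hτ2 B hB hB0 _ ?_
  rw [Matrix.mulVec_sub, sub_eq_zero]
  exact hvw

/-- Invariant forms are unique up to scalars. -/
theorem inv_unique [Fintype N] (J : IrrData N) (b : Fin J.r) (τ : N →* N) (z : N)
    (hτ2 : ∀ u, τ (τ u) = z⁻¹ * u * z)
    (B B' : Matrix (Fin (J.d b)) (Fin (J.d b)) ℂ) (hB : Inv J b τ B) (hB0 : B ≠ 0)
    (hB' : Inv J b τ B') : ∃ c : ℂ, B' = c • B := by
  obtain ⟨C, hC1, hC2⟩ : ∃ C, C * B = 1 ∧ B * C = 1 := by
    obtain ⟨u, hu⟩ := inv_unit J b τ z hτ2 B hB hB0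
    exact ⟨↑u⁻¹, by rw [← hu, Units.inv_mul], by rw [← hu, Units.mul_inv]⟩
  obtain ⟨c, hc⟩ := schur J b τ z hτ2 (C * B') fun u => by
    -- `C = A(τ u) C A(u)ᵀ`
    have h1 : C = A J b (τ u) * C * (A J b u)ᵀ := by
      have h2 : (A J b (τ u) * C * (A J b u)ᵀ) * B = 1 := by
        have h3 : (A J b u)ᵀ * B = B * A J b (τ u⁻¹) := by
          have h4 := congrArg (fun M => M * A J b (τ u⁻¹)) (hB u)
          rw [Matrix.mul_assoc, ← A_mul, ← map_mul, mul_inv_cancel, map_one, A_one,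
            Matrix.mul_one] at h4
          exact h4
        rw [Matrix.mul_assoc, h3, Matrix.mul_assoc, ← Matrix.mul_assoc C, hC1, Matrix.one_mul,
          ← A_mul, ← map_mul, mul_inv_cancel, map_one, A_one]
      calc C = 1 * C := by rw [Matrix.one_mul]
        _ = ((A J b (τ u) * C * (A J b u)ᵀ) * B) * C := by rw [h2]
        _ = (A J b (τ u) * C * (A J b u)ᵀ) * (B * C) := by rw [Matrix.mul_assoc]
        _ = A J b (τ u) * C * (A J b u)ᵀ := by rw [hC2, Matrix.mul_one]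
    calc A J b (τ u) * (C * B') = A J b (τ u) * (C * ((A J b u)ᵀ * B' * A J b (τ u))) := by
          rw [hB' u]
      _ = (A J b (τ u) * C * (A J b u)ᵀ) * (B' * A J b (τ u)) := by
          simp only [Matrix.mul_assoc]
      _ = C * (B' * A J b (τ u)) := by rw [← h1]
      _ = C * B' * A J b (τ u) := by rw [Matrix.mul_assoc]
  refine ⟨c, ?_⟩
  calc B' = (B * C) * B' := by rw [hC2, Matrix.one_mul]
    _ = B * (C * B') := by rw [Matrix.mul_assoc]
    _ = c • B := by rw [hc, Matrix.mul_smul, Matrix.mul_one]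

theorem P_single [Fintype N] (J : IrrData N) (b : Fin J.r) (τ : N →* N)
    (i j k l : Fin (J.d b)) :
    P J b τ (Matrix.single k l 1) i j = ∑ u, A J b u k i * A J b (τ u) l j := by
  rw [P, Matrix.sum_apply]
  refine Finset.sum_congr rfl fun u _ => ?_
  rw [Matrix.mul_assoc, Matrix.mul_apply, Finset.sum_eq_single k]
  · rw [Matrix.transpose_apply, Matrix.mul_apply, Finset.sum_eq_single l]
    · rw [Matrix.single_apply_same, one_mul]
    · intro m _ hm
      rw [Matrix.single_apply_of_col_ne _ _ hm.symm, zero_mul]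
    · intro h; exact absurd (Finset.mem_univ _) h
  · intro m _ hm
    rw [Matrix.mul_apply, Finset.sum_eq_zero, mul_zero]
    intro n _
    rw [Matrix.single_apply_of_row_ne hm.symm, zero_mul]
  · intro h; exact absurd (Finset.mem_univ _) h

theorem P_expand [Fintype N] (J : IrrData N) (b : Fin J.r) (τ : N →* N)
    (X : Matrix (Fin (J.d b)) (Fin (J.d b)) ℂ) :
    P J b τ X = ∑ k, ∑ l, X k l • P J b τ (Matrix.single k l 1) := by
  ext i j
  simp only [Matrix.sum_apply, Matrix.smul_apply, P_single, smul_eq_mul, Finset.mul_sum]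
  rw [P, Matrix.sum_apply]
  calc ∑ u, ((A J b u)ᵀ * X * A J b (τ u)) i j
      = ∑ u, ∑ l, ∑ k, X k l * (A J b u k i * A J b (τ u) l j) := by
        refine Finset.sum_congr rfl fun u _ => ?_
        rw [Matrix.mul_apply]
        refine Finset.sum_congr rfl fun l _ => ?_
        rw [Matrix.mul_apply, Finset.sum_mul]
        refine Finset.sum_congr rfl fun k _ => ?_
        rw [Matrix.transpose_apply]
        ring
    _ = ∑ u, ∑ k, ∑ l, X k l * (A J b u k i * A J b (τ u) l j) :=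
        Finset.sum_congr rfl fun u _ => Finset.sum_comm
    _ = ∑ k, ∑ u, ∑ l, X k l * (A J b u k i * A J b (τ u) l j) := Finset.sum_comm
    _ = ∑ k, ∑ l, ∑ u, X k l * (A J b u k i * A J b (τ u) l j) :=
        Finset.sum_congr rfl fun u _ => Finset.sum_comm

/-- The twisted sum in terms of the averages. -/
theorem fs_sum [Fintype N] (J : IrrData N) (b : Fin J.r) (τ : N →* N) (z : N) :
    ∑ u, J.ch b (z * τ u * u) =
      ∑ k, ∑ l, ∑ i, A J b z i l * P J b τ (Matrix.single k l 1) i k := by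
  simp only [P_single, Finset.mul_sum]
  symm
  calc ∑ k, ∑ l, ∑ i, ∑ u, A J b z i l * (A J b u k i * A J b (τ u) l k)
      = ∑ k, ∑ l, ∑ u, ∑ i, A J b z i l * (A J b u k i * A J b (τ u) l k) :=
        Finset.sum_congr rfl fun k _ => Finset.sum_congr rfl fun l _ => Finset.sum_comm
    _ = ∑ k, ∑ u, ∑ l, ∑ i, A J b z i l * (A J b u k i * A J b (τ u) l k) :=
        Finset.sum_congr rfl fun k _ => Finset.sum_comm
    _ = ∑ u, ∑ k, ∑ l, ∑ i, A J b z i l * (A J b u k i * A J b (τ u) l k) :=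
        Finset.sum_comm
    _ = ∑ u, J.ch b (z * τ u * u) := by
        refine Finset.sum_congr rfl fun u _ => ?_
        rw [ch_eq, A_mul, A_mul, Matrix.trace_mul_comm, ← Matrix.mul_assoc, Matrix.trace]
        refine Finset.sum_congr rfl fun k _ => ?_
        rw [Matrix.diag_apply, Matrix.mul_apply]
        refine Finset.sum_congr rfl fun l _ => ?_
        rw [Matrix.mul_apply, Finset.sum_mul]
        refine Finset.sum_congr rfl fun i _ => ?_
        ring

theorem card_ne [Fintype N] : (Nat.card N : ℂ) ≠ 0 := by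
  exact_mod_cast Nat.card_pos.ne'

theorem exists_P_ne [Fintype N] (J : IrrData N) (b : Fin J.r) (τ : N →* N)
    (hb : ∀ u, J.ch b (τ u⁻¹) = J.ch b u) : ∃ X, P J b τ X ≠ 0 := by
  by_contra h
  push Not at h
  have h1 : ∑ u, J.ch b u * J.ch b u⁻¹ = 0 := by
    calc ∑ u, J.ch b u * J.ch b u⁻¹ = ∑ u, J.ch b u * J.ch b (τ u) := by
          refine Finset.sum_congr rfl fun u _ => ?_
          rw [← hb u⁻¹, inv_inv]
      _ = ∑ u, ∑ k, ∑ l, A J b u k k * A J b (τ u) l l := by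
          refine Finset.sum_congr rfl fun u _ => ?_
          rw [ch_eq, ch_eq, Matrix.trace, Matrix.trace, Finset.sum_mul_sum]
          rfl
      _ = ∑ k, ∑ u, ∑ l, A J b u k k * A J b (τ u) l l := Finset.sum_comm
      _ = ∑ k, ∑ l, ∑ u, A J b u k k * A J b (τ u) l l :=
          Finset.sum_congr rfl fun k _ => Finset.sum_comm
      _ = 0 := by
          refine Finset.sum_eq_zero fun k _ => Finset.sum_eq_zero fun l _ => ?_
          rw [← P_single, h]
          rfl
  have h3 := ch_orth J b b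
  rw [if_pos rfl, h1, zero_div] at h3
  exact zero_ne_one h3

/-- The transpose of an invariant form, twisted by `z`. -/
theorem inv_swap (J : IrrData N) (b : Fin J.r) (τ : N →* N) (z : N)
    (hτ2 : ∀ u, τ (τ u) = z⁻¹ * u * z) (B : Matrix (Fin (J.d b)) (Fin (J.d b)) ℂ)
    (hB : Inv J b τ B) : Inv J b τ (Bᵀ * A J b z) := by
  intro g
  obtain ⟨h, rfl⟩ := tau_surj τ z hτ2 g
  have h1 := congrArg Matrix.transpose (hB h)
  rw [Matrix.transpose_mul, Matrix.transpose_mul, Matrix.transpose_transpose] at h1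
  have h2 : A J b z * A J b (τ (τ h)) = A J b h * A J b z := by
    rw [← A_mul, ← A_mul, hτ2]
    congr 1
    group
  calc (A J b (τ h))ᵀ * (Bᵀ * A J b z) * A J b (τ (τ h))
      = (A J b (τ h))ᵀ * Bᵀ * (A J b z * A J b (τ (τ h))) := by
        simp only [Matrix.mul_assoc]
    _ = ((A J b (τ h))ᵀ * (Bᵀ * A J b h)) * A J b z := by
        rw [h2]
        simp only [Matrix.mul_assoc]
    _ = Bᵀ * A J b z := by rw [h1]

theorem fs_value [Fintype N] (J : IrrData N) (b : Fin J.r) (τ : N →* N) (z : N)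
    (hτ2 : ∀ u, τ (τ u) = z⁻¹ * u * z) (B : Matrix (Fin (J.d b)) (Fin (J.d b)) ℂ)
    (hB : Inv J b τ B) (hB0 : B ≠ 0) (c : ℂ) (hc : Bᵀ * A J b z = c • B) :
    ∑ u, J.ch b (z * τ u * u) = c * Nat.card N := by
  have h1 : ∀ k l, ∃ f : ℂ, P J b τ (Matrix.single k l 1) = f • B := fun k l =>
    inv_unique J b τ z hτ2 B _ hB hB0 (P_inv J b τ _)
  choose f hf using h1
  have h2 : ∑ k, ∑ l, f k l * B k l = Nat.card N := by
    have h3 := P_expand J b τ B
    rw [P_of_inv J b τ B hB] at h3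
    simp only [hf, smul_smul, ← Finset.sum_smul] at h3
    rw [← sub_eq_zero, ← sub_smul, smul_eq_zero, or_iff_left hB0, sub_eq_zero] at h3
    rw [h3]
    exact Finset.sum_congr rfl fun k _ => Finset.sum_congr rfl fun l _ => mul_comm _ _
  rw [fs_sum, ← h2, Finset.mul_sum]
  refine Finset.sum_congr rfl fun k _ => ?_
  rw [Finset.mul_sum]
  refine Finset.sum_congr rfl fun l _ => ?_
  have h4 := congrFun (congrFun hc k) l
  rw [Matrix.mul_apply, Matrix.smul_apply, smul_eq_mul] at h4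
  simp only [Matrix.transpose_apply] at h4
  calc ∑ i, A J b z i l * P J b τ (Matrix.single k l 1) i k
      = f k l * ∑ i, B i k * A J b z i l := by
        rw [Finset.mul_sum]
        refine Finset.sum_congr rfl fun i _ => ?_
        rw [hf, Matrix.smul_apply, smul_eq_mul]
        ring
    _ = c * (f k l * B k l) := by rw [h4]; ring

theorem c_sq [Fintype N] (J : IrrData N) (b : Fin J.r) (τ : N →* N) (z : N)
    (hτz : τ z = z) (B : Matrix (Fin (J.d b)) (Fin (J.d b)) ℂ)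
    (hB : Inv J b τ B) (hB0 : B ≠ 0) (c : ℂ) (hc : Bᵀ * A J b z = c • B) : c * c = 1 := by
  have h1 := congrArg Matrix.transpose hc
  rw [Matrix.transpose_mul, Matrix.transpose_transpose, Matrix.transpose_smul] at h1
  have h2 := hB z
  rw [hτz, h1, Matrix.smul_mul, hc, smul_smul] at h2
  have h3 : (c * c - 1) • B = 0 := by rw [sub_smul, h2, one_smul, sub_self]
  rw [smul_eq_zero, or_iff_left hB0, sub_eq_zero] at h3
  exact h3

theorem twi_of [Fintype N] (J : IrrData N) (b : Fin J.r) (τ : N →* N) (z : N)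
    (hτ2 : ∀ u, τ (τ u) = z⁻¹ * u * z)
    (B : Matrix (Fin (J.d b)) (Fin (J.d b)) ℂ)
    (hB : Inv J b τ B) (hB0 : B ≠ 0) (c : ℂ) (hc : Bᵀ * A J b z = c • B) :
    Twi τ z c (J.ch b) := by
  refine ⟨J.d b,
    { toFun := fun g => Matrix.toLin' (A J b g)
      map_one' := by
        rw [A_one, Matrix.toLin'_one]
        rfl
      map_mul' := fun g h => by
        rw [A_mul, Matrix.toLin'_mul]
        rfl }, Matrix.toLinearMap₂' ℂ B, ?_, ?_, ?_, ?_⟩
  · intro g
    show LinearMap.trace ℂ _ (Matrix.toLin' (A J b g)) = _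
    rw [Matrix.trace_toLin'_eq]
    rfl
  · intro v hv
    have hu : IsUnit Bᵀ := by
      rw [Matrix.isUnit_transpose]
      exact inv_unit J b τ z hτ2 B hB hB0
    rw [← Matrix.mulVec_injective_iff_isUnit] at hu
    apply hu
    simp only [Matrix.mulVec_zero]
    rw [Matrix.mulVec_transpose]
    refine dotProduct_eq_zero _ fun w => ?_
    rw [← Matrix.dotProduct_mulVec, ← Matrix.toLinearMap₂'_apply']
    exact hv w
  · intro u v w
    rw [Matrix.toLinearMap₂'_apply', Matrix.toLinearMap₂'_apply']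
    show (A J b u *ᵥ v) ⬝ᵥ (B *ᵥ w) = v ⬝ᵥ (B *ᵥ (A J b (τ u⁻¹) *ᵥ w))
    rw [← Matrix.vecMul_transpose, ← Matrix.dotProduct_mulVec, Matrix.mulVec_mulVec,
      Matrix.mulVec_mulVec]
    congr 2
    have h4 := congrArg (fun M => M * A J b (τ u⁻¹)) (hB u)
    rw [Matrix.mul_assoc, ← A_mul, ← map_mul, mul_inv_cancel, map_one, A_one,
      Matrix.mul_one] at h4
    exact h4
  · intro v w
    rw [Matrix.toLinearMap₂'_apply', Matrix.toLinearMap₂'_apply']
    show w ⬝ᵥ (B *ᵥ v) = c * (v ⬝ᵥ (B *ᵥ (A J b z⁻¹ *ᵥ w)))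
    have h4 : Bᵀ = c • (B * A J b z⁻¹) := by
      have h5 := congrArg (fun M => M * A J b z⁻¹) hc
      rw [Matrix.mul_assoc, A_mul_inv, Matrix.mul_one] at h5
      rw [h5, Matrix.smul_mul]
    rw [Matrix.mulVec_mulVec, ← smul_eq_mul, ← dotProduct_smul, ← Matrix.smul_mulVec, ← h4,
      Matrix.dotProduct_mulVec, Matrix.mulVec_transpose, dotProduct_comm]

end T1aux

/-- The twisted Frobenius-Schur indicator. -/
theorem fs_twisted [Fintype N] (J : IrrData N) (τ : N →* N) (z : N)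
    (hτ2 : ∀ u, τ (τ u) = z⁻¹ * u * z) (hτz : τ z = z) (b : Fin J.r)
    (hb : ∀ u, J.ch b (τ u⁻¹) = J.ch b u) :
    ∃ s : ℤ, (s = 1 ∨ s = -1) ∧
      (∑ u, J.ch b (z * τ u * u)) / (Nat.card N : ℂ) = s ∧ Twi τ z s (J.ch b) := by
  obtain ⟨X, hX⟩ := T1aux.exists_P_ne J b τ hb
  have hB := T1aux.P_inv J b τ X
  obtain ⟨c, hc⟩ := T1aux.inv_unique J b τ z hτ2 _ _ hB hX (T1aux.inv_swap J b τ z hτ2 _ hB)
  have h1 := T1aux.c_sq J b τ z hτz _ hB hX c hc
  have h2 := T1aux.fs_value J b τ z hτ2 _ hB hX c hc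
  have h3 := T1aux.twi_of J b τ z hτ2 _ hB hX c hc
  obtain ⟨s, hs, hsc⟩ : ∃ s : ℤ, (s = 1 ∨ s = -1) ∧ (s : ℂ) = c := by
    rcases mul_self_eq_one_iff.mp h1 with h | h
    · exact ⟨1, Or.inl rfl, by rw [h]; simp⟩
    · exact ⟨-1, Or.inr rfl, by rw [h]; simp⟩
  refine ⟨s, hs, ?_, ?_⟩
  · rw [h2, hsc, mul_div_assoc, div_self T1aux.card_ne, mul_one]
  · rw [hsc]
    exact h3

theorem fs_twisted_zero [Fintype N] (J : IrrData N) (τ : N →* N) (z : N)
    (hτ2 : ∀ u, τ (τ u) = z⁻¹ * u * z) (hτz : τ z = z) (b : Fin J.r)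
    (hb : ¬ ∀ u, J.ch b (τ u⁻¹) = J.ch b u) :
    (∑ u, J.ch b (z * τ u * u)) = 0 := by
  have h0 : ∀ X, T1aux.P J b τ X = 0 := by
    intro X
    by_contra hX
    apply hb
    intro u
    have hB := T1aux.P_inv J b τ X
    obtain ⟨v, hv⟩ := T1aux.inv_unit J b τ z hτ2 _ hB hX
    rw [← hv] at hB
    have h1 := hB u
    have h2 : (T1aux.A J b u).transpose = v.val * T1aux.A J b (τ u⁻¹) * v⁻¹.val := by
      calc (T1aux.A J b u).transpose
          = (T1aux.A J b u).transpose * v.val *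
              (T1aux.A J b (τ u) * T1aux.A J b (τ u⁻¹)) * v⁻¹.val := by
            rw [← T1aux.A_mul, ← map_mul, mul_inv_cancel, map_one, T1aux.A_one, Matrix.mul_one,
              Matrix.mul_assoc, Units.mul_inv, Matrix.mul_one]
        _ = v.val * T1aux.A J b (τ u⁻¹) * v⁻¹.val := by
            rw [← Matrix.mul_assoc, h1]
    rw [T1aux.ch_eq, T1aux.ch_eq, ← Matrix.trace_transpose (T1aux.A J b u), h2,
      Matrix.trace_mul_comm, ← Matrix.mul_assoc, Units.inv_mul, Matrix.one_mul]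
  rw [T1aux.fs_sum]
  refine Finset.sum_eq_zero fun k _ => Finset.sum_eq_zero fun l _ =>
    Finset.sum_eq_zero fun i _ => ?_
  rw [h0, Matrix.zero_apply, mul_zero]

end Pool.Agent.Helper36.NB
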