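import Mathlib
import Pool.Agent.Helper36.NB.Defs
import Pool.Agent.Helper36.NB.M1
import Pool.Agent.Helper36.NB.E0
import Pool.Agent.Helper36.NB.T1

open scoped BigOperators MonoidAlgebra
open Classical

namespace Pool.Agent.Helper36.NB

namespace H1aux

variable {G : Type} [Group G]

theorem alg_el {m : ℕ} (ρ : Representation ℂ G (Fin m → ℂ)) (g : G) :
    ρ.asAlgebraHom (el ℂ g) = ρ g := by
  simp [el]

theorem core (D : Subgroup G) {m : ℕ} (ρ : Representation ℂ G (Fin m → ℂ))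
    (i : MonoidAlgebra ℂ G) (hi : i * i = i) (hiD : Cen D i) :
    ∃ (n : ℕ) (ρ' : Representation ℂ D (Fin n → ℂ)) (ι : (Fin n → ℂ) →ₗ[ℂ] (Fin m → ℂ)),
      Function.Injective ι ∧ LinearMap.range ι = LinearMap.range (ρ.asAlgebraHom i) ∧
      (∀ u v, ι (ρ' u v) = ρ u (ι v)) ∧
      ∀ u : D, ρ'.character u = LinearMap.trace ℂ _ (ρ.asAlgebraHom (el ℂ (u : G) * i)) := by
  set P : Module.End ℂ (Fin m → ℂ) := ρ.asAlgebraHom i with hP
  have hPP : ∀ x, P (P x) = P x := by
    intro x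
    rw [← Module.End.mul_apply, hP, ← map_mul, hi]
  have hcomm : ∀ u : D, ∀ x, ρ u (P x) = P (ρ u x) := by
    intro u x
    have h1 := hiD u u.2
    have h2 := congrArg ρ.asAlgebraHom h1
    rw [map_mul, map_mul, alg_el] at h2
    have h3 := congrArg (fun f : Module.End ℂ (Fin m → ℂ) => f x) h2
    exact h3
  set W : Submodule ℂ (Fin m → ℂ) := LinearMap.range P with hW
  have hinv : ∀ u : D, W ≤ W.comap (ρ.comp D.subtype u) := by
    rintro u x ⟨y, rfl⟩
    refine ⟨ρ u y, ?_⟩
    rw [← hcomm]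
    rfl
  set σ : Representation ℂ D W :=
    Representation.subrepresentation (ρ.comp D.subtype) W hinv with hσ
  let b := Module.finBasis ℂ W
  let e : W ≃ₗ[ℂ] (Fin (Module.finrank ℂ W) → ℂ) := b.equivFun
  let ρ' : Representation ℂ D (Fin (Module.finrank ℂ W) → ℂ) :=
    { toFun := fun u => e.conj (σ u)
      map_one' := by
        rw [map_one]
        exact LinearEquiv.conj_id e
      map_mul' := fun u v => by
        rw [map_mul]
        exact LinearEquiv.conj_comp e _ _ }
  refine ⟨Module.finrank ℂ W, ρ', W.subtype ∘ₗ e.symm.toLinearMap, ?_, ?_, ?_, ?_⟩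
  · exact W.injective_subtype.comp e.symm.injective
  · rw [LinearMap.range_comp, LinearEquiv.range, Submodule.map_top, Submodule.range_subtype]
  · intro u v
    change ((e.symm (e (σ u (e.symm v)))) : Fin m → ℂ) = _
    rw [e.symm_apply_apply]
    rfl
  · intro u
    change LinearMap.trace ℂ _ (e.conj (σ u)) = _
    rw [LinearMap.trace_conj', map_mul, alg_el]
    have hf : ∀ x, (ρ (u : G) * P) x ∈ W := by
      intro x
      refine ⟨ρ u x, ?_⟩
      rw [Module.End.mul_apply, ← hcomm]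
    rw [← LinearMap.trace_restrict_eq_of_forall_mem W _ hf]
    congr 1
    ext ⟨x, hx⟩ : 1
    obtain ⟨y, rfl⟩ := hx
    apply Subtype.ext
    change ρ u (P y) = ρ u (P (P y))
    rw [hPP]

theorem trace_alg [Fintype G] (I : IrrData G) (a : Fin I.r) {m : ℕ}
    (ρ : Representation ℂ G (Fin m → ℂ)) (hρ : ∀ u, ρ.character u = I.ch a u)
    (x : MonoidAlgebra ℂ G) :
    LinearMap.trace ℂ _ (ρ.asAlgebraHom x) = I.chi a x := by
  induction x using MonoidAlgebra.induction_linear with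
  | zero => 
    rw [map_zero, map_zero]
    have := chi_smul I a 0 0
    rw [zero_smul, zero_mul] at this
    exact this.symm
  | add x y hx hy => rw [map_add, map_add, chi_add, hx, hy]
  | single g c =>
    have h1 : (MonoidAlgebra.single g c : MonoidAlgebra ℂ G) = c • el ℂ g := by
      simp [el]
    rw [h1, map_smul, map_smul, alg_el, chi_smul, smul_eq_mul]
    congr 1
    exact hρ g

end H1aux

variable {G : Type} [Group G] [Fintype G] (I : IrrData G) (D : Subgroup G)

theorem kappa_char (i : MonoidAlgebra ℂ G) (hi : i * i = i) (hiD : Cen D i) (a : Fin I.r) :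
    IsChar (fun u : D => I.chi a (el ℂ (u : G) * i)) := by
  obtain ⟨m, ρ, hρ⟩ := ch_isChar I a
  obtain ⟨n, ρ', ι, -, -, -, h4⟩ := H1aux.core D ρ i hi hiD
  exact ⟨n, ρ', fun u => by rw [h4, H1aux.trace_alg I a ρ hρ]⟩

theorem kappa_integral (i : MonoidAlgebra ℂ G) (hi : i * i = i) (u : G)
    (hiu : el ℂ u * i = i * el ℂ u) (a : Fin I.r) :
    IsIntegral ℤ (I.chi a (el ℂ u * i)) := by
  have ho : 0 < orderOf u := orderOf_pos u
  refine isIntegral_trace_of_pow (I.equiv (el ℂ u * i) a) (orderOf u) ho ?_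
  have hel : ∀ k : ℕ, (el ℂ u) ^ k = el ℂ (u ^ k) := by
    intro k
    induction k with
    | zero => rw [pow_zero, pow_zero, el_one]
    | succ k ih => rw [pow_succ, ih, pow_succ, el_mul]
  have hip : ∀ k : ℕ, i ^ (k + 1) = i := by
    intro k
    induction k with
    | zero => rw [zero_add, pow_one]
    | succ k ih => rw [pow_succ, ih, hi]
  have h1 : (el ℂ u * i) ^ (orderOf u + 1) = el ℂ u * i := by
    have hc : Commute (el ℂ u) i := hiu
    rw [hc.mul_pow, hip, hel, pow_succ, pow_orderOf_eq_one, one_mul]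
  calc (I.equiv (el ℂ u * i) a) ^ (orderOf u + 1)
      = (I.equiv (el ℂ u * i) ^ (orderOf u + 1)) a := rfl
    _ = I.equiv ((el ℂ u * i) ^ (orderOf u + 1)) a := by rw [map_pow]
    _ = _ := by rw [h1]

/-- The form on `i V` for a real irreducible character. -/
theorem kappa_twi (t : G) (τ : D →* D) (hτ : ∀ u : D, ((τ u : D) : G) = t⁻¹ * u * t)
    (z : D) (hz : (z : G) = t * t) (i : MonoidAlgebra ℂ G) (hi : i * i = i) (hiD : Cen D i)
    (hiψ : el ℂ t * inv' i * el ℂ t⁻¹ = i) (a : Fin I.r)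
    (hreal : ∀ g, I.ch a g⁻¹ = I.ch a g) :
    ∃ s : ℤ, (s = 1 ∨ s = -1) ∧ (∑ g : G, I.ch a (g * g)) / (Nat.card G : ℂ) = s ∧
      Twi τ z s (fun u : D => I.chi a (el ℂ (u : G) * i)) := by
  obtain ⟨s, hs, hsum, m, ρ, β, h1, h2, h3, h4⟩ := fs_twisted I (MonoidHom.id G) 1
    (by intro u; simp) rfl a (by intro u; exact hreal u)
  refine ⟨s, hs, ?_, ?_⟩
  · rw [← hsum]
    simp
  obtain ⟨n, ρ', ι, k1, k2, k3, k4⟩ := H1aux.core D ρ i hi hiD
  -- the form `β` and the algebra
  have h3' : ∀ (u : G) v w, β (ρ u v) w = β v (ρ u⁻¹ w) := fun u v w => h3 u v w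
  have h4' : ∀ v w, β w v = s * β v w := by
    intro v w
    have := h4 v w
    rw [inv_one, map_one] at this
    exact this
  have hinv : ∀ (x : MonoidAlgebra ℂ G) v w,
      β (ρ.asAlgebraHom x v) w = β v (ρ.asAlgebraHom (inv' x) w) := by
    intro x v w
    induction x using MonoidAlgebra.induction_linear with
    | zero => simp [inv']
    | add x y hx hy =>
      have e1 : inv' (x + y) = inv' x + inv' y := by
        simp [inv', MonoidAlgebra.mapDomain_add]
      rw [e1, map_add, map_add, LinearMap.add_apply, LinearMap.add_apply, map_add, map_add,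
        LinearMap.add_apply, hx, hy]
    | single g c =>
      have e1 : inv' (MonoidAlgebra.single g c : MonoidAlgebra ℂ G)
          = MonoidAlgebra.single g⁻¹ c := by
        simp [inv']
      rw [e1, Representation.asAlgebraHom_single, Representation.asAlgebraHom_single,
        LinearMap.smul_apply, LinearMap.smul_apply, map_smul, map_smul, LinearMap.smul_apply, h3']
  have hιi : ∀ v, ρ.asAlgebraHom i (ι v) = ι v := by
    intro v
    have hv : ι v ∈ LinearMap.range (ρ.asAlgebraHom i) := by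
      rw [← k2]
      exact ⟨v, rfl⟩
    obtain ⟨y, hy⟩ := hv
    rw [← hy, ← Module.End.mul_apply, ← map_mul, hi]
  have hzt : ∀ x, ρ t (ρ (z : G)⁻¹ x) = ρ t⁻¹ x := by
    intro x
    rw [← Module.End.mul_apply, ← map_mul, hz]
    congr 2
    group
  refine ⟨n, ρ', (β.compl₁₂ ι (ρ t ∘ₗ ι)), ?_, ?_, ?_, ?_⟩
  · intro u
    rw [k4, H1aux.trace_alg I a ρ h1]
  · intro v hv
    apply k1
    rw [map_zero]
    apply h2
    intro w
    rw [← hιi v, hinv]
    -- `inv' i = t⁻¹ i t`
    have e1 : inv' i = el ℂ t⁻¹ * i * el ℂ t := by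
      have e2 : el ℂ t⁻¹ * (el ℂ t * inv' i * el ℂ t⁻¹) * el ℂ t = inv' i := by
        have e3 : el ℂ t⁻¹ * el ℂ t = 1 := by
          rw [← el_mul, inv_mul_cancel, el_one]
        calc el ℂ t⁻¹ * (el ℂ t * inv' i * el ℂ t⁻¹) * el ℂ t
            = (el ℂ t⁻¹ * el ℂ t) * inv' i * (el ℂ t⁻¹ * el ℂ t) := by simp only [mul_assoc]
          _ = inv' i := by rw [e3, one_mul, mul_one]
      rw [← e2, hiψ]
    rw [e1, map_mul, map_mul, H1aux.alg_el, H1aux.alg_el, Module.End.mul_apply,
      Module.End.mul_apply, ← hzt]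
    have e4 : ρ (z : G)⁻¹ (ρ.asAlgebraHom i (ρ t w)) = ρ.asAlgebraHom i (ρ (z : G)⁻¹ (ρ t w)) := by
      have e5 := hiD (z : G)⁻¹ (D.inv_mem z.2)
      have e6 := congrArg ρ.asAlgebraHom e5
      rw [map_mul, map_mul, H1aux.alg_el] at e6
      exact congrArg (fun f : Module.End ℂ (Fin m → ℂ) => f (ρ t w)) e6
    rw [e4]
    have e7 : ρ.asAlgebraHom i (ρ (z : G)⁻¹ (ρ t w)) ∈ LinearMap.range ι := by
      rw [k2]
      exact ⟨_, rfl⟩
    obtain ⟨w', hw'⟩ := e7
    rw [← hw']
    exact hv w'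
  · intro u v w
    change β (ι (ρ' u v)) (ρ t (ι w)) = β (ι v) (ρ t (ι (ρ' (τ u⁻¹) w)))
    rw [k3, k3, h3', hτ]
    congr 1
    rw [← Module.End.mul_apply, ← Module.End.mul_apply, ← map_mul, ← map_mul]
    congr 2
    rw [Subgroup.coe_inv]
    group
  · intro v w
    change β (ι w) (ρ t (ι v)) = s * β (ι v) (ρ t (ι (ρ' z⁻¹ w)))
    rw [k3, h4', h3', Subgroup.coe_inv, hzt]

end Pool.Agent.Helper36.NB
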