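import Mathlib
import Pool.Agent.Helper36.NB.Defs
import Pool.Agent.Helper36.NB.E1

open scoped BigOperators MonoidAlgebra
open Classical

namespace Pool.Agent.Helper36.NB

namespace K3aux

theorem integral_mem (O : ValuationSubring ℂ) {w : ℂ} (hw : IsIntegral ℤ w) : w ∈ O := by
  have h1 : IsIntegral O w := hw.tower_top
  obtain ⟨y, hy⟩ := IsIntegrallyClosed.isIntegral_iff.mp h1
  rw [← hy]
  exact y.2

theorem odd_not_mem (O : ValuationSubring ℂ) (h2 : (2 : O) ∈ IsLocalRing.maximalIdeal O)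
    {n : ℕ} (hn : Odd n) : ((n : ℕ) : O) ∉ IsLocalRing.maximalIdeal O := by
  obtain ⟨k, rfl⟩ := hn
  intro h
  have h3 : (1 : O) ∈ IsLocalRing.maximalIdeal O := by
    have h4 : (2 : O) * (k : O) ∈ IsLocalRing.maximalIdeal O :=
      Ideal.mul_mem_right _ _ h2
    have h5 := Ideal.sub_mem _ h h4
    have h6 : (((2 * k + 1 : ℕ)) : O) - 2 * (k : O) = 1 := by push_cast; ring
    rwa [h6] at h5
  exact (Ideal.ne_top_iff_one _).mp (IsLocalRing.maximalIdeal.isMaximal O).ne_top h3

theorem even_mem (O : ValuationSubring ℂ) (h2 : (2 : O) ∈ IsLocalRing.maximalIdeal O)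
    {n : ℕ} (hn : Even n) : ((n : ℕ) : O) ∈ IsLocalRing.maximalIdeal O := by
  obtain ⟨k, rfl⟩ := hn
  have h6 : (((k + k : ℕ)) : O) = 2 * (k : O) := by push_cast; ring
  rw [h6]
  exact Ideal.mul_mem_right _ _ h2

theorem card_conj_mul {N : Type} [Group N] [Fintype N] (u : N) :
    (Finset.univ.filter fun v : N => IsConj u v).card *
      Nat.card (Subgroup.centralizer {u}) = Nat.card N := by
  have h1 := MulAction.card_orbit_mul_card_stabilizer_eq_card_group (ConjAct N) u
  rw [Subgroup.nat_card_centralizer_nat_card_stabilizer]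
  have h2 : (Finset.univ.filter fun v : N => IsConj u v).card =
      Fintype.card (MulAction.orbit (ConjAct N) u) := by
    rw [← Set.toFinset_card]
    congr 1
    ext v
    simp only [Finset.mem_filter, Finset.mem_univ, true_and, Set.mem_toFinset,
      ConjAct.mem_orbit_conjAct]
    exact isConj_comm
  rw [h2, Nat.card_eq_fintype_card, h1, ConjAct.card, Nat.card_eq_fintype_card]

/-- An involution preserving the terms of an odd sum of natural numbers has a fixed point with
odd term. -/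
theorem exists_fixed {ι : Type} [Fintype ι] (f : ι → ℕ) (bar : ι → ι)
    (hb : ∀ a, bar (bar a) = a) (hf : ∀ a, f (bar a) = f a) (ho : Odd (∑ a, f a)) :
    ∃ a, bar a = a ∧ Odd (f a) := by
  by_contra hc
  push Not at hc
  have h1 : (∑ a, ((f a : ℕ) : ZMod 2)) = 0 := by
    apply Finset.sum_involution (fun a _ => bar a)
    · intro a _
      rw [hf a]
      have h2 : (2 : ZMod 2) = 0 := by decide
      have h3 : ((f a : ℕ) : ZMod 2) + ((f a : ℕ) : ZMod 2) = 2 * ((f a : ℕ) : ZMod 2) := by ring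
      rw [h3, h2, zero_mul]
    · intro a _ ha hba
      have h2 := hc a hba
      rw [Nat.not_odd_iff_even] at h2
      exact ha ((ZMod.natCast_eq_zero_iff_even).mpr h2)
    · intro a _
      exact Finset.mem_univ _
    · intro a _
      exact hb a
  rw [← Nat.cast_sum, ZMod.natCast_eq_zero_iff_even] at h1
  exact (Nat.not_even_iff_odd.mpr ho) h1

end K3aux

open K3aux

theorem count_odd {N : Type} [Group N] [Fintype N] (hN : IsPGroup 2 N) {ι : Type} [Fintype ι]
    (τ : N →* N) (z : N) (hτ2 : ∀ u, τ (τ u) = z⁻¹ * u * z) (hτz : τ z = z)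
    (X : CountData N ι τ z) (O : ValuationSubring ℂ)
    (h2 : (2 : O) ∈ IsLocalRing.maximalIdeal O) :
    ∃ a₀, X.bar a₀ = a₀ ∧ X.d a₀ ≠ 0 ∧
      (∃ k : ℕ, Odd k ∧ (∑ u, X.κ a₀ u) / (Nat.card N : ℂ) = k) ∧
      (∀ u, X.κ a₀ u ≠ 0) ∧ (∀ u, Odd (X.m u)) ∧
      ∀ u, X.c u = Nat.card (Subgroup.centralizer {u}) := by
  have hcard0 : (Nat.card N : ℂ) ≠ 0 := by
    exact_mod_cast (Nat.card_pos (α := N)).ne'
  have hm1 : (X.m 1 : ℂ) ≠ 0 := by exact_mod_cast X.modd.pos.ne'
  -- averages
  have hk : ∀ a, ∃ k : ℕ, (∑ u, X.κ a u) / (Nat.card N : ℂ) = k := by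
    intro a
    obtain ⟨k, hk⟩ := char_inner (X.κ a) (fun _ => 1) (X.isChar a) isChar_one
    exact ⟨k, by simpa using hk⟩
  choose k hk using hk
  have hk' : ∀ a, ∑ u, X.κ a u = (k a : ℂ) * Nat.card N := fun a => by
    rw [← hk a]; field_simp
  -- orthogonality to the first column
  have horth1 : ∀ u, u ≠ 1 → ∑ a, (X.d a : ℂ) * X.κ a u = 0 := by
    intro u hu
    have h1 : ¬ IsConj (1 : N) u⁻¹ := by
      rw [isConj_one_right]
      simpa using hu
    have h3 := X.orth 1 u⁻¹ h1
    have h4 : (X.m 1 : ℂ) * ∑ a, (X.d a : ℂ) * X.κ a u = 0 := by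
      rw [← h3, Finset.mul_sum]
      apply Finset.sum_congr rfl
      intro a _
      rw [X.kone a, inv_inv]
      ring
    exact (mul_eq_zero.mp h4).resolve_left hm1
  have hone : ∑ a, (X.d a : ℂ) * X.κ a 1 = X.m 1 * Nat.card N := by
    have h3 : ((∑ a, (X.d a) ^ 2 : ℕ) : ℂ) = Nat.card N := by rw [X.sumsq]
    rw [← h3]
    push_cast
    rw [Finset.mul_sum]
    apply Finset.sum_congr rfl
    intro a _
    rw [X.kone a]
    ring
  have hdk : ∑ a, X.d a * k a = X.m 1 := by
    have h3 : ((∑ a, X.d a * k a : ℕ) : ℂ) * Nat.card N = (X.m 1 : ℂ) * Nat.card N := by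
      push_cast
      rw [Finset.sum_mul]
      have h4 : ∀ a, (X.d a : ℂ) * (k a : ℂ) * Nat.card N = ∑ u, (X.d a : ℂ) * X.κ a u := by
        intro a
        rw [← Finset.mul_sum, hk' a]
        ring
      rw [Finset.sum_congr rfl fun a _ => h4 a, Finset.sum_comm,
        Finset.sum_eq_single 1 (fun u _ hu => horth1 u hu) (by simp), hone]
    have h5 := mul_right_cancel₀ hcard0 h3
    exact_mod_cast h5
  -- the symmetry
  have hτinj : Function.Injective τ := by
    intro x y h
    have h3 := congrArg τ h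
    rw [hτ2, hτ2] at h3
    simpa using h3
  have hbij : Function.Bijective (fun u : N => τ u⁻¹) := by
    apply (Finite.injective_iff_bijective).mp
    intro x y h
    exact inv_injective (hτinj h)
  have hkbar : ∀ a, k (X.bar a) = k a := by
    intro a
    have h3 : ∑ u, X.κ (X.bar a) u = ∑ u, X.κ a u := by
      rw [Finset.sum_congr rfl fun u _ => X.bar_κ a u]
      exact hbij.sum_comp (fun u => X.κ a u)
    rw [hk', hk'] at h3
    exact_mod_cast mul_right_cancel₀ hcard0 h3
  obtain ⟨a₀, hb, hodd⟩ := exists_fixed (fun a => X.d a * k a) X.bar X.bar_bar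
    (fun a => by simp only [X.bar_d, hkbar]) (by rw [hdk]; exact X.modd)
  obtain ⟨hdodd, hkodd⟩ := Nat.odd_mul.mp hodd
  -- the values are units
  have hval : ∀ u, ∃ x : O, x ∉ IsLocalRing.maximalIdeal O ∧ X.κ a₀ u = (x : ℂ) := by
    intro u
    obtain ⟨y, hy, hy'⟩ := isChar_two hN (X.isChar a₀) O h2 u
    refine ⟨((X.m 1 * X.d a₀ : ℕ) : O) + y, ?_, ?_⟩
    · intro h
      have h3 := Ideal.sub_mem _ h hy
      rw [add_sub_cancel_right] at h3
      exact odd_not_mem O h2 (X.modd.mul hdodd) h3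
    · rw [hy', X.kone]
      push_cast
      ring
  have hne : ∀ u, X.κ a₀ u ≠ 0 := by
    intro u h
    obtain ⟨x, hx, hx'⟩ := hval u
    apply hx
    have h3 : x = 0 := by
      apply Subtype.ext
      rw [← hx', h]
      rfl
    rw [h3]
    exact Ideal.zero_mem _
  have hmodd : ∀ u, Odd (X.m u) := by
    intro u
    by_contra hc
    rw [Nat.not_odd_iff_even] at hc
    obtain ⟨x, hx, hx'⟩ := hval u
    obtain ⟨w, hw, hw'⟩ := X.integral a₀ u
    apply hx
    have h3 : x = ((X.m u : ℕ) : O) * ⟨w, integral_mem O hw⟩ := by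
      apply Subtype.ext
      rw [← hx', hw']
      push_cast
      ring
    rw [h3]
    exact Ideal.mul_mem_right _ _ (even_mem O h2 hc)
  refine ⟨a₀, hb, hdodd.pos.ne', ⟨k a₀, hkodd, hk a₀⟩, hne, hmodd, ?_⟩
  intro u
  -- the values of all characters
  have hall : ∀ a, ∃ y : O, y ∈ IsLocalRing.maximalIdeal O ∧
      X.κ a u = X.m 1 * X.d a + (y : ℂ) := by
    intro a
    obtain ⟨y, hy, hy'⟩ := isChar_two hN (X.isChar a) O h2 u
    exact ⟨y, hy, by rw [hy', X.kone]⟩
  choose y hy hy' using hall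
  have hq : ∃ q : O, q ∉ IsLocalRing.maximalIdeal O ∧
      ∑ a, (k a : ℂ) * X.κ a u = (q : ℂ) := by
    refine ⟨((X.m 1 * X.m 1 : ℕ) : O) + ∑ a, ((k a : ℕ) : O) * y a, ?_, ?_⟩
    · intro h
      have h4 : ∑ a, ((k a : ℕ) : O) * y a ∈ IsLocalRing.maximalIdeal O :=
        Ideal.sum_mem _ fun a _ => Ideal.mul_mem_left _ _ (hy a)
      have h3 := Ideal.sub_mem _ h h4
      rw [add_sub_cancel_right] at h3
      exact odd_not_mem O h2 (X.modd.mul X.modd) h3
    · push_cast
      have h5 : ∀ a, (k a : ℂ) * X.κ a u = X.m 1 * ((X.d a : ℂ) * k a) + (k a : ℂ) * (y a : ℂ) := by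
        intro a
        rw [hy' a]
        ring
      rw [Finset.sum_congr rfl fun a _ => h5 a, Finset.sum_add_distrib, ← Finset.mul_sum]
      have h6 : ∑ a, (X.d a : ℂ) * (k a : ℂ) = X.m 1 := by
        have := congrArg (fun n : ℕ => (n : ℂ)) hdk
        push_cast at this
        exact this
      rw [h6]
  obtain ⟨q, hq, hq'⟩ := hq
  -- the value through the orthogonality relations
  have hmain : (q : ℂ) * Nat.card (Subgroup.centralizer {u}) = (X.m u : ℂ) ^ 2 * X.c u := by
    have h3 : (Nat.card N : ℂ) * (q : ℂ) =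
        (Finset.univ.filter fun v : N => IsConj u v).card * ((X.m u : ℂ) ^ 2 * X.c u) := by
      rw [← hq', Finset.mul_sum]
      have h4 : ∀ a, (Nat.card N : ℂ) * ((k a : ℂ) * X.κ a u) =
          ∑ v, X.κ a u * X.κ a v⁻¹ := by
        intro a
        rw [← Finset.mul_sum]
        have h5 : ∑ v, X.κ a v⁻¹ = ∑ v, X.κ a v :=
          Equiv.sum_comp (Equiv.inv N) (fun v => X.κ a v)
        rw [h5, hk' a]
        ring
      rw [Finset.sum_congr rfl fun a _ => h4 a, Finset.sum_comm]
      have h6 : ∀ v, ∑ a, X.κ a u * X.κ a v⁻¹ =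
          if IsConj u v then (X.m u : ℂ) ^ 2 * X.c u else 0 := by
        intro v
        split_ifs with hv
        · rw [← X.norm u]
          apply Finset.sum_congr rfl
          intro a _
          obtain ⟨g, hg⟩ := isConj_iff.mp hv
          have h7 : v⁻¹ = g * u⁻¹ * g⁻¹ := by rw [← hg]; group
          rw [h7, isChar_class (X.isChar a)]
        · exact X.orth u v hv
      rw [Finset.sum_congr rfl fun v _ => h6 v, ← Finset.sum_filter, Finset.sum_const,
        nsmul_eq_mul]
    have h4 : (((Finset.univ.filter fun v : N => IsConj u v).card : ℕ) : ℂ) *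
        (Nat.card (Subgroup.centralizer {u}) : ℂ) = Nat.card N := by
      exact_mod_cast card_conj_mul u
    have h5 : (((Finset.univ.filter fun v : N => IsConj u v).card : ℕ) : ℂ) ≠ 0 := by
      intro h
      rw [h, zero_mul] at h4
      exact hcard0 h4.symm
    apply mul_left_cancel₀ h5
    rw [← h3, ← h4]
    ring
  obtain ⟨s, hs⟩ := X.cpow u
  obtain ⟨t, ht⟩ := (IsPGroup.iff_card (p := 2)).mp (hN.to_subgroup (Subgroup.centralizer {u}))
  rw [hs, ht]
  rw [hs, ht] at hmain
  have hO : q * ((2 : O) ^ t) = ((X.m u ^ 2 : ℕ) : O) * (2 : O) ^ s := by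
    apply Subtype.ext
    push_cast at hmain ⊢
    exact hmain
  have h2ne : (2 : O) ≠ 0 := by
    intro h
    have : (2 : ℂ) = 0 := congrArg (fun x : O => (x : ℂ)) h
    norm_num at this
  rcases lt_trichotomy s t with hst | hst | hst
  · exfalso
    obtain ⟨r, rfl⟩ := Nat.exists_eq_add_of_lt hst
    have h3 : q * (2 : O) ^ (r + 1) = ((X.m u ^ 2 : ℕ) : O) := by
      apply mul_right_cancel₀ (pow_ne_zero s h2ne)
      rw [← hO]
      ring
    apply odd_not_mem O h2 ((hmodd u).pow (n := 2))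
    rw [← h3, pow_succ, ← mul_assoc]
    exact Ideal.mul_mem_left _ _ h2
  · rw [hst]
  · exfalso
    obtain ⟨r, rfl⟩ := Nat.exists_eq_add_of_lt hst
    have h3 : q = ((X.m u ^ 2 : ℕ) : O) * (2 : O) ^ (r + 1) := by
      apply mul_right_cancel₀ (pow_ne_zero t h2ne)
      rw [hO]
      ring
    apply hq
    rw [h3, pow_succ (2 : O) r, ← mul_assoc]
    exact Ideal.mul_mem_left _ _ h2

end Pool.Agent.Helper36.NB
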