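import Mathlib
import Pool.Agent.Helper36.NB.Defs
import Pool.Agent.Helper36.NB.E1

open scoped BigOperators MonoidAlgebra
open Classical

namespace Pool.Agent.Helper36.NB

variable {N : Type} [Group N] [Fintype N] {ι : Type} [Fintype ι]

private lemma K1_card_fiber (w u : N) :
    ((Finset.univ.filter (fun h : N => h * w * h⁻¹ = u)).card : ℂ) =
      if IsConj w u then (Nat.card (Subgroup.centralizer {u}) : ℂ) else 0 := by
  split_ifs with hc
  · obtain ⟨k, hk⟩ := isConj_iff.1 hc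
    rw [Nat.card_eq_fintype_card, ← Fintype.card_coe]
    congr 1
    refine Fintype.card_congr
      { toFun := fun h => ⟨h.1 * k⁻¹, ?_⟩
        invFun := fun c => ⟨c.1 * k, ?_⟩
        left_inv := fun h => by simp
        right_inv := fun c => by simp }
    · have h1 := (Finset.mem_filter.1 h.2).2
      rw [Subgroup.mem_centralizer_singleton_iff]
      have h2 : w = k⁻¹ * u * k := by rw [← hk]; group
      have h3 : u = h.1 * w * h.1⁻¹ := h1.symm
      calc h.1 * k⁻¹ * u = h.1 * (k⁻¹ * u * k) * k⁻¹ := by group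
        _ = h.1 * w * k⁻¹ := by rw [← h2]
        _ = (h.1 * w * h.1⁻¹) * (h.1 * k⁻¹) := by group
        _ = u * (h.1 * k⁻¹) := by rw [← h3]
    · have h1 := c.2
      rw [Subgroup.mem_centralizer_singleton_iff] at h1
      refine Finset.mem_filter.2 ⟨Finset.mem_univ _, ?_⟩
      calc c.1 * k * w * (c.1 * k)⁻¹ = c.1 * (k * w * k⁻¹) * c.1⁻¹ := by group
        _ = c.1 * u * c.1⁻¹ := by rw [hk]
        _ = u := by rw [h1]; group
  · rw [Nat.cast_eq_zero, Finset.card_eq_zero, Finset.filter_eq_empty_iff]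
    intro h _ he
    exact hc (isConj_iff.2 ⟨h, he⟩)

private lemma K1_sum (f : N → ℂ) (hf : ∀ g h, f (g * h * g⁻¹) = f h) (w : N) :
    ∑ u, f u * (if IsConj w u then (Nat.card (Subgroup.centralizer {u}) : ℂ) else 0) =
      (Nat.card N : ℂ) * f w := by
  have h1 : ∀ u, f u * (if IsConj w u then (Nat.card (Subgroup.centralizer {u}) : ℂ) else 0) =
      ∑ h : N, if h * w * h⁻¹ = u then f u else 0 := by
    intro u
    rw [← K1_card_fiber w u, ← Finset.sum_filter, Finset.sum_const, nsmul_eq_mul, mul_comm]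
  rw [Finset.sum_congr rfl fun u _ => h1 u, Finset.sum_comm]
  have h2 : ∀ h : N, (∑ u, if h * w * h⁻¹ = u then f u else 0) = f w := by
    intro h
    rw [Finset.sum_ite_eq]
    simp [hf]
  rw [Finset.sum_congr rfl fun h _ => h2 h, Finset.sum_const, nsmul_eq_mul, Finset.card_univ,
    Nat.card_eq_fintype_card]

private lemma K1_kernel (κ : ι → N → ℂ) (m : N → ℕ)
    (hκ : ∀ a, IsChar (κ a)) (horth : ∀ u v, ¬ IsConj u v → ∑ a, κ a u * κ a v⁻¹ = 0)
    (hnorm : ∀ u, ∑ a, κ a u * κ a u⁻¹ = (m u : ℂ) ^ 2 * Nat.card (Subgroup.centralizer {u}))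
    (w u : N) : ∑ b, κ b w * κ b u⁻¹ =
      (m u : ℂ) ^ 2 * (if IsConj w u then (Nat.card (Subgroup.centralizer {u}) : ℂ) else 0) := by
  split_ifs with hc
  · rw [← hnorm u]
    obtain ⟨k, hk⟩ := isConj_iff.1 hc
    refine Finset.sum_congr rfl fun b _ => ?_
    rw [← hk, isChar_class (hκ b) k w]
  · rw [horth w u hc, mul_zero]

theorem dual_expand (κ : ι → N → ℂ) (m : N → ℕ) (hm : ∀ u, m u ≠ 0)
    (hκ : ∀ a, IsChar (κ a)) (horth : ∀ u v, ¬ IsConj u v → ∑ a, κ a u * κ a v⁻¹ = 0)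
    (hnorm : ∀ u, ∑ a, κ a u * κ a u⁻¹ = (m u : ℂ) ^ 2 * Nat.card (Subgroup.centralizer {u}))
    (f : N → ℂ) (hf : ∀ g h, f (g * h * g⁻¹) = f h) (w : N) :
    ∑ b, ((∑ u, f u * κ b u⁻¹ / (m u : ℂ) ^ 2) / (Nat.card N : ℂ)) * κ b w = f w := by
  have hN : (Nat.card N : ℂ) ≠ 0 := Nat.cast_ne_zero.2 Nat.card_pos.ne'
  have h1 : ∀ b, ((∑ u, f u * κ b u⁻¹ / (m u : ℂ) ^ 2) / (Nat.card N : ℂ)) * κ b w =
      (∑ u, f u / (m u : ℂ) ^ 2 * (κ b w * κ b u⁻¹)) / (Nat.card N : ℂ) := by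
    intro b
    rw [div_mul_eq_mul_div, Finset.sum_mul]
    congr 1
    refine Finset.sum_congr rfl fun u _ => ?_
    ring
  rw [Finset.sum_congr rfl fun b _ => h1 b, ← Finset.sum_div, Finset.sum_comm, div_eq_iff hN,
    mul_comm (f w), ← K1_sum f hf w]
  refine Finset.sum_congr rfl fun u _ => ?_
  rw [← Finset.mul_sum, K1_kernel κ m hκ horth hnorm w u]
  have hmu : (m u : ℂ) ^ 2 ≠ 0 := pow_ne_zero 2 (Nat.cast_ne_zero.2 (hm u))
  rw [← mul_assoc, div_mul_cancel₀ _ hmu]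

theorem dual_inner (κ : ι → N → ℂ) (m : N → ℕ) (hm : ∀ u, m u ≠ 0)
    (hκ : ∀ a, IsChar (κ a)) (horth : ∀ u v, ¬ IsConj u v → ∑ a, κ a u * κ a v⁻¹ = 0)
    (hnorm : ∀ u, ∑ a, κ a u * κ a u⁻¹ = (m u : ℂ) ^ 2 * Nat.card (Subgroup.centralizer {u}))
    (f g : N → ℂ) (hf : ∀ x h, f (x * h * x⁻¹) = f h) (hg : ∀ x h, g (x * h * x⁻¹) = g h) :
    ∑ b, ((∑ u, f u * κ b u⁻¹ / (m u : ℂ) ^ 2) / (Nat.card N : ℂ)) *
        (starRingEnd ℂ) ((∑ u, g u * κ b u⁻¹ / (m u : ℂ) ^ 2) / (Nat.card N : ℂ)) =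
      (∑ u, f u * (starRingEnd ℂ) (g u) / (m u : ℂ) ^ 2) / (Nat.card N : ℂ) := by
  have h1 : ∀ b, (starRingEnd ℂ) ((∑ u, g u * κ b u⁻¹ / (m u : ℂ) ^ 2) / (Nat.card N : ℂ)) =
      (∑ u, (starRingEnd ℂ) (g u) / (m u : ℂ) ^ 2 * κ b u) / (Nat.card N : ℂ) := by
    intro b
    rw [map_div₀, map_sum, Complex.conj_natCast]
    congr 1
    refine Finset.sum_congr rfl fun u _ => ?_
    have h2 := isChar_conj (hκ b) u⁻¹
    rw [inv_inv] at h2
    rw [map_div₀, map_mul, map_pow, Complex.conj_natCast, ← h2]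
    ring
  have h3 : ∀ b, ((∑ u, f u * κ b u⁻¹ / (m u : ℂ) ^ 2) / (Nat.card N : ℂ)) *
        (starRingEnd ℂ) ((∑ u, g u * κ b u⁻¹ / (m u : ℂ) ^ 2) / (Nat.card N : ℂ)) =
      (∑ w, (starRingEnd ℂ) (g w) / (m w : ℂ) ^ 2 *
        (((∑ u, f u * κ b u⁻¹ / (m u : ℂ) ^ 2) / (Nat.card N : ℂ)) * κ b w)) /
        (Nat.card N : ℂ) := by
    intro b
    rw [h1 b, mul_div_assoc', Finset.mul_sum]
    congr 1
    refine Finset.sum_congr rfl fun u _ => ?_
    ring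
  rw [Finset.sum_congr rfl fun b _ => h3 b, ← Finset.sum_div, Finset.sum_comm]
  congr 1
  refine Finset.sum_congr rfl fun w _ => ?_
  rw [← Finset.mul_sum, dual_expand κ m hm hκ horth hnorm f hf w]
  ring

theorem bessel (κ : ι → N → ℂ) (m : N → ℕ) (hm : ∀ u, m u ≠ 0)
    (hκ : ∀ a, IsChar (κ a)) (horth : ∀ u v, ¬ IsConj u v → ∑ a, κ a u * κ a v⁻¹ = 0)
    (hnorm : ∀ u, ∑ a, κ a u * κ a u⁻¹ = (m u : ℂ) ^ 2 * Nat.card (Subgroup.centralizer {u}))
    (a : ι) : ∑ u, Complex.normSq (κ a u) / (m u : ℝ) ^ 2 ≤ Nat.card N := by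
  have hNpos : (0 : ℝ) < Nat.card N := Nat.cast_pos.2 Nat.card_pos
  set S : ℝ := ∑ u, Complex.normSq (κ a u) / (m u : ℝ) ^ 2 with hS
  have hS0 : 0 ≤ S := Finset.sum_nonneg fun u _ =>
    div_nonneg (Complex.normSq_nonneg _) (pow_nonneg (Nat.cast_nonneg _) 2)
  set v : ι → ℂ := fun b => (∑ u, κ a u * κ b u⁻¹ / (m u : ℂ) ^ 2) / (Nat.card N : ℂ) with hv
  have hva : v a = ((S / Nat.card N : ℝ) : ℂ) := by
    rw [hv, hS]
    push_cast
    congr 1
    refine Finset.sum_congr rfl fun u _ => ?_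
    rw [isChar_conj (hκ a) u, Complex.mul_conj]
  have hin := dual_inner κ m hm hκ horth hnorm (κ a) (κ a) (fun x h => isChar_class (hκ a) x h)
    (fun x h => isChar_class (hκ a) x h)
  have h1 : (∑ u, κ a u * (starRingEnd ℂ) (κ a u) / (m u : ℂ) ^ 2) / (Nat.card N : ℂ)
      = ((S / Nat.card N : ℝ) : ℂ) := by
    rw [hS]
    push_cast
    congr 1
    refine Finset.sum_congr rfl fun u _ => ?_
    rw [Complex.mul_conj]
  have h2 : (∑ b, Complex.normSq (v b) : ℝ) = S / Nat.card N := by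
    have h3 : ((∑ b, Complex.normSq (v b) : ℝ) : ℂ) = ((S / Nat.card N : ℝ) : ℂ) := by
      rw [← h1, ← hin]
      push_cast
      refine Finset.sum_congr rfl fun b _ => ?_
      rw [← Complex.mul_conj]
    exact_mod_cast h3
  have h4 : Complex.normSq (v a) ≤ ∑ b, Complex.normSq (v b) :=
    Finset.single_le_sum (f := fun b => Complex.normSq (v b))
      (fun b _ => Complex.normSq_nonneg _) (Finset.mem_univ a)
  rw [h2, hva, Complex.normSq_ofReal] at h4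
  set x : ℝ := S / Nat.card N with hx
  have hx0 : 0 ≤ x := div_nonneg hS0 hNpos.le
  have hx1 : x ≤ 1 := by
    by_contra hlt
    push Not at hlt
    nlinarith
  rw [hx, div_le_one hNpos] at hx1
  exact hx1

end Pool.Agent.Helper36.NB
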