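import Mathlib
import Pool.Agent.Helper36.NB.Defs
import Pool.Agent.Helper36.NB.E1

open scoped BigOperators MonoidAlgebra
open Classical

namespace Pool.Agent.Helper36.NB

namespace K2aux

/-- powers of characters are characters. -/
theorem isChar_pow {G : Type} [Group G] [Finite G] {η : G → ℂ} (hη : IsChar η) (n : ℕ) :
    IsChar (fun g => η g ^ n) := by
  induction n with
  | zero => simpa using isChar_one (G := G)
  | succ n ih =>
    have h := isChar_mul ih hη
    simpa [pow_succ] using h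

/-- the power sums of the values are rational. -/
theorem psum_rat {N : Type} [Group N] [Fintype N] {κ : N → ℂ} (hκ : IsChar κ) (n : ℕ) :
    ∃ q : ℚ, ∑ u, κ u ^ n = (q : ℂ) := by
  obtain ⟨m, hm⟩ := char_inner (fun g => κ g ^ n) (fun _ => (1 : ℂ)) (isChar_pow hκ n) isChar_one
  have hN : (Nat.card N : ℂ) ≠ 0 := by
    have : Nat.card N ≠ 0 := Nat.card_pos.ne'
    exact_mod_cast this
  refine ⟨(m : ℚ) * (Nat.card N : ℚ), ?_⟩
  rw [div_eq_iff hN] at hm
  simp only [mul_one] at hm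
  rw [hm]
  push_cast
  ring

/-- Newton's identities: the elementary symmetric functions of the values are rational. -/
theorem esymm_rat {N : Type} [Fintype N] {κ : N → ℂ}
    (h : ∀ n : ℕ, ∃ q : ℚ, ∑ u, κ u ^ n = (q : ℂ)) (k : ℕ) :
    ∃ q : ℚ, MvPolynomial.aeval κ (MvPolynomial.esymm N ℂ k) = (q : ℂ) := by
  induction k using Nat.strong_induction_on with
  | _ k ih =>
    rcases Nat.eq_zero_or_pos k with rfl | hk
    · exact ⟨1, by simp⟩
    · have h1 := congrArg (MvPolynomial.aeval κ) (MvPolynomial.mul_esymm_eq_sum N ℂ k)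
      simp only [map_mul, map_sum, map_natCast, map_pow, map_neg, map_one] at h1
      have h2 : ∃ q : ℚ, ∑ a ∈ Finset.HasAntidiagonal.antidiagonal k with a.1 < k,
          (-1) ^ a.1 * MvPolynomial.aeval κ (MvPolynomial.esymm N ℂ a.1)
            * MvPolynomial.aeval κ (MvPolynomial.psum N ℂ a.2) = (q : ℂ) := by
        have h3 : ∀ a ∈ (Finset.HasAntidiagonal.antidiagonal k).filter (fun a => a.1 < k), ∃ q : ℚ,
            (-1) ^ a.1 * MvPolynomial.aeval κ (MvPolynomial.esymm N ℂ a.1)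
            * MvPolynomial.aeval κ (MvPolynomial.psum N ℂ a.2) = (q : ℂ) := by
          intro a ha
          rw [Finset.mem_filter] at ha
          obtain ⟨q1, hq1⟩ := ih a.1 ha.2
          obtain ⟨q2, hq2⟩ := h a.2
          refine ⟨(-1) ^ a.1 * q1 * q2, ?_⟩
          rw [hq1]
          have : MvPolynomial.aeval κ (MvPolynomial.psum N ℂ a.2) = (q2 : ℂ) := by
            rw [← hq2, MvPolynomial.psum, map_sum]
            simp
          rw [this]
          push_cast
          ring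
        choose! f hf using h3
        refine ⟨∑ a ∈ (Finset.HasAntidiagonal.antidiagonal k).filter (fun a => a.1 < k), f a, ?_⟩
        push_cast
        exact Finset.sum_congr rfl hf
      obtain ⟨q, hq⟩ := h2
      rw [hq] at h1
      have hk' : (k : ℂ) ≠ 0 := by exact_mod_cast hk.ne'
      refine ⟨(-1) ^ (k + 1) * q / k, ?_⟩
      push_cast
      rw [eq_div_iff hk', ← h1]
      ring

/-- the product of the values is rational. -/
theorem prod_rat {N : Type} [Fintype N] {κ : N → ℂ}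
    (h : ∀ n : ℕ, ∃ q : ℚ, ∑ u, κ u ^ n = (q : ℂ)) :
    ∃ q : ℚ, ∏ u, κ u = (q : ℂ) := by
  obtain ⟨q, hq⟩ := esymm_rat h (Fintype.card N)
  refine ⟨q, ?_⟩
  rw [← hq, MvPolynomial.esymm, ← Finset.card_univ, Finset.powersetCard_self]
  simp

/-- equality in the inequality of the arithmetic and geometric means. -/
theorem eq_one_of {N : Type} [Fintype N] (x : N → ℝ) (hx : ∀ u, 0 < x u)
    (hs : ∑ u, x u ≤ Fintype.card N) (hp : 1 ≤ ∏ u, x u) (u : N) : x u = 1 := by
  by_contra hne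
  have h1 : 0 ≤ ∑ u, Real.log (x u) := by
    rw [← Real.log_prod (fun u _ => (hx u).ne')]
    exact Real.log_nonneg hp
  have h2 : ∑ u, Real.log (x u) < ∑ u, (x u - 1) := by
    refine Finset.sum_lt_sum (fun v _ => Real.log_le_sub_one_of_pos (hx v)) ⟨u, Finset.mem_univ u, ?_⟩
    exact Real.log_lt_sub_one_of_pos (hx u) hne
  rw [Finset.sum_sub_distrib] at h2
  simp at h2
  linarith

end K2aux

theorem abs_eq {N : Type} [Group N] [Fintype N] (κ₀ : N → ℂ) (hκ : IsChar κ₀) (m : N → ℕ)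
    (hm : ∀ u, m u ≠ 0) (hint : ∀ u, ∃ w : ℂ, IsIntegral ℤ w ∧ κ₀ u = m u * w)
    (hne : ∀ u, κ₀ u ≠ 0)
    (hB : ∑ u, Complex.normSq (κ₀ u) / (m u : ℝ) ^ 2 ≤ Nat.card N) (u : N) :
    κ₀ u * κ₀ u⁻¹ = (m u : ℂ) ^ 2 := by
  choose w hw hκw using hint
  obtain ⟨q, hq⟩ := K2aux.prod_rat (K2aux.psum_rat hκ)
  have hmC : ∀ u, (m u : ℂ) ≠ 0 := fun u => by exact_mod_cast hm u
  have hP : (∏ u, (m u : ℂ)) * ∏ u, w u = (q : ℂ) := by
    rw [← Finset.prod_mul_distrib, ← hq]
    exact Finset.prod_congr rfl fun u _ => (hκw u).symm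
  have hM : (∏ u, (m u : ℚ)) ≠ 0 := Finset.prod_ne_zero_iff.2 fun u _ => by exact_mod_cast hm u
  have hMC : (∏ u, (m u : ℂ)) ≠ 0 := Finset.prod_ne_zero_iff.2 fun u _ => hmC u
  have hW : ∏ u, w u = ((q / ∏ u, (m u : ℚ) : ℚ) : ℂ) := by
    push_cast
    rw [eq_div_iff hMC, ← hP]
    ring
  have hWint : IsIntegral ℤ (∏ u, w u) := IsIntegral.prod _ fun u _ => hw u
  have hWne : ∏ u, w u ≠ 0 := by
    refine Finset.prod_ne_zero_iff.2 fun u _ => ?_
    intro h
    apply hne u
    rw [hκw u, h, mul_zero]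
  rw [hW] at hWint hWne
  have h1 : IsIntegral ℤ (q / ∏ u, (m u : ℚ) : ℚ) := by
    have h2 := (isIntegral_algebraMap_iff (R := ℤ) (A := ℚ) (B := ℂ)
      (algebraMap ℚ ℂ).injective (x := q / ∏ u, (m u : ℚ))).1 (by simpa using hWint)
    exact h2
  obtain ⟨n, hn⟩ := IsIntegrallyClosed.isIntegral_iff.1 h1
  have hn' : ∏ u, w u = (n : ℂ) := by
    rw [hW, ← hn]
    simp
  have hn0 : n ≠ 0 := by
    rintro rfl
    rw [← hW, hn'] at hWne
    simp at hWne
  have hprod : 1 ≤ ∏ u, (Complex.normSq (κ₀ u) / (m u : ℝ) ^ 2) := by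
    have e : ∀ u, Complex.normSq (κ₀ u) / (m u : ℝ) ^ 2 = Complex.normSq (w u) := by
      intro u
      have hmR : (m u : ℝ) ≠ 0 := by exact_mod_cast hm u
      rw [hκw u, Complex.normSq_mul, Complex.normSq_natCast, div_eq_iff (pow_ne_zero 2 hmR)]
      ring
    rw [Finset.prod_congr rfl fun u _ => e u, ← map_prod, hn', Complex.normSq_intCast]
    have h3 : (1 : ℤ) ≤ n * n := by
      rcases lt_or_gt_of_ne hn0 with h | h <;> nlinarith
    exact_mod_cast h3
  have hpos : ∀ u, 0 < Complex.normSq (κ₀ u) / (m u : ℝ) ^ 2 := by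
    intro u
    have hmR : (m u : ℝ) ≠ 0 := by exact_mod_cast hm u
    have := Complex.normSq_pos.2 (hne u)
    positivity
  have h4 := K2aux.eq_one_of _ hpos (by rw [Nat.card_eq_fintype_card] at hB; exact hB) hprod u
  have hmR : (m u : ℝ) ≠ 0 := by exact_mod_cast hm u
  rw [div_eq_one_iff_eq (pow_ne_zero 2 hmR)] at h4
  rw [isChar_conj hκ, Complex.mul_conj, h4]
  push_cast
  rfl

end Pool.Agent.Helper36.NB
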