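import Mathlib
import Pool.Agent.Helper36.NB.Defs
import Pool.Agent.Helper36.NB.E1

open scoped BigOperators MonoidAlgebra
open Classical

namespace Pool.Agent.Helper36.NB

namespace K4aux

/-- A complex number which is integral and has a nonzero integer multiple which is an integer is
an integer. -/
theorem int_of_integral {v : ℂ} (hv : IsIntegral ℤ v) (p q : ℤ) (hp : p ≠ 0)
    (h : (p : ℂ) * v = q) : ∃ n : ℤ, v = n := by
  have hpC : (p : ℂ) ≠ 0 := by exact_mod_cast hp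
  have h1 : v = algebraMap ℚ ℂ ((q : ℚ) / p) := by
    simp only [map_div₀, map_intCast]
    rw [eq_div_iff hpC, mul_comm]
    exact h
  rw [h1] at hv
  have h2 : IsIntegral ℤ ((q : ℚ) / p) :=
    (isIntegral_algebraMap_iff (algebraMap ℚ ℂ).injective).mp hv
  obtain ⟨n, hn⟩ := IsIntegrallyClosed.isIntegral_iff.mp h2
  refine ⟨n, ?_⟩
  rw [h1, ← hn]
  simp

theorem odd_pow_two_pow (m : ℕ) (hm : Odd m) (k : ℕ) :
    ((2 : ℤ) ^ k) ∣ (1 - ((m : ℤ) ^ 2) ^ (2 ^ k)) := by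
  induction k with
  | zero => simp
  | succ k ih =>
    have e : (1 : ℤ) - ((m : ℤ) ^ 2) ^ (2 ^ (k + 1)) =
        (1 - ((m : ℤ) ^ 2) ^ (2 ^ k)) * (1 + ((m : ℤ) ^ 2) ^ (2 ^ k)) := by
      rw [pow_succ 2 k, pow_mul]
      ring
    rw [e, pow_succ (2 : ℤ) k]
    apply mul_dvd_mul ih
    have h1 : Odd (((m : ℤ) ^ 2) ^ (2 ^ k)) := by
      apply Odd.pow
      apply Odd.pow
      exact_mod_cast hm
    exact (Odd.add_odd (by norm_num) h1).two_dvd

end K4aux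

theorem v_int {N : Type} [Group N] [Fintype N] (hN : IsPGroup 2 N) (κ₀ κ₁ lam : N → ℂ)
    (h₀ : IsChar κ₀) (h₁ : IsChar κ₁) (hl : IsChar lam) (m : N → ℕ) (hm : ∀ u, Odd (m u))
    (habs : ∀ u, κ₀ u * κ₀ u⁻¹ = (m u : ℂ) ^ 2)
    (hi₀ : ∀ u, ∃ w : ℂ, IsIntegral ℤ w ∧ κ₀ u = m u * w)
    (hi₁ : ∀ u, ∃ w : ℂ, IsIntegral ℤ w ∧ κ₁ u = m u * w) :
    ∃ n : ℤ, (∑ u, κ₀ u * lam u * κ₁ u⁻¹ / (m u : ℂ) ^ 2) / (Nat.card N : ℂ) = n := by
  have hcard0 : (Nat.card N : ℂ) ≠ 0 := by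
    exact_mod_cast (Nat.card_pos (α := N)).ne'
  have hmC : ∀ u, (m u : ℂ) ≠ 0 := fun u => by exact_mod_cast (hm u).pos.ne'
  -- the powers of the function `mu`
  have hmu : ∀ n : ℕ, IsChar (fun u => ((m u : ℂ) ^ 2) ^ n) := by
    intro n
    induction n with
    | zero => simpa using (isChar_one (G := N))
    | succ n ih =>
      have h2 : IsChar (fun u => κ₀ u * κ₀ u⁻¹) := isChar_mul h₀ (isChar_dual h₀)
      have h3 := isChar_mul ih h2
      have e : (fun u => ((m u : ℂ) ^ 2) ^ (n + 1)) =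
          fun u => ((m u : ℂ) ^ 2) ^ n * (κ₀ u * κ₀ u⁻¹) := by
        funext u
        rw [habs u, pow_succ]
      rw [e]
      exact h3
  have ha : ∀ n : ℕ, ∃ a : ℕ,
      (∑ u, κ₀ u * lam u * κ₁ u⁻¹ * ((m u : ℂ) ^ 2) ^ n) / (Nat.card N : ℂ) = a := by
    intro n
    obtain ⟨a, ha⟩ := char_inner _ _ (isChar_mul (isChar_mul h₀ hl) (hmu n)) h₁
    refine ⟨a, ?_⟩
    rw [← ha]
    congr 1
    apply Finset.sum_congr rfl
    intro u _
    ring
  choose a ha using ha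
  -- rationality
  set v : ℂ := (∑ u, κ₀ u * lam u * κ₁ u⁻¹ / (m u : ℂ) ^ 2) / (Nat.card N : ℂ) with hv
  let P : Polynomial ℤ := ∏ u : N, (Polynomial.X - Polynomial.C ((m u : ℤ) ^ 2))
  have hP0 : P.coeff 0 ≠ 0 := by
    rw [Polynomial.coeff_zero_eq_eval_zero]
    simp only [P, Polynomial.eval_prod]
    rw [Finset.prod_ne_zero_iff]
    intro u _
    have : (m u : ℤ) ≠ 0 := by exact_mod_cast (hm u).pos.ne'
    simpa using this
  have hPu : ∀ u : N, Polynomial.aeval ((m u : ℂ) ^ 2) P = 0 := by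
    intro u
    simp only [P, map_prod]
    apply Finset.prod_eq_zero (Finset.mem_univ u)
    simp
  have hR : ∀ u : N, Polynomial.aeval ((m u : ℂ) ^ 2) P.divX * ((m u : ℂ) ^ 2) +
      (P.coeff 0 : ℂ) = 0 := by
    intro u
    have := congrArg (Polynomial.aeval ((m u : ℂ) ^ 2)) (Polynomial.divX_mul_X_add P)
    rw [hPu u] at this
    simpa using this
  have hrat : ((P.coeff 0 : ℤ) : ℂ) * v =
      ((- ∑ i ∈ Finset.range (P.divX.natDegree + 1), P.divX.coeff i * (a i : ℤ) : ℤ) : ℂ) := by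
    have e1 : ∀ u : N, ((P.coeff 0 : ℤ) : ℂ) * (κ₀ u * lam u * κ₁ u⁻¹ / (m u : ℂ) ^ 2) =
        - ∑ i ∈ Finset.range (P.divX.natDegree + 1), (P.divX.coeff i : ℂ) *
          (κ₀ u * lam u * κ₁ u⁻¹ * ((m u : ℂ) ^ 2) ^ i) := by
      intro u
      have e2 : ((P.coeff 0 : ℤ) : ℂ) =
          - (Polynomial.aeval ((m u : ℂ) ^ 2) P.divX * ((m u : ℂ) ^ 2)) := by
        linear_combination hR u
      rw [e2, Polynomial.aeval_eq_sum_range]
      have e3 : (m u : ℂ) ^ 2 ≠ 0 := pow_ne_zero _ (hmC u)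
      have e4 : ∀ S : ℂ, -(S * (m u : ℂ) ^ 2) * (κ₀ u * lam u * κ₁ u⁻¹ / (m u : ℂ) ^ 2) =
          -(S * (κ₀ u * lam u * κ₁ u⁻¹)) := by
        intro S
        rw [neg_mul, mul_assoc S, mul_div_cancel₀ _ e3]
      rw [e4, Finset.sum_mul]
      congr 1
      apply Finset.sum_congr rfl
      intro i _
      rw [zsmul_eq_mul]
      ring
    have e5 : ((P.coeff 0 : ℤ) : ℂ) * v =
        (∑ u, ((P.coeff 0 : ℤ) : ℂ) * (κ₀ u * lam u * κ₁ u⁻¹ / (m u : ℂ) ^ 2)) /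
          (Nat.card N : ℂ) := by
      rw [hv, ← Finset.mul_sum, mul_div_assoc]
    rw [e5, Finset.sum_congr rfl (fun u _ => e1 u), Finset.sum_neg_distrib, Finset.sum_comm,
      neg_div, Finset.sum_div]
    push_cast
    congr 1
    apply Finset.sum_congr rfl
    intro i _
    rw [← ha i, ← Finset.mul_sum, mul_div_assoc]
  -- integrality
  have hminv : ∀ u, m u⁻¹ = m u := by
    intro u
    have h1 := habs u
    have h2 := habs u⁻¹
    rw [inv_inv, mul_comm] at h2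
    have h3 : ((m u⁻¹ : ℕ) : ℂ) ^ 2 = (m u : ℂ) ^ 2 := by rw [← h2, ← h1]
    have h4 : (m u⁻¹) ^ 2 = (m u) ^ 2 := by exact_mod_cast h3
    exact Nat.pow_left_injective two_ne_zero h4
  choose w hw hw' using hi₀
  choose x hx hx' using hi₁
  obtain ⟨k, hk⟩ := (IsPGroup.iff_card (p := 2) (G := N)).mp hN
  have ht : ∀ u, ∃ t : ℤ, (1 : ℤ) - ((m u : ℤ) ^ 2) ^ (2 ^ k) = (2 : ℤ) ^ k * t := fun u =>
    K4aux.odd_pow_two_pow (m u) (hm u) k
  choose t ht using ht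
  have hint : v = (a (2 ^ k - 1) : ℂ) + ∑ u, w u * lam u * x u⁻¹ * (t u : ℂ) := by
    have e1 : ∀ u : N, κ₀ u * lam u * κ₁ u⁻¹ / (m u : ℂ) ^ 2 =
        κ₀ u * lam u * κ₁ u⁻¹ * ((m u : ℂ) ^ 2) ^ (2 ^ k - 1) +
          (Nat.card N : ℂ) * (w u * lam u * x u⁻¹ * (t u : ℂ)) := by
      intro u
      have e2 : κ₀ u * lam u * κ₁ u⁻¹ = (m u : ℂ) ^ 2 * (w u * lam u * x u⁻¹) := by
        rw [hw' u, hx' u⁻¹, hminv u]
        ring
      have e3 : (Nat.card N : ℂ) * (t u : ℂ) = 1 - ((m u : ℂ) ^ 2) ^ (2 ^ k) := by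
        have := congrArg (fun z : ℤ => (z : ℂ)) (ht u)
        push_cast at this
        rw [this, hk]
        push_cast
        rfl
      have e4 : ((m u : ℂ) ^ 2) ^ (2 ^ k) =
          (m u : ℂ) ^ 2 * ((m u : ℂ) ^ 2) ^ (2 ^ k - 1) := by
        rw [← pow_succ', Nat.sub_add_cancel Nat.one_le_two_pow]
      have e5 : (m u : ℂ) ^ 2 ≠ 0 := pow_ne_zero _ (hmC u)
      rw [e2, mul_div_cancel_left₀ _ e5]
      linear_combination (-(w u * lam u * x u⁻¹)) * e3 + (w u * lam u * x u⁻¹) * e4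
    rw [hv, Finset.sum_congr rfl (fun u _ => e1 u), Finset.sum_add_distrib, add_div, ha,
      ← Finset.mul_sum, mul_div_cancel_left₀ _ hcard0]
  have hvint : IsIntegral ℤ v := by
    rw [hint]
    apply IsIntegral.add
    · exact isIntegral_algebraMap (R := ℤ) (A := ℂ) (x := (a (2 ^ k - 1) : ℤ)) |> fun h => by
        simpa using h
    · apply IsIntegral.sum
      intro u _
      refine IsIntegral.mul (IsIntegral.mul (IsIntegral.mul (hw u) (isChar_integral hl u))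
        (hx u⁻¹)) ?_
      have := isIntegral_algebraMap (R := ℤ) (A := ℂ) (x := t u)
      simpa using this
  exact K4aux.int_of_integral hvint _ _ hP0 hrat

end Pool.Agent.Helper36.NB
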