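import Mathlib
import Pool.Agent.Helper36.NB.Defs
import Pool.Agent.Helper36.NB.E0
import Pool.Agent.Helper36.NB.E1
import Pool.Agent.Helper36.NB.K1
import Pool.Agent.Helper36.NB.K2
import Pool.Agent.Helper36.NB.K4

open scoped BigOperators MonoidAlgebra
open Classical

namespace Pool.Agent.Helper36.NB

namespace K5aux

/-- A family of integers with sum of squares one is a signed unit vector. -/
theorem unit_vec {ι : Type} [Fintype ι] (n : ι → ℤ) (h : ∑ a, n a * n a = 1) :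
    ∃ a, (n a = 1 ∨ n a = -1) ∧ ∀ a', a' ≠ a → n a' = 0 := by
  have h1 : ∃ a, n a ≠ 0 := by
    by_contra hcon
    push Not at hcon
    simp [hcon] at h
  obtain ⟨a, ha⟩ := h1
  have hsq : ∀ x : ℤ, x ≠ 0 → 1 ≤ x * x := by
    intro x hx
    have : 0 < x * x := mul_self_pos.2 hx
    omega
  have hsplit : n a * n a + ∑ a' ∈ Finset.univ.erase a, n a' * n a' = 1 := by
    have h2 := Finset.add_sum_erase Finset.univ (fun a' => n a' * n a') (Finset.mem_univ a)
    exact h2.trans h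
  have hnn : 0 ≤ ∑ a' ∈ Finset.univ.erase a, n a' * n a' :=
    Finset.sum_nonneg fun x _ => mul_self_nonneg _
  have h2 : n a * n a = 1 := by
    have := hsq _ ha
    omega
  have h3 : ∑ a' ∈ Finset.univ.erase a, n a' * n a' = 0 := by omega
  refine ⟨a, mul_self_eq_one_iff.1 h2, fun a' ha' => ?_⟩
  have h4 := (Finset.sum_eq_zero_iff_of_nonneg fun x _ => mul_self_nonneg (n x)).1 h3 a'
    (Finset.mem_erase.2 ⟨ha', Finset.mem_univ _⟩)
  exact mul_self_eq_zero.1 h4

theorem sum_d_sq {N : Type} [Group N] [Fintype N] (J : IrrData N) :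
    ∑ b, (J.d b) ^ 2 = Nat.card N := by
  have h := sum_chi_mul J (1 : MonoidAlgebra ℂ N) 1
  have h2 : ∀ g : N, ((1 : MonoidAlgebra ℂ N) * el ℂ g * 1).coeff g = 1 := by
    intro g
    rw [one_mul, mul_one, el]
    simp
  rw [Finset.sum_congr rfl fun g _ => h2 g] at h
  simp only [chi_one, Finset.sum_const, Finset.card_univ, nsmul_eq_mul, mul_one] at h
  have h3 : ((∑ b, (J.d b) ^ 2 : ℕ) : ℂ) = ((Nat.card N : ℕ) : ℂ) := by
    rw [Nat.card_eq_fintype_card, ← h]
    push_cast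
    exact Finset.sum_congr rfl fun b _ => sq _
  exact_mod_cast h3

end K5aux

theorem count_bij {N : Type} [Group N] [Fintype N] (hN : IsPGroup 2 N) {ι : Type} [Fintype ι]
    (τ : N →* N) (z : N) (X : CountData N ι τ z) (J : IrrData N) (a₀ : ι)
    (hne : ∀ u, X.κ a₀ u ≠ 0) (hm : ∀ u, Odd (X.m u))
    (hc : ∀ u, X.c u = Nat.card (Subgroup.centralizer {u})) :
    ∃ Γ : Fin J.r → ι, Function.Injective Γ ∧ (∀ a, X.d a ≠ 0 → ∃ b, Γ b = a) ∧
      (∀ b, X.d (Γ b) = J.d b) ∧ (∀ b u, X.κ (Γ b) u = X.κ a₀ u * J.ch b u) ∧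
      ∀ u, X.κ a₀ u * X.κ a₀ u⁻¹ = (X.m u : ℂ) ^ 2 := by
  have hm0 : ∀ u, X.m u ≠ 0 := fun u h => by
    have := hm u
    rw [h] at this
    exact absurd this (by decide)
  have hnorm : ∀ u, ∑ a, X.κ a u * X.κ a u⁻¹ =
      (X.m u : ℂ) ^ 2 * Nat.card (Subgroup.centralizer {u}) := fun u => by
    rw [X.norm u, hc u]
  have habs : ∀ u, X.κ a₀ u * X.κ a₀ u⁻¹ = (X.m u : ℂ) ^ 2 := fun u =>
    abs_eq (X.κ a₀) (X.isChar a₀) X.m hm0 (X.integral a₀) hne
      (bessel X.κ X.m hm0 X.isChar X.orth hnorm a₀) u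
  have hmC : ∀ u, (X.m u : ℂ) ≠ 0 := fun u => Nat.cast_ne_zero.2 (hm0 u)
  have hNC : (Nat.card N : ℂ) ≠ 0 := Nat.cast_ne_zero.2 Nat.card_pos.ne'
  -- the degree of `a₀`
  have hd0 : X.d a₀ = 1 := by
    have h := habs 1
    rw [inv_one, X.kone a₀] at h
    have h2 : ((X.d a₀ : ℂ)) ^ 2 = 1 := by
      have h3 : (X.m 1 : ℂ) ^ 2 * ((X.d a₀ : ℂ) ^ 2 - 1) = 0 := by linear_combination h
      rcases mul_eq_zero.1 h3 with h4 | h4
      · exact absurd h4 (pow_ne_zero _ (hmC 1))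
      · exact sub_eq_zero.1 h4
    have h3 : (X.d a₀) ^ 2 = 1 := by exact_mod_cast h2
    nlinarith [Nat.zero_le (X.d a₀), sq_nonneg ((X.d a₀ : ℤ) - 1)]
  -- the class functions `κ₀ χ_b`
  have hch : ∀ b, IsChar (J.ch b) := fun b => ch_isChar J b
  have hf : ∀ b, IsChar (fun u => X.κ a₀ u * J.ch b u) := fun b =>
    isChar_mul (X.isChar a₀) (hch b)
  have hfc : ∀ b g h, (fun u => X.κ a₀ u * J.ch b u) (g * h * g⁻¹) =
      (fun u => X.κ a₀ u * J.ch b u) h := fun b g h => isChar_class (hf b) g h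
  have hint : ∀ b a, ∃ n : ℤ, (∑ u, X.κ a₀ u * J.ch b u * X.κ a u⁻¹ / (X.m u : ℂ) ^ 2) /
      (Nat.card N : ℂ) = n := fun b a =>
    v_int hN (X.κ a₀) (X.κ a) (J.ch b) (X.isChar a₀) (X.isChar a) (hch b) X.m hm habs
      (X.integral a₀) (X.integral a)
  choose n hn using hint
  -- orthonormality
  have hortho : ∀ b b', ∑ a, n b a * n b' a = if b = b' then 1 else 0 := by
    intro b b'
    have h := dual_inner X.κ X.m hm0 X.isChar X.orth hnorm (fun u => X.κ a₀ u * J.ch b u)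
      (fun u => X.κ a₀ u * J.ch b' u) (hfc b) (hfc b')
    simp only [hn] at h
    have h2 : ∀ u, X.κ a₀ u * J.ch b u * (starRingEnd ℂ) (X.κ a₀ u * J.ch b' u) /
        (X.m u : ℂ) ^ 2 = J.ch b u * J.ch b' u⁻¹ := by
      intro u
      rw [map_mul, ← isChar_conj (X.isChar a₀) u, ← isChar_conj (hch b') u,
        div_eq_iff (pow_ne_zero _ (hmC u))]
      linear_combination (J.ch b u * J.ch b' u⁻¹) * habs u
    rw [Finset.sum_congr rfl fun u _ => h2 u, ch_orth] at h
    have h3 : ∀ a, (n b a : ℂ) * (starRingEnd ℂ) (n b' a : ℂ) =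
        ((n b a * n b' a : ℤ) : ℂ) := by
      intro a
      have : (starRingEnd ℂ) ((n b' a : ℤ) : ℂ) = ((n b' a : ℤ) : ℂ) := by
        simp
      rw [this]
      push_cast
      rfl
    rw [Finset.sum_congr rfl fun a _ => h3 a, ← Int.cast_sum] at h
    split_ifs with hb
    · rw [if_pos hb] at h
      exact_mod_cast h
    · rw [if_neg hb] at h
      exact_mod_cast h
  have hexp : ∀ b w, ∑ a, (n b a : ℂ) * X.κ a w = X.κ a₀ w * J.ch b w := by
    intro b w
    have h := dual_expand X.κ X.m hm0 X.isChar X.orth hnorm (fun u => X.κ a₀ u * J.ch b u)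
      (hfc b) w
    simp only [hn] at h
    exact h
  have huv : ∀ b, ∃ a, (n b a = 1 ∨ n b a = -1) ∧ ∀ a', a' ≠ a → n b a' = 0 := by
    intro b
    refine K5aux.unit_vec (n b) ?_
    rw [hortho b b, if_pos rfl]
  choose Γ hΓ1 hΓ0 using huv
  have hexp2 : ∀ b w, (n b (Γ b) : ℂ) * X.κ (Γ b) w = X.κ a₀ w * J.ch b w := by
    intro b w
    rw [← hexp b w]
    symm
    refine Finset.sum_eq_single (Γ b) (fun a _ ha => ?_) (fun h => absurd (Finset.mem_univ _) h)
    rw [hΓ0 b a ha]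
    simp
  have hdeg : ∀ b, (n b (Γ b) : ℤ) * (X.d (Γ b) : ℤ) = (J.d b : ℤ) := by
    intro b
    have h := hexp2 b 1
    rw [X.kone, X.kone, hd0] at h
    have h2 : J.ch b 1 = J.d b := by
      rw [IrrData.ch, el_one, chi_one]
    rw [h2] at h
    have h3 : (X.m 1 : ℂ) * ((n b (Γ b) : ℂ) * (X.d (Γ b) : ℂ) - (J.d b : ℂ)) = 0 := by
      push_cast at h
      linear_combination h
    rcases mul_eq_zero.1 h3 with h4 | h4
    · exact absurd h4 (hmC 1)
    · have h5 := sub_eq_zero.1 h4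
      exact_mod_cast h5
  have hsign : ∀ b, n b (Γ b) = 1 := by
    intro b
    rcases hΓ1 b with h | h
    · exact h
    · exfalso
      have h1 := hdeg b
      rw [h] at h1
      have h2 := J.pos b
      have h3 : (0 : ℤ) ≤ X.d (Γ b) := Int.natCast_nonneg _
      omega
  have hdΓ : ∀ b, X.d (Γ b) = J.d b := by
    intro b
    have h1 := hdeg b
    rw [hsign b, one_mul] at h1
    exact_mod_cast h1
  have hinj : Function.Injective Γ := by
    intro b b' hbb
    by_contra hne'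
    have h1 := hortho b b'
    rw [if_neg hne'] at h1
    have h2 : ∑ a, n b a * n b' a = n b (Γ b) * n b' (Γ b) := by
      refine Finset.sum_eq_single (Γ b) (fun a _ ha => ?_)
        (fun h => absurd (Finset.mem_univ _) h)
      rw [hΓ0 b a ha, zero_mul]
    rw [h2, hsign b, hbb, hsign b'] at h1
    exact absurd h1 (by norm_num)
  refine ⟨Γ, hinj, ?_, hdΓ, ?_, habs⟩
  · intro a ha
    by_contra hcon
    push Not at hcon
    have h1 := X.sumsq
    have h2 := K5aux.sum_d_sq J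
    have h3 : ∑ b, (J.d b) ^ 2 = ∑ a' ∈ Finset.univ.image Γ, (X.d a') ^ 2 := by
      rw [Finset.sum_image fun x _ y _ h => hinj h]
      exact Finset.sum_congr rfl fun b _ => by rw [hdΓ b]
    have h4 : ∑ a' ∈ Finset.univ.image Γ, (X.d a') ^ 2 + (X.d a) ^ 2 ≤ ∑ a', (X.d a') ^ 2 := by
      have hnot : a ∉ Finset.univ.image Γ := by
        intro hmem
        obtain ⟨b, _, hb⟩ := Finset.mem_image.1 hmem
        exact hcon b hb
      have h6 := Finset.sum_insert (f := fun a' => (X.d a') ^ 2) hnot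
      rw [add_comm]
      refine h6.symm.le.trans ?_
      exact Finset.sum_le_sum_of_subset (Finset.subset_univ _)
    have h5 : 0 < (X.d a) ^ 2 := pow_pos (Nat.pos_of_ne_zero ha) 2
    omega
  · intro b u
    rw [← hexp2 b u, hsign b]
    simp

end Pool.Agent.Helper36.NB
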