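import Mathlib
import Pool.Agent.Helper36.NB.Defs

open scoped BigOperators MonoidAlgebra
open Classical

namespace Pool.Agent.Helper36.NB.T2aux

open Module Matrix

/-- A nondegenerate skew form lives on an even-dimensional space. -/
theorem even_of_skew {E : Type*} [AddCommGroup E] [Module ℂ E] [FiniteDimensional ℂ E]
    (γ : E → E → ℂ) (hadd : ∀ x x' y, γ (x + x') y = γ x y + γ x' y)
    (hsmul : ∀ (c : ℂ) x y, γ (c • x) y = c * γ x y)
    (hskew : ∀ x y, γ y x = - γ x y) (hnd : ∀ x, (∀ y, γ x y = 0) → x = 0) :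
    ∃ m : ℕ, finrank ℂ E = 2 * m := by
  let b := finBasis ℂ E
  let M : Matrix (Fin (finrank ℂ E)) (Fin (finrank ℂ E)) ℂ := Matrix.of fun i j => γ (b i) (b j)
  have hzero : ∀ y, γ 0 y = 0 := fun y => by
    have := hsmul 0 0 y
    simpa using this
  have hsum : ∀ (v : Fin (finrank ℂ E) → ℂ) (y : E), γ (∑ i, v i • b i) y
      = ∑ i, v i * γ (b i) y := by
    intro v y
    have : ∀ s : Finset (Fin (finrank ℂ E)), γ (∑ i ∈ s, v i • b i) y
        = ∑ i ∈ s, v i * γ (b i) y := by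
      intro s
      induction s using Finset.induction_on with
      | empty => simpa using hzero y
      | insert a s ha ih => rw [Finset.sum_insert ha, Finset.sum_insert ha, hadd, hsmul, ih]
    exact this _
  have hdet : M.det ≠ 0 := by
    intro h0
    obtain ⟨v, hv, hvM⟩ := Matrix.exists_vecMul_eq_zero_iff.2 h0
    apply hv
    have hx : (∑ i, v i • b i) = 0 := by
      apply hnd
      intro y
      have hb : ∀ j, γ (∑ i, v i • b i) (b j) = 0 := by
        intro j
        rw [hsum]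
        have := congrFun hvM j
        simpa [Matrix.vecMul, dotProduct, M] using this
      have hy : γ y (∑ i, v i • b i) = 0 := by
        conv_lhs => rw [← b.sum_repr y]
        rw [hsum]
        refine Finset.sum_eq_zero fun i _ => ?_
        rw [hskew, hb]
        simp
      rw [hskew, hy, neg_zero]
    have hli := Fintype.linearIndependent_iff.1 b.linearIndependent v hx
    funext i
    exact hli i
  have hT : M.transpose = -M := by
    ext i j
    simp only [Matrix.transpose_apply, Matrix.neg_apply, M, Matrix.of_apply]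
    exact hskew _ _
  have h1 : M.det = (-1) ^ (finrank ℂ E) * M.det := by
    calc M.det = M.transpose.det := (Matrix.det_transpose M).symm
      _ = (-M).det := by rw [hT]
      _ = _ := by rw [Matrix.det_neg, Fintype.card_fin]
  have h2 : ((-1 : ℂ)) ^ (finrank ℂ E) = 1 := by
    have : (((-1 : ℂ)) ^ (finrank ℂ E) - 1) * M.det = 0 := by
      rw [sub_mul, one_mul, ← h1, sub_self]
    rcases mul_eq_zero.1 this with h | h
    · exact sub_eq_zero.1 h
    · exact absurd h hdet
  rcases Nat.even_or_odd (finrank ℂ E) with h | h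
  · obtain ⟨m, hm⟩ := h
    exact ⟨m, by omega⟩
  · rw [h.neg_one_pow] at h2
    norm_num at h2

/-- the matrix of a form. -/
noncomputable def fm {n : ℕ} (β : (Fin n → ℂ) →ₗ[ℂ] (Fin n → ℂ) →ₗ[ℂ] ℂ) : Matrix (Fin n) (Fin n) ℂ :=
  LinearMap.toMatrix₂' ℂ β

theorem fm_apply {n : ℕ} (β : (Fin n → ℂ) →ₗ[ℂ] (Fin n → ℂ) →ₗ[ℂ] ℂ) (v w : Fin n → ℂ) :
    β v w = v ⬝ᵥ (fm β *ᵥ w) := by
  have h : Matrix.toLinearMap₂' ℂ (fm β) = β := by
    simp [fm]
  conv_lhs => rw [← h]
  rw [Matrix.toLinearMap₂'_apply']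

theorem fm_det {n : ℕ} (β : (Fin n → ℂ) →ₗ[ℂ] (Fin n → ℂ) →ₗ[ℂ] ℂ)
    (h : ∀ v, (∀ w, β v w = 0) → v = 0) : IsUnit (fm β).det := by
  rw [isUnit_iff_ne_zero]
  intro h0
  obtain ⟨v, hv, hvM⟩ := Matrix.exists_vecMul_eq_zero_iff.2 h0
  apply hv
  apply h
  intro w
  rw [fm_apply, Matrix.dotProduct_mulVec, hvM]
  simp

theorem ext_bil {n m : ℕ} {A B : Matrix (Fin n) (Fin m) ℂ}
    (h : ∀ v w, v ⬝ᵥ (A *ᵥ w) = v ⬝ᵥ (B *ᵥ w)) : A = B := by
  ext i j
  have := h (Pi.single i 1) (Pi.single j 1)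
  simpa using this

/-- the matrix of a representation. -/
noncomputable def rm {N : Type} [Group N] {n : ℕ} (ρ : Representation ℂ N (Fin n → ℂ)) (u : N) :
    Matrix (Fin n) (Fin n) ℂ := LinearMap.toMatrix' (ρ u)

theorem rm_mulVec {N : Type} [Group N] {n : ℕ} (ρ : Representation ℂ N (Fin n → ℂ)) (u : N)
    (v : Fin n → ℂ) : rm ρ u *ᵥ v = ρ u v := by
  rw [rm, LinearMap.toMatrix'_mulVec]

theorem rm_mul {N : Type} [Group N] {n : ℕ} (ρ : Representation ℂ N (Fin n → ℂ)) (u v : N) :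
    rm ρ (u * v) = rm ρ u * rm ρ v := by
  rw [rm, map_mul]
  exact LinearMap.toMatrix'_mul _ _

theorem rm_one {N : Type} [Group N] {n : ℕ} (ρ : Representation ℂ N (Fin n → ℂ)) :
    rm ρ 1 = 1 := by
  rw [rm, map_one]
  exact LinearMap.toMatrix'_one

theorem rm_inv {N : Type} [Group N] {n : ℕ} (ρ : Representation ℂ N (Fin n → ℂ)) (u : N) :
    rm ρ u⁻¹ * rm ρ u = 1 := by
  rw [← rm_mul, inv_mul_cancel, rm_one]

theorem rm_inv' {N : Type} [Group N] {n : ℕ} (ρ : Representation ℂ N (Fin n → ℂ)) (u : N) :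
    rm ρ u * rm ρ u⁻¹ = 1 := by
  rw [← rm_mul, mul_inv_cancel, rm_one]

/-- first condition in matrix form. -/
theorem cond1 {N : Type} [Group N] {n : ℕ} (τ : N →* N) (ρ : Representation ℂ N (Fin n → ℂ))
    (β : (Fin n → ℂ) →ₗ[ℂ] (Fin n → ℂ) →ₗ[ℂ] ℂ)
    (h : ∀ u v w, β (ρ u v) w = β v (ρ (τ u⁻¹) w)) (u : N) :
    (rm ρ u).transpose * fm β = fm β * rm ρ (τ u⁻¹) := by
  apply ext_bil
  intro v w
  have := h u v w
  rw [fm_apply, fm_apply, ← rm_mulVec, ← rm_mulVec] at this
  rw [← Matrix.mulVec_mulVec, ← Matrix.mulVec_mulVec, ← this]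
  rw [Matrix.dotProduct_mulVec v, Matrix.vecMul_transpose]

/-- second condition in matrix form. -/
theorem cond2 {N : Type} [Group N] {n : ℕ} (z : N) (s : ℂ) (ρ : Representation ℂ N (Fin n → ℂ))
    (β : (Fin n → ℂ) →ₗ[ℂ] (Fin n → ℂ) →ₗ[ℂ] ℂ)
    (h : ∀ v w, β w v = s * β v (ρ z⁻¹ w)) :
    (fm β).transpose = s • (fm β * rm ρ z⁻¹) := by
  apply ext_bil
  intro v w
  have := h v w
  rw [fm_apply, fm_apply, ← rm_mulVec] at this
  rw [Matrix.smul_mulVec, dotProduct_smul, smul_eq_mul, ← Matrix.mulVec_mulVec, ← this]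
  rw [Matrix.dotProduct_mulVec v, Matrix.vecMul_transpose, dotProduct_comm]

theorem avg_comm {N : Type} [Group N] [Fintype N] {n n' : ℕ} (ρ : Representation ℂ N (Fin n → ℂ))
    (ρ' : Representation ℂ N (Fin n' → ℂ)) (G0 : Matrix (Fin n') (Fin n) ℂ) (w : N) :
    (∑ u : N, rm ρ' u * G0 * rm ρ u⁻¹) * rm ρ w
      = rm ρ' w * ∑ u : N, rm ρ' u * G0 * rm ρ u⁻¹ := by
  rw [Matrix.sum_mul, Matrix.mul_sum, ← Equiv.sum_comp (Equiv.mulLeft w)]
  refine Finset.sum_congr rfl fun v _ => ?_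
  simp only [Equiv.coe_mulLeft]
  have : (w * v)⁻¹ * w = v⁻¹ := by group
  rw [Matrix.mul_assoc _ (rm ρ (w * v)⁻¹), ← rm_mul ρ, this, rm_mul ρ' w v]
  simp only [Matrix.mul_assoc]

theorem mem_inv {N : Type} [Group N] {n n' : ℕ} (ρ : Representation ℂ N (Fin n → ℂ))
    (ρ' : Representation ℂ N (Fin n' → ℂ)) (F : Matrix (Fin n') (Fin n) ℂ)
    (h : ∀ u, F * rm ρ u = rm ρ' u * F) :
    Matrix.toLin' F ∈ (Representation.linHom ρ ρ').invariants := by
  refine (Representation.mem_linHom_invariants_iff_isIntertwining (ρ := ρ) (σ := ρ') _).2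
    ⟨fun u v => ?_⟩
  have h2 := congrArg (fun M => M *ᵥ v) (h u)
  simp only [← Matrix.mulVec_mulVec, rm_mulVec] at h2
  simpa [Matrix.toLin'_apply] using h2

theorem inv_comm {N : Type} [Group N] {n n' : ℕ} (ρ : Representation ℂ N (Fin n → ℂ))
    (ρ' : Representation ℂ N (Fin n' → ℂ)) (f : (Fin n → ℂ) →ₗ[ℂ] (Fin n' → ℂ))
    (hf : f ∈ (Representation.linHom ρ ρ').invariants) (u : N) :
    LinearMap.toMatrix' f * rm ρ u = rm ρ' u * LinearMap.toMatrix' f := by
  have this := (Representation.mem_linHom_invariants_iff_isIntertwining (ρ := ρ) (σ := ρ') f).1 hf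
  have h2 : f ∘ₗ (ρ u) = (ρ' u) ∘ₗ f := by
    refine LinearMap.ext fun v => ?_
    simpa using this.isIntertwining u v
  have h3 := congrArg LinearMap.toMatrix' h2
  rw [LinearMap.toMatrix'_comp, LinearMap.toMatrix'_comp] at h3
  exact h3

/-- the adjoint. -/
noncomputable def ad {n n' : ℕ} (B : Matrix (Fin n) (Fin n) ℂ) (B' : Matrix (Fin n') (Fin n') ℂ)
    (F : Matrix (Fin n') (Fin n) ℂ) : Matrix (Fin n) (Fin n') ℂ := B⁻¹ * F.transpose * B'

theorem skew {n n' : ℕ} (B : Matrix (Fin n) (Fin n) ℂ) (B' : Matrix (Fin n') (Fin n') ℂ)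
    (d : IsUnit B.det) (d' : IsUnit B'.det) (s s' : ℂ) (hss : s * s' = -1) (hs'2 : s' * s' = 1)
    (R Ri : Matrix (Fin n) (Fin n) ℂ) (R' : Matrix (Fin n') (Fin n') ℂ)
    (hR : Ri * R = 1)
    (c2 : B.transpose = s • (B * Ri)) (c2' : B'.transpose = s' • (B' * R'))
    (X Y : Matrix (Fin n') (Fin n) ℂ) (hY : Y * Ri = R' * Y) :
    Matrix.trace (ad B B' Y * X) = - Matrix.trace (ad B B' X * Y) := by
  have hBB : B⁻¹ * B = 1 := Matrix.nonsing_inv_mul _ d
  have hBB2 : B * B⁻¹ = 1 := Matrix.mul_nonsing_inv _ d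
  have hBB' : B'⁻¹ * B' = 1 := Matrix.nonsing_inv_mul _ d'
  have hBB2' : B' * B'⁻¹ = 1 := Matrix.mul_nonsing_inv _ d'
  have hBt : (B⁻¹).transpose * B = (s' * (-1)) • R := by
    have h1 : (B⁻¹).transpose * B.transpose = 1 := by
      rw [← Matrix.transpose_mul, hBB2, Matrix.transpose_one]
    have h3 : B.transpose * R = s • B := by
      rw [c2, Matrix.smul_mul, Matrix.mul_assoc, hR, Matrix.mul_one]
    have h4 : B = (s' * (-1)) • (B.transpose * R) := by
      rw [h3, smul_smul]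
      have : s' * (-1) * s = 1 := by linear_combination -hss
      rw [this, one_smul]
    calc (B⁻¹).transpose * B
        = (B⁻¹).transpose * ((s' * (-1)) • (B.transpose * R)) := by rw [← h4]
      _ = (s' * (-1)) • R := by
        rw [Matrix.mul_smul, ← Matrix.mul_assoc, h1, Matrix.one_mul]
  have hBt' : B'⁻¹ * B'.transpose = s' • R' := by
    rw [c2', Matrix.mul_smul, ← Matrix.mul_assoc, hBB', Matrix.one_mul]
  have h1 : Matrix.trace (ad B B' Y * X) = Matrix.trace (B⁻¹ * (ad B B' Y * X).transpose * B) := by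
    rw [Matrix.trace_mul_comm (B⁻¹ * (ad B B' Y * X).transpose) B, ← Matrix.mul_assoc, hBB2,
      Matrix.one_mul, Matrix.trace_transpose]
  have e1 : (ad B B' Y * X).transpose
      = X.transpose * (B'.transpose * Y * (B⁻¹).transpose) := by
    simp only [ad, Matrix.transpose_mul, Matrix.transpose_transpose, Matrix.mul_assoc]
  have e2 : B' * (B'⁻¹ * B'.transpose) = B'.transpose := by
    rw [← Matrix.mul_assoc, hBB2', Matrix.one_mul]
  have e3 : B⁻¹ * (X.transpose * (B'.transpose * Y * (B⁻¹).transpose)) * B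
      = B⁻¹ * X.transpose * B' * ((B'⁻¹ * B'.transpose) * Y * ((B⁻¹).transpose * B)) := by
    conv_lhs => rw [← e2]
    simp only [Matrix.mul_assoc]
  have e4 : ((s' • R') * Y * ((s' * (-1)) • R)) = - Y := by
    rw [Matrix.smul_mul, Matrix.smul_mul, Matrix.mul_smul, smul_smul, ← hY, Matrix.mul_assoc,
      hR, Matrix.mul_one]
    have : s' * (s' * (-1)) = -1 := by linear_combination -hs'2
    rw [this, neg_one_smul]
  rw [h1, e1, e3, hBt, hBt', e4, Matrix.mul_neg, Matrix.trace_neg]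
  rfl

theorem ad_comm {n n' : ℕ} (B : Matrix (Fin n) (Fin n) ℂ) (B' : Matrix (Fin n') (Fin n') ℂ)
    (d : IsUnit B.det) (X : Matrix (Fin n') (Fin n) ℂ)
    (R Rt : Matrix (Fin n) (Fin n) ℂ) (R' Rt' : Matrix (Fin n') (Fin n') ℂ)
    (c1 : R.transpose * B = B * Rt) (c1' : R'.transpose * B' = B' * Rt')
    (hX : X * R = R' * X) : ad B B' X * Rt' = Rt * ad B B' X := by
  have hBB : B⁻¹ * B = 1 := Matrix.nonsing_inv_mul _ d
  have hBB2 : B * B⁻¹ = 1 := Matrix.mul_nonsing_inv _ d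
  have k1 : B⁻¹ * R.transpose = Rt * B⁻¹ := by
    calc B⁻¹ * R.transpose = B⁻¹ * (R.transpose * B) * B⁻¹ := by
          rw [Matrix.mul_assoc, Matrix.mul_assoc, hBB2, Matrix.mul_one]
      _ = B⁻¹ * (B * Rt) * B⁻¹ := by rw [c1]
      _ = Rt * B⁻¹ := by rw [← Matrix.mul_assoc, hBB, Matrix.one_mul]
  calc ad B B' X * Rt' = B⁻¹ * X.transpose * (B' * Rt') := by
        simp only [ad, Matrix.mul_assoc]
    _ = B⁻¹ * X.transpose * (R'.transpose * B') := by rw [c1']
    _ = B⁻¹ * (R' * X).transpose * B' := by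
        rw [Matrix.transpose_mul]; simp only [Matrix.mul_assoc]
    _ = B⁻¹ * (X * R).transpose * B' := by rw [hX]
    _ = (B⁻¹ * R.transpose) * X.transpose * B' := by
        rw [Matrix.transpose_mul]; simp only [Matrix.mul_assoc]
    _ = Rt * ad B B' X := by rw [k1]; simp only [ad, Matrix.mul_assoc]

theorem ad_zero {n n' : ℕ} (B : Matrix (Fin n) (Fin n) ℂ) (B' : Matrix (Fin n') (Fin n') ℂ)
    (d : IsUnit B.det) (d' : IsUnit B'.det) (X : Matrix (Fin n') (Fin n) ℂ)
    (h : ad B B' X = 0) : X = 0 := by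
  have hBB2 : B * B⁻¹ = 1 := Matrix.mul_nonsing_inv _ d
  have hBB2' : B' * B'⁻¹ = 1 := Matrix.mul_nonsing_inv _ d'
  have h1 : X.transpose = 0 := by
    have : B * ad B B' X * B'⁻¹ = X.transpose := by
      simp only [ad]
      rw [← Matrix.mul_assoc, ← Matrix.mul_assoc, hBB2, Matrix.one_mul, Matrix.mul_assoc,
        hBB2', Matrix.mul_one]
    rw [← this, h, Matrix.mul_zero, Matrix.zero_mul]
  rw [← Matrix.transpose_transpose X, h1, Matrix.transpose_zero]

end Pool.Agent.Helper36.NB.T2aux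

namespace Pool.Agent.Helper36.NB

open T2aux

variable {N : Type} [Group N]

/-- Forms of opposite signs have an even-dimensional space of homomorphisms. -/
theorem twi_parity [Fintype N] (τ : N →* N) (z : N) (hτ2 : ∀ u, τ (τ u) = z⁻¹ * u * z)
    (hτz : τ z = z) (s s' : ℤ) (hs : s * s' = -1) (η θ : N → ℂ) (hη : Twi τ z s η)
    (hθ : Twi τ z s' θ) :
    ∃ m : ℕ, (∑ u, η u⁻¹ * θ u) / (Nat.card N : ℂ) = 2 * m := by
  obtain ⟨n, ρ, β, hρ, hβ, hβ1, hβ2⟩ := hη
  obtain ⟨n', ρ', β', hρ', hβ', hβ1', hβ2'⟩ := hθ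
  have c1 := cond1 τ ρ β hβ1
  have c2 := cond2 z (s : ℂ) ρ β hβ2
  have c1' := cond1 τ ρ' β' hβ1'
  have c2' := cond2 z (s' : ℂ) ρ' β' hβ2'
  have d := fm_det β hβ
  have d' := fm_det β' hβ'
  have hss : (s : ℂ) * (s' : ℂ) = -1 := by exact_mod_cast hs
  have hs'2 : (s' : ℂ) * (s' : ℂ) = 1 := by
    have : s' * s' = 1 := by
      have h1 : IsUnit s' := ⟨⟨s', -s, by linarith [mul_comm s s'], by linarith⟩, rfl⟩
      rcases Int.isUnit_iff.1 h1 with h | h <;> simp [h]
    exact_mod_cast this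
  have hcard : (Nat.card N : ℂ) ≠ 0 := by exact_mod_cast Nat.card_pos.ne'
  have : Invertible (Nat.card N : ℂ) := invertibleOfNonzero hcard
  -- the form on the space of homomorphisms
  obtain ⟨m, hm⟩ := even_of_skew (E := (Representation.linHom ρ ρ').invariants)
    (fun f g => Matrix.trace (ad (fm β) (fm β') (LinearMap.toMatrix' f.1) * LinearMap.toMatrix' g.1))
    (fun f f' g => by
      simp only [ad, Submodule.coe_add, map_add, Matrix.transpose_add, Matrix.mul_add,
        Matrix.add_mul, Matrix.trace_add])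
    (fun c f g => by
      simp only [ad, Submodule.coe_smul, map_smul, Matrix.transpose_smul, Matrix.mul_smul,
        Matrix.smul_mul, Matrix.trace_smul, smul_eq_mul])
    (fun f g => skew (fm β) (fm β') d d' s s' hss hs'2 (rm ρ z) (rm ρ z⁻¹) (rm ρ' z⁻¹)
      (rm_inv ρ z) c2 c2' _ _ (inv_comm ρ ρ' g.1 g.2 z⁻¹))
    (fun f hf => by
      have ha : ∀ u : N, ad (fm β) (fm β') (LinearMap.toMatrix' f.1) * rm ρ' u
          = rm ρ u * ad (fm β) (fm β') (LinearMap.toMatrix' f.1) := by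
        intro u
        have hu : u = τ ((τ (z * u * z⁻¹))⁻¹)⁻¹ := by
          rw [inv_inv, hτ2]
          group
        rw [hu]
        exact ad_comm (fm β) (fm β') d _ _ _ _ _ (c1 _) (c1' _) (inv_comm ρ ρ' f.1 f.2 _)
      have htr : ∀ G0 : Matrix (Fin n') (Fin n) ℂ,
          Matrix.trace (ad (fm β) (fm β') (LinearMap.toMatrix' f.1) * G0) = 0 := by
        intro G0
        have h0 := hf ⟨_, mem_inv ρ ρ' (∑ u : N, rm ρ' u * G0 * rm ρ u⁻¹)
          (avg_comm ρ ρ' G0)⟩
        simp only [LinearMap.toMatrix'_toLin', Matrix.mul_sum, Matrix.trace_sum] at h0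
        have hterm : ∀ u : N, Matrix.trace (ad (fm β) (fm β') (LinearMap.toMatrix' f.1)
            * (rm ρ' u * G0 * rm ρ u⁻¹))
            = Matrix.trace (ad (fm β) (fm β') (LinearMap.toMatrix' f.1) * G0) := by
          intro u
          calc Matrix.trace (ad (fm β) (fm β') (LinearMap.toMatrix' f.1)
                * (rm ρ' u * G0 * rm ρ u⁻¹))
              = Matrix.trace ((ad (fm β) (fm β') (LinearMap.toMatrix' f.1) * rm ρ' u * G0)
                * rm ρ u⁻¹) := by
                simp only [Matrix.mul_assoc]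
            _ = Matrix.trace (rm ρ u⁻¹ * (rm ρ u
                * ad (fm β) (fm β') (LinearMap.toMatrix' f.1) * G0)) := by
                rw [Matrix.trace_mul_comm, ha u]
            _ = Matrix.trace (ad (fm β) (fm β') (LinearMap.toMatrix' f.1) * G0) := by
                rw [← Matrix.mul_assoc, ← Matrix.mul_assoc, rm_inv, Matrix.one_mul]
        simp only [hterm, Finset.sum_const, Finset.card_univ, nsmul_eq_mul] at h0
        rw [← Nat.card_eq_fintype_card] at h0
        rcases mul_eq_zero.1 h0 with h | h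
        · exact absurd h hcard
        · exact h
      have had : ad (fm β) (fm β') (LinearMap.toMatrix' f.1) = 0 := by
        ext i j
        have := htr (Matrix.single j i 1)
        simpa [Matrix.trace_mul_single] using this
      have hX0 := ad_zero (fm β) (fm β') d d' _ had
      apply Subtype.ext
      exact (LinearMap.toMatrix' (R := ℂ) (m := Fin n') (n := Fin n)).injective (by
        rw [hX0]; simp))
  refine ⟨m, ?_⟩
  have hav := Representation.card_inv_mul_sum_char_eq_finrank (Representation.linHom ρ ρ')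
  rw [hm] at hav
  rw [div_eq_inv_mul]
  have h5 : ∑ u, η u⁻¹ * θ u = ∑ g : N, (Representation.linHom ρ ρ').character g := by
    refine Finset.sum_congr rfl fun u _ => ?_
    rw [Representation.char_linHom, hρ, hρ']
  rw [h5, hav]
  push_cast
  ring

end Pool.Agent.Helper36.NB
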