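import Mathlib
import Pool.Agent.Helper36.NB.Defs

open scoped BigOperators MonoidAlgebra
open Classical

namespace Pool.Agent.Helper36.NB

variable {N : Type} [Group N]

namespace T3aux

/-- a left nondegenerate form on a finite-dimensional space represents all functionals -/
lemma flip_surj {V : Type} [AddCommGroup V] [Module ℂ V] [FiniteDimensional ℂ V]
    (β : V →ₗ[ℂ] V →ₗ[ℂ] ℂ) (h : ∀ v, (∀ w, β v w = 0) → v = 0) (φ : V →ₗ[ℂ] ℂ) :
    ∃ w, ∀ v, β v w = φ v := by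
  have hd : Module.finrank ℂ V = Module.finrank ℂ (Module.Dual ℂ V) :=
    (Subspace.dual_finrank_eq).symm
  have h1 : Function.Injective (β : V →ₗ[ℂ] Module.Dual ℂ V) := by
    rw [injective_iff_map_eq_zero]
    intro v hv
    refine h v fun w => ?_
    rw [hv]
    rfl
  have h2 : Function.Surjective (β : V →ₗ[ℂ] Module.Dual ℂ V) :=
    (LinearMap.injective_iff_surjective_of_finrank_eq_finrank hd).mp h1
  have h3 : Function.Injective (β.flip : V →ₗ[ℂ] Module.Dual ℂ V) := by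
    rw [injective_iff_map_eq_zero]
    intro w hw
    rw [← Module.forall_dual_apply_eq_zero_iff ℂ w]
    intro ψ
    obtain ⟨v, rfl⟩ := h2 ψ
    have := congrArg (fun f : V →ₗ[ℂ] ℂ => f v) hw
    simpa using this
  obtain ⟨w, hw⟩ := (LinearMap.injective_iff_surjective_of_finrank_eq_finrank hd).mp h3 φ
  exact ⟨w, fun v => by rw [← hw]; rfl⟩

/-- transport to a coordinate space -/
lemma twi_of {τ : N →* N} {z : N} {s : ℂ} {η : N → ℂ} {V : Type} [AddCommGroup V] [Module ℂ V]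
    [FiniteDimensional ℂ V] (ρ : Representation ℂ N V) (β : V →ₗ[ℂ] V →ₗ[ℂ] ℂ)
    (h1 : ∀ u, ρ.character u = η u) (h2 : ∀ v, (∀ w, β v w = 0) → v = 0)
    (h3 : ∀ u v w, β (ρ u v) w = β v (ρ (τ u⁻¹) w))
    (h4 : ∀ v w, β w v = s * β v (ρ z⁻¹ w)) : Twi τ z s η := by
  let e : V ≃ₗ[ℂ] (Fin (Module.finrank ℂ V) → ℂ) := (Module.finBasis ℂ V).equivFun
  let ρ' : Representation ℂ N (Fin (Module.finrank ℂ V) → ℂ) :=
    (e.conjRingEquiv : _ →* _).comp ρ
  have hρ' : ∀ u v, ρ' u v = e (ρ u (e.symm v)) := fun u v => rfl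
  refine ⟨Module.finrank ℂ V, ρ', β.compl₁₂ e.symm.toLinearMap e.symm.toLinearMap, fun u => ?_,
    fun v hv => ?_, fun u v w => ?_, fun v w => ?_⟩
  · rw [← h1 u]
    exact LinearMap.trace_conj' (ρ u) e
  · have h := h2 (e.symm v) fun w => by
      have := hv (e w)
      simpa using this
    simpa using h
  · simp only [LinearMap.compl₁₂_apply, hρ', LinearEquiv.coe_coe, LinearEquiv.symm_apply_apply]
    exact h3 _ _ _
  · simp only [LinearMap.compl₁₂_apply, hρ', LinearEquiv.coe_coe, LinearEquiv.symm_apply_apply]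
    exact h4 _ _

/-- the tensor product of two left nondegenerate forms is left nondegenerate -/
lemma tmul_nondeg {n m : ℕ} (β : (Fin n → ℂ) →ₗ[ℂ] (Fin n → ℂ) →ₗ[ℂ] ℂ)
    (β' : (Fin m → ℂ) →ₗ[ℂ] (Fin m → ℂ) →ₗ[ℂ] ℂ) (h : ∀ v, (∀ w, β v w = 0) → v = 0)
    (h' : ∀ v, (∀ w, β' v w = 0) → v = 0)
    (B : TensorProduct ℂ (Fin n → ℂ) (Fin m → ℂ) →ₗ[ℂ]
      TensorProduct ℂ (Fin n → ℂ) (Fin m → ℂ) →ₗ[ℂ] ℂ)
    (hB : ∀ v w v' w', B (v ⊗ₜ w) (v' ⊗ₜ w') = β v v' * β' w w')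
    (x : TensorProduct ℂ (Fin n → ℂ) (Fin m → ℂ)) (hx : ∀ y, B x y = 0) : x = 0 := by
  let b := (Pi.basisFun ℂ (Fin n)).tensorProduct (Pi.basisFun ℂ (Fin m))
  refine b.repr.injective (Finsupp.ext fun ij => ?_)
  obtain ⟨i, j⟩ := ij
  rw [map_zero, Finsupp.zero_apply]
  obtain ⟨v', hv'⟩ := flip_surj β h (LinearMap.proj i)
  obtain ⟨w', hw'⟩ := flip_surj β' h' (LinearMap.proj j)
  have h1 : ∀ x, b.repr x (i, j) = B x (v' ⊗ₜ w') := by
    intro x
    induction x using TensorProduct.induction_on with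
    | zero => simp
    | tmul v w =>
      rw [hB, hv', hw', Module.Basis.tensorProduct_repr_tmul_apply]
      simp [mul_comm]
    | add x y hx hy => rw [map_add, Finsupp.add_apply, hx, hy, map_add, LinearMap.add_apply]
  rw [h1, hx]

end T3aux

theorem twi_mul [Finite N] (τ : N →* N) (z : N) (s s' : ℂ) (η θ : N → ℂ) (hη : Twi τ z s η)
    (hθ : Twi τ z s' θ) : Twi τ z (s * s') (fun u => η u * θ u) := by
  obtain ⟨n, ρ, β, h1, h2, h3, h4⟩ := hη
  obtain ⟨m, σ, γ, k1, k2, k3, k4⟩ := hθ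
  let B : TensorProduct ℂ (Fin n → ℂ) (Fin m → ℂ) →ₗ[ℂ]
      TensorProduct ℂ (Fin n → ℂ) (Fin m → ℂ) →ₗ[ℂ] ℂ :=
    LinearMap.BilinForm.tensorDistrib ℂ ℂ (β ⊗ₜ[ℂ] γ)
  have hB : ∀ v w v' w', B (v ⊗ₜ w) (v' ⊗ₜ w') = β v v' * γ w w' := by
    intro v w v' w'
    change LinearMap.BilinForm.tensorDistrib ℂ ℂ (β ⊗ₜ[ℂ] γ) (v ⊗ₜ w) (v' ⊗ₜ w') = _
    rw [LinearMap.BilinForm.tensorDistrib_tmul, smul_eq_mul, mul_comm]
  refine T3aux.twi_of (ρ.tprod σ) B (fun u => ?_) (T3aux.tmul_nondeg β γ h2 k2 B hB)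
    (fun u x y => ?_) (fun x y => ?_)
  · rw [Representation.char_tensor, Pi.mul_apply, h1, k1]
  · induction x using TensorProduct.induction_on with
    | zero => simp
    | add x x' hx hx' => rw [map_add, map_add, LinearMap.add_apply, hx, hx', map_add,
        LinearMap.add_apply]
    | tmul v w =>
      induction y using TensorProduct.induction_on with
      | zero => simp
      | add y y' hy hy' => rw [map_add, hy, hy', map_add, map_add]
      | tmul v' w' =>
        rw [Representation.tprod_apply, Representation.tprod_apply, TensorProduct.map_tmul,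
          TensorProduct.map_tmul, hB, hB, h3, k3]
  · induction x using TensorProduct.induction_on with
    | zero => simp
    | add x x' hx hx' => rw [map_add, hx, hx', map_add, LinearMap.add_apply, mul_add]
    | tmul v w =>
      induction y using TensorProduct.induction_on with
      | zero => simp
      | add y y' hy hy' => rw [map_add, LinearMap.add_apply, hy, hy', map_add, map_add, mul_add]
      | tmul v' w' =>
        rw [Representation.tprod_apply, TensorProduct.map_tmul, hB, hB, h4 v v', k4 w w']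
        ring

theorem twi_comp (τ : N →* N) (z : N) (hτz : τ z = z) (s : ℂ) (η : N → ℂ)
    (hη : Twi τ z s η) : Twi τ z s (fun u => η (τ u)) := by
  obtain ⟨n, ρ, β, h1, h2, h3, h4⟩ := hη
  refine ⟨n, ρ.comp τ, β, fun u => h1 (τ u), h2, fun u v w => ?_, fun v w => ?_⟩
  · change β (ρ (τ u) v) w = β v (ρ (τ (τ u⁻¹)) w)
    rw [h3, map_inv τ u]
  · change β w v = s * β v (ρ (τ z⁻¹) w)
    rw [map_inv, hτz]
    exact h4 v w

theorem twi_alpha [Finite N] (τ : N →* N) (z : N) (hτ2 : ∀ u, τ (τ u) = z⁻¹ * u * z)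
    (s : ℂ) (η : N → ℂ) (hη : Twi τ z s η) (u : N) : η (τ u⁻¹) = η u := by
  obtain ⟨n, ρ, β, h1, h2, h3, h4⟩ := hη
  have hd : Module.finrank ℂ (Fin n → ℂ) = Module.finrank ℂ (Module.Dual ℂ (Fin n → ℂ)) :=
    (Subspace.dual_finrank_eq).symm
  have hi : Function.Injective (β : (Fin n → ℂ) →ₗ[ℂ] Module.Dual ℂ (Fin n → ℂ)) := by
    rw [injective_iff_map_eq_zero]
    intro v hv
    refine h2 v fun w => ?_
    rw [hv]
    rfl
  let e : (Fin n → ℂ) ≃ₗ[ℂ] Module.Dual ℂ (Fin n → ℂ) :=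
    LinearMap.linearEquivOfInjective (β : (Fin n → ℂ) →ₗ[ℂ] Module.Dual ℂ (Fin n → ℂ)) hi hd
  have he : ∀ v w, e v w = β v w := fun v w => rfl
  have hc : e.conj (ρ u) = Module.Dual.transpose (R := ℂ) (ρ (τ u⁻¹)) := by
    refine LinearMap.ext fun φ => ?_
    obtain ⟨v, rfl⟩ := e.surjective φ
    refine LinearMap.ext fun w => ?_
    rw [LinearEquiv.conj_apply_apply, LinearEquiv.symm_apply_apply, he, h3,
      Module.Dual.transpose_apply, LinearMap.comp_apply, he]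
  rw [← h1 u, ← h1 (τ u⁻¹)]
  change LinearMap.trace ℂ _ (ρ (τ u⁻¹)) = LinearMap.trace ℂ _ (ρ u)
  rw [← LinearMap.trace_conj' (ρ u) e, hc]
  exact (LinearMap.trace_transpose' _).symm

theorem twi_one [Finite N] (τ : N →* N) (z : N) : Twi τ z 1 (fun _ => (1 : ℂ)) := by
  refine ⟨1, 1, (LinearMap.mul ℂ ℂ).compl₁₂ (LinearMap.proj 0) (LinearMap.proj 0), fun u => ?_,
    fun v hv => ?_, fun u v w => rfl, fun v w => ?_⟩
  · change LinearMap.trace ℂ (Fin 1 → ℂ) 1 = 1
    rw [LinearMap.trace_one]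
    simp
  · have := hv (fun _ => 1)
    funext i
    have hi : i = 0 := Subsingleton.elim _ _
    subst hi
    simpa using this
  · change w 0 * v 0 = 1 * (v 0 * w 0)
    ring

theorem twi_isChar (τ : N →* N) (z : N) (s : ℂ) (η : N → ℂ) (hη : Twi τ z s η) :
    IsChar η := by
  obtain ⟨n, ρ, -, h1, -⟩ := hη
  exact ⟨n, ρ, h1⟩

end Pool.Agent.Helper36.NB
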