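import Mathlib
import Pool.Agent.Helper36.NB.Defs
import Pool.Agent.Helper36.NB.E0
import Pool.Agent.Helper36.NB.E1
import Pool.Agent.Helper36.NB.K3
import Pool.Agent.Helper36.NB.K5
import Pool.Agent.Helper36.NB.T1
import Pool.Agent.Helper36.NB.T2
import Pool.Agent.Helper36.NB.T3

open scoped BigOperators MonoidAlgebra
open Classical

namespace Pool.Agent.Helper36.NB

namespace K6aux

theorem pow_two_pow (m : ℕ) (hm : Odd m) (n : ℕ) :
    ∃ k : ℕ, (m ^ 2) ^ (2 ^ n) = 1 + 2 * 2 ^ n * k := by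
  induction n with
  | zero =>
    obtain ⟨t, rfl⟩ := hm
    refine ⟨2 * t ^ 2 + 2 * t, ?_⟩
    simp only [pow_zero, pow_one]
    ring
  | succ n ih =>
    obtain ⟨k, hk⟩ := ih
    refine ⟨k + 2 ^ n * k ^ 2, ?_⟩
    rw [pow_succ 2 n, pow_mul, hk]
    ring

theorem no_half (W : ℂ) (hW : IsIntegral ℤ W) (m : ℕ) (h : (2 : ℂ) * m = 1 + 2 * W) :
    False := by
  have hq : W = algebraMap ℚ ℂ ((m : ℚ) - 1 / 2) := by
    simp only [map_sub, map_natCast, map_div₀, map_one, map_ofNat]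
    linear_combination (-1 / 2 : ℂ) * h
  rw [hq] at hW
  have hq' : IsIntegral ℤ ((m : ℚ) - 1 / 2) :=
    (isIntegral_algebraMap_iff (algebraMap ℚ ℂ).injective).1 hW
  obtain ⟨n, hn⟩ := IsIntegrallyClosed.isIntegral_iff.1 hq'
  have h3 : (2 : ℚ) * n = 2 * m - 1 := by
    have : (n : ℚ) = m - 1 / 2 := by simpa using hn
    rw [this]; ring
  have h4 : (2 : ℤ) * n = 2 * m - 1 := by exact_mod_cast h3
  omega

theorem twi_pow {N : Type} [Group N] [Finite N] (τ : N →* N) (z : N) (η : N → ℂ)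
    (hη : Twi τ z 1 η) (n : ℕ) : Twi τ z 1 (fun u => η u ^ n) := by
  induction n with
  | zero => simpa using twi_one τ z
  | succ n ih =>
    have := twi_mul τ z 1 1 _ _ ih hη
    simpa [pow_succ] using this

end K6aux

theorem count_final {N : Type} [Group N] [Fintype N] (hN : IsPGroup 2 N) {ι : Type}
    [Fintype ι] (τ : N →* N) (z : N) (hτ2 : ∀ u, τ (τ u) = z⁻¹ * u * z) (hτz : τ z = z)
    (X : CountData N ι τ z) (J : IrrData N) (O : ValuationSubring ℂ)
    (h2 : (2 : O) ∈ IsLocalRing.maximalIdeal O) :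
    ∃ Γ : Fin J.r → ι, Function.Injective Γ ∧ (∀ a, X.d a ≠ 0 → ∃ b, Γ b = a) ∧
      (∀ b, X.d (Γ b) = J.d b) ∧
      ∀ b, (X.fs (Γ b) : ℂ) = (∑ u, J.ch b (z * τ u * u)) / (Nat.card N : ℂ) := by
  obtain ⟨a₀, hbar0, hd0, ⟨k, hkodd, hk⟩, hne, hm, hc⟩ := count_odd hN τ z hτ2 hτz X O h2
  obtain ⟨Γ, hinj, hsurj, hd, hκ, habs⟩ := count_bij hN τ z X J a₀ hne hm hc
  have hcard : (Nat.card N : ℂ) ≠ 0 := by
    have : Nat.card N ≠ 0 := Nat.card_pos.ne'
    exact_mod_cast this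
  obtain ⟨h0s, h0t⟩ := X.fs_real a₀ hbar0
  have h0 : Twi τ z 1 (X.κ a₀) := by
    rcases h0s with h | h
    · rw [h] at h0t; simpa using h0t
    · exfalso
      have h1 : Twi τ z ((1 : ℤ) : ℂ) (fun _ : N => (1 : ℂ)) := by
        simpa using twi_one τ z
      obtain ⟨m, hm'⟩ := twi_parity τ z hτ2 hτz 1 (X.fs a₀) (by rw [h]; norm_num)
        (fun _ => 1) (X.κ a₀) h1 h0t
      simp only [one_mul] at hm'
      rw [hk] at hm'
      have : k = 2 * m := by exact_mod_cast hm'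
      obtain ⟨t, rfl⟩ := hkodd
      omega
  have hal : ∀ u, X.κ a₀ (τ u⁻¹) = X.κ a₀ u := fun u => twi_alpha τ z hτ2 1 _ h0 u
  have hbarκ : ∀ b u, X.κ (X.bar (Γ b)) u = X.κ a₀ u * J.ch b (τ u⁻¹) := by
    intro b u
    rw [X.bar_κ, hκ, hal]
  refine ⟨Γ, hinj, hsurj, hd, ?_⟩
  intro b
  by_cases hb : X.bar (Γ b) = Γ b
  · have hchb : ∀ u, J.ch b (τ u⁻¹) = J.ch b u := by
      intro u
      have h1 := hbarκ b u
      rw [hb, hκ] at h1
      exact (mul_left_cancel₀ (hne u) h1).symm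
    obtain ⟨s, hs, hsum, hst⟩ := fs_twisted J τ z hτ2 hτz b hchb
    rw [hsum]
    obtain ⟨hf, hft⟩ := X.fs_real (Γ b) hb
    by_contra hcon
    have hcon' : X.fs (Γ b) ≠ s := fun h => hcon (by rw [h])
    have hprod : X.fs (Γ b) * s = -1 := by
      rcases hs with hs | hs <;> rcases hf with hf | hf
      · exact absurd (hf.trans hs.symm) hcon'
      · rw [hs, hf]; norm_num
      · rw [hs, hf]; norm_num
      · exact absurd (hf.trans hs.symm) hcon'
    obtain ⟨n, hn⟩ := IsPGroup.iff_card.1 hN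
    have hT : Twi τ z (s : ℂ) (fun u => J.ch b u * (X.κ a₀ u *
        (X.κ a₀ u * X.κ a₀ (τ u)) ^ (2 ^ n - 1))) := by
      have h1 := twi_comp τ z hτz 1 _ h0
      have h2 := twi_mul τ z 1 1 _ _ h0 h1
      rw [one_mul] at h2
      have h3 := K6aux.twi_pow τ z _ h2 (2 ^ n - 1)
      have h4 := twi_mul τ z 1 1 _ _ h0 h3
      rw [one_mul] at h4
      have h5 := twi_mul τ z s 1 _ _ hst h4
      rw [mul_one] at h5
      exact h5
    obtain ⟨M, hM⟩ := twi_parity τ z hτ2 hτz (X.fs (Γ b)) s hprod _ _ hft hT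
    choose kk hkk using fun u => K6aux.pow_two_pow (X.m u) (hm u) n
    have hterm : ∀ u, X.κ (Γ b) u⁻¹ * (J.ch b u * (X.κ a₀ u *
        (X.κ a₀ u * X.κ a₀ (τ u)) ^ (2 ^ n - 1))) =
        J.ch b u * J.ch b u⁻¹ +
          (Nat.card N : ℂ) * (2 * (J.ch b u * J.ch b u⁻¹ * (kk u : ℂ))) := by
      intro u
      have e1 : X.κ a₀ (τ u) = X.κ a₀ u⁻¹ := by
        have := hal u⁻¹
        rwa [inv_inv] at this
      rw [e1, hκ, habs]
      have e2 : (2 ^ n - 1) + 1 = 2 ^ n := Nat.sub_add_cancel Nat.one_le_two_pow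
      have e3 : X.κ a₀ u⁻¹ * J.ch b u⁻¹ * (J.ch b u * (X.κ a₀ u *
          ((X.m u : ℂ) ^ 2) ^ (2 ^ n - 1))) =
          J.ch b u * J.ch b u⁻¹ * ((X.m u : ℂ) ^ 2) ^ (2 ^ n) := by
        rw [← e2, pow_succ (((X.m u : ℂ)) ^ 2) (2 ^ n - 1), e2, ← habs u]
        ring
      rw [e3]
      have e4 : ((X.m u : ℂ) ^ 2) ^ (2 ^ n) = 1 + 2 * 2 ^ n * (kk u : ℂ) := by
        have := hkk u
        exact_mod_cast this
      rw [e4, hn]
      push_cast
      ring
    rw [Finset.sum_congr rfl (fun u _ => hterm u), Finset.sum_add_distrib, add_div,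
      ch_orth, if_pos rfl, ← Finset.mul_sum, mul_div_cancel_left₀ _ hcard, ← Finset.mul_sum]
      at hM
    refine K6aux.no_half _ ?_ M hM.symm
    apply IsIntegral.sum
    intro u _
    refine IsIntegral.mul (IsIntegral.mul ?_ ?_) ?_
    · exact isChar_integral (ch_isChar J b) u
    · exact isChar_integral (ch_isChar J b) u⁻¹
    · have := isIntegral_algebraMap (R := ℤ) (A := ℂ) (x := (kk u : ℤ))
      simpa using this
  · rw [X.fs_nonreal _ hb, fs_twisted_zero J τ z hτ2 hτz b ?_]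
    · simp
    · intro hall
      apply hb
      have hdne : X.d (X.bar (Γ b)) ≠ 0 := by
        rw [X.bar_d, hd]
        exact (J.pos b).ne'
      obtain ⟨b', hb'⟩ := hsurj _ hdne
      have hch : ∀ u, J.ch b' u = J.ch b u := by
        intro u
        have h1 := hbarκ b u
        rw [← hb', hκ, hall u] at h1
        exact mul_left_cancel₀ (hne u) h1
      have hbb : b = b' := by
        by_contra hneb
        have o1 := ch_orth J b b'
        have o2 := ch_orth J b b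
        rw [if_neg hneb] at o1
        rw [if_pos rfl] at o2
        simp only [hch] at o1
        rw [o1] at o2
        exact zero_ne_one o2
      rw [← hb', ← hbb]

end Pool.Agent.Helper36.NB
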