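import Mathlib
import Pool.Agent.Helper36.NB.Asm5
import Pool.Agent.Helper36.NB.M1
import Pool.Agent.Helper36.NB.H1
import Pool.Agent.Helper36.NB.T1
import Pool.Agent.Helper36.NB.E1
import Pool.Agent.Helper36.NB.K6

open scoped BigOperators MonoidAlgebra
open Classical

set_option linter.unusedSectionVars false

namespace Pool.Agent.Helper36.NB

variable {O : ValuationSubring ℂ} {G : Type} [Group G] [Fintype G]

theorem trace_eq_rank' {k : Type} [Field k] {n : ℕ} (M : Matrix (Fin n) (Fin n) k)
    (hM : M * M = M) : M.trace = (M.rank : k) := by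
  have h1 : IsIdempotentElem (Matrix.toLin' M) := by
    change Matrix.toLin' M * Matrix.toLin' M = Matrix.toLin' M
    rw [Module.End.mul_eq_comp, ← Matrix.toLin'_mul, hM]
  have h2 := (LinearMap.IsIdempotentElem.isProj_range _ h1).trace
  rw [← Matrix.trace_toLin'_eq]
  rw [h2]
  rw [Matrix.rank, ← Matrix.toLin'_apply']

/-- The conjugation `u ↦ t⁻¹ u t` of `D`. -/
noncomputable def tauD {x : G} {D E : Subgroup G} (h : IsDefectPair x D E) {t : G}
    (ht : t ∈ E) : D →* D where
  toFun u := ⟨t⁻¹ * u * t, conj_mem h ht u.2⟩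
  map_one' := by apply Subtype.ext; simp
  map_mul' a b := by
    apply Subtype.ext
    change t⁻¹ * (a * b) * t = t⁻¹ * a * t * (t⁻¹ * b * t)
    group

theorem toC_idem {i : MonoidAlgebra O G} (hi : i * i = i) :
    toC O G i * toC O G i = toC O G i := by rw [← map_mul, hi]

theorem toC_cen {D : Subgroup G} {i : MonoidAlgebra O G} (hi : Cen D i) :
    Cen D (toC O G i) := by
  intro u hu
  have := congrArg (toC O G) (hi u hu)
  rwa [map_mul, map_mul, toC_el] at this

theorem toC_central {e : MonoidAlgebra O G} (he : ∀ a, a * e = e * a)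
    (y : MonoidAlgebra ℂ G) : y * toC O G e = toC O G e * y := by
  induction y using MonoidAlgebra.induction_linear with
  | zero => simp
  | add x y hx hy => rw [add_mul, mul_add, hx, hy]
  | single g r =>
    have : (MonoidAlgebra.single g r : MonoidAlgebra ℂ G) = r • toC O _ (el O g) := by
      rw [toC_el]; simp [el]
    rw [this, smul_mul_assoc, ← map_mul, he, map_mul, mul_smul_comm]

theorem chi_conj (I : IrrData G) (a : Fin I.r) (g : G) (y : MonoidAlgebra ℂ G) :
    I.chi a (el ℂ g * y * el ℂ g⁻¹) = I.chi a y := by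
  rw [chi_mul_comm, ← mul_assoc, el_inv_mul_el, one_mul]

/-- The `d_a` are invariant under complex conjugation. -/
theorem bar_d_eq (e : MonoidAlgebra O G) (he : e * e = e) (hec : ∀ a, a * e = e * a)
    (her : inv' e = e) (S : SimpleQuot (toK O G e)) (j : MonoidAlgebra O G) (hj : j * j = j)
    (hje : j * e = j) (hj1 : (S.ρ (toK O G j)).rank = 1) (I : IrrData G)
    (bar : Fin I.r → Fin I.r) (hbb : ∀ a, bar (bar a) = a)
    (hbar : ∀ a x, I.chi (bar a) x = I.chi a (inv' x))
    (hpos : ∑ a, I.chi a (toC O G j) ^ 2 ≠ 0) (a : Fin I.r) :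
    I.chi (bar a) (toC O G j) = I.chi a (toC O G j) := by
  have h1 : ∀ a, I.chi a (toC O G (inv' j)) =
      ((S.ρ (toK O G (inv' j))).rank : ℂ) * I.chi a (toC O G j) := by
    intro a
    have := trace_rank O e he hec S j hj hje hj1 (inv' j) (by rw [← inv'_mul, hj])
      (by
        calc inv' j * e = inv' j * inv' e := by rw [her]
          _ = inv' (e * j) := by rw [inv'_mul]
          _ = inv' j := by rw [← hec, hje]) (TraceFun.ofChi O I a)
    simpa only [TraceFun.ofChi_apply] using this
  set r := (S.ρ (toK O G (inv' j))).rank with hr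
  have h2 : ∑ a, I.chi a (toC O G j) ^ 2 = (r : ℂ) ^ 2 * ∑ a, I.chi a (toC O G j) ^ 2 := by
    calc ∑ a, I.chi a (toC O G j) ^ 2 = ∑ a, I.chi (bar a) (toC O G j) ^ 2 := by
          apply (Fintype.sum_bijective bar _ _ _ _)
          · exact Function.Involutive.bijective hbb
          · intro a; rw [hbb]
      _ = ∑ a, (r : ℂ) ^ 2 * I.chi a (toC O G j) ^ 2 := by
          apply Finset.sum_congr rfl
          intro a _
          rw [hbar, ← toC_inv', h1]; ring
      _ = _ := by rw [Finset.mul_sum]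
  have h3 : (r : ℂ) ^ 2 = 1 := by
    have : ((r : ℂ) ^ 2 - 1) * ∑ a, I.chi a (toC O G j) ^ 2 = 0 := by
      linear_combination -h2
    rcases mul_eq_zero.mp this with h | h
    · linear_combination h
    · exact absurd h hpos
  have h4 : r = 1 := by
    have : r ^ 2 = 1 := by exact_mod_cast h3
    nlinarith [Nat.pow_left_injective (n := 2) (by norm_num) (this.trans (one_pow 2).symm)]
  rw [hbar, ← toC_inv', h1, h4]
  simp

theorem incl_cent_comm {R : Type} [CommRing R] {G : Type} [Group G] (u : G)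
    (a : MonoidAlgebra R (cent u)) : el R u * incl R _ a = incl R _ a * el R u := by
  induction a using MonoidAlgebra.induction_linear with
  | zero => simp
  | add x y hx hy => rw [map_add, mul_add, add_mul, hx, hy]
  | single h r =>
    have hy := Subgroup.mem_centralizer_singleton_iff.mp h.2
    simp only [incl, MonoidAlgebra.mapDomainRingHom_apply, MonoidAlgebra.mapDomain_single, el,
      MonoidAlgebra.single_mul_single, one_mul, mul_one]
    congr 1
    exact hy.symm

theorem ring_shift {R : Type} [Ring R] (T T' U Y : R) (h1 : T * T' = 1) (h2 : T' * T = 1)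
    (h3 : T * T * Y = Y * (T * T)) : T' * Y * T * U = (T * Y) * (T' * U) := by
  have h4 : T * Y * T' = T' * Y * T := by
    calc T * Y * T' = (T' * T) * (T * Y * T') := by rw [h2, one_mul]
      _ = T' * (T * T * Y) * T' := by noncomm_ring
      _ = T' * (Y * (T * T)) * T' := by rw [h3]
      _ = T' * Y * T * (T * T') := by noncomm_ring
      _ = T' * Y * T := by rw [h1, mul_one]
  rw [← h4]; noncomm_ring

theorem chi_shift (I : IrrData G) (a : Fin I.r) (t u : G) (Y : MonoidAlgebra ℂ G)
    (h3 : el ℂ (t * t) * Y = Y * el ℂ (t * t)) :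
    I.chi a (el ℂ t⁻¹ * Y * el ℂ t * el ℂ u⁻¹) =
      I.chi a (el ℂ t⁻¹ * el ℂ u⁻¹ * el ℂ t * Y) := by
  rw [el_mul] at h3
  rw [ring_shift _ _ _ _ (el_mul_el_inv t) (el_inv_mul_el t) h3, chi_mul_comm, mul_assoc,
    mul_assoc, mul_assoc]

theorem fs_nonreal (I : IrrData G) (bar : Fin I.r → Fin I.r)
    (hbar : ∀ a x, I.chi (bar a) x = I.chi a (inv' x)) (a : Fin I.r) (hba : bar a ≠ a) :
    ∑ g : G, I.ch a (g * g) = 0 := by
  have := fs_twisted_zero I (MonoidHom.id G) 1 (fun u => by simp) rfl a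
    (by
      intro hall
      have h1 := ch_orth I (bar a) a
      rw [if_neg hba] at h1
      have h5 := ch_orth I a a
      rw [if_pos rfl] at h5
      have h6 : ∀ g, I.ch (bar a) g = I.ch a g := by
        intro g
        have := hbar a (el ℂ g)
        rw [inv'_el] at this
        calc I.ch (bar a) g = I.chi (bar a) (el ℂ g) := rfl
          _ = I.chi a (el ℂ g⁻¹) := this
          _ = I.ch a ((MonoidHom.id G) g⁻¹) := rfl
          _ = I.ch a g := hall g
      simp only [h6] at h1
      rw [h5] at h1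
      exact one_ne_zero h1)
  simpa only [one_mul, MonoidHom.id_apply] using this

/-- The data on the defect group. -/
theorem exists_countData (h2 : (2 : O) ∈ IsLocalRing.maximalIdeal O)
    (e : MonoidAlgebra O G) (he : e * e = e) (hec : ∀ a, a * e = e * a) (her : inv' e = e)
    {x : G} (hx : IsDefectClass O e x)
    {D E : Subgroup G} (hDE : IsDefectPair x D E) (S : SimpleQuot (toK O G e)) (t : G)
    (ht : t ∈ E) (ht' : t ∉ D) (j : MonoidAlgebra O G) (hj : j * j = j)
    (hje : j * e = j) (hj1 : (S.ρ (toK O G j)).rank = 1)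
    (i : MonoidAlgebra O G) (hi : i * i = i) (hie : i * e = i) (hiD : Cen D i)
    (hiψ : psi t i = i) (hlam : S.lam (toK O G i) ≠ 0)
    (L : ∀ u : D, Loc O i (u : G))
    (hfus : ∀ u v : D, ∀ g : G, g * (u : G) * g⁻¹ = v →
      el (resK O) g * incl (resK O) _ (toK O _ (L u).B) * el (resK O) g⁻¹ =
        incl (resK O) _ (toK O _ (L v).B) → ∃ d ∈ D, d * (u : G) * d⁻¹ = v)
    (I : IrrData G) :
    ∃ X : CountData D (Fin I.r) (tauD hDE ht) ⟨t * t, tt_mem hDE ht ht'⟩,
      (∀ a, I.chi a (toC O G j) = X.d a) ∧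
      ∀ a, (∑ g : G, I.ch a (g * g)) / (Nat.card G : ℂ) = X.fs a := by
  have hchar : CharP (resK O) 2 := resK_charP O h2
  have hD2 : IsPGroup 2 D := IsPGroup.of_card hDE.2.2.2.1
  have htx := defectPair_t hDE ht ht'
  have hxr : IsConj x x⁻¹ := isConj_iff.mpr ⟨t, htx⟩
  obtain ⟨hcD, -, -⟩ := defect_data O h2 I e he hec S j hj hje hj1 x hx.1 hxr hx.2.1 hx.2.2 D
    hDE.2.2.2.1
  obtain ⟨bar, hbb, hbar⟩ := exists_bar I
  have hCi := toC_idem hi
  have hCiD := toC_cen hiD
  have hd : ∀ a, ∃ m : ℕ, I.chi a (toC O G j) = m := fun a => chi_idem I a _ (toC_idem hj)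
  choose d hd using hd
  set m₁ := (S.ρ (toK O G i)).rank with hm₁
  have hk1 : ∀ a, I.chi a (toC O G i) = m₁ * d a := by
    intro a
    have := trace_rank O e he hec S j hj hje hj1 i hi hie (TraceFun.ofChi O I a)
    simp only [TraceFun.ofChi_apply] at this
    rw [this, ← hd]
  have hcard : (Nat.card D : ℂ) ≠ 0 := by exact_mod_cast Nat.card_pos.ne'
  have hbd : ∀ a, d (bar a) = d a := by
    intro a
    have := bar_d_eq e he hec her S j hj hje hj1 I bar hbb hbar (by rw [hcD]; exact hcard) a
    rw [hd, hd] at this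
    exact_mod_cast this
  -- the character κ
  let κ : Fin I.r → D → ℂ := fun a u => I.chi a (el ℂ (u : G) * toC O G i)
  have hκ1 : ∀ a, κ a 1 = m₁ * d a := by
    intro a
    change I.chi a (el ℂ ((1 : D) : G) * toC O G i) = _
    rw [Subgroup.coe_one, el_one, one_mul, hk1]
  have hκO : ∀ a (u : D), κ a u = I.chi a (toC O G (el O (u : G) * i)) := by
    intro a u
    rw [map_mul, toC_el]
  have hinvi : inv' (toC O G i) = el ℂ t⁻¹ * toC O G i * el ℂ t := by
    have h := congrArg (toC O G) hiψ
    rw [psi_apply, map_mul, map_mul, toC_el, toC_el, toC_inv'] at h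
    calc inv' (toC O G i) = (el ℂ t⁻¹ * el ℂ t) * inv' (toC O G i) * (el ℂ t⁻¹ * el ℂ t) := by
          rw [el_inv_mul_el, one_mul, mul_one]
      _ = el ℂ t⁻¹ * (el ℂ t * inv' (toC O G i) * el ℂ t⁻¹) * el ℂ t := by noncomm_ring
      _ = _ := by rw [h]
  have hbarκ : ∀ a (u : D), κ (bar a) u = κ a (tauD hDE ht u⁻¹) := by
    intro a u
    change I.chi (bar a) (el ℂ (u : G) * toC O G i) =
      I.chi a (el ℂ ((tauD hDE ht u⁻¹ : D) : G) * toC O G i)
    rw [hbar, inv'_mul, inv'_el, hinvi]
    have h1 : ((tauD hDE ht u⁻¹ : D) : G) = t⁻¹ * (u : G)⁻¹ * t := rfl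
    rw [h1, el_mul, el_mul]
    exact chi_shift I a t u _ (hCiD _ (tt_mem hDE ht ht'))
  have hfsr : ∀ a, ∃ s : ℤ, (bar a = a → (s = 1 ∨ s = -1) ∧
      Twi (tauD hDE ht) ⟨t * t, tt_mem hDE ht ht'⟩ s (κ a)) ∧ (bar a ≠ a → s = 0) ∧
      (∑ g : G, I.ch a (g * g)) / (Nat.card G : ℂ) = s := by
    intro a
    by_cases hba : bar a = a
    · have hreal : ∀ g, I.ch a g⁻¹ = I.ch a g := by
        intro g
        have := hbar a (el ℂ g)
        rw [hba, inv'_el] at this
        exact this.symm
      obtain ⟨s, hs, hsum, htw⟩ := kappa_twi I D t (tauD hDE ht) (fun u => rfl)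
        ⟨t * t, tt_mem hDE ht ht'⟩ rfl (toC O G i) hCi hCiD
        (by
          have h := congrArg (toC O G) hiψ
          rw [psi_apply, map_mul, map_mul, toC_el, toC_el, toC_inv'] at h
          exact h) a hreal
      exact ⟨s, fun _ => ⟨hs, htw⟩, fun h => absurd hba h, hsum⟩
    · refine ⟨0, fun h => absurd h hba, fun _ => rfl, ?_⟩
      rw [fs_nonreal I bar hbar a hba, zero_div, Int.cast_zero]
  choose fs hfs using hfsr
  have hord : ∀ u : D, ∃ n : ℕ, orderOf (u : G) = 2 ^ n := fun u => orderOf_two hD2 u.2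
  have hiu : ∀ u : D, el O (u : G) * i = i * el O (u : G) := fun u => hiD u u.2
  have hnorm : ∀ u : D, ∃ n : ℕ, ∑ a, κ a u * κ a u⁻¹ = ((L u).m : ℂ) ^ 2 * (2 : ℂ) ^ n := by
    intro u
    obtain ⟨n, hn⟩ := loc_norm h2 hi (hord u) (hiu u) (L u) I
    refine ⟨n, ?_⟩
    rw [← hn]
    apply Finset.sum_congr rfl
    intro a _
    rw [hκO, hκO]
    rfl
  choose c hc using hnorm
  have hsumsq : ∑ a, (d a) ^ 2 = Nat.card D := by
    have : ((∑ a, (d a) ^ 2 : ℕ) : ℂ) = Nat.card D := by
      rw [← hcD]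
      push_cast
      apply Finset.sum_congr rfl
      intro a _
      rw [hd]
    exact_mod_cast this
  have hmodd : Odd m₁ := by
    rw [← Nat.not_even_iff_odd]
    intro hev
    apply hlam
    rw [SimpleQuot.lam_apply, trace_eq_rank', ← hm₁]
    · exact (CharP.cast_eq_zero_iff (resK O) 2 m₁).mpr hev.two_dvd
    · rw [← map_mul, ← map_mul, hi]
  obtain ⟨nD, hnD⟩ := IsPGroup.iff_card.mp hD2
  refine ⟨{
    κ := κ
    d := d
    bar := bar
    fs := fs
    m := fun u => if u = 1 then m₁ else (L u).m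
    c := fun u => if u = 1 then Nat.card D else 2 ^ c u
    isChar := fun a => kappa_char I D (toC O G i) hCi hCiD a
    orth := ?_
    norm := ?_
    cpow := ?_
    integral := ?_
    kone := ?_
    modd := ?_
    sumsq := hsumsq
    bar_bar := hbb
    bar_d := hbd
    bar_κ := hbarκ
    fs_real := fun a ha => (hfs a).1 ha
    fs_nonreal := fun a ha => (hfs a).2.1 ha }, ?_, ?_⟩
  · intro u v huv
    have h1 := loc_orth h2 hi (hord u) (hord v) (hiu u) (hiu v) (L u) (L v) I (by
      intro g hg hgb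
      obtain ⟨y, hy, hyu⟩ := hfus u v g hg hgb
      apply huv
      rw [isConj_iff]
      exact ⟨⟨y, hy⟩, Subtype.ext hyu⟩)
    rw [← h1]
    apply Finset.sum_congr rfl
    intro a _
    rw [hκO, hκO]
    rfl
  · intro u
    by_cases hu : u = 1
    · subst hu
      simp only [if_true, inv_one]
      rw [← hsumsq]
      push_cast
      rw [Finset.mul_sum]
      apply Finset.sum_congr rfl
      intro a _
      rw [hκ1]; ring
    · simp only [hu, if_false]
      rw [hc u]
      push_cast
      rfl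
  · intro u
    by_cases hu : u = 1
    · simp only [hu, if_true]; exact ⟨nD, hnD⟩
    · simp only [hu, if_false]; exact ⟨c u, rfl⟩
  · intro a u
    by_cases hu : u = 1
    · subst hu
      refine ⟨d a, ?_, ?_⟩
      · exact isIntegral_algebraMap (R := ℤ) (A := ℂ) (x := (d a : ℤ))
      · simp only [if_true]; exact hκ1 a
    · refine ⟨I.chi a (toC O G (el O (u : G) * incl O _ (L u).j)), ?_, ?_⟩
      · rw [map_mul, toC_el, toC_incl]
        apply kappa_integral I (incl ℂ _ (toC O _ (L u).j)) _ (u : G)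
        · exact incl_cent_comm _ _
        · rw [← map_mul, ← map_mul, (L u).hj]
      · simp only [hu, if_false]
        rw [hκO]
        exact (loc_trace h2 hi (hord u) (hiu u) (L u) I a).1
  · intro a
    simp only [if_true]
    exact hκ1 a
  · simp only [if_true]
    exact hmodd
  · exact hd
  · intro a; exact (hfs a).2.2

end Pool.Agent.Helper36.NB
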