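import Mathlib
import Pool.Agent.Helper36.NB.Asm6

open scoped BigOperators MonoidAlgebra
open Classical

set_option linter.unusedSectionVars false

namespace Pool.Agent.Helper36.NB

variable {O : ValuationSubring ℂ} {G : Type} [Group G] [Fintype G]

/-- Trace of an endomorphism of `ℂ[G]`. -/
theorem trace_end (T : MonoidAlgebra ℂ G →ₗ[ℂ] MonoidAlgebra ℂ G) :
    LinearMap.trace ℂ (MonoidAlgebra ℂ G) T = ∑ g : G, (T (el ℂ g)).coeff g := by
  rw [LinearMap.trace_eq_matrix_trace ℂ (MonoidAlgebra.basis G ℂ) T]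
  unfold Matrix.trace
  apply Finset.sum_congr rfl
  intro g _
  rw [Matrix.diag_apply, LinearMap.toMatrix_apply]
  rfl

theorem pim_eq (j : MonoidAlgebra O G) (I : IrrData G) (g : G) :
    pim O j g = ∑ a, I.ch a g * I.chi a (toC O G j) := by
  unfold pim
  rw [trace_end]
  calc ∑ h : G, (((LinearMap.mulLeft ℂ (el ℂ g)).comp
        (LinearMap.mulRight ℂ (toC O G j))) (el ℂ h)).coeff h
      = ∑ h : G, (el ℂ g * el ℂ h * toC O G j).coeff h := by
        apply Finset.sum_congr rfl
        intro h _
        simp only [LinearMap.comp_apply, LinearMap.mulLeft_apply, LinearMap.mulRight_apply,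
          mul_assoc]
    _ = _ := (sum_chi_mul I (el ℂ g) (toC O G j)).symm

theorem sum_ext {x : G} {D E : Subgroup G} (h : IsDefectPair x D E) {t : G}
    (ht : t ∈ E) (ht' : t ∉ D) (f : G → ℂ) :
    ∑ y ∈ Finset.univ.filter (fun y : G => y ∈ E ∧ y ∉ D), f y = ∑ u : D, f (t * u) := by
  symm
  apply Finset.sum_bij (fun (u : D) _ => t * (u : G))
  · intro u _
    simp only [Finset.mem_filter, Finset.mem_univ, true_and]
    refine ⟨E.mul_mem ht (h.1 u.2), fun hc => ht' ?_⟩
    have := D.mul_mem hc (D.inv_mem u.2)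
    simpa using this
  · intro u _ v _ huv
    exact Subtype.ext (mul_left_cancel huv)
  · intro y hy
    simp only [Finset.mem_filter, Finset.mem_univ, true_and] at hy
    exact ⟨⟨t⁻¹ * y, t_mul_mem h ht ht' hy.1 hy.2⟩, Finset.mem_univ _, by simp⟩
  · intro u _; rfl

theorem extIndicator_eq {x : G} {D E : Subgroup G} (h : IsDefectPair x D E) {t : G}
    (ht : t ∈ E) (ht' : t ∉ D) (η : D → ℂ) :
    extIndicator D E η = (∑ u : D, η (⟨t * t, tt_mem h ht ht'⟩ * tauD h ht u * u)) /
      (Nat.card D : ℂ) := by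
  unfold extIndicator
  rw [sum_ext h ht ht']
  congr 1
  apply Finset.sum_congr rfl
  intro u _
  have h1 : t * (u : G) * (t * (u : G)) =
      ((⟨t * t, tt_mem h ht ht'⟩ * tauD h ht u * u : D) : G) := by
    change t * (u : G) * (t * (u : G)) = t * t * (t⁻¹ * u * t) * u
    group
  rw [dif_pos (by rw [h1]; exact Subtype.property _)]
  congr 1
  exact Subtype.ext h1

theorem sum_d_ch {N : Type} [Group N] [Fintype N] (J : IrrData N) (y : N) :
    ∑ b, (J.d b : ℂ) * J.ch b y = if y = 1 then (Nat.card N : ℂ) else 0 := by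
  have h := sum_chi_mul J 1 (el ℂ y)
  have h1 : ∑ b, (J.d b : ℂ) * J.ch b y = ∑ b, J.chi b 1 * J.chi b (el ℂ y) := by
    apply Finset.sum_congr rfl
    intro b _
    rw [chi_one]; rfl
  rw [h1, h]
  by_cases hy : y = 1
  · subst hy
    rw [if_pos rfl]
    have : ∀ g : N, (1 * el ℂ g * el ℂ (1 : N)).coeff g = 1 := by
      intro g
      rw [one_mul, el_one, mul_one, el_coeff, if_pos rfl]
    simp only [this]
    simp [Nat.card_eq_fintype_card]
  · rw [if_neg hy]
    apply Finset.sum_eq_zero
    intro g _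
    rw [one_mul, ← el_mul, el_coeff, if_neg]
    intro h
    exact hy (by simpa using h)

/-- The main theorem. -/
theorem block_main (O : ValuationSubring ℂ) (h2 : (2 : O) ∈ IsLocalRing.maximalIdeal O)
    {G : Type} [Group G] [Fintype G] (e : MonoidAlgebra O G) (he : IsBlock e)
    (her : inv' e = e) (x : G) (hx : IsDefectClass O e x) (D E : Subgroup G)
    (hDE : IsDefectPair x D E) (hne : D ≠ E)
    (hnil : NilpotentElements D (toK O G e)) (I : IrrData G) (J : IrrData D) :
    (∃ (n : ℕ) (Γ : Fin J.r ≃ {a : Fin I.r // I.equiv (toC O G e) a ≠ 0}),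
      n.factorization 2 + (Nat.card D).factorization 2 = (Nat.card G).factorization 2 ∧
      ∀ b, I.d (Γ b) = n * J.d b ∧
        (∑ g, I.ch (Γ b) (g * g)) / (Nat.card G : ℂ) = extIndicator D E (J.ch b)) ∧
    (∀ j : MonoidAlgebra O G, IsPrimitiveIdem j → j * e = j →
      (∑ g, pim O j (g * g)) / (Nat.card G : ℂ) =
        Nat.card {y : G // y ∈ E ∧ y ∉ D ∧ y * y = 1}) := by
  have hchar : CharP (resK O) 2 := resK_charP O h2
  have halg : IsAlgClosed (resK O) := resK_isAlgClosed O
  obtain ⟨he0, hee, hec, -⟩ := he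
  have hē0 : toK O G e ≠ 0 := by
    intro h
    have := hx.2.1
    rw [← toK_apply, h] at this
    exact this rfl
  obtain ⟨S⟩ := simpleQuot_of_oneSimple (toK O G e) hē0 (toK_idem hee)
    (fun a => toK_central hec a) hnil.simple
  obtain ⟨t, ht, ht'⟩ := exists_t hDE hne
  obtain ⟨ī, hī, hīe, hīD, hīψ, hīl, hīH⟩ := exists_ibar O h2 e hee hec her hx hDE S t ht ht'
  have hD2 : IsPGroup 2 D := IsPGroup.of_card hDE.2.2.2.1
  obtain ⟨hloc, hfus⟩ := local_blocks D (toK O G e) S ī hī hīe hīD hīl hD2 hīH hnil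
  -- lift to `O`
  obtain ⟨i, hiī, hi, hie, hσ⟩ := lift_sym O e hee hec ī hī hīe
  have hconjbij : ∀ u : G, Function.Bijective (fun h : G => u * h * u⁻¹) := by
    intro u
    refine ⟨fun x y hxy => ?_, fun y => ⟨u⁻¹ * y * u, by simp [mul_assoc]⟩⟩
    simpa using hxy
  have hiD : Cen D i := by
    intro u hu
    rw [comm_iff_conj, conj_eq_mapDomain]
    apply hσ _ (hconjbij u)
    · left; intro x y; group
    · rw [← conj_eq_mapDomain, ← comm_iff_conj, hec]
    · rw [← conj_eq_mapDomain, ← comm_iff_conj]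
      exact hīD u hu
  have hiψ : psi t i = i := by
    rw [psi_apply, psi_eq_mapDomain]
    apply hσ
    · refine ⟨fun x y hxy => ?_, fun y => ⟨(t⁻¹ * y * t)⁻¹, by simp [mul_assoc]⟩⟩
      simpa using hxy
    · right; intro x y; group
    · rw [← psi_eq_mapDomain, her, hec, mul_assoc, el_mul_el_inv, mul_one]
    · rw [← psi_eq_mapDomain, ← psi_apply]
      exact hīψ
  subst hiī
  have hL : ∀ u : D, Nonempty (Loc O i (u : G)) := by
    intro u
    obtain ⟨b, hb, hib, hone⟩ := hloc u u.2
    exact exists_loc O i u b hb hib hone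
  let L : ∀ u : D, Loc O i (u : G) := fun u => (hL u).some
  obtain ⟨j, hj, hje, hj1⟩ := exists_rank_one O e hee hec S
  have htx := defectPair_t hDE ht ht'
  have hxr : IsConj x x⁻¹ := isConj_iff.mpr ⟨t, htx⟩
  obtain ⟨hcD, -, hn2⟩ := defect_data O h2 I e hee hec S j hj hje hj1 x hx.1 hxr hx.2.1 hx.2.2
    D hDE.2.2.2.1
  obtain ⟨X, hXd, hXfs⟩ := exists_countData h2 e hee hec her hx hDE S t ht ht' j hj hje hj1 i
    hi hie hiD hiψ hīl L (by
      intro u v g hg hgb
      exact hfus u u.2 v v.2 _ _ (L u).blk (L v).blk (L u).hib (L v).hib g hg hgb) I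
  have hτ2 : ∀ u : D, tauD hDE ht (tauD hDE ht u) =
      (⟨t * t, tt_mem hDE ht ht'⟩ : D)⁻¹ * u * ⟨t * t, tt_mem hDE ht ht'⟩ := by
    intro u
    apply Subtype.ext
    change t⁻¹ * (t⁻¹ * u * t) * t = (t * t)⁻¹ * u * (t * t)
    group
  have hτz : tauD hDE ht ⟨t * t, tt_mem hDE ht ht'⟩ = ⟨t * t, tt_mem hDE ht ht'⟩ := by
    apply Subtype.ext
    change t⁻¹ * (t * t) * t = t * t
    group
  obtain ⟨Γ, hinj, hsurj, hΓd, hΓfs⟩ := count_final hD2 (tauD hDE ht)
    ⟨t * t, tt_mem hDE ht ht'⟩ hτ2 hτz X J O h2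
  have hce : ∀ a, I.chi a (toC O G e) = S.n * X.d a := by
    intro a
    have := trace_rank O e hee hec S j hj hje hj1 e hee hee (TraceFun.ofChi O I a)
    simp only [TraceFun.ofChi_apply] at this
    rw [this, S.one, Matrix.rank_one, Fintype.card_fin, hXd]
  have hn0 : (S.n : ℂ) ≠ 0 := by exact_mod_cast S.pos.ne'
  have hIe : ∀ a, I.equiv (toC O G e) a ≠ 0 ↔ X.d a ≠ 0 := by
    intro a
    rcases chi_central I a (toC O G e) (toC_idem hee) (toC_central hec) with h | h
    · have h1 : I.chi a (toC O G e) = 0 := by rw [IrrData.chi, h, Matrix.trace_zero]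
      rw [hce] at h1
      have h3 : (X.d a : ℂ) = 0 := by
        rcases mul_eq_zero.mp h1 with h4 | h4
        · exact absurd h4 hn0
        · exact h4
      have h4 : X.d a = 0 := by exact_mod_cast h3
      simp [h, h4]
    · have h1 : I.chi a (toC O G e) = I.d a := by
        rw [IrrData.chi, h, Matrix.trace_one, Fintype.card_fin]
      have h3 : X.d a ≠ 0 := by
        intro h4
        rw [hce, h4] at h1
        have h5 : (I.d a : ℂ) = 0 := by rw [← h1]; simp
        exact (I.pos a).ne' (by exact_mod_cast h5)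
      have h5 : (1 : Matrix (Fin (I.d a)) (Fin (I.d a)) ℂ) ≠ 0 := by
        intro h6
        have := congrArg Matrix.trace h6
        rw [Matrix.trace_one, Fintype.card_fin, Matrix.trace_zero] at this
        exact (I.pos a).ne' (by exact_mod_cast this)
      simp [h, h3, h5]
  have hId : ∀ a, X.d a ≠ 0 → I.d a = S.n * X.d a := by
    intro a ha
    rcases chi_central I a (toC O G e) (toC_idem hee) (toC_central hec) with h | h
    · exact absurd h ((hIe a).mpr ha)
    · have h1 : I.chi a (toC O G e) = I.d a := by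
        rw [IrrData.chi, h, Matrix.trace_one, Fintype.card_fin]
      rw [hce] at h1
      exact_mod_cast h1.symm
  have hJd : ∀ b, X.d (Γ b) ≠ 0 := fun b => by rw [hΓd]; exact (J.pos b).ne'
  have hfsJ : ∀ b, (∑ g, I.ch (Γ b) (g * g)) / (Nat.card G : ℂ) = extIndicator D E (J.ch b) := by
    intro b
    rw [hXfs, hΓfs, extIndicator_eq hDE ht ht']
  refine ⟨⟨S.n, Equiv.ofBijective (fun b => ⟨Γ b, (hIe _).mpr (hJd b)⟩) ⟨?_, ?_⟩, hn2, ?_⟩, ?_⟩
  · intro b b' hbb
    exact hinj (by simpa using congrArg Subtype.val hbb)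
  · rintro ⟨a, ha⟩
    obtain ⟨b, hb⟩ := hsurj a ((hIe a).mp ha)
    exact ⟨b, Subtype.ext hb⟩
  · intro b
    refine ⟨?_, hfsJ b⟩
    change I.d (Γ b) = _
    rw [hId _ (hJd b), hΓd]
  · intro j' hj' hj'e
    have hj'1 := prim_rank O e hee hec S j' hj'.2.1 hj'e hj'.1 hj'.2.2
    have hchi : ∀ a, I.chi a (toC O G j') = X.d a := by
      intro a
      have := trace_rank O e hee hec S j hj hje hj1 j' hj'.2.1 hj'e (TraceFun.ofChi O I a)
      simp only [TraceFun.ofChi_apply] at this
      rw [this, hj'1, Nat.cast_one, one_mul, hXd]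
    calc (∑ g, pim O j' (g * g)) / (Nat.card G : ℂ)
        = (∑ g, ∑ a, I.ch a (g * g) * X.d a) / (Nat.card G : ℂ) := by
          congr 1
          apply Finset.sum_congr rfl
          intro g _
          rw [pim_eq j' I]
          apply Finset.sum_congr rfl
          intro a _
          rw [hchi]
      _ = ∑ a, (X.d a : ℂ) * X.fs a := by
          rw [Finset.sum_comm, Finset.sum_div]
          apply Finset.sum_congr rfl
          intro a _
          rw [← hXfs, ← Finset.sum_mul]; ring
      _ = ∑ b, (X.d (Γ b) : ℂ) * X.fs (Γ b) := by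
          symm
          rw [← Finset.sum_image (f := fun a => (X.d a : ℂ) * X.fs a)
            (fun x _ y _ h => hinj h)]
          apply Finset.sum_subset (Finset.subset_univ _)
          intro a _ ha
          have : X.d a = 0 := by
            by_contra hne
            obtain ⟨b, hb⟩ := hsurj a hne
            apply ha
            rw [Finset.mem_image]
            exact ⟨b, Finset.mem_univ _, hb⟩
          rw [this]; simp
      _ = ∑ b, (J.d b : ℂ) * ((∑ u : D, J.ch b
            (⟨t * t, tt_mem hDE ht ht'⟩ * tauD hDE ht u * u)) / (Nat.card D : ℂ)) := by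
          apply Finset.sum_congr rfl
          intro b _
          rw [hΓd, hΓfs]
      _ = (∑ u : D, ∑ b, (J.d b : ℂ) * J.ch b
            (⟨t * t, tt_mem hDE ht ht'⟩ * tauD hDE ht u * u)) / (Nat.card D : ℂ) := by
          rw [Finset.sum_comm, Finset.sum_div]
          apply Finset.sum_congr rfl
          intro b _
          rw [← Finset.mul_sum, mul_div_assoc]
      _ = ∑ u : D, if ((⟨t * t, tt_mem hDE ht ht'⟩ * tauD hDE ht u * u : D) = 1)
            then (1 : ℂ) else 0 := by
          rw [Finset.sum_div]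
          apply Finset.sum_congr rfl
          intro u _
          rw [sum_d_ch]
          have hc0 : (Nat.card D : ℂ) ≠ 0 := by exact_mod_cast Nat.card_pos.ne'
          split_ifs with h
          · exact div_self hc0
          · simp
      _ = ∑ u : D, (fun y : G => if y * y = 1 then (1 : ℂ) else 0) (t * u) := by
          apply Finset.sum_congr rfl
          intro u _
          have h1 : t * (u : G) * (t * (u : G)) =
              ((⟨t * t, tt_mem hDE ht ht'⟩ * tauD hDE ht u * u : D) : G) := by
            change t * (u : G) * (t * (u : G)) = t * t * (t⁻¹ * u * t) * u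
            group
          simp only
          rw [h1]
          congr 1
          rw [← Subgroup.coe_one D, Subtype.coe_inj]
      _ = ∑ y ∈ Finset.univ.filter (fun y : G => y ∈ E ∧ y ∉ D),
            (fun y : G => if y * y = 1 then (1 : ℂ) else 0) y :=
          (sum_ext hDE ht ht' (fun y : G => if y * y = 1 then (1 : ℂ) else 0)).symm
      _ = Nat.card {y : G // y ∈ E ∧ y ∉ D ∧ y * y = 1} := by
          simp only
          rw [Finset.sum_ite, Finset.sum_const_zero, add_zero, Finset.sum_const, nsmul_eq_mul,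
            mul_one, Finset.filter_filter, Nat.card_eq_fintype_card, Fintype.card_subtype]
          congr 2
          ext y
          simp only [Finset.mem_filter, Finset.mem_univ, true_and, and_assoc]

end Pool.Agent.Helper36.NB
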